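import Pool.Agent.H85.OU.UM

/-!
# Row MB (project OU): Serre derivative and q-expansion of the derivative

`D = Derivative.normalizedDerivOfComplex`, `serreDerivative` (Mathlib `NumberTheory/ModularForms/Derivative.lean`).
* `bdd_D`: `f` holomorphic on `ℍ` and bounded (`≤ M`) for `im τ ≥ A`: for `im τ ≥ A + 1` Cauchy's estimate on the disc of radius `1` around `τ` gives `‖f'(τ)‖ ≤ M`
  (`Complex.norm_deriv_le_of_forall_mem_sphere_norm_le`); so `D f` is bounded at `i∞`.
* `IsMF.serre`: holomorphic: `serreDerivative_mdifferentiable`; invariance: `serreDerivative_slash_invariant`; bounded at cusps: `serreDerivative_slash_equivariant`, `f ∣[j] γ` is holomorphic and bounded at `i∞`, `bdd_D`,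
  and `E2` is bounded (`EisensteinSeries.isBoundedAtImInfty_E2`).
* `QE.D`: `f(τ) = Φ(q)`, `Φ(w) = ∑ F_n w^n` converges absolutely for `‖w‖ < 1` (every `0 < ‖w‖ < 1` is `exp(2π i τ)`), so `Φ` is holomorphic in the unit disc with `Φ'(w) = ∑ n F_n w^(n-1)` (absolutely convergent); chain rule:
  `D f(τ) = (2π i)⁻¹ (2π i q) Φ'(q) = ∑ n F_n q^n`; `coeff_Dq`.
* `QE_E2`: `EisensteinSeries.hasSum_qExpansion_E2`; absolute convergence as before.
-/

open PowerSeries UpperHalfPlane ModularForm MatrixGroups CongruenceSubgroup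
open scoped Manifold ArithmeticFunction.sigma

namespace Pool.Agent.H85.OU

open Pool.Agent.H85.OT

theorem bdd_D {f : ℍ → ℂ} (hf : MDifferentiable 𝓘(ℂ) 𝓘(ℂ) f) (hb : IsBoundedAtImInfty f) :
    IsBoundedAtImInfty (Derivative.normalizedDerivOfComplex f) := by
  rw [isBoundedAtImInfty_iff] at hb ⊢
  obtain ⟨M, A, hM⟩ := hb
  refine ⟨‖(2 * Real.pi * Complex.I : ℂ)⁻¹‖ * M, max A 0 + 2, fun z hz => ?_⟩
  have hd := (UpperHalfPlane.mdifferentiable_iff.1 hf)
  have hA : A ≤ max A 0 := le_max_left _ _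
  have h0 : 0 ≤ max A 0 := le_max_right _ _
  have hw : ∀ w ∈ Metric.closedBall (z : ℂ) 1, max A 0 + 1 ≤ w.im := by
    intro w hw
    rw [Metric.mem_closedBall, dist_eq_norm] at hw
    have h1 := (Complex.abs_im_le_norm (w - z)).trans hw
    rw [Complex.sub_im, abs_le] at h1
    have h2 : (z : ℂ).im = z.im := rfl
    rw [h2] at h1
    linarith [h1.1]
  have hsub : Metric.closedBall (z : ℂ) 1 ⊆ upperHalfPlaneSet := by
    intro w hw'
    have := hw w hw'
    change 0 < w.im
    linarith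
  have hcauchy := Complex.norm_deriv_le_of_forall_mem_sphere_norm_le (c := (z : ℂ)) (R := 1)
    (C := M) one_pos (hd.diffContOnCl_ball hsub) (by
      intro w hw'
      have h1 := hw w (Metric.sphere_subset_closedBall hw')
      have h2 : 0 < w.im := by linarith
      rw [Function.comp_apply, ofComplex_apply_of_im_pos h2]
      refine hM _ ?_
      change A ≤ w.im
      linarith)
  rw [div_one] at hcauchy
  unfold Derivative.normalizedDerivOfComplex
  rw [norm_mul]
  exact mul_le_mul_of_nonneg_left hcauchy (norm_nonneg _)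

theorem IsMF.serre {Γ : Subgroup SL(2, ℤ)} {j : ℤ} {f : ℍ → ℂ} (hf : IsMF Γ j f) :
    IsMF Γ (j + 2) (Derivative.serreDerivative j f) := by
  obtain ⟨h1, h2, h3⟩ := hf
  refine ⟨Derivative.serreDerivative_mdifferentiable _ h1,
    fun γ hγ => Derivative.serreDerivative_slash_invariant h1 (h2 γ hγ), fun γ => ?_⟩
  rw [Derivative.serreDerivative_slash_equivariant h1]
  have h4 : MDifferentiable 𝓘(ℂ) 𝓘(ℂ) (f ∣[j] γ) := MDifferentiable.slash h1 j _
  have h5 := bdd_D h4 (h3 γ)
  have h6 : Derivative.serreDerivative j (f ∣[j] γ) =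
      Derivative.normalizedDerivOfComplex (f ∣[j] γ) +
        (-((j : ℂ) * 12⁻¹)) • (EisensteinSeries.E2 * (f ∣[j] γ)) := by
    funext z
    simp only [Derivative.serreDerivative_apply, Pi.add_apply, Pi.smul_apply, Pi.mul_apply,
      smul_eq_mul]
    ring
  rw [h6]
  exact h5.add (Filter.BoundedAtFilter.smul _
    (EisensteinSeries.isBoundedAtImInfty_E2.mul (h3 γ)))

theorem Mb_Cv {F : ℂ⟦X⟧} {q s : ℂ} (h : HasSum (fun n => PowerSeries.coeff n F * q ^ n) s) :
    Cv F q s := ⟨h.summable.norm, h⟩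

theorem QE.D {f : ℍ → ℂ} {F : ℂ⟦X⟧} (hf : QE f F) :
    QE (Derivative.normalizedDerivOfComplex f) (Dq ℂ F) := by
  intro τ
  apply Mb_Cv
  obtain ⟨y, hy⟩ : ∃ y : ℝ, y = (τ : ℂ).im / 2 := ⟨_, rfl⟩
  have hτ : 0 < (τ : ℂ).im := τ.im_pos
  have hy0 : 0 < y := by rw [hy]; positivity
  -- the open set
  obtain ⟨S, hS⟩ : ∃ S : Set ℂ, S = {w : ℂ | y < w.im} := ⟨_, rfl⟩
  have hSo : IsOpen S := by
    rw [hS]
    exact isOpen_lt continuous_const Complex.continuous_im
  have hτS : (τ : ℂ) ∈ S := by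
    rw [hS]
    change y < (τ : ℂ).im
    rw [hy]
    linarith
  obtain ⟨τ', hτ'⟩ : ∃ τ' : ℍ, (τ' : ℂ) = y * Complex.I := by
    refine ⟨⟨y * Complex.I, ?_⟩, rfl⟩
    simp [hy0]
  have hnorm : ∀ w : ℂ, ‖Complex.exp (2 * Real.pi * Complex.I * w)‖ =
      Real.exp (-(2 * Real.pi * w.im)) := by
    intro w
    rw [Complex.norm_exp]
    congr 1
    simp [Complex.mul_re, Complex.mul_im]
  have hu : Summable (fun n => ‖PowerSeries.coeff n F‖ * Real.exp (-(2 * Real.pi * y)) ^ n) := by
    have h1 := (hf τ').1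
    refine h1.congr fun n => ?_
    rw [norm_mul, norm_pow, hnorm, hτ']
    simp
  have hdiff : ∀ n : ℕ, ∀ w : ℂ, HasDerivAt
      (fun w : ℂ => PowerSeries.coeff n F * Complex.exp (2 * Real.pi * Complex.I * w) ^ n)
      (2 * Real.pi * Complex.I * (PowerSeries.coeff n (Dq ℂ F) *
        Complex.exp (2 * Real.pi * Complex.I * w) ^ n)) w := by
    intro n w
    have h1 : HasDerivAt (fun w : ℂ => Complex.exp (2 * Real.pi * Complex.I * w) ^ n)
        (Complex.exp (2 * Real.pi * Complex.I * w) ^ n * (n * (2 * Real.pi * Complex.I))) w := by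
      have h2 : (fun w : ℂ => Complex.exp (2 * Real.pi * Complex.I * w) ^ n) =
          fun w : ℂ => Complex.exp ((n * (2 * Real.pi * Complex.I)) * w) := by
        funext w
        rw [← Complex.exp_nat_mul]
        congr 1
        ring
      rw [h2]
      have h3 : Complex.exp (2 * Real.pi * Complex.I * w) ^ n =
          Complex.exp ((n * (2 * Real.pi * Complex.I)) * w) := congrFun h2 w
      rw [h3]
      have h4 := ((hasDerivAt_id w).const_mul (n * (2 * Real.pi * Complex.I) : ℂ)).cexp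
      simpa using h4
    have h5 := h1.const_mul (PowerSeries.coeff n F)
    refine h5.congr_deriv ?_
    rw [coeff_Dq]
    ring
  have hmain := Complex.hasSum_deriv_of_summable_norm
    (F := fun (n : ℕ) (w : ℂ) =>
      PowerSeries.coeff n F * Complex.exp (2 * Real.pi * Complex.I * w) ^ n) hu
    (fun n => fun w _ => (hdiff n w).differentiableAt.differentiableWithinAt) hSo
    (by
      intro n w hw
      rw [norm_mul, norm_pow, hnorm]
      have hw' : y < w.im := by rw [hS] at hw; exact hw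
      gcongr) hτS
  have hder : deriv (fun w : ℂ => ∑' n : ℕ,
      PowerSeries.coeff n F * Complex.exp (2 * Real.pi * Complex.I * w) ^ n) (τ : ℂ) =
      deriv (f ∘ ofComplex) (τ : ℂ) := by
    apply Filter.EventuallyEq.deriv_eq
    filter_upwards [hSo.mem_nhds hτS] with w hw
    have hw' : 0 < w.im := by
      rw [hS] at hw
      exact hy0.trans hw
    rw [Function.comp_apply, ofComplex_apply_of_im_pos hw']
    exact (hf ⟨w, hw'⟩).2.tsum_eq
  rw [hder] at hmain
  have h7 := hmain.mul_left (2 * Real.pi * Complex.I : ℂ)⁻¹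
  have h8 : (fun n : ℕ => (2 * Real.pi * Complex.I : ℂ)⁻¹ * deriv (fun w : ℂ =>
      PowerSeries.coeff n F * Complex.exp (2 * Real.pi * Complex.I * w) ^ n) (τ : ℂ)) =
      fun n => PowerSeries.coeff n (Dq ℂ F) * Complex.exp (2 * Real.pi * Complex.I * τ) ^ n := by
    funext n
    rw [(hdiff n τ).deriv, inv_mul_cancel_left₀ Complex.two_pi_I_ne_zero]
  rw [h8] at h7
  exact h7

/-- q-expansion of `E₂` -/
noncomputable def E2s : ℂ⟦X⟧ :=
  PowerSeries.mk fun m => if m = 0 then 1 else -24 * (σ 1 m : ℂ)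

theorem QE_E2 : QE EisensteinSeries.E2 E2s := by
  intro τ
  apply Mb_Cv
  have h := EisensteinSeries.hasSum_qExpansion_E2 (z := τ)
  refine h.congr_fun ?_
  intro n
  rw [E2s, PowerSeries.coeff_mk, smul_eq_mul]

/-- q-expansion of the Serre derivative -/
theorem QE.serre {f : ℍ → ℂ} {F : ℂ⟦X⟧} (hf : QE f F) (j : ℤ) :
    QE (Derivative.serreDerivative j f) (Dq ℂ F - PowerSeries.C ((j : ℂ) / 12) * E2s * F) := by
  intro τ
  have a1 : Cv (Dq ℂ F) (Complex.exp (2 * Real.pi * Complex.I * (τ : ℂ)))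
      (Derivative.normalizedDerivOfComplex f τ) := QE.D hf τ
  have a2 : Cv E2s (Complex.exp (2 * Real.pi * Complex.I * (τ : ℂ)))
      (EisensteinSeries.E2 τ) := QE_E2 τ
  have a3 := (a2.smul ((j : ℂ) / 12)).mul (hf τ)
  have a4 := a1.add (a3.smul (-1))
  have h1 : Cv (Dq ℂ F - PowerSeries.C ((j : ℂ) / 12) * E2s * F)
      (Complex.exp (2 * Real.pi * Complex.I * (τ : ℂ)))
      (Derivative.normalizedDerivOfComplex f τ - (j : ℂ) / 12 * EisensteinSeries.E2 τ * f τ) := by
    have e : Dq ℂ F + PowerSeries.C (-1 : ℂ) * (PowerSeries.C ((j : ℂ) / 12) * E2s * F) =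
        Dq ℂ F - PowerSeries.C ((j : ℂ) / 12) * E2s * F := by
      rw [map_neg, map_one]
      ring
    have e2 : Derivative.normalizedDerivOfComplex f τ +
        (-1) * ((j : ℂ) / 12 * EisensteinSeries.E2 τ * f τ) =
        Derivative.normalizedDerivOfComplex f τ - (j : ℂ) / 12 * EisensteinSeries.E2 τ * f τ := by
      ring
    rw [← e, ← e2]
    exact a4
  rw [Derivative.serreDerivative_apply]
  have h2 : (j : ℂ) * 12⁻¹ * EisensteinSeries.E2 τ * f τ =
      (j : ℂ) / 12 * EisensteinSeries.E2 τ * f τ := by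
    rw [div_eq_mul_inv]
  rw [h2]
  exact h1

end Pool.Agent.H85.OU
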