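import Pool.Agent.H85.OU.Ma

/-!
# Row MD (project OU): the form `u = θ(2τ)²` of weight one, and forms on `Γ₀(4)`

* `QE_uu`: `cv_th3` at `2τ` (`exp(π i 2τ) = q`), squared; `U ℂ` is the image of `th3²`.
* `isMF_ga`, `isMF_gb`: from `exists_ga`, `exists_gb` (`OT/Wb.lean`): `TA(2τ) = θ(2τ)^4 = uu²`; q-expansions `tR ℂ (th3^4)`, `tR ℂ (th4^4)` (`cv_th3`, `cv_th4`, `Cv.pow`).
* `exists_Gu`: for `γ ∈ Γ₀(4)`: `(uu ∣[1] γ)² = uu² ∣[2] γ = uu²` (`mul_slash_SL2`), so `(uu∣γ - uu)(uu∣γ + uu) = 0`; both factors are holomorphic on the connected set `ℍ`, so one of them vanishes identically (identity theorem,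
  e.g. `AnalyticOnNhd.eq_zero_or_eq_zero_of_mul_eq_zero` for the functions on `{im > 0}`): `uu ∣[1] γ = ± uu`.  `Γu = {γ ∈ Γ₀(4) : uu ∣[1] γ = uu}` is a subgroup; if `γ, γ' ∈ Γ₀(4) \ Γu` then
  `uu∣γγ' = uu`, so `Γu` has index `≤ 2` in `Γ₀(4)`, hence finite index (`Gamma0 4` has finite index).  `T ∈ Γu`: `θ(2τ+2) = θ(2τ)` (`jacobiTheta_two_add`).
  Bounded: `‖uu∣γ‖² = ‖uu²∣γ‖` is bounded.  Holomorphic: `differentiableAt_jacobiTheta`.
* `form_G04`: `IsMF.exists_modularForm` gives a modular form on `G04`; `isFormR_of_qExpansion` (`OT/We.lean`) with `R = ℂ`, `ρ = RingHom.id ℂ`: `M F = ∑ c_j (th3^4)^(w-j) (th4^4)^j`; in `ℂ⟦X⟧`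
  `tR (th3^4) = U²`, `tR (th4^4) = V² = U² x² = U² (1 - λ)`; so `F = U^(2w) ∑ (c_j/M)(1-λ)^j`.  (`qExpansion 1 f = F` by `QE.unique` and `exists_QE`.)
-/

open PowerSeries UpperHalfPlane ModularForm MatrixGroups CongruenceSubgroup
open scoped Manifold

namespace Pool.Agent.H85.OU

open Pool.Agent.H85.OT

theorem QE_uu : QE uu (U ℂ) := by
  intro τ
  have h0 : 0 < (2 * (τ : ℂ)).im := by
    have : (2 * (τ : ℂ)).im = 2 * τ.im := by simp
    rw [this]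
    have := τ.im_pos
    linarith
  have h1 := (cv_th3 _ h0).pow 2
  have h2 : Complex.exp (Real.pi * Complex.I * (2 * (τ : ℂ))) = Complex.exp (2 * Real.pi * Complex.I * (τ : ℂ)) := by
    congr 1
    ring
  rw [h2] at h1
  have h3 : U ℂ = (PowerSeries.map (Int.castRingHom ℂ) th3) ^ 2 := by
    unfold U
    rw [map_pow]
  rw [h3]
  exact h1

theorem Md_tR3 : tR ℂ (th3 ^ 4) = U ℂ ^ 2 := by
  unfold U tR
  rw [← map_pow, ← pow_mul]

theorem Md_tR4 : tR ℂ (th4 ^ 4) = V ℂ ^ 2 := by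
  unfold V tR
  rw [← map_pow, ← pow_mul]

theorem isMF_ga : IsMF (Gamma0 4) 2 (uu ^ 2) ∧ QE (uu ^ 2) (tR ℂ (th3 ^ 4)) := by
  obtain ⟨g, hg, -⟩ := exists_ga
  have h1 : (g : ℍ → ℂ) = uu ^ 2 := by
    funext τ
    rw [hg]
    simp only [TA, uu, Pi.pow_apply]
    rw [← pow_mul]
  refine ⟨?_, ?_⟩
  · rw [← h1]
    exact IsMF.of_modularForm g
  · rw [Md_tR3]
    exact QE_uu.pow 2

theorem Md_T : ModularGroup.T ∈ Gamma0 4 := by
  rw [Gamma0_mem]
  simp [ModularGroup.coe_T]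

theorem exists_gb' : ∃ b : ℍ → ℂ, IsMF (Gamma0 4) 2 b ∧ QE b (tR ℂ (th4 ^ 4)) := by
  obtain ⟨g, -, hq⟩ := exists_gb
  have h1 : IsMF (Gamma0 4) 2 (g : ℍ → ℂ) := IsMF.of_modularForm g
  refine ⟨g, h1, ?_⟩
  have h2 := h1.exists_QE Md_T
  rwa [hq] at h2

theorem Md_hol : MDifferentiable 𝓘(ℂ) 𝓘(ℂ) uu := by
  rw [UpperHalfPlane.mdifferentiable_iff]
  refine .congr (f := fun z => jacobiTheta (2 * z) ^ 2) (fun z hz => ?_) fun z hz => ?_
  · have h1 : 0 < (2 * z).im := by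
      have : (2 * z).im = 2 * z.im := by simp
      rw [this]
      have hz' : 0 < z.im := hz
      linarith
    exact ((DifferentiableAt.comp (f := fun z : ℂ => 2 * z) (g := jacobiTheta) z
      (differentiableAt_jacobiTheta h1) (by fun_prop)).pow 2).differentiableWithinAt
  · simp [uu, ofComplex_apply_of_im_pos hz]

theorem Md_sq (γ : SL(2, ℤ)) : (uu ^ 2) ∣[(2 : ℤ)] γ = (uu ∣[(1 : ℤ)] γ) * (uu ∣[(1 : ℤ)] γ) := by
  have h1 := ModularForm.mul_slash_SL2 1 1 γ uu uu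
  rw [show (1 : ℤ) + 1 = 2 from rfl, ← pow_two uu] at h1
  exact h1

theorem Md_pm (γ : SL(2, ℤ)) (hγ : γ ∈ Gamma0 4) :
    uu ∣[(1 : ℤ)] γ = uu ∨ uu ∣[(1 : ℤ)] γ = -uu := by
  have h1 := isMF_ga.1.2.1 γ hγ
  rw [Md_sq] at h1
  have h2 : MDifferentiable 𝓘(ℂ) 𝓘(ℂ) (uu ∣[(1 : ℤ)] γ) := by
    rw [ModularForm.SL_slash]
    exact MDifferentiable.slash Md_hol 1 _
  have h3 : (uu ∣[(1 : ℤ)] γ - uu) * (uu ∣[(1 : ℤ)] γ + uu) = 0 := by
    have h4 : (uu ∣[(1 : ℤ)] γ - uu) * (uu ∣[(1 : ℤ)] γ + uu)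
        = (uu ∣[(1 : ℤ)] γ) * (uu ∣[(1 : ℤ)] γ) - uu ^ 2 := by ring
    rw [h4, h1, sub_self]
  rcases (UpperHalfPlane.mul_eq_zero_iff (h2.sub Md_hol) (h2.add Md_hol)).1 h3 with h | h
  · exact Or.inl (sub_eq_zero.1 h)
  · exact Or.inr (eq_neg_of_add_eq_zero_left h)

/-- the sign character of `uu` -/
noncomputable def Md_chi : (Gamma0 4) →* ℤˣ where
  toFun γ := by
    classical
    exact if uu ∣[(1 : ℤ)] (γ : SL(2, ℤ)) = uu then 1 else -1
  map_one' := by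
    classical
    rw [if_pos]
    rw [Subgroup.coe_one, SlashAction.slash_one]
  map_mul' := by
    classical
    intro γ γ'
    have e : uu ∣[(1 : ℤ)] ((γ * γ' : Gamma0 4) : SL(2, ℤ))
        = (uu ∣[(1 : ℤ)] (γ : SL(2, ℤ))) ∣[(1 : ℤ)] (γ' : SL(2, ℤ)) := by
      rw [Subgroup.coe_mul, SlashAction.slash_mul]
    rw [e]
    by_cases h1 : uu ∣[(1 : ℤ)] (γ : SL(2, ℤ)) = uu
    · rw [h1, if_pos rfl, one_mul]
    · have h2 : uu ∣[(1 : ℤ)] (γ : SL(2, ℤ)) = -uu := (Md_pm _ γ.2).resolve_left h1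
      have h3 : uu ≠ -uu := fun h => h1 (h2.trans h.symm)
      rw [if_neg h1, h2, SlashAction.neg_slash]
      by_cases h4 : uu ∣[(1 : ℤ)] (γ' : SL(2, ℤ)) = uu
      · rw [h4, if_neg (fun h => h3 h.symm), if_pos rfl, mul_one]
      · have h5 : uu ∣[(1 : ℤ)] (γ' : SL(2, ℤ)) = -uu := (Md_pm _ γ'.2).resolve_left h4
        rw [if_neg h4, h5, neg_neg, if_pos rfl]
        rfl

theorem Md_bdd (γ : SL(2, ℤ)) : IsBoundedAtImInfty (uu ∣[(1 : ℤ)] γ) := by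
  have h1 := isMF_ga.1.2.2 γ
  rw [Md_sq, isBoundedAtImInfty_iff] at h1
  rw [isBoundedAtImInfty_iff]
  obtain ⟨B, A, h⟩ := h1
  refine ⟨B + 1, A, fun z hz => ?_⟩
  have h2 := h z hz
  rw [Pi.mul_apply, norm_mul] at h2
  have h3 := norm_nonneg ((uu ∣[(1 : ℤ)] γ) z)
  nlinarith

theorem exists_Gu : ∃ Γu : Subgroup SL(2, ℤ), Γu.FiniteIndex ∧ Γu ≤ Gamma0 4 ∧
    ModularGroup.T ∈ Γu ∧ IsMF Γu 1 uu := by
  refine ⟨(Md_chi.ker).map (Gamma0 4).subtype, ?_, Subgroup.map_subtype_le _, ?_, ?_⟩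
  · have h1 : ((Md_chi.ker).map (Gamma0 4).subtype).relIndex (Gamma0 4) ≠ 0 := by
      rw [Subgroup.relIndex, ← Subgroup.comap_subtype, Subgroup.comap_map_eq_self_of_injective
        (Subgroup.subtype_injective _)]
      exact Subgroup.FiniteIndex.index_ne_zero
    have h2 : (Gamma0 4).index ≠ 0 := Subgroup.FiniteIndex.index_ne_zero
    refine ⟨?_⟩
    rw [← Subgroup.relIndex_mul_index (Subgroup.map_subtype_le Md_chi.ker)]
    exact Nat.mul_ne_zero h1 h2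
  · refine Subgroup.mem_map.2 ⟨⟨ModularGroup.T, Md_T⟩, ?_, rfl⟩
    rw [MonoidHom.mem_ker]
    have h1 : uu ∣[(1 : ℤ)] ModularGroup.T = uu := by
      funext τ
      rw [ModularForm.SL_slash_apply]
      have h2 : ((ModularGroup.T • τ : ℍ) : ℂ) = 1 + τ := by
        rw [modular_T_smul]
        simp
      have h3 : denom ModularGroup.T τ = 1 := by
        simp [denom, ModularGroup.coe_T]
      rw [h3, one_zpow, mul_one]
      unfold uu
      rw [h2, show (2 : ℂ) * (1 + τ) = 2 + 2 * τ by ring, jacobiTheta_two_add]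
    classical
    exact if_pos h1
  · refine ⟨Md_hol, ?_, Md_bdd⟩
    intro γ hγ
    obtain ⟨γ', h1, rfl⟩ := Subgroup.mem_map.1 hγ
    rw [MonoidHom.mem_ker] at h1
    by_contra hcon
    have h2 : Md_chi γ' = -1 := by
      classical
      exact if_neg hcon
    rw [h2] at h1
    exact absurd h1 (by decide)

theorem form_G04 {w : ℕ} {f : ℍ → ℂ} {F : ℂ⟦X⟧} (hf : IsMF (Gamma0 4) ((2 * w : ℕ) : ℤ) f)
    (hF : QE f F) :
    ∃ P : Polynomial ℂ, P.natDegree ≤ w ∧ F = U ℂ ^ (2 * w) * evl ℂ P := by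
  obtain ⟨g, hg⟩ := hf.exists_modularForm
  have h1 : qExpansion 1 (g : ℍ → ℂ) = F := by
    rw [hg]
    exact (hf.exists_QE Md_T).unique hF
  obtain ⟨M, c, hM, hc⟩ := isFormR_of_qExpansion ℂ (RingHom.id ℂ) Function.injective_id w g F
    (by rw [h1, PowerSeries.map_id]; rfl)
  have hM' : (M : ℂ) ≠ 0 := by exact_mod_cast hM
  have hV : V ℂ = U ℂ * xx ℂ := by
    unfold xx
    rw [mul_comm (V ℂ), ← mul_assoc, U_mul_inv, one_mul]
  obtain ⟨P, hP⟩ : ∃ P : Polynomial ℂ, P = ∑ j ∈ Finset.range (w + 1),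
      Polynomial.C (c j / M) * (1 - Polynomial.X) ^ j := ⟨_, rfl⟩
  refine ⟨P, ?_, ?_⟩
  · rw [hP]
    refine Polynomial.natDegree_sum_le_of_forall_le _ _ fun j hj => ?_
    have hj' : j ≤ w := by
      have := Finset.mem_range.1 hj
      omega
    refine (Polynomial.natDegree_C_mul_le _ _).trans ?_
    refine (Polynomial.natDegree_pow_le).trans ?_
    have h2 : (1 - Polynomial.X : Polynomial ℂ).natDegree ≤ 1 := by
      refine (Polynomial.natDegree_sub_le _ _).trans ?_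
      simp
    calc j * (1 - Polynomial.X : Polynomial ℂ).natDegree ≤ j * 1 := Nat.mul_le_mul_left j h2
      _ ≤ w := by rw [mul_one]; exact hj'
  · have hMC : (PowerSeries.C (M : ℂ) : ℂ⟦X⟧) ≠ 0 := by
      intro h
      have h2 := congrArg PowerSeries.constantCoeff h
      rw [PowerSeries.constantCoeff_C, map_zero] at h2
      exact hM' h2
    apply mul_left_cancel₀ hMC
    rw [hc, hP, map_sum, Finset.mul_sum, Finset.mul_sum]
    refine Finset.sum_congr rfl fun j hj => ?_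
    have hj' : j ≤ w := by
      have := Finset.mem_range.1 hj
      omega
    rw [Md_tR3, Md_tR4, hV, map_mul, Polynomial.aeval_C, map_pow, map_sub, map_one, Polynomial.aeval_X]
    have h2 : (1 - lam ℂ : ℂ⟦X⟧) = xx ℂ ^ 2 := by unfold lam; ring
    rw [h2]
    have h3 : (PowerSeries.C (c j) : ℂ⟦X⟧) = PowerSeries.C (M : ℂ) * algebraMap ℂ ℂ⟦X⟧ (c j / M) := by
      have h4 : (algebraMap ℂ ℂ⟦X⟧ (c j / M)) = PowerSeries.C (c j / M) := rfl
      rw [h4, ← map_mul, mul_div_cancel₀ _ hM']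
    have h5 : (U ℂ ^ 2) ^ (w - j) * ((U ℂ * xx ℂ) ^ 2) ^ j = U ℂ ^ (2 * w) * (xx ℂ ^ 2) ^ j := by
      obtain ⟨k, rfl⟩ : ∃ k, w = j + k := ⟨w - j, by omega⟩
      rw [Nat.add_sub_cancel_left]
      ring
    rw [h3, mul_assoc (PowerSeries.C (M : ℂ) * _), h5]
    ring

end Pool.Agent.H85.OU
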