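import Pool.Agent.H85.OU.UA

/-!
# Row FG (project OU): algebras of functions of bounded degree are finitely generated modules

`K` of characteristic zero, `A ⊆ K⟦X⟧` a `K`-subalgebra containing `λ`, stable under `δ`, every element of which satisfies a monic equation of degree `≤ R` over `K[λ]`.
Claim: `A = SP K e` for some finite family `e`; then `LD K r e` is clear (`1`, `e_l e_l'`, `δ e_l` are in `A`).
Make `A` an algebra over `K[X]` via `X ↦ λ` (injective, `ord_lam`).  `L = FractionRing A`, `K0` = fraction field of `K[X]` inside `L` (or `FractionRing (Polynomial K)` with the induced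
algebra structure on `L`).
1. Every `x ∈ L` has degree `≤ R` over `K0`: `x = a/b`; `b ≠ 0` satisfies a monic equation over `K[λ]`; take one of minimal degree, its constant term `c(λ)` is nonzero (`A` is a domain), so
   `c(λ) = b b'` with `b' ∈ K[λ][b] ⊆ A`.  `x = (a b')/c(λ)` and `a b' ∈ A` has degree `≤ R` over `K0`, `c(λ) ∈ K0`.
2. `L/K0` is algebraic and separable (characteristic zero).  Choose `x ∈ L` with `[K0(x) : K0]` maximal.  For `y ∈ L`, `K0(x, y) = K0(z)` (primitive element theorem) has degree `≤ [K0(x):K0]`, so
   `K0(x,y) = K0(x)`.  So `L = K0(x)` is finite over `K0`.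
3. The integral closure `B` of `K[X]` in `L` is a finite `K[X]`-module (`IsIntegralClosure.isNoetherian` / `.finite`, `K[X]` integrally closed and noetherian, `L/K0` finite separable), `A ⊆ B`
   is a submodule of a noetherian module, so finitely generated: generators `e_1, .., e_r ∈ A`.
-/

open PowerSeries
open Pool.Agent.H85.OT

namespace Pool.Agent.H85.OU

theorem FG_key {P A F L : Type*} [CommRing P] [IsDomain P] [CommRing A] [IsDomain A]
    [Algebra P A] [Field F] [Algebra P F] [IsFractionRing P F] [Field L] [Algebra A L]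
    [IsFractionRing A L] [Algebra P L] [IsScalarTower P A L] [Algebra F L] [IsScalarTower P F L]
    (R : ℕ)
    (h : ∀ a : A, ∃ p : Polynomial P, p.Monic ∧ p.natDegree ≤ R ∧ Polynomial.aeval a p = 0)
    (x : L) : ∃ p : Polynomial F, p.Monic ∧ p.natDegree ≤ R ∧ Polynomial.aeval x p = 0 := by
  obtain ⟨a, b, hb, rfl⟩ := IsFractionRing.div_surjective (A := A) x
  have hb0 : b ≠ 0 := nonZeroDivisors.ne_zero hb
  obtain ⟨q, hq, -, hq0⟩ := h b
  have halgb : IsAlgebraic P b := ⟨q, hq.ne_zero, hq0⟩
  obtain ⟨c, hc0, b', hb'⟩ := halgb.exists_nonzero_dvd hb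
  obtain ⟨p, hp, hpd, hp0⟩ := h (a * b')
  have hcF : algebraMap P F c ≠ 0 := by
    rw [Ne, FaithfulSMul.algebraMap_eq_zero_iff P F]
    exact hc0
  have hy : Polynomial.aeval (algebraMap A L (a * b')) (p.map (algebraMap P F)) = 0 := by
    rw [Polynomial.aeval_map_algebraMap, Polynomial.aeval_algebraMap_apply, hp0, map_zero]
  have hx : algebraMap A L a / algebraMap A L b =
      algebraMap F L (algebraMap P F c)⁻¹ * algebraMap A L (a * b') := by
    have h1 : algebraMap F L (algebraMap P F c) = algebraMap A L b * algebraMap A L b' := by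
      rw [← IsScalarTower.algebraMap_apply P F L, IsScalarTower.algebraMap_apply P A L, hb',
        map_mul]
    have h2 : algebraMap A L b ≠ 0 := by
      rw [Ne, FaithfulSMul.algebraMap_eq_zero_iff A L]
      exact hb0
    have h3 : algebraMap A L b' ≠ 0 := by
      intro h3
      rw [h3, mul_zero] at h1
      exact hcF ((_root_.map_eq_zero _).1 h1)
    rw [map_inv₀, h1, map_mul]
    field_simp
  refine ⟨(p.map (algebraMap P F)).scaleRoots (algebraMap P F c)⁻¹, ?_, ?_, ?_⟩
  · rw [Polynomial.monic_scaleRoots_iff]
    exact hp.map _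
  · rw [Polynomial.natDegree_scaleRoots]
    exact Polynomial.natDegree_map_le.trans hpd
  · rw [hx]
    exact Polynomial.scaleRoots_aeval_eq_zero hy

theorem FG_fin {F L : Type*} [Field F] [CharZero F] [Field L] [Algebra F L] (R : ℕ)
    (h : ∀ x : L, ∃ p : Polynomial F, p.Monic ∧ p.natDegree ≤ R ∧ Polynomial.aeval x p = 0) :
    FiniteDimensional F L := by
  have hint : ∀ x : L, IsIntegral F x := fun x => by
    obtain ⟨p, hp, -, hp0⟩ := h x
    exact ⟨p, hp, hp0⟩
  have hdeg : ∀ x : L, (minpoly F x).natDegree ≤ R := fun x => by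
    obtain ⟨p, hp, hpd, hp0⟩ := h x
    exact (Polynomial.natDegree_le_natDegree (minpoly.min F x hp hp0)).trans hpd
  have hrank : Module.rank F L ≤ (R : Cardinal) := by
    apply rank_le
    intro s hs
    let E := IntermediateField.adjoin F (s : Set L)
    have hEfin : FiniteDimensional F E :=
      IntermediateField.finiteDimensional_adjoin (fun x _ => hint x)
    obtain ⟨z, hz⟩ := Field.exists_primitive_element F E
    have h1 : (minpoly F z).natDegree = Module.finrank F E :=
      (Field.primitive_element_iff_minpoly_natDegree_eq F z).1 hz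
    rw [IntermediateField.minpoly_eq] at h1
    let v : s → E := fun i => ⟨i, IntermediateField.subset_adjoin F _ i.2⟩
    have hv : LinearIndependent F v := by
      have h2 : LinearIndependent F (E.val.toLinearMap ∘ v) := hs
      exact h2.of_comp _
    have h3 := hv.fintype_card_le_finrank
    rw [Fintype.card_coe] at h3
    have h4 := hdeg (z : L)
    omega
  rw [FiniteDimensional, ← Module.rank_lt_aleph0_iff]
  exact hrank.trans_lt (Cardinal.natCast_lt_aleph0)

theorem FG_abs {P A : Type*} [CommRing P] [IsDomain P] [IsIntegrallyClosed P]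
    [IsNoetherianRing P] [CharZero P] [CommRing A] [IsDomain A] [Algebra P A]
    (hinj : Function.Injective (algebraMap P A)) (R : ℕ)
    (h : ∀ a : A, ∃ p : Polynomial P, p.Monic ∧ p.natDegree ≤ R ∧ Polynomial.aeval a p = 0) :
    Module.Finite P A := by
  have hfs : FaithfulSMul P A := (faithfulSMul_iff_algebraMap_injective P A).2 hinj
  have hinjL : Function.Injective (algebraMap P (FractionRing A)) := by
    rw [IsScalarTower.algebraMap_eq P A (FractionRing A)]
    exact (IsFractionRing.injective A (FractionRing A)).comp hinj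
  have hfL : FaithfulSMul P (FractionRing A) :=
    (faithfulSMul_iff_algebraMap_injective P (FractionRing A)).2 hinjL
  let _ : Algebra (FractionRing P) (FractionRing A) := FractionRing.liftAlgebra P (FractionRing A)
  have tow : IsScalarTower P (FractionRing P) (FractionRing A) :=
    FractionRing.isScalarTower_liftAlgebra P (FractionRing A)
  have hchar : CharZero (FractionRing P) :=
    charZero_of_injective_algebraMap (IsFractionRing.injective P (FractionRing P))
  have key := FG_key (F := FractionRing P) (L := FractionRing A) R h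
  have hfin : FiniteDimensional (FractionRing P) (FractionRing A) := FG_fin R key
  have hN : IsNoetherian P (integralClosure P (FractionRing A)) :=
    IsIntegralClosure.isNoetherian P (FractionRing P) (FractionRing A)
      (integralClosure P (FractionRing A))
  have hai : ∀ a : A, IsIntegral P (algebraMap A (FractionRing A) a) := fun a => by
    obtain ⟨p, hp, -, hp0⟩ := h a
    have h1 : IsIntegral P a := ⟨p, hp, hp0⟩
    exact h1.algebraMap
  let f : A →ₗ[P] integralClosure P (FractionRing A) :=
    { toFun := fun a => ⟨algebraMap A (FractionRing A) a, hai a⟩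
      map_add' := fun a b => by
        apply Subtype.ext
        exact map_add _ _ _
      map_smul' := fun c a => by
        apply Subtype.ext
        change algebraMap A (FractionRing A) (c • a) = c • algebraMap A (FractionRing A) a
        rw [Algebra.smul_def, Algebra.smul_def, map_mul, ← IsScalarTower.algebraMap_apply] }
  have hf : Function.Injective f := fun a b hab => by
    apply IsFractionRing.injective A (FractionRing A)
    exact congrArg Subtype.val hab
  have hNA : IsNoetherian P A := isNoetherian_of_injective f hf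
  infer_instance

theorem fg {K : Type*} [Field K] [CharZero K] (A : Subalgebra K K⟦X⟧) (hlam : lam K ∈ A)
    (hdel : ∀ a ∈ A, OT.del K a ∈ A) (R : ℕ)
    (hint : ∀ a ∈ A, ∃ (r : ℕ) (c : ℕ → Polynomial K), 1 ≤ r ∧ r ≤ R ∧
      a ^ r + ∑ m ∈ Finset.Icc 1 r, evl K (c m) * a ^ (r - m) = 0) :
    ∃ (r : ℕ) (e : Fin r → K⟦X⟧), LD K r e ∧ ∀ a ∈ A, a ∈ SP K e := by
  let φ : Polynomial K →ₐ[K] A := Polynomial.aeval (⟨lam K, hlam⟩ : A)
  have hφ : ∀ P, ((φ P : A) : K⟦X⟧) = evl K P := fun P => by
    change A.val (Polynomial.aeval _ P) = _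
    rw [← Polynomial.aeval_algHom_apply]
    rfl
  let _ : Algebra (Polynomial K) A := φ.toRingHom.toAlgebra
  have hmap : ∀ P : Polynomial K, algebraMap (Polynomial K) A P = φ P := fun _ => rfl
  have hinj : Function.Injective (algebraMap (Polynomial K) A) := by
    intro p q hpq
    apply ID2_inj (K := K) two_ne_zero
    change evl K p = evl K q
    rw [← hφ, ← hφ]
    exact congrArg _ hpq
  have hfin : Module.Finite (Polynomial K) A := by
    apply FG_abs hinj R
    intro a
    obtain ⟨r, c, hr1, hrR, hc⟩ := hint a a.2
    have hdeg : (∑ m ∈ Finset.Icc 1 r, Polynomial.C (c m) * Polynomial.X ^ (r - m) :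
        Polynomial (Polynomial K)).degree < (r : ℕ) := by
      rw [← Polynomial.mem_degreeLT]
      refine Submodule.sum_mem _ fun m hm => ?_
      rw [Polynomial.mem_degreeLT]
      rw [Finset.mem_Icc] at hm
      refine (Polynomial.degree_C_mul_X_pow_le _ _).trans_lt ?_
      rw [Nat.cast_lt]
      omega
    refine ⟨Polynomial.X ^ r + ∑ m ∈ Finset.Icc 1 r, Polynomial.C (c m) *
      Polynomial.X ^ (r - m), Polynomial.monic_X_pow_add hdeg, ?_, ?_⟩
    · refine (Polynomial.natDegree_add_le _ _).trans (max_le ?_ ?_)
      · rw [Polynomial.natDegree_X_pow]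
        exact hrR
      · exact Polynomial.natDegree_le_of_degree_le (hdeg.le.trans (by exact_mod_cast hrR))
    · apply Subtype.ext
      change ((Polynomial.aeval a _ : A) : K⟦X⟧) = 0
      rw [← hc]
      simp only [map_add, map_sum, map_mul, map_pow, Polynomial.aeval_X, Polynomial.aeval_C, hmap]
      push_cast
      simp only [hφ]
  obtain ⟨n, s, hs⟩ := Module.Finite.exists_fin (R := Polynomial K) (M := A)
  have hSP : ∀ a ∈ A, a ∈ SP K (fun l => (s l : K⟦X⟧)) := by
    intro a ha
    have h1 : (⟨a, ha⟩ : A) ∈ Submodule.span (Polynomial K) (Set.range s) := by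
      rw [hs]
      exact Submodule.mem_top
    rw [Submodule.mem_span_range_iff_exists_fun] at h1
    obtain ⟨c, hc⟩ := h1
    refine ⟨c, ?_⟩
    have h2 := congrArg Subtype.val hc
    simp only [Algebra.smul_def, hmap] at h2
    push_cast at h2
    simp only [hφ] at h2
    exact h2.symm
  exact ⟨n, fun l => (s l : K⟦X⟧), ⟨hSP 1 A.one_mem, fun l l' => hSP _ (A.mul_mem (s l).2 (s l').2),
    fun l => hSP _ (hdel _ (s l).2)⟩, hSP⟩

end Pool.Agent.H85.OU
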