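import Pool.Agent.H85.OU.LFc
import Pool.Agent.H85.OU.FG

/-!
# Row DSC (project OU): descent of `LForm` to a subfield

`φ : K → Ω` a homomorphism of fields of characteristic zero, `g ∈ K⟦X⟧`, `LForm Ω k (map φ g)` with data `r, e`.
1. Retraction: `Ω` is a `K`-vector space through `φ`; there is a `K`-linear `π : Ω → K` with `π 1 = 1`, so `π (φ c · x) = c π x` (`LinearMap.exists_leftInverse_of_injective` for `K → Ω`).  Let `π_*`
   act on coefficients of power series: additive, `π_*(map φ y · z) = y · π_* z`, `π_*(map φ y) = y`, and for `a ∈ Ω[X]`, `π_*(evl Ω a) = evl K (π a)` with `π a` the polynomial with coefficients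
   `π a_i` (`evl Ω a = ∑ C a_i (map φ λ)^i`, `map_lam`); its degree is `≤ deg a`.
2. `IsDeg Ω n (map φ y)` implies `IsDeg K n y`: apply `π_*` to the equation `Y^r + ∑ a_m(λ) Y^(r-m) = 0`, `Y = map φ y`.
3. `A = {y ∈ K⟦X⟧ : map φ y ∈ SP Ω e}` is a `K`-subalgebra containing `λ`, stable under `δ` (`LD.del_mem`, `map_del`, `SP_mul`, ..).  Every `y ∈ A` satisfies a monic equation of degree `r`:
   `LD.int_deg` for `map φ y` and `π_*`.  (`r ≥ 1` since `1 ∈ SP Ω e`, `1 ≠ 0`.)  `fg` gives `e'` with `LD K r' e'` and `A ⊆ SP K e'`.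
4. `g U^(-k), dbl g U^(-k) ∈ A` (`map_dbl`, `map_Uinv`), and the degree conditions by 2.
-/

open PowerSeries
open Pool.Agent.H85.OT

namespace Pool.Agent.H85.OU

/-- a `K`-linear retraction of a homomorphism of fields -/
theorem Dsc_ret {K Ω : Type*} [Field K] [Field Ω] (φ : K →+* Ω) :
    ∃ π : Ω →+ K, (∀ c, π (φ c) = c) ∧ ∀ c x, π (φ c * x) = c * π x := by
  letI : Algebra K Ω := φ.toAlgebra
  have hinj : LinearMap.ker (Algebra.linearMap K Ω) = ⊥ := by
    rw [LinearMap.ker_eq_bot]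
    exact φ.injective
  obtain ⟨g, hg⟩ := LinearMap.exists_leftInverse_of_injective (Algebra.linearMap K Ω) hinj
  refine ⟨g.toAddMonoidHom, fun c => ?_, fun c x => ?_⟩
  · exact LinearMap.congr_fun hg c
  · show g (φ c * x) = c * g x
    have h1 : φ c * x = c • x := (Algebra.smul_def c x).symm
    rw [h1, map_smul, smul_eq_mul]

/-- coefficientwise application of an additive map -/
noncomputable def DscP {K Ω : Type*} [Field K] [Field Ω] (π : Ω →+ K) : Ω⟦X⟧ →+ K⟦X⟧ where
  toFun y := PowerSeries.mk fun n => π (PowerSeries.coeff n y)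
  map_zero' := by
    ext n
    rw [PowerSeries.coeff_mk, _root_.map_zero, _root_.map_zero, _root_.map_zero]
  map_add' a b := by
    ext n
    rw [PowerSeries.coeff_mk, _root_.map_add, _root_.map_add, _root_.map_add,
      PowerSeries.coeff_mk, PowerSeries.coeff_mk]

theorem Dsc_coeff {K Ω : Type*} [Field K] [Field Ω] (π : Ω →+ K) (y : Ω⟦X⟧) (n : ℕ) :
    PowerSeries.coeff n (DscP π y) = π (PowerSeries.coeff n y) := by
  show PowerSeries.coeff n (PowerSeries.mk fun n => π (PowerSeries.coeff n y)) = _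
  rw [PowerSeries.coeff_mk]

section ret
variable {K Ω : Type*} [Field K] [Field Ω] (φ : K →+* Ω) (π : Ω →+ K)
  (h1 : ∀ c, π (φ c) = c) (h2 : ∀ c x, π (φ c * x) = c * π x)
include h1

theorem Dsc_P_map (y : K⟦X⟧) : DscP π (PowerSeries.map φ y) = y := by
  ext n
  rw [Dsc_coeff, PowerSeries.coeff_map, h1]

omit h1
include h2

theorem Dsc_P_C (c : Ω) (w : K⟦X⟧) :
    DscP π (PowerSeries.C c * PowerSeries.map φ w) = PowerSeries.C (π c) * w := by
  ext n
  rw [Dsc_coeff, PowerSeries.coeff_C_mul, PowerSeries.coeff_map, PowerSeries.coeff_C_mul,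
    mul_comm c, h2, mul_comm]

theorem Dsc_evl (a : Polynomial Ω) : ∃ b : Polynomial K, b.natDegree ≤ a.natDegree ∧
    ∀ z : K⟦X⟧, DscP π (evl Ω a * PowerSeries.map φ z) = evl K b * z := by
  refine ⟨∑ i ∈ Finset.range (a.natDegree + 1), Polynomial.C (π (a.coeff i)) * Polynomial.X ^ i,
    ?_, fun z => ?_⟩
  · refine Polynomial.natDegree_sum_le_of_forall_le _ _ fun i hi => ?_
    rw [Finset.mem_range] at hi
    exact (Polynomial.natDegree_C_mul_X_pow_le _ _).trans (by omega)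
  · have e1 : evl Ω a * PowerSeries.map φ z = ∑ i ∈ Finset.range (a.natDegree + 1),
        PowerSeries.C (a.coeff i) * PowerSeries.map φ (lam K ^ i * z) := by
      rw [evl, Polynomial.aeval_eq_sum_range, Finset.sum_mul]
      refine Finset.sum_congr rfl fun i _ => ?_
      rw [_root_.map_mul, _root_.map_pow, map_lam, ← mul_assoc, PowerSeries.smul_eq_C_mul]
    rw [e1, _root_.map_sum, _root_.map_sum, Finset.sum_mul]
    refine Finset.sum_congr rfl fun i _ => ?_
    rw [Dsc_P_C φ π h2, _root_.map_mul, _root_.map_pow, evl, Polynomial.aeval_C,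
      Polynomial.aeval_X, mul_assoc]
    rfl

include h1

theorem Dsc_eqn {y : K⟦X⟧} {r : ℕ} {a : ℕ → Polynomial Ω}
    (h : PowerSeries.map φ y ^ r +
      ∑ m ∈ Finset.Icc 1 r, evl Ω (a m) * PowerSeries.map φ y ^ (r - m) = 0) :
    ∃ b : ℕ → Polynomial K, (∀ m, (b m).natDegree ≤ (a m).natDegree) ∧
      y ^ r + ∑ m ∈ Finset.Icc 1 r, evl K (b m) * y ^ (r - m) = 0 := by
  choose b hb1 hb2 using fun m => Dsc_evl φ π h2 (a m)
  refine ⟨b, hb1, ?_⟩
  have h3 := congrArg (DscP π) h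
  rw [_root_.map_zero, _root_.map_add, _root_.map_sum, ← _root_.map_pow, Dsc_P_map φ π h1] at h3
  rw [← h3]
  congr 1
  refine Finset.sum_congr rfl fun m _ => ?_
  rw [← _root_.map_pow, hb2]

theorem Dsc_isDeg {n : ℕ} {y : K⟦X⟧} (hy : IsDeg Ω n (PowerSeries.map φ y)) : IsDeg K n y := by
  obtain ⟨r, a, hr, ha, h⟩ := hy
  obtain ⟨b, hb, h3⟩ := Dsc_eqn φ π h1 h2 h
  exact ⟨r, b, hr, fun m => (hb m).trans (ha m), h3⟩

end ret

theorem LForm.descend {K Ω : Type*} [Field K] [CharZero K] [Field Ω] (φ : K →+* Ω) {k : ℕ}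
    {g : K⟦X⟧} (hg : LForm Ω k (PowerSeries.map φ g)) : LForm K k g := by
  obtain ⟨π, h1, h2⟩ := Dsc_ret φ
  obtain ⟨r, e, hLD, hm1, hm2, hd1, hd2⟩ := hg
  have htwo : (2 : Ω) ≠ 0 := by
    intro h
    have h3 : φ 2 = 0 := by rw [map_ofNat]; exact h
    have h4 : (2 : K) = 0 := φ.injective (by rw [h3, _root_.map_zero])
    exact two_ne_zero h4
  have hr : 1 ≤ r := by
    by_contra hr
    have hr0 : r = 0 := by omega
    subst hr0
    obtain ⟨p, hp⟩ := hLD.one
    simp at hp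
  let A : Subalgebra K K⟦X⟧ :=
    { carrier := {y | PowerSeries.map φ y ∈ SP Ω e}
      mul_mem' := fun {a b} ha hb => by
        show PowerSeries.map φ (a * b) ∈ SP Ω e
        rw [_root_.map_mul]
        exact SP_mul hLD.mul ha hb
      add_mem' := fun {a b} ha hb => by
        show PowerSeries.map φ (a + b) ∈ SP Ω e
        rw [_root_.map_add]
        exact SP_add ha hb
      algebraMap_mem' := fun c => by
        show PowerSeries.map φ (algebraMap K K⟦X⟧ c) ∈ SP Ω e
        have h3 : PowerSeries.map φ (algebraMap K K⟦X⟧ c) = algebraMap Ω Ω⟦X⟧ (φ c) := by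
          show PowerSeries.map φ (PowerSeries.C c) = PowerSeries.C (φ c)
          rw [PowerSeries.map_C]
        rw [h3]
        exact hLD.alg.algebraMap_mem (φ c) }
  have hA : ∀ y, y ∈ A ↔ PowerSeries.map φ y ∈ SP Ω e := fun _ => Iff.rfl
  have hU : ∀ y : K⟦X⟧, PowerSeries.map φ (y * (U K)⁻¹ ^ k) =
      PowerSeries.map φ y * (U Ω)⁻¹ ^ k := fun y => by
    rw [_root_.map_mul, _root_.map_pow, map_Uinv]
  obtain ⟨r', e', hLD', hsub⟩ := fg A
    ((hA _).2 (by rw [map_lam]; exact hLD.lam_mem))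
    (fun a ha => (hA _).2 (by rw [map_del]; exact hLD.del_mem htwo ((hA a).1 ha))) r
    (fun a ha => by
      obtain ⟨c, hc⟩ := hLD.int_deg ((hA a).1 ha)
      obtain ⟨b, _, hb⟩ := Dsc_eqn φ π h1 h2 hc
      exact ⟨r, b, hr, le_rfl, hb⟩)
  refine ⟨r', e', hLD', hsub _ ((hA _).2 (by rw [hU]; exact hm1)),
    hsub _ ((hA _).2 (by rw [hU, map_dbl]; exact hm2)), ?_, ?_⟩
  · apply Dsc_isDeg φ π h1 h2
    rw [_root_.map_pow, hU]
    exact hd1
  · apply Dsc_isDeg φ π h1 h2
    rw [_root_.map_pow, hU, map_dbl]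
    exact hd2

end Pool.Agent.H85.OU
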