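import Pool.Agent.H85.OU.LDb

/-!
# Row ZB (project OU): the base of the tower

`LD K r e`, `A = h.alg`, `c0` the constant of `LD.bounds`.  Define `Z : ZD K A`: `ev` = inclusion, `d = h.dA`, and
`B n 0 y` := `y` is (the image of) an integer; `B n (e+1) y` := `y ∈ SPn K e (n + c0 (2 e + 1))` (so for `e' ≥ 1`: bound `n + c0 (2 e' - 1)`).
* `B_mono`: from `0` to `e' ≥ 1`: an integer `m = m · 1 ∈ SPn c0` (`bounds`), `c0 ≤ n + c0 (2e' - 1)`.
* `B_add`, `B_neg`: clear.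
* `B_mul`: `e = e' = 0` clear; integer times element: clear (`MPg_evl_mul` with a constant polynomial); `e, e' ≥ 1`: `SPn a · SPn b ⊆ SPn (a + b + c0)` and
  `(n + c0(2e-1)) + (n' + c0(2e'-1)) + c0 = (n + n') + c0 (2(e+e') - 1)`.
* `B_d` with `c = c0 + 1`: integers have derivative `0`; `MPg_del`: `SPn a → SPn (a + c0 + 1)`, `n + c0(2e-1) + c0 + 1 ≤ (n + c0 + 1) + c0 (2(e + c0 + 1) - 1)`.
* `Zest` at `e`: an element `0 ≠ y` with `B n e y` lies in `SPn (N)`, `N = n + c0(2e+1)` (also for `e = 0`), so `IsDeg (N + c0) y` (`IsDeg.of_SPn`), and by `order_le`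
  some coefficient `l ≤ (N + c0) r ≤ C (n+1)` is nonzero, `C = (1 + c0 (2e+2)) r`.
* every `y ∈ A` lies in some `SPn n`: `B c1 c1` with `c1 = max n 1`.
* `y = P(λ) = P(λ) · 1 ∈ SPn (n + c0)`, which is `B n 1`.
-/

open PowerSeries
open Pool.Agent.H85.OT

namespace Pool.Agent.H85.OU

section aux

variable {K : Type*} [Field K] {r : ℕ} {e : Fin r → K⟦X⟧}

theorem ZB_int {n : ℕ} {y : K⟦X⟧} (hy : y ∈ SPn K e n) (m : ℤ) : (m : K⟦X⟧) * y ∈ SPn K e n := by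
  have h1 := MPg_evl_mul (d := 0) (m : Polynomial K) (Polynomial.natDegree_intCast m).le hy
  rwa [map_intCast, add_zero] at h1

theorem ZB_neg {n : ℕ} {y : K⟦X⟧} (hy : y ∈ SPn K e n) : -y ∈ SPn K e n := by
  have h1 := ZB_int hy (-1)
  have h2 : ((-1 : ℤ) : K⟦X⟧) * y = -y := by
    push_cast
    ring
  rwa [h2] at h1

theorem ZB_mul {a b c : ℕ} (hm : ∀ l l', e l * e l' ∈ SPn K e c) {y z : K⟦X⟧}
    (hy : y ∈ SPn K e a) (hz : z ∈ SPn K e b) : y * z ∈ SPn K e (a + b + c) := by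
  obtain ⟨p, hp, rfl⟩ := hy
  obtain ⟨q, hq, rfl⟩ := hz
  rw [Finset.sum_mul_sum]
  refine MPg_sum _ _ fun l _ => MPg_sum _ _ fun l' _ => ?_
  have e1 : evl K (p l) * e l * (evl K (q l') * e l') =
      evl K (p l * q l') * (e l * e l') := by
    rw [map_mul]
    ring
  rw [e1]
  have h1 : (p l * q l').natDegree ≤ a + b :=
    Polynomial.natDegree_mul_le.trans (Nat.add_le_add (hp l) (hq l'))
  exact MPg_mono (by omega) (MPg_evl_mul (p l * q l') h1 (hm l l'))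

/-- the filtration -/
def ZB_B (h : LD K r e) (c0 n : ℕ) : ℕ → h.alg → Prop
  | 0, y => ∃ m : ℤ, y = (m : h.alg)
  | E + 1, y => (y : K⟦X⟧) ∈ SPn K e (n + c0 * (2 * E + 1))

theorem ZB_B_zero (h : LD K r e) (c0 n : ℕ) (y : h.alg) :
    ZB_B h c0 n 0 y ↔ ∃ m : ℤ, y = (m : h.alg) := Iff.rfl

theorem ZB_B_succ (h : LD K r e) (c0 n E : ℕ) (y : h.alg) :
    ZB_B h c0 n (E + 1) y ↔ (y : K⟦X⟧) ∈ SPn K e (n + c0 * (2 * E + 1)) := Iff.rfl

theorem ZB_coe (h : LD K r e) (m : ℤ) : (((m : h.alg) : h.alg) : K⟦X⟧) = (m : K⟦X⟧) := by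
  push_cast
  rfl

theorem ZB_mono (h : LD K r e) {c0 : ℕ} (h1 : (1 : K⟦X⟧) ∈ SPn K e c0) {n n' E E' : ℕ} {y : h.alg}
    (hn : n ≤ n') (hE : E ≤ E') (hy : ZB_B h c0 n E y) : ZB_B h c0 n' E' y := by
  rcases E with _ | E
  · rcases E' with _ | E'
    · exact hy
    · obtain ⟨m, rfl⟩ := hy
      rw [ZB_B_succ, ZB_coe]
      have h2 := ZB_int h1 m
      rw [mul_one] at h2
      refine MPg_mono ?_ h2
      have : c0 * (2 * E' + 1) = c0 * (2 * E') + c0 := by ring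
      omega
  · rcases E' with _ | E'
    · omega
    · rw [ZB_B_succ] at hy ⊢
      refine MPg_mono ?_ hy
      exact Nat.add_le_add hn (Nat.mul_le_mul_left _ (by omega))

theorem ZB_add (h : LD K r e) {c0 n E : ℕ} {y z : h.alg}
    (hy : ZB_B h c0 n E y) (hz : ZB_B h c0 n E z) : ZB_B h c0 n E (y + z) := by
  rcases E with _ | E
  · obtain ⟨m, rfl⟩ := hy
    obtain ⟨m', rfl⟩ := hz
    exact ⟨m + m', by push_cast; rfl⟩
  · exact MPg_add hy hz

theorem ZB_negB (h : LD K r e) {c0 n E : ℕ} {y : h.alg}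
    (hy : ZB_B h c0 n E y) : ZB_B h c0 n E (-y) := by
  rcases E with _ | E
  · obtain ⟨m, rfl⟩ := hy
    exact ⟨-m, by push_cast; rfl⟩
  · exact ZB_neg hy

theorem ZB_mulB (h : LD K r e) {c0 : ℕ} (hm : ∀ l l', e l * e l' ∈ SPn K e c0) {n n' E E' : ℕ}
    {y z : h.alg} (hy : ZB_B h c0 n E y) (hz : ZB_B h c0 n' E' z) :
    ZB_B h c0 (n + n') (E + E') (y * z) := by
  rcases E with _ | E
  · obtain ⟨m, rfl⟩ := hy
    rcases E' with _ | E'
    · obtain ⟨m', rfl⟩ := hz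
      exact ⟨m * m', by push_cast; rfl⟩
    · rw [Nat.zero_add, ZB_B_succ]
      rw [ZB_B_succ] at hz
      have h2 := ZB_int hz m
      have h3 : ((((m : h.alg) * z : h.alg)) : K⟦X⟧) = (m : K⟦X⟧) * (z : K⟦X⟧) := by
        rw [← ZB_coe h m]
        rfl
      rw [h3]
      exact MPg_mono (by omega) h2
  · rcases E' with _ | E'
    · obtain ⟨m, rfl⟩ := hz
      rw [Nat.add_zero, ZB_B_succ]
      rw [ZB_B_succ] at hy
      have h2 := ZB_int hy m
      have h3 : (((y * (m : h.alg) : h.alg)) : K⟦X⟧) = (m : K⟦X⟧) * (y : K⟦X⟧) := by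
        rw [← ZB_coe h m, mul_comm]
        rfl
      rw [h3]
      exact MPg_mono (by omega) h2
    · rw [ZB_B_succ] at hy hz
      have e1 : E + 1 + (E' + 1) = (E + E' + 1) + 1 := by omega
      rw [e1, ZB_B_succ]
      have h2 := ZB_mul hm hy hz
      refine MPg_mono ?_ h2
      have e2 : c0 * (2 * (E + E' + 1) + 1) = c0 * (2 * E + 1) + c0 * (2 * E' + 1) + c0 := by ring
      omega

theorem ZB_dB [CharZero K] (h : LD K r e) {c0 : ℕ} (h1 : (1 : K⟦X⟧) ∈ SPn K e c0)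
    (hd : ∀ l, OT.del K (e l) ∈ SPn K e c0) {n E : ℕ}
    {y : h.alg} (hy : ZB_B h c0 n E y) : ZB_B h c0 (n + (c0 + 1)) (E + (c0 + 1)) (h.dA y) := by
  rcases E with _ | E
  · obtain ⟨m, rfl⟩ := hy
    have h2 : h.dA (m : h.alg) = 0 := by
      apply Subtype.ext
      rw [LD.coe_dA, ZB_coe, ← map_intCast (evl K) m, MPg_del_evl two_ne_zero,
        Polynomial.derivative_intCast, mul_zero, map_zero]
      rfl
    rw [h2]
    refine ZB_mono h h1 (Nat.zero_le _) (Nat.zero_le _) (?_ : ZB_B h c0 0 0 0)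
    exact ⟨0, by push_cast; rfl⟩
  · rw [ZB_B_succ] at hy
    have e1 : E + 1 + (c0 + 1) = (E + c0 + 1) + 1 := by omega
    rw [e1, ZB_B_succ, LD.coe_dA]
    refine MPg_mono ?_ (MPg_del two_ne_zero hd hy)
    have e2 : c0 * (2 * (E + c0 + 1) + 1) = c0 * (2 * E + 1) + c0 * (2 * (c0 + 1)) := by ring
    omega

end aux

theorem exists_ZB {K : Type*} [Field K] [CharZero K] {r : ℕ} {e : Fin r → K⟦X⟧}
    (h : LD K r e) :
    ∃ Z : ZD K h.alg, Z.Zest ∧ Z.d = h.dA ∧ (∀ y : h.alg, Z.ev y = (y : K⟦X⟧)) ∧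
      (∀ y : h.alg, ∃ c1 : ℕ, Z.B c1 c1 y) ∧
      ∀ (n : ℕ) (P : Polynomial K) (y : h.alg), P.natDegree ≤ n → (y : K⟦X⟧) = evl K P →
        Z.B n 1 y := by
  obtain ⟨c0, h1, hm, hd, hdeg⟩ := h.bounds
  refine ⟨{
    ev := h.alg.val.toRingHom
    d := h.dA
    ev_d := fun _ => rfl
    B := ZB_B h c0
    c := c0 + 1
    B_mono := fun hn hE hy => ZB_mono h h1 hn hE hy
    B_zero := ⟨0, by push_cast; rfl⟩
    B_one := ⟨1, by push_cast; rfl⟩
    B_add := fun hy hz => ZB_add h hy hz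
    B_neg := fun hy => ZB_negB h hy
    B_mul := fun hy hz => ZB_mulB h hm hy hz
    B_d := fun hy => ZB_dB h h1 hd hy }, ?_, rfl, fun _ => rfl, ?_, ?_⟩
  · intro E
    refine ⟨(1 + c0 * (2 * E + 2)) * r, fun n y hy hy0 => ?_⟩
    have h2 : ZB_B h c0 n (E + 1) y := ZB_mono h h1 le_rfl (Nat.le_succ E) hy
    rw [ZB_B_succ] at h2
    have h3 : (y : K⟦X⟧) ≠ 0 := fun h0 => hy0 (Subtype.ext h0)
    obtain ⟨l, hl, hc⟩ := order_le two_ne_zero h.one h.mul h3 (MPg_SP h2) (IsDeg.of_SPn hdeg h2)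
    refine ⟨l, hl.trans ?_, hc⟩
    have e1 : (1 + c0 * (2 * E + 2)) * r * (n + 1) = (1 + c0 * (2 * E + 2)) * (n + 1) * r := by ring
    rw [e1]
    refine Nat.mul_le_mul_right _ ?_
    have e2 : (1 + c0 * (2 * E + 2)) * (n + 1) =
        n + c0 * (2 * E + 1) + c0 + 1 + n * (c0 * (2 * E + 2)) := by ring
    omega
  · intro y
    obtain ⟨n, hn⟩ := MPg_SP' (h.mem_alg.1 y.2)
    refine ⟨n + 1, ?_⟩
    show ZB_B h c0 (n + 1) (n + 1) y
    rw [ZB_B_succ]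
    exact MPg_mono (by omega) hn
  · intro n P y hP hy
    show ZB_B h c0 n (0 + 1) y
    rw [ZB_B_succ, hy]
    have h2 := MPg_evl_mul P hP h1
    rw [mul_one] at h2
    exact MPg_mono (by omega) h2

end Pool.Agent.H85.OU
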