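import Pool.Agent.H85.OU.UC
import Pool.Agent.H85.OT.Adich

/-!
# Row ILE (project OU): from the core inequality to the dichotomy (abstract form)

Same scheme as `OT/Adich.lean` (`low` of `OT/Alow.lean`, `pi_up` of `OT/Acheb.lean`, `Apar_log`, `rest_le` of `OT/Apar.lean`).  Let `a = 2 r c3 ≥ 2` (so the condition is `r n + a L p < T'`), `ε > 0`, `c = ε/8` (`low`:
`ε π(x) ≤ cnt S x` and `x ≥ x1` imply `c x ≤ ∑_{p ≤ x, p0 < p, S p} log p`).
Choice of `L`: `L ≥ 2`, `L² ≥ 4r` and `16 log (4 (1 + 32 a L/c)) ≤ c L/(16 a)` (`Apar_log`: the left side is `O(log L)`).  Take `C, p0` for this `L`; `η = c/(32 a L)`, `ρ = 1/(1+η)`, `lr = log ρ⁻¹ ≤ η`;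
`1/(1-ρ) = 1 + 1/η = 1 + 32aL/c`, `2 MR ρ = 8 (1+1/η)² ≤ (4(1+1/η))²`, `log (2MR) ≤ 2 log (4 (1 + 1/η))`.  `B` for this `ρ`.
Given `n` (large) and `T'`: `T' ≥ (L²(n+1) - 1)/2 ≥ L² n/2 ≥ 2 r n`, `n ≤ 2T'/L²`.  So
 `2 T' lr ≤ c T'/(16 a L)`;  `4 n log(2MR) ≤ 8T'/L² · 2 log (4(1+1/η)) ≤ c T'/(16 a L)`;
 `Rest = 4κL log(2MR) + 4L log B + 2 log (L²(n+1)) + 2c ≤ c T'/(16 a L)` for `n` large (`rest_le`).
Let `x = (T' - 1 - r n)/(a L)` (natural division); primes `p ≤ x` satisfy `r n + a L p < T'`, so if `ε π(x) ≤ cnt S x` (`x ≥ x1`): `c x ≤ ∑_(SSl) log p`; `x ≥ (T' - rn)/(aL) - 2 ≥ T'/(2aL) - 2`.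
Together: `c (T'/(2aL) - 2) ≤ 4L log Z + c T'/(16aL) + c T'/(16aL) + (Rest - 2c)`, so `4 L log Z ≥ c T'/(4aL)`, `log Z ≥ c T'/(16 a L²) ≥ c n/(32 a)`, `Z = Z (C(n+1))`.
Choice of `n` for given `X`: `n = 4a(X+1)`: `T' - 1 - rn ≥ T'/2 - 1 ≥ L² n/4 - 1 = L² a (X+1) - 1 ≥ a L X`, so `x ≥ X`; `Y = C(n+1) ≤ K X` with `K = C(8a+1)` for `X ≥ 1`... (`4a(X+1)+1 ≤ 8aX + X`), `x ≤ T' ≤ Y ≤ K X`.
So under the hypothesis on the window `[X, KX]`: `cnt O (KX) log (KX) ≥ cnt O Y log Y ≥ log Z ≥ c n/(32a) ≥ c X/8` (`hZ`; `cnt` and `log` are monotone), and `π(KX) log (KX) ≤ C1 K X` (`pi_up`), so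
`cnt O (KX) ≥ (c/(8 C1 K)) π(KX)`.  (`X` large so that `n` is large, `X ≥ x1`, `X ≥ 2`.)
-/

open Pool.Agent.H85.OT

namespace Pool.Agent.H85.OU

private theorem ile_real {c a L T n x lnZ Rest P4 lr : ℝ} (hc : 0 < c) (ha : 0 < a) (hL : 0 < L)
    (hn : 0 ≤ n) (h2 : L ^ 2 * n ≤ 2 * T) (hx : T / (2 * a * L) - 1 ≤ x)
    (hlr : lr ≤ c / (32 * a * L)) (hT : 0 ≤ T) (hP : P4 ≤ c * L / (32 * a))
    (hR : c + Rest ≤ c * L / (32 * a) * n)
    (hmain : c * x ≤ 4 * L * lnZ + 2 * T * lr + n * P4 + Rest) :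
    c * T / (a * L) / 4 ≤ 4 * L * lnZ := by
  have h3 : c * (T / (2 * a * L) - 1) ≤ c * x := mul_le_mul_of_nonneg_left hx hc.le
  have h4 : 2 * T * lr ≤ 2 * T * (c / (32 * a * L)) := mul_le_mul_of_nonneg_left hlr (by linarith)
  have h5 : n * P4 ≤ n * (c * L / (32 * a)) := mul_le_mul_of_nonneg_left hP hn
  have e1 : c * (T / (2 * a * L) - 1) = c * T / (a * L) / 2 - c := by field_simp
  have e2 : 2 * T * (c / (32 * a * L)) = c * T / (a * L) / 16 := by field_simp; ring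
  have e3 : n * (c * L / (32 * a)) ≤ c * T / (a * L) / 16 := by
    have e4 : n * (c * L / (32 * a)) = (c / (32 * a * L)) * (L ^ 2 * n) := by field_simp
    have e5 : c * T / (a * L) / 16 = (c / (32 * a * L)) * (2 * T) := by field_simp; ring
    rw [e4, e5]
    exact mul_le_mul_of_nonneg_left h2 (by positivity)
  have e6 : c * L / (32 * a) * n = n * (c * L / (32 * a)) := by ring
  have e7 : 0 ≤ c * T / (a * L) := by positivity
  rw [e1] at h3
  rw [e2] at h4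
  rw [e6] at hR
  linarith

private theorem ile_nat {a L r X T n : ℕ} (hL : 3 ≤ L) (hrL : 4 * r ≤ L) (hr : 1 ≤ r)
    (hn : n + 1 = 4 * a * (X + 1)) (hT : L ^ 2 * (n + 1) ≤ 2 * T + 1) :
    2 * (a * L ^ 2 * (X + 1)) ≤ T ∧ X * (a * L) + r * n + 1 ≤ T ∧ 2 * (r * n) ≤ T := by
  obtain ⟨m, hm⟩ : ∃ m : ℕ, m = a * L ^ 2 * (X + 1) := ⟨_, rfl⟩
  have h1 : L ^ 2 * (n + 1) = 4 * m := by rw [hn, hm]; ring
  have h2 : 12 * r ≤ L ^ 2 := by
    rw [pow_two]
    calc 12 * r = 4 * r * 3 := by ring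
      _ ≤ L * L := Nat.mul_le_mul hrL hL
  have h3 : 12 * r * (n + 1) ≤ 4 * m := by
    rw [← h1]
    exact Nat.mul_le_mul_right _ h2
  have h4 : X * (a * L) ≤ m := by
    rw [hm]
    have h5 : L ≤ L ^ 2 := by nlinarith
    calc X * (a * L) ≤ (X + 1) * (a * L ^ 2) := by gcongr; omega
      _ = a * L ^ 2 * (X + 1) := by ring
  have h5 : 3 * (r * n) + 3 ≤ m := by
    have h6 : 12 * r * (n + 1) = 4 * (3 * (r * n) + 3 * r) := by ring
    omega
  rw [← hm]
  rw [h1] at hT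
  refine ⟨by omega, by omega, by omega⟩

/-- choice of `L` -/
private theorem ile_param (a c r : ℝ) (ha : 0 < a) (hc : 0 < c) (hr : 0 ≤ r) :
    ∃ L : ℕ, 3 ≤ L ∧ 4 * r ≤ L ∧
      4 * (2 * Real.log (4 * (1 + 32 * a * L / c))) ≤ c * L / (32 * a) := by
  obtain ⟨L, hL3, hL⟩ := param (4 * a + c * r) c (by positivity) hc
  have hL0 : (0 : ℝ) < L := by
    have : (3 : ℝ) ≤ L := by exact_mod_cast hL3
    linarith
  have hκ : 0 < 4 * a + c * r := by positivity
  have hmono : 1 + 128 * a * L / c ≤ 1 + 32 * (4 * a + c * r) * L / c := by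
    have h1 : 128 * a * L / c ≤ 32 * (4 * a + c * r) * L / c := by
      apply div_le_div_of_nonneg_right _ hc.le
      apply mul_le_mul_of_nonneg_right _ hL0.le
      have : 0 ≤ c * r := by positivity
      linarith
    linarith
  have hlog : Real.log (2 * (1 + 128 * a * L / c)) ≤
      Real.log (2 * (1 + 32 * (4 * a + c * r) * L / c)) := by
    apply Real.log_le_log (by positivity)
    linarith
  refine ⟨L, hL3, ?_, ?_⟩
  · have h1 : Real.log 2 ≤ Real.log (2 * (1 + 32 * (4 * a + c * r) * L / c)) := by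
      apply Real.log_le_log (by norm_num)
      have : 0 ≤ 32 * (4 * a + c * r) * L / c := by positivity
      linarith
    have h2 := Real.log_two_gt_d9
    have h3 : 1 ≤ c * L / (32 * (4 * a + c * r)) := by linarith
    rw [le_div_iff₀ (by positivity)] at h3
    have h4 : 0 < c * a := by positivity
    have h5 : c * (4 * r) ≤ c * L := by nlinarith
    exact le_of_mul_le_mul_left h5 hc
  · have h1 : Real.log (4 * (1 + 32 * a * L / c)) ≤ 2 * Real.log (2 * (1 + 128 * a * L / c)) := by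
      have h2 : 2 * Real.log (2 * (1 + 128 * a * L / c)) =
          Real.log ((2 * (1 + 128 * a * L / c)) ^ 2) := by
        rw [Real.log_pow]
        norm_num
      rw [h2]
      apply Real.log_le_log (by positivity)
      have h3 : 0 ≤ a * L / c := by positivity
      have e1 : 32 * a * L / c = 32 * (a * L / c) := by ring
      have e2 : 128 * a * L / c = 128 * (a * L / c) := by ring
      rw [e1, e2]
      nlinarith
    have h4 : c * L / (32 * (4 * a + c * r)) ≤ c * L / (32 * (4 * a)) := by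
      apply div_le_div_of_nonneg_left (by positivity) (by positivity)
      have : 0 ≤ c * r := by positivity
      linarith
    have h5 : c * L / (32 * (4 * a)) = c * L / (32 * a) / 4 := by field_simp
    rw [h5] at h4
    linarith

theorem dichL (S O : ℕ → Prop) (Z : ℕ → ℕ) (hZ : ∀ Y : ℕ, 1 ≤ Y →
      Real.log (Z Y) ≤ (cnt O Y : ℝ) * Real.log Y) (r c3 κ : ℕ) (hr : 1 ≤ r) (hc3 : 1 ≤ c3)
    (h : ∀ L : ℕ, 2 ≤ L → ∃ C p0 : ℕ, 1 ≤ C ∧
      ∀ ρ : ℝ, 0 < ρ → ρ < 1 → ∃ B : ℝ, 1 ≤ B ∧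
      ∀ n : ℕ, ∃ T' : ℕ, L ^ 2 * (n + 1) / 2 ≤ T' ∧ T' ≤ C * (n + 1) ∧
        ∑ p ∈ SSl S r c3 L n p0 T', Real.log p ≤
          4 * L * Real.log (Z (C * (n + 1))) + 2 * T' * Real.log (ρ⁻¹) +
          2 * (2 * n + 2 * (κ : ℝ) * L) * Real.log (2 * MR ρ) + 4 * L * Real.log B +
          2 * Real.log (L ^ 2 * (n + 1))) : Dich S O := by
  classical
  intro ε hε
  obtain ⟨a, ha⟩ : ∃ a : ℕ, a = 2 * r * c3 := ⟨_, rfl⟩
  have ha2 : 2 ≤ a := by
    have : 1 ≤ r * c3 := Nat.mul_pos hr hc3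
    rw [ha, mul_assoc]
    omega
  have haR : (0 : ℝ) < (a : ℝ) := by exact_mod_cast (by omega : 0 < a)
  obtain ⟨c, hc⟩ : ∃ c : ℝ, c = ε / 8 := ⟨_, rfl⟩
  have hc0 : 0 < c := by rw [hc]; positivity
  obtain ⟨L, hL3, hrL', hLi⟩ := ile_param (a : ℝ) c (r : ℝ) haR hc0 (Nat.cast_nonneg r)
  have hrL : 4 * r ≤ L := by exact_mod_cast hrL'
  have hL : (0 : ℝ) < (L : ℝ) := by exact_mod_cast (by omega : 0 < L)
  obtain ⟨R, hR⟩ : ∃ R : ℝ, R = 1 + 32 * a * L / c := ⟨_, rfl⟩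
  have hq : 0 < 32 * (a : ℝ) * L / c := by positivity
  have hR1 : 1 < R := by rw [hR]; linarith
  have hR0 : 0 < R := by linarith
  rw [← hR] at hLi
  obtain ⟨ρ, hρ⟩ : ∃ ρ : ℝ, ρ = 1 - 1 / R := ⟨_, rfl⟩
  have hiR : 1 / R < 1 := by rw [div_lt_one hR0]; exact hR1
  have hiR0 : 0 < 1 / R := by positivity
  have hρ0 : 0 < ρ := by rw [hρ]; linarith
  have hρ1 : ρ < 1 := by rw [hρ]; linarith
  have hlr : Real.log (ρ⁻¹) ≤ c / (32 * a * L) := by
    have h1 := Real.log_le_sub_one_of_pos (inv_pos.2 hρ0)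
    refine h1.trans (le_of_eq ?_)
    have h2 : ρ = (R - 1) / R := by rw [hρ]; field_simp
    have h3 : R - 1 ≠ 0 := by linarith
    rw [h2, inv_div]
    have h4 : R / (R - 1) - 1 = 1 / (R - 1) := by field_simp; ring
    rw [h4, hR, add_sub_cancel_left, one_div_div]
  have hMR : Real.log (2 * MR ρ) ≤ 2 * Real.log (4 * R) := by
    have h1 : MR ρ = 4 * R ^ 2 := by
      unfold MR
      rw [hρ]
      have : 1 - (1 - 1 / R) = 1 / R := by ring
      rw [this]
      field_simp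
    have h2 : 2 * Real.log (4 * R) = Real.log ((4 * R) ^ 2) := by
      rw [Real.log_pow]
      norm_num
    rw [h1, h2]
    apply Real.log_le_log (by positivity)
    nlinarith
  have hP : 4 * Real.log (2 * MR ρ) ≤ c * L / (32 * a) := by linarith
  obtain ⟨C, p0, hC1, hcore0⟩ := h L (by omega)
  obtain ⟨B, hB1, hcore⟩ := hcore0 ρ hρ0 hρ1
  obtain ⟨x1, hx1⟩ := low S ε hε p0
  obtain ⟨C1, hC10, hpi⟩ := pi_up
  obtain ⟨n1, hn1⟩ := rest_le (c + 4 * κ * L * Real.log (2 * MR ρ) + 4 * L * Real.log B)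
    ((L : ℝ) ^ 2) (c * L / (32 * a)) (by positivity) (by positivity)
  have hCr : (0 : ℝ) < (C : ℝ) := by exact_mod_cast (by omega : 0 < C)
  refine ⟨8 * a * C, ?_, c / (8 * C1 * (8 * a * C : ℕ)), ?_, max (max x1 n1) 2, ?_⟩
  · exact Nat.mul_pos (by omega) (by omega)
  · push_cast
    positivity
  intro X hX hyp
  have hXx1 : x1 ≤ X := (le_max_left _ _).trans ((le_max_left _ _).trans hX)
  have hXn1 : n1 ≤ X := (le_max_right _ _).trans ((le_max_left _ _).trans hX)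
  have hX2 : 2 ≤ X := (le_max_right _ _).trans hX
  obtain ⟨n, hn⟩ : ∃ n : ℕ, n + 1 = 4 * a * (X + 1) := by
    refine ⟨4 * a * (X + 1) - 1, ?_⟩
    have : 0 < 4 * a * (X + 1) := by positivity
    omega
  have hnX : X ≤ n := by
    have : 8 * (X + 1) ≤ 4 * a * (X + 1) := Nat.mul_le_mul_right _ (by omega)
    omega
  obtain ⟨T, hT1, hT2, hT3⟩ := hcore n
  have hT4 : L ^ 2 * (n + 1) ≤ 2 * T + 1 := by omega
  obtain ⟨a1, a2, a3⟩ := ile_nat hL3 hrL hr hn hT4
  have hkE : 0 < a * L := Nat.mul_pos (by omega) (by omega)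
  obtain ⟨x, hx⟩ : ∃ x : ℕ, x = (T - r * n - 1) / (a * L) := ⟨_, rfl⟩
  have hXx : X ≤ x := by
    rw [hx, Nat.le_div_iff_mul_le hkE]
    omega
  have hxT : x ≤ T := by
    rw [hx]
    exact (Nat.div_le_self _ _).trans (by omega)
  have hCn : C * (n + 1) ≤ 8 * a * C * X := by
    rw [hn]
    have : X + 1 ≤ 2 * X := by omega
    calc C * (4 * a * (X + 1)) ≤ C * (4 * a * (2 * X)) := by gcongr
      _ = 8 * a * C * X := by ring
  have hxK : x ≤ 8 * a * C * X := hxT.trans (hT2.trans hCn)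
  have s1 := hx1 x (hXx1.trans hXx) (hyp x hXx hxK)
  have s2 : ∑ p ∈ (Finset.range (x + 1)).filter (fun p => p.Prime ∧ p0 < p ∧ S p), Real.log p ≤
      ∑ p ∈ SSl S r c3 L n p0 T, Real.log p := by
    apply Finset.sum_le_sum_of_subset_of_nonneg
    · intro p hp
      rw [Finset.mem_filter, Finset.mem_range] at hp
      obtain ⟨hp1, hp2, hp3, hp4⟩ := hp
      have hpx : p ≤ (T - r * n - 1) / (a * L) := by rw [← hx]; omega
      rw [Nat.le_div_iff_mul_le hkE] at hpx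
      have e1 : r * (n + 2 * L * c3 * p) = r * n + p * (a * L) := by rw [ha]; ring
      have e2 : p ≤ p * (a * L) := Nat.le_mul_of_pos_right p hkE
      unfold SSl
      rw [Finset.mem_filter, Finset.mem_range]
      refine ⟨by omega, hp2, hp3, hp4, ?_⟩
      rw [e1]
      omega
    · intro p _ _
      exact Real.log_natCast_nonneg p
  have hlnX : c * X / 8 ≤ Real.log (Z (C * (n + 1))) := by
    have r1 : (L : ℝ) ^ 2 * n ≤ 2 * T := by
      have h1 : ((L ^ 2 * (n + 1) : ℕ) : ℝ) ≤ ((2 * T + 1 : ℕ) : ℝ) := by exact_mod_cast hT4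
      push_cast at h1
      have h2 : (1 : ℝ) ≤ (L : ℝ) ^ 2 := by
        have : (3 : ℝ) ≤ (L : ℝ) := by exact_mod_cast hL3
        nlinarith
      linarith
    have r2 : (T : ℝ) / (2 * a * L) - 1 ≤ x := by
      have h1 : T - r * n - 1 < a * L * (x + 1) := by
        rw [hx]
        exact Nat.lt_mul_div_succ _ hkE
      have h2 : T ≤ 2 * a * L * (x + 1) := by
        have : 2 * a * L * (x + 1) = 2 * (a * L * (x + 1)) := by ring
        omega
      have h3 : (T : ℝ) ≤ 2 * a * L * (x + 1) := by exact_mod_cast h2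
      have h4 : (T : ℝ) / (2 * a * L) ≤ x + 1 := by
        rw [div_le_iff₀ (by positivity)]
        linarith
      linarith
    have r3 := hn1 n (hXn1.trans hnX)
    have r4 := ile_real (n := (n : ℝ)) (T := (T : ℝ)) (x := (x : ℝ)) (a := (a : ℝ)) (L := (L : ℝ))
      (P4 := 4 * Real.log (2 * MR ρ)) (lr := Real.log (ρ⁻¹))
      (lnZ := Real.log (Z (C * (n + 1))))
      (Rest := 4 * κ * L * Real.log (2 * MR ρ) + 4 * L * Real.log B +
        2 * Real.log (L ^ 2 * (n + 1))) hc0 haR hL (Nat.cast_nonneg n) r1 r2 hlr (Nat.cast_nonneg T)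
        hP (by linarith) (by
          rw [← hc] at s1
          have e1 : 2 * (2 * (n : ℝ) + 2 * (κ : ℝ) * L) * Real.log (2 * MR ρ) =
            n * (4 * Real.log (2 * MR ρ)) + 4 * κ * L * Real.log (2 * MR ρ) := by ring
          linarith)
    have r5 : 2 * ((a : ℝ) * (L : ℝ) ^ 2 * (X + 1)) ≤ T := by exact_mod_cast a1
    have r6 : c * (2 * ((a : ℝ) * (L : ℝ) ^ 2 * (X + 1))) / (a * L) / 4 ≤ c * T / (a * L) / 4 := by
      gcongr
    have r7 : c * (2 * ((a : ℝ) * (L : ℝ) ^ 2 * (X + 1))) / (a * L) / 4 =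
        4 * L * (c * (X + 1) / 8) := by
      field_simp
      ring
    rw [r7] at r6
    have r8 : c * (X + 1) / 8 ≤ Real.log (Z (C * (n + 1))) :=
      le_of_mul_le_mul_left (r6.trans r4) (by positivity)
    refine le_trans ?_ r8
    gcongr
    linarith
  have hY1 : 1 ≤ C * (n + 1) := Nat.mul_pos (by omega) (by omega)
  have t1 := hZ (C * (n + 1)) hY1
  have hKX2 : 2 ≤ 8 * a * C * X := by
    have : 1 ≤ a * C * X := Nat.mul_pos (Nat.mul_pos (by omega) (by omega)) (by omega)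
    nlinarith
  have hlog : Real.log (C * (n + 1) : ℕ) ≤ Real.log ((8 * a * C * X : ℕ) : ℝ) := by
    apply Real.log_le_log
    · exact_mod_cast hY1
    · exact_mod_cast hCn
  have hlog0 : 0 < Real.log ((8 * a * C * X : ℕ) : ℝ) := by
    apply Real.log_pos
    exact_mod_cast hKX2
  have hcm : (cnt O (C * (n + 1)) : ℝ) ≤ cnt O (8 * a * C * X) := by
    exact_mod_cast Adich_mono _ hCn
  have t2 : c * X / 8 ≤
      (cnt O (8 * a * C * X) : ℝ) * Real.log ((8 * a * C * X : ℕ) : ℝ) := by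
    refine hlnX.trans (t1.trans ?_)
    exact mul_le_mul hcm hlog (Real.log_nonneg (by exact_mod_cast hY1)) (Nat.cast_nonneg _)
  have t3 := hpi (8 * a * C * X) hKX2
  refine le_of_mul_le_mul_right ?_ hlog0
  refine le_trans ?_ t2
  have hKr : (0 : ℝ) < ((8 * a * C : ℕ) : ℝ) := by
    push_cast
    positivity
  calc c / (8 * C1 * (8 * a * C : ℕ)) * (Nat.primeCounting (8 * a * C * X) : ℝ) *
        Real.log ((8 * a * C * X : ℕ) : ℝ) =
        c / (8 * C1 * (8 * a * C : ℕ)) * ((Nat.primeCounting (8 * a * C * X) : ℝ) *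
        Real.log ((8 * a * C * X : ℕ) : ℝ)) := by ring
    _ ≤ c / (8 * C1 * (8 * a * C : ℕ)) * (C1 * ((8 * a * C * X : ℕ) : ℝ)) := by
        apply mul_le_mul_of_nonneg_left t3
        positivity
    _ = c * X / 8 := by
        rw [Nat.cast_mul (8 * a * C) X]
        field_simp

end Pool.Agent.H85.OU
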