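import Pool.Agent.H85.OU.ILd
import Pool.Agent.H85.OU.ILe
import Pool.Agent.H85.OU.Dsc
import Pool.Agent.H85.OT.Wtr

/-!
# Row THC (project OU): the dichotomy for forms of all levels, integral coefficients and number fields

* `dichotomyL`: `core_ineqL` and `dichL` with `Z = Z0 f`, `O = Ord0 f` (`log_Z0_le` of `OT/Cden.lean`; the cardinality there is `cnt (Ord0 f) Y`, `Adich_card`).
* `dichotomy_OL`: same scheme as `dichotomy_O` in `OT/Wtr.lean`.  `O = 𝓞 E`, `a_r ≠ 0`, `β = m a_r⁻¹ ∈ O` with an integer `m ≠ 0`, `T(y) = Tr_(O/ℤ)(β y)`, `g = ∑ T(a_n) q^n ∈ ℤ⟦X⟧`: `g ≠ 0` (`T(a_r) = m [E:ℚ]`),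
  `g_0 = 0`; `Sl2R F p → Sl2 g p`, `Ord0 g p → Ord0R F p`; `Dich` is monotone.
  `LForm ℚ k (map g)`: let `Ω = AlgebraicClosure ℚ` (or `ℂ`), `F_E` the image of `F` in `E⟦X⟧`.  In `Ω⟦X⟧`: `map g = ∑_τ C (τ β) * map τ F_E`, `τ` over the embeddings `E →ₐ[ℚ] Ω`
  (`trace_eq_sum_embeddings`, `Algebra.coe_trace_int` / `algebraMap (trace ℤ O y) = trace ℚ E y`); each term is `LForm Ω k` (`LForm.map`, `LForm.smul`), so is the sum (`LForm.sum`, nonempty), and
  `LForm.descend` along `ℚ → Ω`.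
-/

open PowerSeries NumberField
open Pool.Agent.H85.OT

namespace Pool.Agent.H85.OU

theorem dichotomyL (f : ℤ⟦X⟧) (k : ℕ) (hk : 3 ≤ k)
    (hf : LForm ℚ k (PowerSeries.map (Int.castRingHom ℚ) f)) (hne : f ≠ 0)
    (h0 : PowerSeries.coeff 0 f = 0) : Dich (Sl2 f) (Ord0 f) := by
  obtain ⟨r, c3, hr, hc3, H⟩ := core_ineqL f k hk hf hne h0
  refine dichL (Sl2 f) (Ord0 f) (Z0 f) (fun Y hY => ?_) r c3 (k - 2) hr hc3 H
  have h := log_Z0_le f Y hY
  rwa [Adich_card] at h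

/-- `Dich` is monotone -/
theorem ThC_mono {S S' O O' : ℕ → Prop} (hS : ∀ p, S' p → S p) (hO : ∀ p, O p → O' p)
    (h : Dich S O) : Dich S' O' := by
  classical
  have hc : ∀ {P Q : ℕ → Prop}, (∀ p, P p → Q p) → ∀ x, (cnt P x : ℝ) ≤ cnt Q x := by
    intro P Q hPQ x
    unfold cnt
    refine Nat.cast_le.2 (Finset.card_le_card fun p hp => ?_)
    rw [Finset.mem_filter] at hp ⊢
    exact ⟨hp.1, hp.2.1, hPQ p hp.2.2⟩
  intro ε hε
  obtain ⟨K, hK, δ, hδ, X0, hX⟩ := h ε hε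
  refine ⟨K, hK, δ, hδ, X0, fun X hXX hw => ?_⟩
  exact (hX X hXX fun x h1 h2 => (hw x h1 h2).trans (hc hS x)).trans (hc hO _)

/-- the trace twisted by `β` -/
noncomputable def ThC_T (E : Type) [Field E] [NumberField E] (β : 𝓞 E) : 𝓞 E →ₗ[ℤ] ℤ :=
  (Algebra.trace ℤ (𝓞 E)).comp (LinearMap.mulLeft ℤ β)

theorem ThC_T_apply (E : Type) [Field E] [NumberField E] (β y : 𝓞 E) :
    ThC_T E β y = Algebra.trace ℤ (𝓞 E) (β * y) := rfl

theorem ThC_T_dvd (E : Type) [Field E] [NumberField E] (β y : 𝓞 E) (p v : ℕ)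
    (h : (p : 𝓞 E) ^ v ∣ y) : (p : ℤ) ^ v ∣ ThC_T E β y := by
  obtain ⟨z, rfl⟩ := h
  refine ⟨ThC_T E β z, ?_⟩
  have h1 : (p : 𝓞 E) ^ v * z = ((p : ℤ) ^ v) • z := by
    rw [zsmul_eq_mul]
    push_cast
    rfl
  rw [h1, map_smul, smul_eq_mul]

/-- the twisted trace series is a form -/
theorem ThC_form (E : Type) [Field E] [NumberField E] (F : (𝓞 E)⟦X⟧) (k : ℕ)
    (hF : LForm E k (PowerSeries.map (algebraMap (𝓞 E) E) F)) (β : 𝓞 E) :
    LForm ℚ k (PowerSeries.map (Int.castRingHom ℚ)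
      (PowerSeries.mk fun n => ThC_T E β (PowerSeries.coeff n F))) := by
  classical
  apply LForm.descend (algebraMap ℚ (AlgebraicClosure ℚ))
  have h1 : PowerSeries.map (algebraMap ℚ (AlgebraicClosure ℚ)) (PowerSeries.map (Int.castRingHom ℚ)
      (PowerSeries.mk fun n => ThC_T E β (PowerSeries.coeff n F))) =
      ∑ τ : E →ₐ[ℚ] AlgebraicClosure ℚ, PowerSeries.C (τ (β : E)) *
        PowerSeries.map (τ : E →+* AlgebraicClosure ℚ) (PowerSeries.map (algebraMap (𝓞 E) E) F) := by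
    ext n
    rw [PowerSeries.coeff_map, PowerSeries.coeff_map, PowerSeries.coeff_mk, _root_.map_sum]
    have h2 : ∀ τ : E →ₐ[ℚ] AlgebraicClosure ℚ, PowerSeries.coeff n (PowerSeries.C (τ (β : E)) *
        PowerSeries.map (τ : E →+* AlgebraicClosure ℚ) (PowerSeries.map (algebraMap (𝓞 E) E) F)) =
        τ ((β * PowerSeries.coeff n F : 𝓞 E) : E) := by
      intro τ
      rw [PowerSeries.coeff_C_mul, PowerSeries.coeff_map, PowerSeries.coeff_map]
      have h3 : ((β * PowerSeries.coeff n F : 𝓞 E) : E) =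
          (β : E) * algebraMap (𝓞 E) E (PowerSeries.coeff n F) := _root_.map_mul _ _ _
      rw [h3, _root_.map_mul]
      rfl
    rw [Finset.sum_congr rfl fun τ _ => h2 τ, ← trace_eq_sum_embeddings (K := ℚ) (L := E),
      ThC_T_apply, ← Algebra.coe_trace_int]
    rfl
  rw [h1]
  have hne : Nonempty (E →ₐ[ℚ] AlgebraicClosure ℚ) := ⟨IsAlgClosed.lift⟩
  exact LForm.sum _ Finset.univ_nonempty _ fun τ _ => (LForm.map _ hF).smul _

theorem dichotomy_OL (E : Type) [Field E] [NumberField E] (F : (𝓞 E)⟦X⟧) (k : ℕ) (hk : 3 ≤ k)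
    (hF : LForm E k (PowerSeries.map (algebraMap (𝓞 E) E) F)) (hne : F ≠ 0)
    (h0 : PowerSeries.coeff 0 F = 0) : Dich (Sl2R F) (Ord0R F) := by
  obtain ⟨r, hr⟩ : ∃ r, PowerSeries.coeff r F ≠ 0 := by
    by_contra hcon
    push Not at hcon
    exact hne (PowerSeries.ext fun n => by rw [hcon n, _root_.map_zero])
  obtain ⟨β, m, hm, hβ⟩ : ∃ (β : 𝓞 E) (m : ℤ), m ≠ 0 ∧
      β * PowerSeries.coeff r F = algebraMap ℤ (𝓞 E) m := by
    have h1 := Ideal.absNorm_mem (Ideal.span {PowerSeries.coeff r F})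
    obtain ⟨β, hβ⟩ := Ideal.mem_span_singleton'.1 h1
    refine ⟨β, (Ideal.absNorm (Ideal.span {PowerSeries.coeff r F}) : ℤ), ?_, ?_⟩
    · rw [Nat.cast_ne_zero]
      intro h2
      rw [Ideal.absNorm_eq_zero_iff, Ideal.span_singleton_eq_bot] at h2
      exact hr h2
    · rw [hβ]
      simp
  have hd := dichotomyL (PowerSeries.mk fun n => ThC_T E β (PowerSeries.coeff n F)) k hk
    (ThC_form E F k hF β) (fun h => ?_) (by rw [PowerSeries.coeff_mk, h0, _root_.map_zero])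
  · refine ThC_mono (fun p hp n hn hpn => ?_) (fun p hp => ?_) hd
    · rw [PowerSeries.coeff_mk]
      exact ThC_T_dvd E β _ p _ (hp n hn hpn)
    · obtain ⟨n, hn, h1⟩ := hp
      refine ⟨n, hn, fun h2 => h1 ?_⟩
      rw [PowerSeries.coeff_mk]
      exact ThC_T_dvd E β _ p _ h2
  · have h1 := congrArg (PowerSeries.coeff r) h
    rw [PowerSeries.coeff_mk, _root_.map_zero, ThC_T_apply, hβ, Algebra.trace_algebraMap,
      nsmul_eq_mul] at h1
    rcases mul_eq_zero.1 h1 with h2 | h2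
    · have h3 : 0 < Module.finrank ℤ (𝓞 E) := Module.finrank_pos
      have h4 : (Module.finrank ℤ (𝓞 E)) = 0 := by exact_mod_cast h2
      omega
    · exact hm h2

end Pool.Agent.H85.OU
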