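import Pool.Agent.H85.OU.UA
import Pool.Agent.H85.OT.Cbd

/-!
# Row CNV (project OU): elements of a level datum over `ℚ` converge in the unit disc

`Bd ρ B g`: all partial sums of `∑ |g_n| ρ^n` are `≤ B` (`OT/CDef.lean`, calculus in `OT/Cbd.lean`).
1. `U⁻¹` and `λ`.  `th3 · th4 = (dbl th4)²` (`dbl_th4_sq`).  Let `I3 = th3⁻¹, I4 = th4⁻¹` in `ℚ⟦X⟧`; inverting, `I3 I4 = (dbl I4)²`, so `I3 = th4 · (dbl I4)²`; the coefficients of `I4` are those of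
   `I3` up to sign (`th4(q) = th3(-q)`: `PowerSeries.rescale (-1)` / `evalNegHom`).  If `I3` is bounded (`∃ B, Bd`) at `ρ²` then `dbl I4` is bounded at `ρ`, hence `I3` is bounded at `ρ` (`Bd.mul`,
   `Cbd_bq4`).  And `I3` is bounded for `ρ ≤ 1/8`: `th3 = 1 - W`, `∑ |W_n| ρ^n ≤ 2ρ/(1-ρ) ≤ 1/2`, `I3 = 1 + W I3`, so the partial sums `s_N` of `∑ |I3_n| ρ^n` satisfy `s_N ≤ 1 + s_N/2`.
   For `ρ < 1` choose `j` with `ρ^(2^j) ≤ 1/8` and take square roots `j` times.  So `U⁻¹ = I3²`, `x = V U⁻¹`, `λ = 1 - x²` and all `P(λ)` are bounded for every `ρ < 1`.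
2. `LD ℚ r e`: `δ e_l = ∑ p_(l l')(λ) e_l'`, so `D e_l = ∑ M_(l l') e_l'`, `M_(l l') = U² p_(l l')(λ)`, `Bd` for every `ρ < 1`.  Coefficients: `n e_(l,n) = ∑_(l') ∑_(i+j = n) M_(l l'),i e_(l',j)`.
   Let `|e|_n = ∑_l |e_(l,n)|`, `μ_i = ∑_(l,l') |M_(l l'),i|`; `n |e|_n ≤ ∑_(i+j=n) μ_i |e|_j`.  For `n ≥ 2 μ_0`: `|e|_n ≤ (2/n) ∑_(i ≥ 1) μ_i |e|_(n-i)`.  Fix `ρ < 1`, `μ_i ≤ C ρ^(-i)`, and
   `θ > 1`.  Put `E_n = |e|_n ρ^n`: `E_n ≤ (2C/n) ∑_(j<n) E_j`.  With `E_j ≤ C' θ^j` for `j < n`: `E_n ≤ (2C/n) C' θ^n/(θ-1) ≤ C' θ^n` when `n ≥ 2C/(θ-1)`.  So for suitable `C'`,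
   `E_n ≤ C' θ^n` for all `n`, `|e|_n ≤ C' (θ/ρ)^n`.  Given `ρ' < 1`, take `ρ = (1+ρ')/2`.. and `θ` with `θ ρ'/ρ < 1`: `∑ |e|_n ρ'^n` converges.
3. `y = ∑ p_l(λ) e_l`.
-/

open PowerSeries
open Pool.Agent.H85.OT

namespace Pool.Agent.H85.OU

theorem Cnv_neg {ρ B : ℝ} {g : ℚ⟦X⟧} (hg : Bd ρ B g) : Bd ρ B (-g) := by
  intro N
  refine le_trans (le_of_eq (Finset.sum_congr rfl fun n _ => ?_)) (hg N)
  rw [map_neg, Rat.cast_neg, abs_neg]

theorem Cnv_dbl {ρ B : ℝ} (hρ : 0 < ρ) {g : ℚ⟦X⟧} (hg : Bd (ρ ^ 2) B g) : Bd ρ B (dbl ℚ g) := by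
  intro N
  have h2 : ∀ m, |((PowerSeries.coeff m (dbl ℚ g) : ℚ) : ℝ)| =
      if 2 ∣ m then |((PowerSeries.coeff (m / 2) g : ℚ) : ℝ)| else 0 := by
    intro m
    unfold dbl
    rw [PowerSeries.coeff_expand]
    split_ifs
    · rfl
    · simp
  simp only [h2]
  calc ∑ n ∈ Finset.range N, (if 2 ∣ n then |((PowerSeries.coeff (n / 2) g : ℚ) : ℝ)| else 0) * ρ ^ n
      ≤ ∑ m ∈ Finset.range (2 * N), (if 2 ∣ m then |((PowerSeries.coeff (m / 2) g : ℚ) : ℝ)| else 0) *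
          ρ ^ m := by
        refine Finset.sum_le_sum_of_subset_of_nonneg (Finset.range_mono (by omega)) fun m _ _ => ?_
        refine mul_nonneg ?_ (by positivity)
        split_ifs
        · exact abs_nonneg _
        · exact le_rfl
    _ = ∑ n ∈ Finset.range N, |((PowerSeries.coeff n g : ℚ) : ℝ)| * ρ ^ (2 * n) :=
        Cbd_even N (fun n => |((PowerSeries.coeff n g : ℚ) : ℝ)|) ρ
    _ = ∑ n ∈ Finset.range N, |((PowerSeries.coeff n g : ℚ) : ℝ)| * (ρ ^ 2) ^ n := by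
        refine Finset.sum_congr rfl fun n _ => ?_
        rw [pow_mul]
    _ ≤ B := hg N

theorem Cnv_c3 : PowerSeries.constantCoeff Cbd_q3 = 1 := by
  rw [Cbd_q3, ← PowerSeries.coeff_zero_eq_constantCoeff_apply, PowerSeries.coeff_map,
    PowerSeries.coeff_zero_eq_constantCoeff_apply, fld_c3, map_one]

theorem Cnv_c4 : PowerSeries.constantCoeff Cbd_q4 = 1 := by
  rw [Cbd_q4, ← PowerSeries.coeff_zero_eq_constantCoeff_apply, PowerSeries.coeff_map,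
    PowerSeries.coeff_zero_eq_constantCoeff_apply, fld_c4, map_one]

theorem Cnv_m3 : Cbd_q3 * Cbd_q3⁻¹ = 1 := by
  refine PowerSeries.mul_inv_cancel _ ?_
  rw [Cnv_c3]
  exact one_ne_zero

theorem Cnv_m4 : Cbd_q4 * Cbd_q4⁻¹ = 1 := by
  refine PowerSeries.mul_inv_cancel _ ?_
  rw [Cnv_c4]
  exact one_ne_zero

theorem Cnv_uniq {a b c : ℚ⟦X⟧} (hb : a * b = 1) (hc : a * c = 1) : b = c := by
  calc b = b * (a * c) := by rw [hc, mul_one]
    _ = (a * b) * c := by ring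
    _ = c := by rw [hb, one_mul]

theorem Cnv_dup : Cbd_q3⁻¹ = Cbd_q4 * (dbl ℚ Cbd_q4⁻¹) ^ 2 := by
  refine Cnv_uniq Cnv_m3 ?_
  have h1 : (dbl ℚ Cbd_q4) ^ 2 = Cbd_q3 * Cbd_q4 := by
    have h := congrArg (PowerSeries.map (Int.castRingHom ℚ)) dbl_th4_sq
    rw [map_pow, fld_map_dbl, map_mul] at h
    exact h
  have h2 : dbl ℚ Cbd_q4 * dbl ℚ Cbd_q4⁻¹ = 1 := by
    rw [← map_mul, Cnv_m4, map_one]
  calc Cbd_q3 * (Cbd_q4 * (dbl ℚ Cbd_q4⁻¹) ^ 2) = (Cbd_q3 * Cbd_q4) * (dbl ℚ Cbd_q4⁻¹) ^ 2 := by ring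
    _ = (dbl ℚ Cbd_q4 * dbl ℚ Cbd_q4⁻¹) ^ 2 := by rw [← h1]; ring
    _ = 1 := by rw [h2, one_pow]

theorem Cnv_resc : Cbd_q4⁻¹ = PowerSeries.rescale (-1 : ℚ) Cbd_q3⁻¹ := by
  refine Cnv_uniq Cnv_m4 ?_
  have h1 : Cbd_q4 = PowerSeries.rescale (-1 : ℚ) Cbd_q3 := by
    ext n
    unfold Cbd_q4 Cbd_q3 th4
    rw [PowerSeries.coeff_rescale, PowerSeries.coeff_map, PowerSeries.coeff_map, PowerSeries.coeff_mk]
    simp
  rw [h1, ← map_mul, Cnv_m3, map_one]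

theorem Cnv_4of3 {ρ B : ℝ} (h : Bd ρ B Cbd_q3⁻¹) : Bd ρ B Cbd_q4⁻¹ := by
  intro N
  refine le_trans (le_of_eq (Finset.sum_congr rfl fun n _ => ?_)) (h N)
  rw [Cnv_resc, PowerSeries.coeff_rescale, Rat.cast_mul, abs_mul]
  have : |(((-1 : ℚ) ^ n : ℚ) : ℝ)| = 1 := by
    push_cast
    rw [abs_pow, abs_neg, abs_one, one_pow]
  rw [this, one_mul]

theorem Cnv_step {ρ : ℝ} (hρ : 0 < ρ) (hρ1 : ρ < 1) (h : ∃ B, Bd (ρ ^ 2) B Cbd_q3⁻¹) :
    ∃ B, Bd ρ B Cbd_q3⁻¹ := by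
  obtain ⟨B, hB⟩ := h
  rw [Cnv_dup]
  exact ⟨_, (Cbd_bq4 hρ hρ1).mul hρ ((Cnv_dbl hρ (Cnv_4of3 hB)).pow hρ 2)⟩

/-- the coefficients of `θ₃⁻¹` are at most `4^n` -/
theorem Cnv_coeff (n : ℕ) : |((PowerSeries.coeff n Cbd_q3⁻¹ : ℚ) : ℝ)| ≤ 4 ^ n := by
  induction n using Nat.strong_induction_on with
  | _ n ih =>
    rcases Nat.eq_zero_or_pos n with h0 | h0
    · subst h0
      rw [PowerSeries.coeff_zero_eq_constantCoeff, PowerSeries.constantCoeff_inv, Cnv_c3]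
      simp
    · have h1 := congrArg (PowerSeries.coeff n) Cnv_m3
      rw [PowerSeries.coeff_mul, PowerSeries.coeff_one, if_neg h0.ne',
        Finset.Nat.sum_antidiagonal_eq_sum_range_succ
          (fun i j => PowerSeries.coeff i Cbd_q3 * PowerSeries.coeff j Cbd_q3⁻¹),
        Finset.sum_range_succ'] at h1
      rw [PowerSeries.coeff_zero_eq_constantCoeff, Cnv_c3, one_mul, Nat.sub_zero] at h1
      have h2 : PowerSeries.coeff n Cbd_q3⁻¹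
          = -∑ k ∈ Finset.range n, PowerSeries.coeff (k + 1) Cbd_q3 * PowerSeries.coeff (n - (k + 1)) Cbd_q3⁻¹ := by
        linarith
      rw [h2, Rat.cast_neg, abs_neg, Rat.cast_sum]
      refine (Finset.abs_sum_le_sum_abs _ _).trans ?_
      have h3 : ∀ k ∈ Finset.range n,
          |((PowerSeries.coeff (k + 1) Cbd_q3 * PowerSeries.coeff (n - (k + 1)) Cbd_q3⁻¹ : ℚ) : ℝ)|
            ≤ 2 * 4 ^ (n - 1 - k) := by
        intro k hk
        have hk' := Finset.mem_range.1 hk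
        rw [Rat.cast_mul, abs_mul]
        have a1 : |((PowerSeries.coeff (k + 1) Cbd_q3 : ℚ) : ℝ)| ≤ 2 := by
          unfold Cbd_q3
          rw [PowerSeries.coeff_map]
          have := Cbd_c3 (k + 1)
          rw [eq_intCast, Rat.cast_intCast]
          exact_mod_cast this
        have a2 := ih (n - (k + 1)) (by omega)
        have e : n - (k + 1) = n - 1 - k := by omega
        rw [e] at a2 ⊢
        exact mul_le_mul a1 a2 (abs_nonneg _) (by norm_num)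
      refine (Finset.sum_le_sum h3).trans ?_
      have h4 : ∑ k ∈ Finset.range n, (2 : ℝ) * 4 ^ (n - 1 - k) = ∑ k ∈ Finset.range n, 2 * 4 ^ k :=
        Finset.sum_range_reflect (fun k => (2 : ℝ) * 4 ^ k) n
      rw [h4, ← Finset.mul_sum, geom_sum_eq (by norm_num)]
      have : (0 : ℝ) < 4 ^ n := by positivity
      linarith

theorem Cnv_small {ρ : ℝ} (hρ : 0 < ρ) (hρ1 : ρ ≤ 1 / 8) : ∃ B, Bd ρ B Cbd_q3⁻¹ := by
  refine ⟨2, fun N => ?_⟩
  have h1 : ∑ n ∈ Finset.range N, |((PowerSeries.coeff n Cbd_q3⁻¹ : ℚ) : ℝ)| * ρ ^ n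
      ≤ ∑ n ∈ Finset.range N, (1 / 2 : ℝ) ^ n := by
    refine Finset.sum_le_sum fun n _ => ?_
    calc |((PowerSeries.coeff n Cbd_q3⁻¹ : ℚ) : ℝ)| * ρ ^ n ≤ 4 ^ n * (1 / 8) ^ n :=
          mul_le_mul (Cnv_coeff n) (pow_le_pow_left₀ hρ.le hρ1 n) (by positivity) (by positivity)
      _ = (1 / 2 : ℝ) ^ n := by rw [← mul_pow]; norm_num
  refine h1.trans ?_
  rw [geom_sum_eq (by norm_num)]
  have : (0 : ℝ) < (1 / 2) ^ N := by positivity
  have e : ((1 / 2 : ℝ) ^ N - 1) / (1 / 2 - 1) = 2 - 2 * (1 / 2) ^ N := by ring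
  rw [e]
  linarith

theorem Cnv_all (j : ℕ) : ∀ ρ : ℝ, 0 < ρ → ρ < 1 → ρ ^ (2 ^ j) ≤ 1 / 8 → ∃ B, Bd ρ B Cbd_q3⁻¹ := by
  induction j with
  | zero =>
    intro ρ h0 _ h
    rw [pow_zero, pow_one] at h
    exact Cnv_small h0 h
  | succ j ih =>
    intro ρ h0 h1 h
    refine Cnv_step h0 h1 (ih (ρ ^ 2) (by positivity) (pow_lt_one₀ h0.le h1 two_ne_zero) ?_)
    rw [← pow_mul, ← pow_succ']
    exact h

theorem Cnv_q3 {ρ : ℝ} (hρ : 0 < ρ) (hρ1 : ρ < 1) : ∃ B, Bd ρ B Cbd_q3⁻¹ := by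
  obtain ⟨n, hn⟩ := exists_pow_lt_of_lt_one (show (0 : ℝ) < 1 / 8 by norm_num) hρ1
  refine Cnv_all n ρ hρ hρ1 (le_trans ?_ hn.le)
  exact pow_le_pow_of_le_one hρ.le hρ1.le Nat.lt_two_pow_self.le

theorem Bd_Uinv {ρ : ℝ} (hρ : 0 < ρ) (hρ1 : ρ < 1) : ∃ B, Bd ρ B (U ℚ)⁻¹ := by
  obtain ⟨B, hB⟩ := Cnv_q3 hρ hρ1
  have h1 : (U ℚ)⁻¹ = Cbd_q3⁻¹ ^ 2 := by
    refine Cnv_uniq (U_mul_inv (K := ℚ)) ?_
    have h2 : U ℚ = Cbd_q3 ^ 2 := by
      unfold U Cbd_q3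
      rw [map_pow]
    rw [h2, ← mul_pow, Cnv_m3, one_pow]
  rw [h1]
  exact ⟨_, hB.pow hρ 2⟩

theorem Bd_lam {ρ : ℝ} (hρ : 0 < ρ) (hρ1 : ρ < 1) : ∃ B, Bd ρ B (lam ℚ) := by
  obtain ⟨B, hB⟩ := Bd_Uinv hρ hρ1
  unfold lam xx
  rw [sub_eq_add_neg]
  exact ⟨_, (Cbd_one (ρ := ρ)).add hρ (Cnv_neg (((Bd_V hρ hρ1).mul hρ hB).pow hρ 2))⟩

theorem Cnv_evl {ρ : ℝ} (hρ : 0 < ρ) (hρ1 : ρ < 1) (P : Polynomial ℚ) : ∃ B, Bd ρ B (evl ℚ P) := by
  obtain ⟨B, hB⟩ := Bd_lam hρ hρ1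
  have : evl ℚ P = ∑ i ∈ Finset.range (P.natDegree + 1), PowerSeries.C (P.coeff i) * lam ℚ ^ i := by
    unfold evl
    rw [Polynomial.aeval_eq_sum_range]
    refine Finset.sum_congr rfl fun i _ => ?_
    rw [PowerSeries.smul_eq_C_mul]
  rw [this]
  exact Cbd_sum hρ _ _ fun i _ => ⟨_, (Cbd_C (ρ := ρ) (P.coeff i)).mul hρ (hB.pow hρ i)⟩

/-- a differential inequality for sequences -/
theorem Cnv_seq {a μ : ℕ → ℝ} (ha : ∀ n, 0 ≤ a n)
    (h : ∀ n : ℕ, (n : ℝ) * a n ≤ ∑ p ∈ Finset.HasAntidiagonal.antidiagonal n, μ p.1 * a p.2)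
    {ρ C θ : ℝ} (hρ : 0 < ρ) (hC : 0 ≤ C) (hμC : ∀ i, μ i * ρ ^ i ≤ C) (hθ : 1 < θ) :
    ∃ C' : ℝ, 0 ≤ C' ∧ ∀ n, a n * ρ ^ n ≤ C' * θ ^ n := by
  set E : ℕ → ℝ := fun n => a n * ρ ^ n with hE
  have hE0 : ∀ n, 0 ≤ E n := fun n => mul_nonneg (ha n) (by positivity)
  have h1 : ∀ n : ℕ, (n : ℝ) * E n ≤ C * E n + C * ∑ j ∈ Finset.range n, E j := by
    intro n
    calc (n : ℝ) * E n = ((n : ℝ) * a n) * ρ ^ n := by rw [hE]; ring
      _ ≤ (∑ p ∈ Finset.HasAntidiagonal.antidiagonal n, μ p.1 * a p.2) * ρ ^ n :=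
          mul_le_mul_of_nonneg_right (h n) (by positivity)
      _ = ∑ p ∈ Finset.HasAntidiagonal.antidiagonal n, (μ p.1 * ρ ^ p.1) * E p.2 := by
          rw [Finset.sum_mul]
          refine Finset.sum_congr rfl fun p hp => ?_
          rw [← Finset.HasAntidiagonal.mem_antidiagonal.1 hp, pow_add, hE]
          ring
      _ ≤ ∑ p ∈ Finset.HasAntidiagonal.antidiagonal n, C * E p.2 :=
          Finset.sum_le_sum fun p _ => mul_le_mul_of_nonneg_right (hμC p.1) (hE0 _)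
      _ = C * ∑ j ∈ Finset.range (n + 1), E j := by
          rw [← Finset.mul_sum, Finset.Nat.sum_antidiagonal_eq_sum_range_succ (fun _ j => E j)]
          congr 1
          have := Finset.sum_range_reflect (fun j => E j) (n + 1)
          rw [← this]
          refine Finset.sum_congr rfl fun j _ => ?_
          rw [Nat.add_sub_cancel]
      _ = _ := by rw [Finset.sum_range_succ]; ring
  obtain ⟨n0, hn0⟩ := exists_nat_gt (C + C / (θ - 1))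
  have hθ1 : 0 < θ - 1 := by linarith
  refine ⟨∑ j ∈ Finset.range n0, E j, Finset.sum_nonneg fun j _ => hE0 j, fun n => ?_⟩
  set C' := ∑ j ∈ Finset.range n0, E j with hC'
  have hC'0 : 0 ≤ C' := Finset.sum_nonneg fun j _ => hE0 j
  show E n ≤ C' * θ ^ n
  induction n using Nat.strong_induction_on with
  | _ n ih =>
    rcases lt_or_ge n n0 with hn | hn
    · have a1 : E n ≤ C' :=
        Finset.single_le_sum (f := E) (fun j _ => hE0 j) (Finset.mem_range.2 hn)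
      exact a1.trans (le_mul_of_one_le_right hC'0 (one_le_pow₀ hθ.le))
    · have hn' : (n0 : ℝ) ≤ n := by exact_mod_cast hn
      have hq : 0 ≤ C / (θ - 1) := div_nonneg hC hθ1.le
      have hpos : 0 < (n : ℝ) - C := by linarith
      have h2 : ∑ j ∈ Finset.range n, E j ≤ C' * θ ^ n / (θ - 1) := by
        calc ∑ j ∈ Finset.range n, E j ≤ ∑ j ∈ Finset.range n, C' * θ ^ j :=
              Finset.sum_le_sum fun j hj => ih j (Finset.mem_range.1 hj)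
          _ = C' * ((θ ^ n - 1) / (θ - 1)) := by
              rw [← Finset.mul_sum, geom_sum_eq hθ.ne']
          _ ≤ C' * (θ ^ n / (θ - 1)) := by
              refine mul_le_mul_of_nonneg_left ?_ hC'0
              exact div_le_div_of_nonneg_right (by linarith) hθ1.le
          _ = _ := by ring
      have h3 : ((n : ℝ) - C) * E n ≤ ((n : ℝ) - C) * (C' * θ ^ n) := by
        have h4 := h1 n
        have h5 := mul_le_mul_of_nonneg_left h2 hC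
        have h6 : C * (C' * θ ^ n / (θ - 1)) = C / (θ - 1) * (C' * θ ^ n) := by ring
        have h7 : 0 ≤ C' * θ ^ n := by positivity
        have h8 : C / (θ - 1) * (C' * θ ^ n) ≤ ((n : ℝ) - C) * (C' * θ ^ n) :=
          mul_le_mul_of_nonneg_right (by linarith) h7
        linarith
      exact le_of_mul_le_mul_left h3 hpos

theorem Cnv_gen {r : ℕ} {e : Fin r → ℚ⟦X⟧} (h : LD ℚ r e) {ρ : ℝ} (hρ : 0 < ρ) (hρ1 : ρ < 1) (l : Fin r) :
    ∃ B, Bd ρ B (e l) := by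
  choose p hp using fun l => h.del l
  set M : Fin r → Fin r → ℚ⟦X⟧ := fun l l' => U ℚ ^ 2 * evl ℚ (p l l') with hM
  have hD : ∀ l, Dq ℚ (e l) = ∑ l', M l l' * e l' := by
    intro l
    rw [MPg_Dq, hp l, Finset.mul_sum]
    refine Finset.sum_congr rfl fun l' _ => ?_
    rw [hM]
    ring
  set σ : ℝ := Real.sqrt ρ with hσ
  have hσ0 : 0 < σ := Real.sqrt_pos.2 hρ
  have hσσ : σ * σ = ρ := Real.mul_self_sqrt hρ.le
  have hσ1 : σ < 1 := by nlinarith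
  set a : ℕ → ℝ := fun n => ∑ l, |((PowerSeries.coeff n (e l) : ℚ) : ℝ)| with ha
  set μ : ℕ → ℝ := fun n => ∑ l, ∑ l', |((PowerSeries.coeff n (M l l') : ℚ) : ℝ)| with hμ
  have ha0 : ∀ n, 0 ≤ a n := fun n => Finset.sum_nonneg fun _ _ => abs_nonneg _
  have hrec : ∀ n : ℕ, (n : ℝ) * a n ≤ ∑ q ∈ Finset.HasAntidiagonal.antidiagonal n, μ q.1 * a q.2 := by
    intro n
    have e1 : ∀ l, (n : ℝ) * |((PowerSeries.coeff n (e l) : ℚ) : ℝ)|
        ≤ ∑ q ∈ Finset.HasAntidiagonal.antidiagonal n,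
          (∑ l', |((PowerSeries.coeff q.1 (M l l') : ℚ) : ℝ)|) * a q.2 := by
      intro l
      have e2 := congrArg (PowerSeries.coeff n) (hD l)
      rw [coeff_Dq, map_sum] at e2
      have e3 : (n : ℝ) * |((PowerSeries.coeff n (e l) : ℚ) : ℝ)|
          = |(((n : ℚ) * PowerSeries.coeff n (e l) : ℚ) : ℝ)| := by
        rw [Rat.cast_mul, abs_mul, Rat.cast_natCast, Nat.abs_cast]
      rw [e3, e2, Rat.cast_sum]
      calc |∑ l', ((PowerSeries.coeff n (M l l' * e l') : ℚ) : ℝ)|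
          ≤ ∑ l', |((PowerSeries.coeff n (M l l' * e l') : ℚ) : ℝ)| := Finset.abs_sum_le_sum_abs _ _
        _ ≤ ∑ l', ∑ q ∈ Finset.HasAntidiagonal.antidiagonal n,
              |((PowerSeries.coeff q.1 (M l l') : ℚ) : ℝ)| * |((PowerSeries.coeff q.2 (e l') : ℚ) : ℝ)| := by
            refine Finset.sum_le_sum fun l' _ => ?_
            rw [PowerSeries.coeff_mul, Rat.cast_sum]
            refine (Finset.abs_sum_le_sum_abs _ _).trans (le_of_eq (Finset.sum_congr rfl fun q _ => ?_))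
            rw [Rat.cast_mul, abs_mul]
        _ ≤ ∑ l', ∑ q ∈ Finset.HasAntidiagonal.antidiagonal n,
              |((PowerSeries.coeff q.1 (M l l') : ℚ) : ℝ)| * a q.2 := by
            refine Finset.sum_le_sum fun l' _ => Finset.sum_le_sum fun q _ => ?_
            refine mul_le_mul_of_nonneg_left ?_ (abs_nonneg _)
            exact Finset.single_le_sum (f := fun l => |((PowerSeries.coeff q.2 (e l) : ℚ) : ℝ)|)
              (fun _ _ => abs_nonneg _) (Finset.mem_univ l')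
        _ = _ := by
            rw [Finset.sum_comm]
            refine Finset.sum_congr rfl fun q _ => ?_
            rw [Finset.sum_mul]
    calc (n : ℝ) * a n = ∑ l, (n : ℝ) * |((PowerSeries.coeff n (e l) : ℚ) : ℝ)| := by
          rw [ha, Finset.mul_sum]
      _ ≤ ∑ l, ∑ q ∈ Finset.HasAntidiagonal.antidiagonal n,
          (∑ l', |((PowerSeries.coeff q.1 (M l l') : ℚ) : ℝ)|) * a q.2 := Finset.sum_le_sum fun l _ => e1 l
      _ = _ := by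
          rw [Finset.sum_comm]
          refine Finset.sum_congr rfl fun q _ => ?_
          rw [hμ, Finset.sum_mul]
  have hC : ∃ C : ℝ, 0 ≤ C ∧ ∀ i, μ i * σ ^ i ≤ C := by
    have hB : ∀ l l', ∃ B, Bd σ B (M l l') := by
      intro l l'
      obtain ⟨B, hB⟩ := Cnv_evl hσ0 hσ1 (p l l')
      exact ⟨_, ((Bd_U hσ0 hσ1).pow hσ0 2).mul hσ0 hB⟩
    choose B hB using hB
    refine ⟨∑ l, ∑ l', B l l', Finset.sum_nonneg fun l _ => Finset.sum_nonneg fun l' _ => (hB l l').nonneg,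
      fun i => ?_⟩
    rw [hμ, Finset.sum_mul]
    refine Finset.sum_le_sum fun l _ => ?_
    rw [Finset.sum_mul]
    refine Finset.sum_le_sum fun l' _ => ?_
    refine le_trans ?_ (hB l l' (i + 1))
    exact Finset.single_le_sum (f := fun n => |((PowerSeries.coeff n (M l l') : ℚ) : ℝ)| * σ ^ n)
      (fun n _ => by positivity) (Finset.mem_range.2 (Nat.lt_succ_self i))
  obtain ⟨C, hC0, hC⟩ := hC
  have hθ : 1 < (1 + σ) / (2 * σ) := by
    rw [lt_div_iff₀ (by positivity)]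
    linarith
  obtain ⟨C', hC'0, hC'⟩ := Cnv_seq ha0 hrec hσ0 hC0 hC hθ
  refine ⟨C' * (1 - (1 + σ) / 2)⁻¹, fun N => ?_⟩
  have h1 : ∑ n ∈ Finset.range N, |((PowerSeries.coeff n (e l) : ℚ) : ℝ)| * ρ ^ n
      ≤ ∑ n ∈ Finset.range N, C' * ((1 + σ) / 2) ^ n := by
    refine Finset.sum_le_sum fun n _ => ?_
    have b1 : |((PowerSeries.coeff n (e l) : ℚ) : ℝ)| ≤ a n :=
      Finset.single_le_sum (f := fun l => |((PowerSeries.coeff n (e l) : ℚ) : ℝ)|)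
        (fun _ _ => abs_nonneg _) (Finset.mem_univ l)
    calc |((PowerSeries.coeff n (e l) : ℚ) : ℝ)| * ρ ^ n ≤ a n * ρ ^ n :=
          mul_le_mul_of_nonneg_right b1 (by positivity)
      _ = (a n * σ ^ n) * σ ^ n := by rw [← hσσ, mul_pow]; ring
      _ ≤ (C' * ((1 + σ) / (2 * σ)) ^ n) * σ ^ n :=
          mul_le_mul_of_nonneg_right (hC' n) (by positivity)
      _ = C' * (((1 + σ) / (2 * σ)) * σ) ^ n := by rw [mul_pow]; ring
      _ = C' * ((1 + σ) / 2) ^ n := by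
          congr 2
          field_simp
  refine h1.trans ?_
  rw [← Finset.mul_sum]
  refine mul_le_mul_of_nonneg_left ?_ hC'0
  have h2 : (1 + σ) / 2 < 1 := by linarith
  have h3 : 0 ≤ (1 + σ) / 2 := by positivity
  rw [← tsum_geometric_of_lt_one h3 h2]
  exact (summable_geometric_of_lt_one h3 h2).sum_le_tsum _ (fun n _ => by positivity)

theorem Bd_of_LD {r : ℕ} {e : Fin r → ℚ⟦X⟧} (h : LD ℚ r e) {y : ℚ⟦X⟧} (hy : y ∈ SP ℚ e)
    {ρ : ℝ} (hρ : 0 < ρ) (hρ1 : ρ < 1) : ∃ B, Bd ρ B y := by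
  obtain ⟨p, rfl⟩ := hy
  refine Cbd_sum hρ _ _ fun l _ => ?_
  obtain ⟨B1, h1⟩ := Cnv_evl hρ hρ1 (p l)
  obtain ⟨B2, h2⟩ := Cnv_gen h hρ hρ1 l
  exact ⟨_, h1.mul hρ h2⟩

/-- the primitives of a form converge in the unit disc -/
theorem exists_Bd_FL {k : ℕ} {f : ℤ⟦X⟧} (hf : LForm ℚ k (PowerSeries.map (Int.castRingHom ℚ) f))
    {ρ : ℝ} (hρ : 0 < ρ) (hρ1 : ρ < 1) :
    ∃ B : ℝ, 1 ≤ B ∧ Bd ρ B (F1 f) ∧ Bd ρ B (F2 f) := by
  obtain ⟨r, e, hLD, hy, -, -, -⟩ := hf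
  obtain ⟨B0, h0⟩ := Bd_of_LD hLD hy hρ hρ1
  have h00 := h0.mul hρ ((Bd_U hρ hρ1).pow hρ k)
  have e1 : PowerSeries.map (Int.castRingHom ℚ) f * (U ℚ)⁻¹ ^ k * U ℚ ^ k
      = PowerSeries.map (Int.castRingHom ℚ) f := by
    rw [mul_assoc, ← mul_pow, mul_comm (U ℚ)⁻¹, U_mul_inv, one_pow, mul_one]
  rw [e1] at h00
  set B := B0 * MR ρ ^ k with hB
  have h1 : Bd ρ (max 1 B) (F1 f) := by
    intro N
    refine le_trans (Finset.sum_le_sum fun n _ => ?_) ((h00 N).trans (le_max_right 1 B))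
    refine mul_le_mul_of_nonneg_right ?_ (by positivity)
    unfold F1
    rw [PowerSeries.coeff_mk, Rat.cast_div, Rat.cast_intCast, Rat.cast_natCast, abs_div,
      Nat.abs_cast, PowerSeries.coeff_map, eq_intCast, Rat.cast_intCast]
    rcases Nat.eq_zero_or_pos n with h0 | h0
    · rw [h0, Nat.cast_zero, div_zero]
      exact abs_nonneg _
    · exact div_le_self (abs_nonneg _) (by exact_mod_cast h0)
  refine ⟨max 1 B, le_max_left _ _, h1, ?_⟩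
  unfold F2
  refine Cnv_dbl hρ fun N => le_trans (Finset.sum_le_sum fun n _ => ?_) (h1 N)
  refine mul_le_mul_of_nonneg_left ?_ (abs_nonneg _)
  rw [← pow_mul]
  exact pow_le_pow_of_le_one hρ.le hρ1.le (by omega)

end Pool.Agent.H85.OU
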