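import Pool.Agent.H85.OU.UDef

/-!
# Row BOL (project OU): the algebraic Bol identity

`R` a commutative ring with derivation `d`, `g ∈ R`; `∂ = dext d (C g - X²)` on `R[X]` (`X` plays the role of `z`), and for an integer `w`
`nab w P = ∂P + w X P`.  `nabs κ n a = nab (-κ + 2(n-1)) .. nab (-κ + 2) (nab (-κ) (C a))` (`n` factors).
* Commutation: `(nab w P)' = nab (w-2) (P') + w P` (`'` = derivative in `X`): `(∂P)' = ∂(P') - 2 X P'`, `(w X P)' = w P + w X P'`
  (`(∂P)' = (mapc d P)' + ((C g - X²) P')' = mapc d P' + (C g - X²) P'' - 2 X P'`).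
* Hence by induction `(nabs κ n a)' = n (n - 1 - κ) nabs' ..`: precisely let `Q_n = nabs κ n a` and `Q_n^-` the same with all weights lowered:
  it is easiest to prove: `(nabs κ n a)' = n(n-1-κ) * nabs κ (n-1) a` for `n ≥ 1`:
  `(Q_(n+1))' = nab (w-2) (Q_n') + w Q_n`, `w = -κ + 2n`, `Q_n' = n(n-1-κ) Q_(n-1)` and `nab (w-2) Q_(n-1) = Q_n` (`w - 2 = -κ + 2(n-1)`), so
  `(Q_(n+1))' = (n(n-1-κ) - κ + 2n) Q_n = (n+1)(n-κ) Q_n`.
* `bol_alg`: `n = κ + 1`: derivative `0`; in characteristic zero (no `ℕ`-torsion) `Q_(κ+1)` is a constant `C b`.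
* leading coefficients: coefficient of `X^(j+1)` in `nab w P` with `natDegree P ≤ j` is `(w - j) P_j`; so coefficient `κ` of
  `nabs κ κ a` is `∏_(i<κ) (-κ + 2i - i) a = (-1)^κ κ! a`, and `natDegree ≤ κ`.
* `bol_unique` (`R = L` a field of characteristic `0`, `κ ≥ 1`): if `P ≠ 0` and `nab κ P = C s` then `natDegree P = κ` (coefficient of `X^(d+1)`,
  `d = natDegree P`: `(κ - d) P_d = 0`).  Let `a = P_κ` (nonzero if `P ≠ 0`).  `Y = (-1)^κ κ! P - nabs κ κ a` has `natDegree ≤ κ`, coefficient
  `κ` zero and `nab κ Y = C (..)` by `bol_alg`; so `Y = 0`, and applying `nab κ`: `nabs κ (κ+1) a = C ((-1)^κ κ! s)`.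
-/

open PowerSeries
open Pool.Agent.H85.OT

namespace Pool.Agent.H85.OU

/-- `∂P + w X P` -/
noncomputable def nab {R : Type*} [CommRing R] (d : Dv R) (g : R) (w : ℤ) (P : Polynomial R) :
    Polynomial R :=
  dext d (Polynomial.C g - Polynomial.X ^ 2) P + (w : Polynomial R) * Polynomial.X * P

/-- `n`-fold derivative of a form of weight `-κ` -/
noncomputable def nabs {R : Type*} [CommRing R] (d : Dv R) (g : R) (κ : ℕ) : ℕ → R → Polynomial R
  | 0, a => Polynomial.C a
  | n + 1, a => nab d g (-(κ : ℤ) + 2 * n) (nabs d g κ n a)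

private lemma Bol_intCast {R : Type*} [CommRing R] (d : Dv R) (n : ℤ) : d (n : R) = 0 := by
  rcases Int.eq_nat_or_neg n with ⟨m, rfl | rfl⟩
  · simpa using d.map_natCast m
  · rw [Int.cast_neg, d.map_neg, Int.cast_natCast, d.map_natCast, neg_zero]

private lemma Bol_nab_int {R : Type*} [CommRing R] (d : Dv R) (g : R) (w c : ℤ)
    (P : Polynomial R) :
    nab d g w ((c : Polynomial R) * P) = (c : Polynomial R) * nab d g w P := by
  unfold nab
  rw [Dv.map_mul]
  have h : dext d (Polynomial.C g - Polynomial.X ^ 2) ((c : ℤ) : Polynomial R) = 0 :=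
    Bol_intCast _ c
  rw [h]
  ring

private lemma Bol_nab_zero {R : Type*} [CommRing R] (d : Dv R) (g : R) (w : ℤ) :
    nab d g w (0 : Polynomial R) = 0 := by
  unfold nab
  rw [Dv.map_zero]
  simp

private lemma Bol_nab_sub {R : Type*} [CommRing R] (d : Dv R) (g : R) (w : ℤ)
    (P Q : Polynomial R) : nab d g w (P - Q) = nab d g w P - nab d g w Q := by
  unfold nab
  rw [Dv.map_sub]
  ring

private lemma Bol_deriv_mapc {R : Type*} [CommRing R] (d : Dv R) (P : Polynomial R) :
    Polynomial.derivative (mapc d P) = mapc d (Polynomial.derivative P) := by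
  ext i
  rw [Polynomial.coeff_derivative, coeff_mapc, coeff_mapc, Polynomial.coeff_derivative,
    d.map_mul]
  have h : d ((i : R) + 1) = 0 := by
    have := d.map_natCast (i + 1)
    push_cast at this
    exact this
  rw [h]
  ring

private lemma Bol_nab_deriv {R : Type*} [CommRing R] (d : Dv R) (g : R) (w : ℤ)
    (P : Polynomial R) :
    Polynomial.derivative (nab d g w P) =
      nab d g (w - 2) (Polynomial.derivative P) + (w : Polynomial R) * P := by
  unfold nab
  rw [dext_apply, dext_apply, Polynomial.derivative_add, Polynomial.derivative_add,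
    Bol_deriv_mapc, Polynomial.derivative_mul, Polynomial.derivative_mul,
    Polynomial.derivative_mul]
  simp only [Polynomial.derivative_sub, Polynomial.derivative_C, Polynomial.derivative_X_pow,
    Polynomial.derivative_X, Polynomial.derivative_intCast]
  have h2 : (Polynomial.C (((2 : ℕ) : R)) : Polynomial R) = 2 := by
    rw [Polynomial.C_eq_natCast]; rfl
  rw [h2]
  push_cast
  ring

private lemma Bol_nabs_deriv {R : Type*} [CommRing R] (d : Dv R) (g : R) (κ : ℕ) (a : R)
    (n : ℕ) : Polynomial.derivative (nabs d g κ (n + 1) a) =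
      ((((n : ℤ) + 1) * ((n : ℤ) - κ) : ℤ) : Polynomial R) * nabs d g κ n a := by
  induction n with
  | zero =>
    show Polynomial.derivative (nab d g (-(κ : ℤ) + 2 * (0 : ℕ)) (Polynomial.C a)) = _
    rw [Bol_nab_deriv, Polynomial.derivative_C, Bol_nab_zero]
    simp [nabs]
  | succ n ih =>
    show Polynomial.derivative (nab d g (-(κ : ℤ) + 2 * ((n + 1 : ℕ) : ℤ))
      (nabs d g κ (n + 1) a)) = _
    rw [Bol_nab_deriv, ih, Bol_nab_int]
    have h1 : (-(κ : ℤ) + 2 * ((n + 1 : ℕ) : ℤ) - 2) = -(κ : ℤ) + 2 * n := by push_cast; ring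
    have h2 : nab d g (-(κ : ℤ) + 2 * n) (nabs d g κ n a) = nabs d g κ (n + 1) a := rfl
    rw [h1, h2]
    push_cast
    ring

private lemma Bol_coeff {R : Type*} [CommRing R] (d : Dv R) (g : R) (w : ℤ)
    (P : Polynomial R) (j : ℕ) (hP : P.natDegree ≤ j) :
    (nab d g w P).coeff (j + 1) = ((w : R) - j) * P.coeff j ∧
      (nab d g w P).natDegree ≤ j + 1 := by
  have hz : ∀ m, j < m → P.coeff m = 0 := fun m hm =>
    Polynomial.coeff_eq_zero_of_natDegree_lt (lt_of_le_of_lt hP hm)
  have hgen : ∀ m : ℕ, (nab d g w P).coeff (m + 1) = d (P.coeff (m + 1)) +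
      (g * (P.coeff (m + 2) * ((m : R) + 2)) - (m : R) * P.coeff m) + (w : R) * P.coeff m := by
    intro m
    unfold nab
    rw [Polynomial.coeff_add, coeff_dext, sub_mul, Polynomial.coeff_sub, Polynomial.coeff_C_mul,
      Polynomial.coeff_derivative]
    have h1 : (Polynomial.X ^ 2 * Polynomial.derivative P).coeff (m + 1) = (m : R) * P.coeff m := by
      rw [pow_two, mul_assoc, Polynomial.coeff_X_mul]
      rcases m with _ | m
      · simp
      · rw [Polynomial.coeff_X_mul, Polynomial.coeff_derivative]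
        push_cast; ring
    have h2 : ((w : Polynomial R) * Polynomial.X * P).coeff (m + 1) = (w : R) * P.coeff m := by
      have : ((w : ℤ) : Polynomial R) = Polynomial.C (w : R) := by simp
      rw [this, mul_assoc, Polynomial.coeff_C_mul, Polynomial.coeff_X_mul]
    rw [h1, h2]
    push_cast
    ring_nf
  constructor
  · rw [hgen, hz (j + 1) (by omega), hz (j + 2) (by omega), d.map_zero]
    ring
  · rw [Polynomial.natDegree_le_iff_coeff_eq_zero]
    intro m hm
    obtain ⟨m', rfl⟩ : ∃ m', m = m' + 1 := ⟨m - 1, by omega⟩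
    rw [hgen, hz (m' + 1) (by omega), hz (m' + 2) (by omega), hz m' (by omega), d.map_zero]
    ring

private lemma Bol_lead {R : Type*} [CommRing R] (d : Dv R) (g : R) (κ : ℕ) (a : R) (n : ℕ) :
    (nabs d g κ n a).natDegree ≤ n ∧
      (nabs d g κ n a).coeff n = (∏ i ∈ Finset.range n, ((i : R) - κ)) * a := by
  induction n with
  | zero => simp [nabs]
  | succ n ih =>
    obtain ⟨h1, h2⟩ := ih
    have h3 := Bol_coeff d g (-(κ : ℤ) + 2 * n) (nabs d g κ n a) n h1
    refine ⟨h3.2, ?_⟩
    show (nab d g (-(κ : ℤ) + 2 * n) (nabs d g κ n a)).coeff (n + 1) = _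
    rw [h3.1, h2, Finset.prod_range_succ]
    push_cast
    ring

private lemma Bol_prod (R : Type*) [CommRing R] (κ : ℕ) :
    ∏ i ∈ Finset.range κ, ((i : R) - κ) = (-1) ^ κ * (κ.factorial : R) := by
  have h1 : ∀ i ∈ Finset.range κ, ((i : R) - κ) = (-1) * (((κ - i : ℕ) : ℕ) : R) := by
    intro i hi
    have : i ≤ κ := (Finset.mem_range.mp hi).le
    rw [Nat.cast_sub this]
    ring
  rw [Finset.prod_congr rfl h1, Finset.prod_mul_distrib, Finset.prod_const, Finset.card_range]
  congr 1
  rw [← Nat.cast_prod, ← Nat.descFactorial_eq_prod_range, Nat.descFactorial_self]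

theorem bol_alg {R : Type*} [CommRing R] [IsDomain R] [CharZero R] (d : Dv R) (g : R) (κ : ℕ)
    (a : R) : ∃ b : R, nabs d g κ (κ + 1) a = Polynomial.C b := by
  have h := Bol_nabs_deriv d g κ a κ
  rw [sub_self, mul_zero, Int.cast_zero, zero_mul] at h
  have h1 := Polynomial.natDegree_eq_zero_of_derivative_eq_zero h
  exact ⟨_, Polynomial.eq_C_of_natDegree_eq_zero h1⟩

theorem bol_unique {L : Type*} [Field L] [CharZero L] (d : Dv L) (g : L) (κ : ℕ) (hκ : 0 < κ)
    (P : Polynomial L) (s : L) (h : nab d g κ P = Polynomial.C s) :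
    ∃ a : L, (P ≠ 0 → a ≠ 0) ∧
      nabs d g κ (κ + 1) a = Polynomial.C ((-1) ^ κ * (κ.factorial : L) * s) := by
  have hdeg : ∀ (Q : Polynomial L) (r : L), nab d g κ Q = Polynomial.C r → Q ≠ 0 →
      Q.natDegree = κ := by
    intro Q r hQ hQ0
    have h1 := (Bol_coeff d g κ Q Q.natDegree le_rfl).1
    rw [hQ, Polynomial.coeff_C_succ] at h1
    rcases mul_eq_zero.mp h1.symm with h2 | h2
    · have h3 : (κ : L) = Q.natDegree := by
        have := sub_eq_zero.mp h2
        simpa using this
      exact (Nat.cast_injective h3).symm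
    · exact absurd (Polynomial.leadingCoeff_eq_zero.mp h2) hQ0
  refine ⟨P.coeff κ, ?_, ?_⟩
  · intro hP hcon
    have h1 := hdeg P s h hP
    rw [← h1] at hcon
    exact hP (Polynomial.leadingCoeff_eq_zero.mp hcon)
  · set a := P.coeff κ with ha
    obtain ⟨b, hb⟩ := bol_alg d g κ a
    set c : ℤ := (-1) ^ κ * (κ.factorial : ℤ) with hc
    have hcL : ((c : ℤ) : L) = (-1) ^ κ * (κ.factorial : L) := by
      rw [hc]; push_cast; ring
    have hcP : ((c : ℤ) : Polynomial L) = Polynomial.C ((-1) ^ κ * (κ.factorial : L)) := by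
      rw [← hcL]; simp
    have hnn : nab d g κ (nabs d g κ κ a) = nabs d g κ (κ + 1) a := by
      show nab d g κ (nabs d g κ κ a) = nab d g (-(κ : ℤ) + 2 * κ) (nabs d g κ κ a)
      have : (-(κ : ℤ) + 2 * κ) = κ := by ring
      rw [this]
    have hPle : P.natDegree ≤ κ := by
      by_cases hP : P = 0
      · rw [hP]; simp
      · exact (hdeg P s h hP).le
    have hlead := Bol_lead d g κ a κ
    have hY : (c : Polynomial L) * P - nabs d g κ κ a = 0 := by
      by_contra hY0
      have h1 : nab d g κ ((c : Polynomial L) * P - nabs d g κ κ a)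
          = Polynomial.C ((-1) ^ κ * (κ.factorial : L) * s - b) := by
        rw [Bol_nab_sub, Bol_nab_int, h, hnn, hb, hcP, ← Polynomial.C_mul, ← Polynomial.C_sub]
      have h2 := hdeg _ _ h1 hY0
      have h3 : ((c : Polynomial L) * P - nabs d g κ κ a).coeff κ = 0 := by
        rw [Polynomial.coeff_sub, hcP, Polynomial.coeff_C_mul, hlead.2, Bol_prod]
        ring
      refine hY0 (Polynomial.leadingCoeff_eq_zero.mp ?_)
      rw [Polynomial.leadingCoeff, h2]
      exact h3
    rw [← hnn, ← sub_eq_zero.mp hY, Bol_nab_int, h, hcP, ← Polynomial.C_mul]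

end Pool.Agent.H85.OU
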