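import Pool.Agent.H85.OU.ID1

/-!
# Row ID2 (project OU): minimal polynomials, strictness, order bound

`A = Polynomial K` acts on `B = K⟦X⟧` through `P ↦ P(λ)` (`(evl K).toRingHom.toAlgebra`), injective by `ord_lam` (`2 ≠ 0` in `K`); `A` is
integrally closed, `B` a domain.
* `exists_min`: `μ = minpoly A y` for that algebra structure (`y` is integral by `IsDeg`);
  `minpoly.isIntegrallyClosed_dvd` gives `μ ∣ P` for every annihilating `P`.  The bound: let `IsDeg K n y` with monic
  `P = Y^r + ∑ a_m Y^(r-m)`, `deg a_m ≤ n m`, `P = μ Q`.  For a nonzero `S ∈ A[Y]` put `w(S) = max_j (deg S_j + n j)`.  `w` is additive on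
  products (`A` is a domain: the leading forms for the weights `X ↦ 1, Y ↦ n` multiply; e.g. consider the degree in `T` of
  `S(X ↦ X T, Y ↦ Y T^n) ∈ A[Y][T]`).  `w(P) = n r`, `w(μ) ≥ n s`, `w(Q) ≥ n (r - s)` (`μ, Q` monic, `s = natDegree μ`), so `w(μ) = n s`.
* `strict`: `H ≠ 0` of degree `d`.  With `μ` as above for `y`, `s = natDegree μ`, the polynomial `μ' = ∑_j H^(s-j) μ_j Y^j` is monic
  and kills `H(λ) y`; it is the minimal polynomial of `H(λ) y`: an annihilating polynomial `P` of degree `< s` of `H(λ) y` gives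
  the annihilating polynomial `P(H Y)` of `y` of degree `< s` (nonzero), contradiction; so the `μ` of `exists_min` for `H(λ) y` has
  degree `s` and divides `μ'`, both monic, hence equals `μ'`.  By the bound for `H(λ) y`: `deg (H^(s-j) μ_j) ≤ (n+d)(s-j)`, so
  `deg μ_j ≤ n (s-j)` and `IsDeg K n y`.
* `order_le`: `y ≠ 0`, `y ∈ SP e`, `SP e` closed under products and containing `1`: the `r+1` elements `1, y, .., y^r` lie in a
  module generated by `r` elements over the domain `A`, so they satisfy a nontrivial relation (`r+1` vectors of `A^r` are linearly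
  dependent), so `μ` has degree `s ≤ r`.  `μ_0 ≠ 0` (otherwise `μ = Y μ'`, `μ'(y) = 0` as `y ≠ 0`, contradicting minimality).
  `μ_0(λ) = - y (..)`.  By `ord_lam` some coefficient `l ≤ natDegree μ_0 ≤ N s ≤ N r` of `μ_0(λ)` is nonzero, so some coefficient `≤ l` of
  `y` is nonzero.
-/

open PowerSeries
open Pool.Agent.H85.OT

namespace Pool.Agent.H85.OU

variable {K : Type*} [Field K]

theorem ID2_inj (h2 : (2 : K) ≠ 0) : Function.Injective (evl K).toRingHom := by
  rw [injective_iff_map_eq_zero]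
  intro P hP
  by_contra hP0
  obtain ⟨l, -, hl⟩ := ord_lam h2 P hP0 P.natDegree le_rfl
  apply hl
  have h3 : Polynomial.aeval (1 - xx K ^ 2) P = 0 := hP
  rw [h3, map_zero]

/-- the coefficientwise degree bound of weight `n` -/
def ID2_Bd (n : ℕ) (P : Polynomial (Polynomial K)) : Prop :=
  ∀ j ≤ P.natDegree, (P.coeff j).natDegree ≤ n * (P.natDegree - j)

theorem ID2_poly {n : ℕ} {y : K⟦X⟧} (hy : IsDeg K n y) :
    ∃ P : Polynomial (Polynomial K), P.Monic ∧ 1 ≤ P.natDegree ∧
      P.eval₂ (evl K).toRingHom y = 0 ∧ ID2_Bd n P := by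
  obtain ⟨r, a, hr, ha, he⟩ := hy
  obtain ⟨Q, hQ⟩ : ∃ Q : Polynomial (Polynomial K),
      Q = ∑ m ∈ Finset.Icc 1 r, Polynomial.C (a m) * Polynomial.X ^ (r - m) := ⟨_, rfl⟩
  have hQc : ∀ j, Q.coeff j = if j < r then a (r - j) else 0 := by
    intro j
    rw [hQ, Polynomial.finsetSum_coeff]
    simp only [Polynomial.coeff_C_mul, Polynomial.coeff_X_pow, mul_ite, mul_one, mul_zero]
    split_ifs with hj
    · rw [Finset.sum_eq_single (r - j)]
      · rw [if_pos (by omega)]
      · intro m hm hmj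
        rw [Finset.mem_Icc] at hm
        rw [if_neg (by omega)]
      · intro hm
        exact absurd (Finset.mem_Icc.2 ⟨by omega, by omega⟩) hm
    · apply Finset.sum_eq_zero
      intro m hm
      rw [Finset.mem_Icc] at hm
      rw [if_neg (by omega)]
  have hQd : Q.degree < (r : WithBot ℕ) := by
    rw [Polynomial.degree_lt_iff_coeff_zero]
    intro j hj
    rw [hQc, if_neg (by omega)]
  have hdeg : (Polynomial.X ^ r + Q).natDegree = r := by
    have h1 : (Polynomial.X ^ r + Q).degree = (Polynomial.X ^ r : Polynomial (Polynomial K)).degree :=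
      Polynomial.degree_add_eq_left_of_degree_lt (by rw [Polynomial.degree_X_pow]; exact hQd)
    rw [Polynomial.degree_X_pow] at h1
    exact Polynomial.natDegree_eq_of_degree_eq_some h1
  refine ⟨Polynomial.X ^ r + Q, Polynomial.monic_X_pow_add hQd, by rw [hdeg]; exact hr, ?_, ?_⟩
  · rw [Polynomial.eval₂_add, Polynomial.eval₂_X_pow, hQ, Polynomial.eval₂_finsetSum]
    rw [← he]
    congr 1
    refine Finset.sum_congr rfl fun m _ => ?_
    rw [Polynomial.eval₂_mul, Polynomial.eval₂_C, Polynomial.eval₂_X_pow]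
    rfl
  · intro j hj
    rw [hdeg] at hj ⊢
    rw [Polynomial.coeff_add, Polynomial.coeff_X_pow, hQc]
    rcases Nat.lt_or_ge j r with h | h
    · rw [if_neg (by omega), if_pos h, zero_add]
      exact ha (r - j)
    · have : j = r := by omega
      rw [if_pos this, if_neg (by omega), add_zero, Polynomial.natDegree_one]
      exact Nat.zero_le _

theorem ID2_of_poly {n : ℕ} {y : K⟦X⟧} {P : Polynomial (Polynomial K)} (hP : P.Monic)
    (h1 : 1 ≤ P.natDegree) (h0 : P.eval₂ (evl K).toRingHom y = 0) (hb : ID2_Bd n P) :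
    IsDeg K n y := by
  refine ⟨P.natDegree, fun m => if m ≤ P.natDegree then P.coeff (P.natDegree - m) else 0, h1, ?_, ?_⟩
  · intro m
    dsimp only
    split_ifs with hm
    · have := hb (P.natDegree - m) (Nat.sub_le _ _)
      rwa [Nat.sub_sub_self hm] at this
    · rw [Polynomial.natDegree_zero]
      exact Nat.zero_le _
  · rw [Polynomial.eval₂_eq_sum_range, ← Finset.sum_range_reflect] at h0
    rw [Finset.sum_range_succ'] at h0
    rw [← h0, add_comm]
    congr 1
    · rw [Finset.sum_bij (fun (m : ℕ) (_ : m ∈ Finset.Icc 1 P.natDegree) => m - 1)]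
      · intro m hm
        rw [Finset.mem_Icc] at hm
        rw [Finset.mem_range]
        omega
      · intro m hm m' hm' he
        rw [Finset.mem_Icc] at hm hm'
        omega
      · intro j hj
        rw [Finset.mem_range] at hj
        exact ⟨j + 1, Finset.mem_Icc.2 ⟨by omega, by omega⟩, by omega⟩
      · intro m hm
        rw [Finset.mem_Icc] at hm
        have e1 : P.natDegree + 1 - 1 - (m - 1 + 1) = P.natDegree - m := by omega
        rw [e1]
        dsimp only
        rw [if_pos hm.2]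
        rfl
    · have e2 : P.natDegree + 1 - 1 - 0 = P.natDegree := by omega
      rw [e2, hP.coeff_natDegree, map_one, one_mul]

/-- the substitution `X ↦ X`, `Y ↦ Z X^n` -/
noncomputable def ID2_psi (K : Type*) [Field K] (n : ℕ) :
    Polynomial (Polynomial K) →+* Polynomial (Polynomial K) :=
  Polynomial.eval₂RingHom (Polynomial.mapRingHom Polynomial.C)
    (Polynomial.C Polynomial.X * Polynomial.X ^ n)

theorem ID2_psi_coeff (n : ℕ) (S : Polynomial (Polynomial K)) (w j : ℕ) :
    ((ID2_psi K n S).coeff w).coeff j = if n * j ≤ w then (S.coeff j).coeff (w - n * j) else 0 := by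
  induction S using Polynomial.induction_on' with
  | add p q hp hq =>
    rw [map_add, Polynomial.coeff_add, Polynomial.coeff_add, hp, hq]
    split_ifs
    · rw [Polynomial.coeff_add, Polynomial.coeff_add]
    · rw [add_zero]
  | monomial m a =>
    have e1 : ID2_psi K n (Polynomial.monomial m a) =
        Polynomial.map Polynomial.C a * Polynomial.C (Polynomial.X ^ m) * Polynomial.X ^ (n * m) := by
      unfold ID2_psi
      rw [Polynomial.coe_eval₂RingHom, Polynomial.eval₂_monomial, mul_pow, ← Polynomial.C_pow,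
        ← pow_mul, ← mul_assoc]
      rfl
    rw [e1, Polynomial.coeff_mul_X_pow', Polynomial.coeff_monomial]
    by_cases hm : n * m ≤ w
    · rw [if_pos hm, Polynomial.coeff_mul_C, Polynomial.coeff_map, Polynomial.coeff_C_mul,
        Polynomial.coeff_X_pow]
      by_cases hj : j = m
      · rw [if_pos hj, hj, if_pos hm, if_pos rfl, mul_one]
      · rw [if_neg hj, if_neg (Ne.symm hj), mul_zero, Polynomial.coeff_zero]
        split_ifs <;> rfl
    · rw [if_neg hm, Polynomial.coeff_zero]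
      by_cases hj : m = j
      · rw [if_pos hj, ← hj, if_neg hm]
      · rw [if_neg hj, Polynomial.coeff_zero]
        split_ifs <;> rfl

theorem ID2_psi_le (n : ℕ) (S : Polynomial (Polynomial K)) (W : ℕ) :
    (ID2_psi K n S).natDegree ≤ W ↔
      ∀ j, S.coeff j ≠ 0 → (S.coeff j).natDegree + n * j ≤ W := by
  constructor
  · intro h j hj
    by_contra hcon
    rw [not_le] at hcon
    have h1 : (ID2_psi K n S).coeff ((S.coeff j).natDegree + n * j) = 0 :=
      Polynomial.coeff_eq_zero_of_natDegree_lt (by omega)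
    have h2 := ID2_psi_coeff n S ((S.coeff j).natDegree + n * j) j
    rw [h1, Polynomial.coeff_zero, if_pos (by omega), Nat.add_sub_cancel] at h2
    exact hj (Polynomial.leadingCoeff_eq_zero.1 h2.symm)
  · intro h
    rw [Polynomial.natDegree_le_iff_coeff_eq_zero]
    intro w hw
    ext j
    rw [ID2_psi_coeff, Polynomial.coeff_zero]
    split_ifs with hj
    · by_cases h0 : S.coeff j = 0
      · rw [h0, Polynomial.coeff_zero]
      · have := h j h0
        exact Polynomial.coeff_eq_zero_of_natDegree_lt (by omega)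
    · rfl

theorem ID2_psi_monic (n : ℕ) {S : Polynomial (Polynomial K)} (hS : S.Monic) :
    ID2_psi K n S ≠ 0 ∧ n * S.natDegree ≤ (ID2_psi K n S).natDegree := by
  have h1 : S.coeff S.natDegree ≠ 0 := by
    rw [hS.coeff_natDegree]
    exact one_ne_zero
  have h2 := (ID2_psi_le n S _).1 le_rfl _ h1
  refine ⟨?_, by omega⟩
  intro h0
  have h3 := ID2_psi_coeff n S (n * S.natDegree) S.natDegree
  rw [h0, Polynomial.coeff_zero, Polynomial.coeff_zero, if_pos le_rfl, Nat.sub_self,
    hS.coeff_natDegree, Polynomial.coeff_one_zero] at h3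
  exact zero_ne_one h3

theorem ID2_bd {n : ℕ} {P μ : Polynomial (Polynomial K)} (hP : P.Monic) (hμ : μ.Monic) (hd : μ ∣ P)
    (hb : ID2_Bd n P) : ID2_Bd n μ := by
  obtain ⟨Q, rfl⟩ := hd
  have hQ : Q.Monic := hμ.of_mul_monic_left hP
  have h1 : (ID2_psi K n (μ * Q)).natDegree ≤ n * (μ * Q).natDegree := by
    rw [ID2_psi_le]
    intro j hj
    have hj' : j ≤ (μ * Q).natDegree := Polynomial.le_natDegree_of_ne_zero hj
    have h2 := hb j hj'
    have h3 : n * ((μ * Q).natDegree - j) + n * j = n * (μ * Q).natDegree := by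
      rw [← Nat.mul_add, Nat.sub_add_cancel hj']
    omega
  obtain ⟨hμ0, hμ1⟩ := ID2_psi_monic n hμ
  obtain ⟨hQ0, hQ1⟩ := ID2_psi_monic n hQ
  rw [map_mul, Polynomial.natDegree_mul hμ0 hQ0, hμ.natDegree_mul hQ, Nat.mul_add] at h1
  have h4 : (ID2_psi K n μ).natDegree ≤ n * μ.natDegree := by omega
  rw [ID2_psi_le] at h4
  intro j hj
  by_cases h0 : μ.coeff j = 0
  · rw [h0, Polynomial.natDegree_zero]
    exact Nat.zero_le _
  · have h5 := h4 j h0
    have h6 : n * (μ.natDegree - j) + n * j = n * μ.natDegree := by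
      rw [← Nat.mul_add, Nat.sub_add_cancel hj]
    omega

theorem ID2_minpoly {A B : Type*} [CommRing A] [IsDomain A] [IsIntegrallyClosed A] [CommRing B]
    [IsDomain B] (φ : A →+* B) (hφ : Function.Injective φ) (y : B)
    (hy : ∃ P : Polynomial A, P.Monic ∧ P.eval₂ φ y = 0) :
    ∃ μ : Polynomial A, μ.Monic ∧ μ.eval₂ φ y = 0 ∧ ∀ P : Polynomial A, P.eval₂ φ y = 0 → μ ∣ P := by
  letI : Algebra A B := φ.toAlgebra
  haveI : FaithfulSMul A B := (faithfulSMul_iff_algebraMap_injective A B).2 hφ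
  have hint : IsIntegral A y := hy
  refine ⟨minpoly A y, minpoly.monic hint, minpoly.aeval A y, fun P hP => ?_⟩
  exact minpoly.isIntegrallyClosed_dvd hint hP

/-- `SP e` is closed under sums, products and multiplication by `P(λ)` -/
theorem SP_add {r : ℕ} {e : Fin r → K⟦X⟧} {y z : K⟦X⟧} (hy : y ∈ SP K e) (hz : z ∈ SP K e) :
    y + z ∈ SP K e := by
  obtain ⟨p, rfl⟩ := hy
  obtain ⟨q, rfl⟩ := hz
  refine ⟨fun l => p l + q l, ?_⟩
  rw [← Finset.sum_add_distrib]
  refine Finset.sum_congr rfl fun l _ => ?_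
  rw [map_add, add_mul]

theorem SP_neg {r : ℕ} {e : Fin r → K⟦X⟧} {y : K⟦X⟧} (hy : y ∈ SP K e) : -y ∈ SP K e := by
  obtain ⟨p, rfl⟩ := hy
  refine ⟨fun l => - p l, ?_⟩
  rw [← Finset.sum_neg_distrib]
  refine Finset.sum_congr rfl fun l _ => ?_
  rw [map_neg, neg_mul]

theorem SP_gen {r : ℕ} {e : Fin r → K⟦X⟧} (l : Fin r) : e l ∈ SP K e := by
  classical
  refine ⟨fun l' => if l' = l then 1 else 0, ?_⟩
  rw [Finset.sum_eq_single l]
  · dsimp only
    rw [if_pos rfl, map_one, one_mul]
  · intro l' _ hl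
    dsimp only
    rw [if_neg hl, map_zero, zero_mul]
  · intro h
    exact absurd (Finset.mem_univ l) h

theorem SP_evl_mul {r : ℕ} {e : Fin r → K⟦X⟧} {y : K⟦X⟧} (P : Polynomial K) (hy : y ∈ SP K e) :
    evl K P * y ∈ SP K e := by
  obtain ⟨p, rfl⟩ := hy
  refine ⟨fun l => P * p l, ?_⟩
  rw [Finset.mul_sum]
  refine Finset.sum_congr rfl fun l _ => ?_
  rw [map_mul, mul_assoc]

theorem ID2_SP_sum {r : ℕ} {e : Fin r → K⟦X⟧} {ι : Type} (s : Finset ι) (f : ι → K⟦X⟧)
    (hf : ∀ i ∈ s, f i ∈ SP K e) : ∑ i ∈ s, f i ∈ SP K e := by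
  classical
  induction s using Finset.induction_on with
  | empty =>
    rw [Finset.sum_empty]
    refine ⟨fun _ => 0, ?_⟩
    rw [Finset.sum_eq_zero]
    intro l _
    rw [map_zero, zero_mul]
  | insert a s ha ih =>
    rw [Finset.sum_insert ha]
    exact SP_add (hf a (Finset.mem_insert_self _ _))
      (ih fun i hi => hf i (Finset.mem_insert_of_mem hi))

theorem SP_mul {r : ℕ} {e : Fin r → K⟦X⟧} (hm : ∀ l l', e l * e l' ∈ SP K e) {y z : K⟦X⟧}
    (hy : y ∈ SP K e) (hz : z ∈ SP K e) : y * z ∈ SP K e := by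
  obtain ⟨p, rfl⟩ := hy
  obtain ⟨q, rfl⟩ := hz
  rw [Finset.sum_mul_sum]
  refine ID2_SP_sum _ _ fun l _ => ID2_SP_sum _ _ fun l' _ => ?_
  have e1 : evl K (p l) * e l * (evl K (q l') * e l') =
      evl K (p l) * (evl K (q l') * (e l * e l')) := by ring
  rw [e1]
  exact SP_evl_mul _ (SP_evl_mul _ (hm l l'))

theorem exists_min (h2 : (2 : K) ≠ 0) {n0 : ℕ} {y : K⟦X⟧} (hy : IsDeg K n0 y) :
    ∃ μ : Polynomial (Polynomial K), μ.Monic ∧ 1 ≤ μ.natDegree ∧
      μ.eval₂ (evl K).toRingHom y = 0 ∧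
      (∀ P : Polynomial (Polynomial K), P.eval₂ (evl K).toRingHom y = 0 → μ ∣ P) ∧
      ∀ n, IsDeg K n y → ∀ j ≤ μ.natDegree, (μ.coeff j).natDegree ≤ n * (μ.natDegree - j) := by
  obtain ⟨P, hPm, hP1, hP0, _⟩ := ID2_poly hy
  obtain ⟨μ, hμm, hμ0, hμd⟩ := ID2_minpoly (evl K).toRingHom (ID2_inj h2) y ⟨P, hPm, hP0⟩
  refine ⟨μ, hμm, ?_, hμ0, hμd, ?_⟩
  · by_contra hcon
    have h0 : μ.natDegree = 0 := by omega
    have h1 : μ = 1 := hμm.natDegree_eq_zero.1 h0
    rw [h1, Polynomial.eval₂_one] at hμ0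
    exact one_ne_zero hμ0
  · intro n hn
    obtain ⟨P', hPm', _, hP0', hPb'⟩ := ID2_poly hn
    exact ID2_bd hPm' hμm (hμd P' hP0') hPb'

theorem IsDeg.strict (h2 : (2 : K) ≠ 0) {n d n0 : ℕ} {y : K⟦X⟧} (H : Polynomial K) (hH : H ≠ 0)
    (hd : H.natDegree = d) (hy0 : IsDeg K n0 y) (hy : IsDeg K (n + d) (evl K H * y)) :
    IsDeg K n y := by
  obtain ⟨μ, hμm, hμ1, hμ0, hμd, hμb⟩ := exists_min h2 hy0
  obtain ⟨ν, hνm, hν1, hν0, hνd, hνb⟩ := exists_min h2 hy
  have hs0 : (μ.scaleRoots H).eval₂ (evl K).toRingHom (evl K H * y) = 0 :=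
    Polynomial.scaleRoots_eval₂_eq_zero (evl K).toRingHom hμ0
  have hsm : (μ.scaleRoots H).Monic := (Polynomial.monic_scaleRoots_iff H).2 hμm
  have hle : μ.natDegree ≤ ν.natDegree := by
    have h1 : (ν.comp (Polynomial.C H * Polynomial.X)).eval₂ (evl K).toRingHom y = 0 := by
      rw [Polynomial.eval₂_comp, Polynomial.eval₂_mul, Polynomial.eval₂_C, Polynomial.eval₂_X]
      exact hν0
    have h3 := hμd _ h1
    have h4 : (ν.comp (Polynomial.C H * Polynomial.X)).natDegree = ν.natDegree := by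
      rw [Polynomial.natDegree_comp, Polynomial.natDegree_C_mul_X _ hH, mul_one]
    have h5 : ν.comp (Polynomial.C H * Polynomial.X) ≠ 0 := by
      intro h0
      rw [h0, Polynomial.natDegree_zero] at h4
      omega
    rw [← h4]
    exact Polynomial.natDegree_le_of_dvd h3 h5
  have heq : μ.scaleRoots H = ν := by
    refine Polynomial.eq_of_monic_of_dvd_of_natDegree_le hνm hsm (hνd _ hs0) ?_
    rw [Polynomial.natDegree_scaleRoots]
    exact hle
  have hdeg : ν.natDegree = μ.natDegree := by rw [← heq, Polynomial.natDegree_scaleRoots]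
  refine ID2_of_poly hμm hμ1 hμ0 ?_
  intro j hj
  by_cases h0 : μ.coeff j = 0
  · rw [h0, Polynomial.natDegree_zero]
    exact Nat.zero_le _
  · have h6 := hνb (n + d) hy j (by rw [hdeg]; exact hj)
    rw [hdeg, ← heq, Polynomial.coeff_scaleRoots, Polynomial.natDegree_mul h0 (pow_ne_zero _ hH),
      Polynomial.natDegree_pow, hd, Nat.add_mul, Nat.mul_comm d] at h6
    omega

theorem order_le (h2 : (2 : K) ≠ 0) {r N : ℕ} {e : Fin r → K⟦X⟧} (h1 : (1 : K⟦X⟧) ∈ SP K e)
    (hm : ∀ l l', e l * e l' ∈ SP K e) {y : K⟦X⟧} (hy : y ≠ 0) (hys : y ∈ SP K e)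
    (hN : IsDeg K N y) : ∃ l ≤ N * r, PowerSeries.coeff l y ≠ 0 := by
  classical
  have hA : Function.Injective (evl K).toRingHom := ID2_inj h2
  obtain ⟨μ, hμm, hμ1, hμ0, hμd, hμb⟩ := exists_min h2 hN
  -- powers of y
  have hpow : ∀ i : ℕ, y ^ i ∈ SP K e := by
    intro i
    induction i with
    | zero =>
      rw [pow_zero]
      exact h1
    | succ i ih =>
      rw [pow_succ]
      exact SP_mul hm ih hys
  choose p hp using hpow
  have hnl : ¬ LinearIndependent (Polynomial K) (fun i : Fin (r + 1) => p (i : ℕ)) := by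
    intro hli
    have h3 := hli.fintype_card_le_finrank
    rw [Fintype.card_fin, Module.finrank_fin_fun] at h3
    omega
  obtain ⟨g, hg0, i0, hi0⟩ := Fintype.not_linearIndependent_iff.1 hnl
  obtain ⟨Q, hQ⟩ : ∃ Q : Polynomial (Polynomial K),
      Q = ∑ i : Fin (r + 1), Polynomial.C (g i) * Polynomial.X ^ (i : ℕ) := ⟨_, rfl⟩
  have hQi : Q.coeff (i0 : ℕ) = g i0 := by
    rw [hQ, Polynomial.finsetSum_coeff, Finset.sum_eq_single i0]
    · rw [Polynomial.coeff_C_mul, Polynomial.coeff_X_pow, if_pos rfl, mul_one]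
    · intro i _ hi
      rw [Polynomial.coeff_C_mul, Polynomial.coeff_X_pow,
        if_neg (fun h => hi (Fin.ext h.symm)), mul_zero]
    · intro h
      exact absurd (Finset.mem_univ i0) h
  have hQ0 : Q ≠ 0 := by
    intro h0
    rw [h0, Polynomial.coeff_zero] at hQi
    exact hi0 hQi.symm
  have hQd : Q.natDegree ≤ r := by
    rw [hQ]
    refine Polynomial.natDegree_sum_le_of_forall_le _ _ fun i _ => ?_
    refine (Polynomial.natDegree_C_mul_X_pow_le _ _).trans ?_
    have := i.2
    omega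
  have hQe : Q.eval₂ (evl K).toRingHom y = 0 := by
    rw [hQ, Polynomial.eval₂_finsetSum]
    have e1 : ∀ i : Fin (r + 1), (Polynomial.C (g i) * Polynomial.X ^ (i : ℕ)).eval₂
        (evl K).toRingHom y = ∑ l, evl K (g i * p i l) * e l := by
      intro i
      rw [Polynomial.eval₂_mul, Polynomial.eval₂_C, Polynomial.eval₂_X_pow]
      have e2 : (evl K).toRingHom (g i) * y ^ (i : ℕ) =
          evl K (g i) * ∑ l, evl K (p i l) * e l := by rw [← hp i]; rfl
      rw [e2, Finset.mul_sum]
      refine Finset.sum_congr rfl fun l _ => ?_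
      rw [map_mul, mul_assoc]
    rw [Finset.sum_congr rfl fun i _ => e1 i, Finset.sum_comm]
    apply Finset.sum_eq_zero
    intro l _
    rw [← Finset.sum_mul, ← map_sum]
    have e3 : ∑ i, g i * p i l = 0 := by
      have := congrFun hg0 l
      rw [Finset.sum_apply] at this
      simpa using this
    rw [e3, map_zero, zero_mul]
  have hsr : μ.natDegree ≤ r := (Polynomial.natDegree_le_of_dvd (hμd Q hQe) hQ0).trans hQd
  have hdecomp := Polynomial.divX_mul_X_add μ
  have hev : (evl K).toRingHom (μ.coeff 0) = - (μ.divX.eval₂ (evl K).toRingHom y * y) := by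
    rw [← hdecomp, Polynomial.eval₂_add, Polynomial.eval₂_mul, Polynomial.eval₂_X,
      Polynomial.eval₂_C] at hμ0
    exact eq_neg_of_add_eq_zero_right hμ0
  have hc0 : μ.coeff 0 ≠ 0 := by
    intro h0
    rw [h0, map_zero] at hev
    have h3 : μ.divX.eval₂ (evl K).toRingHom y = 0 := by
      rcases mul_eq_zero.1 (neg_eq_zero.1 hev.symm) with h | h
      · exact h
      · exact absurd h hy
    have h4 := hμd _ h3
    have h5 : μ.divX ≠ 0 := by
      intro h6
      rw [h6, h0, zero_mul, zero_add, Polynomial.C_0] at hdecomp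
      exact hμm.ne_zero hdecomp.symm
    have h6 := Polynomial.natDegree_le_of_dvd h4 h5
    rw [Polynomial.natDegree_divX_eq_natDegree_tsub_one] at h6
    omega
  have hbd0 : (μ.coeff 0).natDegree ≤ N * r := by
    have h3 := hμb N hN 0 (Nat.zero_le _)
    rw [Nat.sub_zero] at h3
    exact h3.trans (Nat.mul_le_mul_left _ hsr)
  obtain ⟨l, hl, hl0⟩ := ord_lam h2 (μ.coeff 0) hc0 (N * r) hbd0
  by_contra hcon
  push Not at hcon
  apply hl0
  have h3 : Polynomial.aeval (1 - xx K ^ 2) (μ.coeff 0) =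
      - (μ.divX.eval₂ (evl K).toRingHom y * y) := hev
  rw [h3, map_neg, neg_eq_zero]
  have h4 : Van l y := fun l' hl' => hcon l' (hl'.trans hl)
  exact h4.mul _ l le_rfl

end Pool.Agent.H85.OU
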