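import Pool.Agent.H85.OU.ID2
import Pool.Agent.H85.OT.Hc
import Pool.Agent.H85.OT.Hd

/-!
# Row MPG (project OU): the mod `p` lemma, all levels

`p ≠ 2` prime, `k = ZMod p`, `e` a reduction datum (`RD`), `f U^(-kk) ∈ SPn e c`, `D F = f`, `F_n = 0` for `p ∣ n`, `3 ≤ kk < p`; `κ = kk - 2`.
Notation `u = U k`, `λ = lam k`, `δ = del k = u^(-2) D`, `m = mm p` (`2m + 1 = p`), `h = hh p`, `B = Bh p`:
`u^(2m) h(λ) = 1` (`hasse`), `ε = u^(2m+2) B(λ)` (`ee_eq`), `h` coprime to `B` (`hh_coprime`), `h` monic of degree `m` (`hh_monic`, `hh_natDegree`),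
`deg B ≤ m + 1` (`Bh_natDegree`); `δ λ = λ(1-λ)` (`Dq_lam`), so `δ(P(λ)) = (X(1-X)P')(λ)`, in particular `δ(h(λ)) = B(λ)`.
1. `F = D^(p-2) f` (coefficient `n` : `n^(p-2) f_n = n^(p-1) F_n`, Fermat for `p ∤ n`; both sides `0` for `p ∣ n`).
2. Let `φ = f u^(-kk)`.  By induction `D^i f = u^(kk + i(p+1)) P_i`, `P_0 = φ`, `P_(i+1) = w_i B(λ) P_i + h(λ) δ P_i`, `w_i = kk + i (p+1)`:
   `D(u^w P) = w ε u^w P + u^(w+2) δP` and `ε = u^(p+1) B(λ)`, `1 = u^(p-1) h(λ)`.  If `P ∈ SPn e n` then `δP = ∑ (δ p_l) e_l + p_l δ e_l ∈ SPn e (n + c + 1)`, so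
   `P_(i+1) ∈ SPn e (n + m + c + 1)`.  So `F = u^w P`, `w = kk + (p-2)(p+1)`, `P ∈ SPn e n_P`, `n_P = c + (p-2)(m + c + 1)`.
3. `G := F u^(-κp)`.  `w - κp = (p-1)(p-κ)`, so `h(λ)^(p-κ) G = P ∈ SP e` (`p > κ`).  `δG = u^(-2) (D F) u^(-κp)` (as `D(u^(-κp)) = 0` in
   characteristic `p`) `= u^(κ - κp) φ = h(λ)^κ φ ∈ SP e`.
4. Let `s` be minimal with `h(λ)^s G ∈ SP e`; `s ≤ p - κ < p`.  Suppose `s ≥ 1`, `Y = h(λ)^s G`.  `SP e` is stable under `δ`.
   `h δY = s δ(h) Y + h^(s+1) δG`, so `s B(λ) Y = h(λ) (δY - h(λ)^s δG) ∈ h(λ) · SP e`.  With `a B + b h = 1` in `k[X]` and `s ≠ 0` in `k`: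
   `Y = a(λ) B(λ) Y + b(λ) h(λ) Y ∈ h(λ) · SP e`, `Y = h(λ) Y1`, `Y1 = h(λ)^(s-1) G ∈ SP e` (domain), contradiction.  So `G ∈ SP e`.
5. Degree: `P` is `IsDeg (n_P + c)` (`IsDeg.of_SPn`), `P = (h^(p-κ))(λ) G`, `deg h^(p-κ) = m (p-κ)`, `G` is `IsDeg` of some degree (in `SP e`), so by
   `IsDeg.strict` `G` is `IsDeg n` as soon as `n_P + c ≤ n + m (p-κ)`:
   `n_P + c - m(p-κ) = 2c - 2m + (p-2)(c+1) + m κ ≤ (3c + 1 + kk) p`.
-/

open PowerSeries
open Pool.Agent.H85.OT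

namespace Pool.Agent.H85.OU

section gen

variable {K : Type*} [Field K]

theorem MPg_Dq (f : K⟦X⟧) : Dq K f = U K ^ 2 * del K f := by
  rw [del_apply, ← mul_assoc, ← mul_pow, U_mul_inv, one_pow, one_mul]

theorem MPg_del_evl (h2 : (2 : K) ≠ 0) (P : Polynomial K) :
    del K (evl K P) =
      evl K (Polynomial.X * (1 - Polynomial.X) * Polynomial.derivative P) := by
  rw [del_apply, Derivation.map_aeval, Dq_lam K h2, smul_eq_mul]
  simp only [map_mul, map_sub, map_one, Polynomial.aeval_X]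
  have h3 : (U K)⁻¹ ^ 2 * U K ^ 2 = 1 := by
    rw [← mul_pow, mul_comm, U_mul_inv, one_pow]
  linear_combination (Polynomial.aeval (lam K) (Polynomial.derivative P) *
    (lam K * (1 - lam K))) * h3

theorem MPg_mono {r n n' : ℕ} {e : Fin r → K⟦X⟧} (h : n ≤ n') {y : K⟦X⟧}
    (hy : y ∈ SPn K e n) : y ∈ SPn K e n' := by
  obtain ⟨p, hp, rfl⟩ := hy
  exact ⟨p, fun l => (hp l).trans h, rfl⟩

theorem MPg_add {r n : ℕ} {e : Fin r → K⟦X⟧} {y z : K⟦X⟧}
    (hy : y ∈ SPn K e n) (hz : z ∈ SPn K e n) : y + z ∈ SPn K e n := by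
  obtain ⟨p, hp, rfl⟩ := hy
  obtain ⟨q, hq, rfl⟩ := hz
  refine ⟨fun l => p l + q l,
    fun l => (Polynomial.natDegree_add_le _ _).trans (max_le (hp l) (hq l)), ?_⟩
  rw [← Finset.sum_add_distrib]
  exact Finset.sum_congr rfl fun l _ => by rw [map_add, add_mul]

theorem MPg_evl_mul {r n d : ℕ} {e : Fin r → K⟦X⟧} {y : K⟦X⟧} (Q : Polynomial K)
    (hQ : Q.natDegree ≤ d) (hy : y ∈ SPn K e n) : evl K Q * y ∈ SPn K e (n + d) := by
  obtain ⟨p, hp, rfl⟩ := hy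
  refine ⟨fun l => Q * p l, fun l => ?_, ?_⟩
  · refine Polynomial.natDegree_mul_le.trans ?_
    have := hp l
    omega
  · rw [Finset.mul_sum]
    exact Finset.sum_congr rfl fun l _ => by rw [map_mul, mul_assoc]

theorem MPg_zero {r n : ℕ} {e : Fin r → K⟦X⟧} : (0 : K⟦X⟧) ∈ SPn K e n :=
  ⟨fun _ => 0, fun _ => by rw [Polynomial.natDegree_zero]; exact Nat.zero_le _, by simp⟩

theorem MPg_sum {r n : ℕ} {e : Fin r → K⟦X⟧} {ι : Type*} (s : Finset ι) (y : ι → K⟦X⟧)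
    (h : ∀ i ∈ s, y i ∈ SPn K e n) : ∑ i ∈ s, y i ∈ SPn K e n := by
  classical
  induction s using Finset.induction_on with
  | empty => rw [Finset.sum_empty]; exact MPg_zero
  | insert a s ha ih =>
    rw [Finset.sum_insert ha]
    exact MPg_add (h a (Finset.mem_insert_self a s))
      (ih fun i hi => h i (Finset.mem_insert_of_mem hi))

theorem MPg_map_sum (d : Dv K⟦X⟧) {ι : Type*} (s : Finset ι) (y : ι → K⟦X⟧) :
    d (∑ i ∈ s, y i) = ∑ i ∈ s, d (y i) := by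
  classical
  induction s using Finset.induction_on with
  | empty => rw [Finset.sum_empty, Finset.sum_empty, Dv.map_zero]
  | insert a s ha ih =>
    rw [Finset.sum_insert ha, Finset.sum_insert ha, Dv.map_add, ih]

theorem MPg_gen {r : ℕ} {e : Fin r → K⟦X⟧} (l : Fin r) : e l ∈ SPn K e 0 := by
  classical
  refine ⟨fun j => if j = l then 1 else 0, fun j => ?_, ?_⟩
  · dsimp only
    split_ifs
    · rw [Polynomial.natDegree_one]
    · rw [Polynomial.natDegree_zero]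
  · rw [Finset.sum_eq_single l]
    · dsimp only
      rw [if_pos rfl, map_one, one_mul]
    · intro j _ hj
      dsimp only
      rw [if_neg hj, map_zero, zero_mul]
    · intro h
      exact absurd (Finset.mem_univ l) h

theorem MPg_del (h2 : (2 : K) ≠ 0) {r c n : ℕ} {e : Fin r → K⟦X⟧}
    (hR : ∀ l, del K (e l) ∈ SPn K e c) {y : K⟦X⟧} (hy : y ∈ SPn K e n) :
    del K y ∈ SPn K e (n + c + 1) := by
  obtain ⟨p, hp, rfl⟩ := hy
  rw [MPg_map_sum]
  refine MPg_sum _ _ fun l _ => ?_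
  rw [Dv.map_mul, MPg_del_evl h2]
  refine MPg_add ?_ ?_
  · refine MPg_mono (by omega : 0 + (n + 1) ≤ n + c + 1) (MPg_evl_mul _ ?_ (MPg_gen l))
    by_cases h0 : (p l).natDegree = 0
    · rw [Polynomial.derivative_of_natDegree_zero h0, mul_zero, Polynomial.natDegree_zero]
      exact Nat.zero_le _
    · refine Polynomial.natDegree_mul_le.trans ?_
      have h3 := Polynomial.natDegree_derivative_le (p l)
      have h4 := hp l
      have e1 : (Polynomial.X * (1 - Polynomial.X) : Polynomial K).natDegree ≤ 2 := by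
        refine Polynomial.natDegree_mul_le.trans ?_
        have h6 : (Polynomial.X : Polynomial K).natDegree ≤ 1 := Polynomial.natDegree_X_le
        have h7 : (1 - Polynomial.X : Polynomial K).natDegree ≤ 1 := by
          refine (Polynomial.natDegree_sub_le _ _).trans ?_
          rw [Polynomial.natDegree_one]
          exact max_le (Nat.zero_le _) h6
        omega
      omega
  · exact MPg_mono (by omega : c + n ≤ n + c + 1) (MPg_evl_mul (p l) (hp l) (hR l))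

theorem MPg_SP {r n : ℕ} {e : Fin r → K⟦X⟧} {y : K⟦X⟧} (hy : y ∈ SPn K e n) : y ∈ SP K e := by
  obtain ⟨p, -, hy⟩ := hy
  exact ⟨p, hy⟩

theorem MPg_SP' {r : ℕ} {e : Fin r → K⟦X⟧} {y : K⟦X⟧} (hy : y ∈ SP K e) :
    ∃ n, y ∈ SPn K e n := by
  obtain ⟨p, hy⟩ := hy
  exact ⟨∑ l, (p l).natDegree, p, fun l => Finset.single_le_sum
    (f := fun l => (p l).natDegree) (fun _ _ => Nat.zero_le _) (Finset.mem_univ l), hy⟩

theorem MPg_SP_del (h2 : (2 : K) ≠ 0) {r c : ℕ} {e : Fin r → K⟦X⟧}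
    (hR : ∀ l, del K (e l) ∈ SPn K e c) {y : K⟦X⟧} (hy : y ∈ SP K e) : del K y ∈ SP K e := by
  obtain ⟨n, hn⟩ := MPg_SP' hy
  exact MPg_SP (MPg_del h2 hR hn)

end gen

theorem MPg_iter {p : ℕ} [hp : Fact p.Prime] (hp2 : p ≠ 2) {r c : ℕ}
    (e : Fin r → (ZMod p)⟦X⟧) (hR : ∀ l, del (ZMod p) (e l) ∈ SPn (ZMod p) e c) (kk : ℕ)
    (φ : (ZMod p)⟦X⟧) (hφ : φ ∈ SPn (ZMod p) e c) (i : ℕ) :
    ∃ P ∈ SPn (ZMod p) e (c + i * (mm p + c + 1)),
      (fun G => Dq (ZMod p) G)^[i] (U (ZMod p) ^ kk * φ) =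
        U (ZMod p) ^ (kk + i * (p + 1)) * P := by
  have h20 := two_ne (p := p) hp2
  have hm := two_mm hp.out hp2
  have hH := hasse (p := p) hp2
  have hE := ee_eq (p := p) hp2
  induction i with
  | zero => exact ⟨φ, by simpa using hφ, by simp⟩
  | succ i ih =>
    obtain ⟨P, hP, hPi⟩ := ih
    rw [Function.iterate_succ_apply', hPi]
    obtain ⟨w, hw⟩ : ∃ w, w = kk + i * (p + 1) := ⟨_, rfl⟩
    rw [← hw]
    refine ⟨evl _ (Polynomial.C (w : ZMod p) * Bh p) * P + evl _ (hh p) * del _ P, ?_, ?_⟩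
    · refine MPg_add ?_ ?_
      · refine MPg_mono ?_ (MPg_evl_mul (d := mm p + 1) _
          ((Polynomial.natDegree_C_mul_le _ _).trans (Bh_natDegree hp2)) hP)
        have : (i + 1) * (mm p + c + 1) = i * (mm p + c + 1) + (mm p + c + 1) := by ring
        omega
      · refine MPg_mono ?_ (MPg_evl_mul (d := mm p) _ (hh_natDegree hp2).le
          (MPg_del h20 hR hP))
        have : (i + 1) * (mm p + c + 1) = i * (mm p + c + 1) + (mm p + c + 1) := by ring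
        omega
    · have e1 : kk + (i + 1) * (p + 1) = w + (2 * mm p + 2) := by
        rw [hw]
        have : (i + 1) * (p + 1) = i * (p + 1) + (p + 1) := by ring
        omega
      rw [e1]
      simp only [map_mul, map_natCast]
      rw [Derivation.leibniz, smul_eq_mul, smul_eq_mul, Hd_upow, hE, MPg_Dq P]
      linear_combination (-(U (ZMod p) ^ w * U (ZMod p) ^ 2 * del (ZMod p) P)) * hH

theorem MPg_Dpow {p : ℕ} [hp : Fact p.Prime] (f F : (ZMod p)⟦X⟧)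
    (hF : Dq (ZMod p) F = f) (hF0 : ∀ n, p ∣ n → PowerSeries.coeff n F = 0) :
    (fun G => Dq (ZMod p) G)^[p - 2] f = F := by
  have hp2 := hp.out.two_le
  have h5 : ∀ (k n : ℕ), PowerSeries.coeff n ((fun G => Dq (ZMod p) G)^[k] f) =
      (n : ZMod p) ^ k * PowerSeries.coeff n f := by
    intro k n
    induction k with
    | zero => simp
    | succ k ih =>
      rw [Function.iterate_succ_apply', coeff_Dq, ih, pow_succ]
      ring
  ext n
  rw [h5, ← hF, coeff_Dq]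
  by_cases hn : p ∣ n
  · rw [hF0 n hn, mul_zero, mul_zero]
  · have hn' : (n : ZMod p) ≠ 0 := fun h => hn ((ZMod.natCast_eq_zero_iff _ _).1 h)
    rw [← mul_assoc, ← pow_succ, show p - 2 + 1 = p - 1 by omega,
      ZMod.pow_card_sub_one_eq_one hn', one_mul]

/-- one step of the descent -/
theorem MPg_step {p : ℕ} [hp : Fact p.Prime] (hp2 : p ≠ 2) {r c : ℕ}
    (e : Fin r → (ZMod p)⟦X⟧) (hR : ∀ l, del (ZMod p) (e l) ∈ SPn (ZMod p) e c)
    (G φ : (ZMod p)⟦X⟧) (κ : ℕ) (hφ : φ ∈ SP (ZMod p) e)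
    (hG : del (ZMod p) G = evl (ZMod p) (hh p ^ κ) * φ) (s : ℕ) (hs : s + 1 < p)
    (hY : evl (ZMod p) (hh p ^ (s + 1)) * G ∈ SP (ZMod p) e) :
    evl (ZMod p) (hh p ^ s) * G ∈ SP (ZMod p) e := by
  have h20 := two_ne (p := p) hp2
  have hH := hasse (p := p) hp2
  have ht : ((s + 1 : ℕ) : ZMod p) ≠ 0 := fun h => by
    have h1 := (ZMod.natCast_eq_zero_iff _ _).1 h
    have h3 := Nat.le_of_dvd (by omega) h1
    omega
  obtain ⟨a, b, hab⟩ := hh_coprime hp2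
  obtain ⟨Y, hYd⟩ : ∃ Y, Y = evl (ZMod p) (hh p ^ (s + 1)) * G := ⟨_, rfl⟩
  obtain ⟨T, hTd⟩ : ∃ T, T = del (ZMod p) Y + -(evl (ZMod p) (hh p ^ (s + 1 + κ)) * φ) :=
    ⟨_, rfl⟩
  rw [← hYd] at hY
  have hT : T ∈ SP (ZMod p) e := by
    rw [hTd]
    exact SP_add (MPg_SP_del h20 hR hY) (SP_neg (SP_evl_mul _ hφ))
  have hab' : evl (ZMod p) a * evl (ZMod p) (hh p) + evl (ZMod p) b * evl (ZMod p) (Bh p) = 1 := by
    rw [← map_mul, ← map_mul, ← map_add, hab, map_one]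
  have hid : ((s + 1 : ℕ) : (ZMod p)⟦X⟧) * (evl (ZMod p) (Bh p) * Y) =
      evl (ZMod p) (hh p) * T := by
    rw [hTd, hYd, Dv.map_mul, MPg_del_evl h20, hG, Polynomial.derivative_pow_succ, Bh]
    simp only [map_mul, map_pow, map_sub, map_one, map_add, map_natCast,
      Polynomial.aeval_X, pow_succ, pow_add, Nat.cast_succ]
    ring
  have ht' : evl (ZMod p) (Polynomial.C (((s + 1 : ℕ) : ZMod p)⁻¹)) *
      ((s + 1 : ℕ) : (ZMod p)⟦X⟧) = 1 := by
    rw [Polynomial.aeval_C]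
    have h1 : ((s + 1 : ℕ) : (ZMod p)⟦X⟧) =
        algebraMap (ZMod p) (ZMod p)⟦X⟧ ((s + 1 : ℕ) : ZMod p) := by rw [map_natCast]
    rw [h1, ← map_mul, inv_mul_cancel₀ ht, map_one]
  have hh0 : evl (ZMod p) (hh p) ≠ 0 := by
    intro h
    rw [h, mul_zero] at hH
    exact zero_ne_one hH
  have hfin : evl (ZMod p) (hh p ^ s) * G = evl (ZMod p) a * Y +
      evl (ZMod p) (Polynomial.C (((s + 1 : ℕ) : ZMod p)⁻¹) * b) * T := by
    refine mul_left_cancel₀ hh0 ?_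
    have h1 : evl (ZMod p) (hh p) * (evl (ZMod p) (hh p ^ s) * G) = Y := by
      rw [hYd, pow_succ, map_mul]
      ring
    rw [h1, map_mul]
    linear_combination (-Y) * hab' + (evl (ZMod p) b * evl (ZMod p) (Bh p) * Y) * (-1) * ht' +
      (evl (ZMod p) (Polynomial.C (((s + 1 : ℕ) : ZMod p)⁻¹)) * evl (ZMod p) b) * hid
  rw [hfin]
  exact SP_add (SP_evl_mul _ hY) (SP_evl_mul _ hT)

theorem mp_gen (p : ℕ) [hp : Fact p.Prime] (hp2 : p ≠ 2)
    {r c : ℕ} (e : Fin r → (ZMod p)⟦X⟧) (hR : RD (ZMod p) r c e) (kk : ℕ) (hk : 3 ≤ kk)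
    (hpk : kk < p) (f F : (ZMod p)⟦X⟧) (hf : f * (U (ZMod p))⁻¹ ^ kk ∈ SPn (ZMod p) e c)
    (hF : Dq (ZMod p) F = f) (hF0 : ∀ n, p ∣ n → PowerSeries.coeff n F = 0) :
    ∃ G ∈ SP (ZMod p) e, F = U (ZMod p) ^ ((kk - 2) * p) * G ∧
      IsDeg (ZMod p) ((3 * c + 1 + kk) * p) G := by
  have hp2' := hp.out.two_le
  have h20 := two_ne (p := p) hp2
  have hm := two_mm hp.out hp2
  have hH := hasse (p := p) hp2
  have h1 := MPg_Dpow f F hF hF0
  obtain ⟨φ, hφd⟩ : ∃ φ, φ = f * (U (ZMod p))⁻¹ ^ kk := ⟨_, rfl⟩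
  rw [← hφd] at hf
  have hfφ : f = U (ZMod p) ^ kk * φ := by
    have h3 : U (ZMod p) ^ kk * (U (ZMod p))⁻¹ ^ kk = 1 := by
      rw [← mul_pow, U_mul_inv, one_pow]
    rw [hφd]
    linear_combination (-f) * h3
  obtain ⟨P, hP, hPF⟩ := MPg_iter hp2 e hR.del kk φ hf (p - 2)
  rw [← hfφ, h1] at hPF
  obtain ⟨κ, hκ⟩ : ∃ κ, kk = κ + 2 := ⟨kk - 2, by omega⟩
  have hκ1 : 1 ≤ κ := by omega
  obtain ⟨d, hd⟩ : ∃ d, p = κ + d := ⟨p - κ, by omega⟩
  have hκ' : kk - 2 = κ := by omega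
  rw [hκ']
  have hw : kk + (p - 2) * (p + 1) = κ * p + 2 * mm p * d := by
    have hz1 : (p : ℤ) = κ + d := by exact_mod_cast hd
    have hz2 : 2 * (mm p : ℤ) + 1 = p := by exact_mod_cast hm
    apply Nat.cast_injective (R := ℤ)
    push_cast [Nat.cast_sub hp2', hκ]
    linear_combination ((p : ℤ) - 1) * hz1 - (d : ℤ) * hz2
  obtain ⟨G, hG⟩ : ∃ G, G = U (ZMod p) ^ (2 * mm p * d) * P := ⟨_, rfl⟩
  have hFG : F = U (ZMod p) ^ (κ * p) * G := by rw [hPF, hw, hG, pow_add, mul_assoc]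
  have hHG : evl (ZMod p) (hh p ^ d) * G = P := by
    rw [hG, map_pow, pow_mul (U (ZMod p)) (2 * mm p) d, ← mul_assoc, ← mul_pow,
      mul_comm (evl (ZMod p) (hh p)), hH, one_pow, one_mul]
  have hcast : ((κ * p : ℕ) : (ZMod p)⟦X⟧) = 0 := by
    have h3 : ((p : ℕ) : (ZMod p)⟦X⟧) = 0 := by
      rw [← map_natCast (PowerSeries.C (R := ZMod p)) p, ZMod.natCast_self, map_zero]
    rw [Nat.cast_mul, h3, mul_zero]
  have hDG : f = U (ZMod p) ^ (κ * p) * (U (ZMod p) ^ 2 * del (ZMod p) G) := by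
    rw [← hF, hFG, Derivation.leibniz, smul_eq_mul, smul_eq_mul, Hd_upow, hcast, MPg_Dq G]
    ring
  have e5 : κ * p = κ + 2 * mm p * κ := by
    calc κ * p = κ * (2 * mm p + 1) := by rw [hm]
      _ = _ := by ring
  have hdelG : del (ZMod p) G = evl (ZMod p) (hh p ^ κ) * φ := by
    have h5 : U (ZMod p) ^ (κ + 2) * φ =
        U (ZMod p) ^ (κ + 2) * ((U (ZMod p) ^ (2 * mm p)) ^ κ * del (ZMod p) G) := by
      rw [← hκ, ← hfφ, hDG, e5, pow_add, pow_mul (U (ZMod p)) (2 * mm p) κ, hκ, pow_add]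
      ring
    have h6 := mul_left_cancel₀ (pow_ne_zero _ (U_ne_zero (ZMod p))) h5
    rw [h6, map_pow, ← mul_assoc, ← mul_pow, mul_comm (evl (ZMod p) (hh p)), hH, one_pow,
      one_mul]
  have hφS := MPg_SP hf
  have hdesc : ∀ s, s < p → evl (ZMod p) (hh p ^ s) * G ∈ SP (ZMod p) e →
      G ∈ SP (ZMod p) e := by
    intro s
    induction s with
    | zero =>
      intro _ h
      rwa [pow_zero, map_one, one_mul] at h
    | succ s ih =>
      intro hs h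
      exact ih (by omega) (MPg_step hp2 e hR.del G φ κ hφS hdelG s hs h)
  have hGS : G ∈ SP (ZMod p) e := hdesc d (by omega) (by rw [hHG]; exact MPg_SP hP)
  refine ⟨G, hGS, hFG, ?_⟩
  obtain ⟨n0, hn0⟩ := MPg_SP' hGS
  refine IsDeg.strict h20 (d := d * mm p) (hh p ^ d) (pow_ne_zero _ (hh_monic hp2).ne_zero)
    ?_ (IsDeg.of_SPn hR.deg hn0) ?_
  · rw [(hh_monic hp2).natDegree_pow, hh_natDegree hp2]
  · rw [hHG]
    refine IsDeg.mono ?_ (IsDeg.of_SPn hR.deg hP)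
    obtain ⟨q, hq⟩ : ∃ q, p = q + 2 := ⟨p - 2, by omega⟩
    have hq' : p - 2 = q := by omega
    rw [hq', hκ]
    have i1 : q * (mm p + c + 1) = q * mm p + q * (c + 1) := by ring
    have i2 : q * mm p ≤ (κ + d) * mm p := Nat.mul_le_mul_right _ (by omega)
    have i3 : (κ + d) * mm p = κ * mm p + d * mm p := by ring
    have i4 : κ * mm p ≤ κ * p := Nat.mul_le_mul_left _ (by omega)
    have i5 : q * (c + 1) ≤ p * (c + 1) := Nat.mul_le_mul_right _ (by omega)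
    have i6 : c * 1 ≤ c * p := Nat.mul_le_mul_left _ (by omega)
    have i7 : (3 * c + 1 + (κ + 2)) * p = 2 * (c * p) + p * (c + 1) + κ * p + 2 * p := by ring
    rw [i7, i1]
    omega

end Pool.Agent.H85.OU
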