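import Pool.Agent.H85.OT.AofB

/-!
# Row ALT (project OU): the dichotomy in terms of densities

`UpperOne P`: the primes with `P` have upper density one.  Claim: `Dich S O` implies `PosLower O` or `UpperOne (¬ S)`.
Suppose `PosLower O` fails: for all `c > 0` and `x0` there is `x ≥ x0` with `cnt O x < c π(x)`.  Given `ε > 0` and `X1`; let `K, δ, X0` be given by `Dich` for `ε`.  Take `c = δ/2` and `x` large with `cnt O x < c π(x)`;
`X = x / K` (natural division), `K X ≤ x < K X + K`, `π(x) ≤ π(K X) + K ≤ 2 π(K X)` (`x` large, `AofB_step`), so `cnt O (K X) ≤ cnt O x < (δ/2) 2 π(K X) = δ π(K X)`.  So (`X ≥ X0`, `X ≥ X1`, `X` large) the hypothesis of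
`Dich` fails: there is `y` with `X ≤ y ≤ K X` and `cnt S y < ε π(y)`, and `cnt (¬S) y = π(y) - cnt S y ≥ (1 - ε) π(y)` (`AofB_add`).
(The lemmas `AofB_*` of `OT/AofB.lean` are private: copy them.)
-/

namespace Pool.Agent.H85.OU

open Pool.Agent.H85.OT

/-- upper density one among the primes -/
def UpperOne (P : ℕ → Prop) : Prop :=
  ∀ ε : ℝ, 0 < ε → ∀ X1 : ℕ, ∃ x ≥ X1, (1 - ε) * (Nat.primeCounting x : ℝ) ≤ cnt P x

private theorem Alt_pi (x : ℕ) :
    Nat.primeCounting x = ((Finset.range (x + 1)).filter Nat.Prime).card := by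
  rw [Nat.primeCounting_eq_primeCounting'_succ, Nat.primeCounting', Nat.count_eq_card_filter_range]

private theorem Alt_add (S : ℕ → Prop) (x : ℕ) :
    cnt S x + cnt (fun p => ¬ S p) x = Nat.primeCounting x := by
  classical
  rw [Alt_pi]
  have h1 : cnt S x = (((Finset.range (x + 1)).filter Nat.Prime).filter S).card := by
    unfold cnt
    rw [Finset.filter_filter]
  have h2 : cnt (fun p => ¬ S p) x =
      (((Finset.range (x + 1)).filter Nat.Prime).filter (fun p => ¬ S p)).card := by
    unfold cnt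
    rw [Finset.filter_filter]
    congr!
  rw [h1, h2]
  exact Finset.card_filter_add_card_filter_not _

private theorem Alt_mono (P : ℕ → Prop) {x y : ℕ} (h : x ≤ y) : cnt P x ≤ cnt P y := by
  classical
  unfold cnt
  refine Finset.card_le_card ?_
  intro p hp
  rw [Finset.mem_filter] at hp ⊢
  exact ⟨Finset.mem_range.2 (by have := Finset.mem_range.1 hp.1; omega), hp.2⟩

private theorem Alt_step (a b : ℕ) :
    Nat.primeCounting (a + b) ≤ Nat.primeCounting a + b := by
  induction b with
  | zero => simp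
  | succ b ih =>
    have h1 : Nat.primeCounting (a + (b + 1)) ≤ Nat.primeCounting (a + b) + 1 := by
      rw [Nat.primeCounting_eq_primeCounting'_succ, Nat.primeCounting_eq_primeCounting'_succ,
        Nat.primeCounting', ← add_assoc, Nat.count_succ]
      split_ifs <;> omega
    omega

theorem posLower_or (S O : ℕ → Prop) (h : Dich S O) :
    PosLower O ∨ UpperOne (fun p => ¬ S p) := by
  by_cases hO : PosLower O
  · exact Or.inl hO
  right
  intro ε hε X1
  obtain ⟨K, hK, δ, hδ, X0, hX0⟩ := h ε hε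
  unfold PosLower at hO
  push Not at hO
  obtain ⟨n0, hn0⟩ := Filter.eventually_atTop.1
    (Nat.tendsto_primeCounting.eventually (Filter.eventually_ge_atTop K))
  obtain ⟨x, hx, hcnt⟩ := hO (δ / 2) (by positivity) (K * max X0 X1 + n0 + K)
  have hXge : max X0 X1 ≤ x / K := by
    rw [Nat.le_div_iff_mul_le (by omega), mul_comm]
    omega
  have hdiv : K * (x / K) + x % K = x := Nat.div_add_mod x K
  have hmod : x % K < K := Nat.mod_lt _ (by omega)
  generalize x / K = X at hXge hdiv
  have h2 : Nat.primeCounting x ≤ Nat.primeCounting (K * X) + K := by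
    have h3 := Alt_step (K * X) (x % K)
    rw [hdiv] at h3
    omega
  have h3 : K ≤ Nat.primeCounting (K * X) := by
    apply hn0
    omega
  have h4 : (Nat.primeCounting x : ℝ) ≤ 2 * (Nat.primeCounting (K * X) : ℝ) := by
    have h5 : Nat.primeCounting x ≤ 2 * Nat.primeCounting (K * X) := by omega
    exact_mod_cast h5
  have h6 : (cnt O (K * X) : ℝ) ≤ (cnt O x : ℝ) := by
    exact_mod_cast Alt_mono _ (by omega)
  have h7 : (cnt O (K * X) : ℝ) < δ * (Nat.primeCounting (K * X) : ℝ) := by
    have h8 : δ / 2 * (Nat.primeCounting x : ℝ) ≤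
        δ / 2 * (2 * (Nat.primeCounting (K * X) : ℝ)) :=
      mul_le_mul_of_nonneg_left h4 (by positivity)
    linarith
  have h9 : ∃ y : ℕ, X ≤ y ∧ y ≤ K * X ∧ (cnt S y : ℝ) < ε * (Nat.primeCounting y : ℝ) := by
    by_contra hno
    push Not at hno
    have := hX0 X ((le_max_left _ _).trans hXge) hno
    linarith
  obtain ⟨y, hy1, hy2, hy3⟩ := h9
  refine ⟨y, ((le_max_right _ _).trans hXge).trans hy1, ?_⟩
  have h10 : (cnt S y : ℝ) + (cnt (fun p => ¬ S p) y : ℝ) = (Nat.primeCounting y : ℝ) := by
    exact_mod_cast Alt_add S y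
  linarith

end Pool.Agent.H85.OU
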