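import Pool.Agent.H85.OU.NSL
import Pool.Agent.H85.OT.Zdl

/-!
# Row DLL (project OU): Darboux polynomials over algebraic extensions

`K` a field of characteristic `0`, `L ⊇ K` a field with derivation `d`, `d(K) = 0`, `ℓ ∈ L` with `dℓ = ℓ(1-ℓ)`, transcendental over `K`, and `L`
algebraic over `K(ℓ)` (given as: every `a ∈ L` is a root of a nonzero polynomial with coefficients in `K[ℓ]`).  `g = ℓ(1-ℓ)/4`.
Claim `DLp d g`.
Let `Q ∈ L[X]`, `Q ≠ 0`, `Q ∣ ∂Q`, `natDegree Q ≥ 1`.
1. Some irreducible factor `Q1` of `Q` satisfies `Q1 ∣ ∂Q1`: write `Q = Q1^μ Q2` with `Q1 ∤ Q2`, `μ ≥ 1`;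
   `∂Q = μ Q1^(μ-1) ∂Q1 Q2 + Q1^μ ∂Q2` is divisible by `Q1^μ`, so `Q1 ∣ μ ∂Q1 Q2`, `Q1 ∣ ∂Q1` (char 0).
2. Let `K0 = K(ℓ) ⊂ L` (`IntermediateField.adjoin K {ℓ}`); it is stable under `d`.  The ideal `I = (Q1) ∩ K0[X]` of `K0[X]` is prime, stable
   under `∂` (`(Q1)` is stable since `Q1 ∣ ∂Q1`), nonzero because `L[X]/(Q1)` is algebraic over `K0` (the class of `X` is a root of
   `Q1` over `L`, and `L/K0` is algebraic), proper.  So `I = (P0)` with `P0` monic irreducible of degree `≥ 1` and `P0 ∣ ∂P0`.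
3. `K0 ≅ RatFunc K`-like; transport to `K(x)`: the map `K[ℓ] → K[x]`, `ℓ ↦ 1 - x²` (`K[x] = Polynomial K`), satisfies
   `dX0 (1 - x²) = x² (1-x²) = λ(1-λ)` and `g ↦ g0 = x²(1-x²)/4`.  Clearing denominators choose `0 ≠ c ∈ K[ℓ]` with `c P0 ∈ K[ℓ][X]`; let `P ∈ K[x][X]` be its
   image under `ℓ ↦ 1 - x²`.  `c² ∂P0·..`: from `P0 ∣ ∂P0` in `K0[X]` one gets, after clearing denominators, `P ∣ C c' * dX1 P` in `K[x][X]` for some
   `c' ≠ 0` (`∂(cP0) = (dc) P0 + c ∂P0`; quotient `∂P0/P0 ∈ K0[X]`, multiply by a common denominator).  `natDegree P = natDegree P0 ≥ 1`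
   contradicts `dl` (`Zdl.lean`).
   (To avoid `K0` as a field one can work throughout with `Polynomial K → L`, `aeval ℓ`, injective, and fraction fields
   `RatFunc K` or `FractionRing (Polynomial K)`.)
-/

open PowerSeries
open Pool.Agent.H85.OT

namespace Pool.Agent.H85.OU

theorem DLL_factor {L : Type*} [Field L] [CharZero L] (D : Dv (Polynomial L)) (Q : Polynomial L)
    (hQ : Q ≠ 0) (hdvd : Q ∣ D Q) (hdeg : Q.natDegree ≠ 0) :
    ∃ Q1 : Polynomial L, Irreducible Q1 ∧ Q1 ∣ D Q1 := by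
  have hnu : ¬ IsUnit Q := fun h => hdeg (Polynomial.natDegree_eq_zero_of_isUnit h)
  obtain ⟨Q1, hirr, hd1⟩ := WfDvdMonoid.exists_irreducible_factor hnu hQ
  obtain ⟨n, Q2, hn2, hQe⟩ := WfDvdMonoid.max_power_factor hQ hirr
  have hn : n ≠ 0 := by
    rintro rfl
    rw [pow_zero, one_mul] at hQe
    rw [hQe] at hd1
    exact hn2 hd1
  obtain ⟨m, rfl⟩ := Nat.exists_eq_succ_of_ne_zero hn
  refine ⟨Q1, hirr, ?_⟩
  have h1 : Q1 ^ (m + 1) ∣ D Q := (Dvd.intro _ hQe.symm).trans hdvd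
  rw [hQe, Nat.succ_eq_add_one, Dv.map_mul, Dv.map_pow] at h1
  have h2 : Q1 ^ (m + 1) ∣ ((m : Polynomial L) + 1) * Q1 ^ m * D Q1 * Q2 :=
    (dvd_add_left (dvd_mul_right _ _)).1 h1
  have h3 : Q1 ^ m * Q1 ∣ Q1 ^ m * (((m : Polynomial L) + 1) * D Q1 * Q2) := by
    rw [← pow_succ]
    refine h2.trans (dvd_of_eq ?_)
    ring
  have h4 : Q1 ∣ ((m : Polynomial L) + 1) * D Q1 * Q2 :=
    (mul_dvd_mul_iff_left (pow_ne_zero m hirr.ne_zero)).1 h3
  have hp := hirr.prime
  rcases hp.dvd_or_dvd h4 with h5 | h5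
  · rcases hp.dvd_or_dvd h5 with h6 | h6
    · exfalso
      have h7 : ((m : Polynomial L) + 1) = Polynomial.C ((m : L) + 1) := by
        simp
      rw [h7] at h6
      have h8 : ((m : L) + 1) ≠ 0 := Nat.cast_add_one_ne_zero m
      exact hirr.not_isUnit (isUnit_of_dvd_unit h6
        (Polynomial.isUnit_C.2 (isUnit_iff_ne_zero.2 h8)))
    · exact h6
  · exact absurd h5 hn2

theorem DLL_min {A : Type*} [CommRing A] [IsDomain A] (I : Ideal (Polynomial A)) (P : Polynomial A)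
    (hP : P ∈ I) (hP0 : P ≠ 0) (hn : 0 < P.natDegree)
    (hmin : ∀ F ∈ I, F ≠ 0 → P.natDegree ≤ F.natDegree) :
    ∀ N : ℕ, ∀ F ∈ I, F.natDegree ≤ N → ∃ c : A, c ≠ 0 ∧ P ∣ Polynomial.C c * F := by
  intro N
  induction N using Nat.strong_induction_on with
  | _ N ih =>
    intro F hF hFN
    by_cases hF0 : F = 0
    · exact ⟨1, one_ne_zero, by rw [hF0, mul_zero]; exact dvd_zero _⟩
    have hle := hmin F hF hF0
    have hlt : (P.cancelLeads F).natDegree < F.natDegree :=
      Polynomial.natDegree_cancelLeads_lt_of_natDegree_le_natDegree_of_comm (mul_comm _ _) hle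
        (lt_of_lt_of_le hn hle)
    have hmem : P.cancelLeads F ∈ I := by
      unfold Polynomial.cancelLeads
      exact I.sub_mem (I.mul_mem_left _ hF) (I.mul_mem_left _ hP)
    obtain ⟨c, hc, h⟩ := ih (P.cancelLeads F).natDegree (lt_of_lt_of_le hlt hFN) _ hmem le_rfl
    refine ⟨c * P.leadingCoeff, mul_ne_zero hc (Polynomial.leadingCoeff_ne_zero.2 hP0), ?_⟩
    have h1 : Polynomial.C (c * P.leadingCoeff) * F = Polynomial.C c * P.cancelLeads F
        + P * (Polynomial.C c * (Polynomial.C F.leadingCoeff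
          * Polynomial.X ^ (F.natDegree - P.natDegree))) := by
      unfold Polynomial.cancelLeads
      rw [tsub_eq_zero_iff_le.2 hle, pow_zero, mul_one, Polynomial.C_mul]
      ring
    rw [h1]
    exact dvd_add h (dvd_mul_right _ _)

theorem DLL_map {R S : Type*} [CommRing R] [CommRing S] (f : R →+* S) (dR : Dv R) (dS : Dv S)
    (h : ∀ a, f (dR a) = dS (f a)) (gR : Polynomial R) (gS : Polynomial S)
    (hg : gR.map f = gS) (P : Polynomial R) :
    (dext dR gR P).map f = dext dS gS (P.map f) := by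
  rw [dext_apply, dext_apply, Polynomial.map_add, Polynomial.map_mul, hg, Polynomial.derivative_map]
  congr 1
  ext i
  rw [Polynomial.coeff_map, coeff_mapc, coeff_mapc, Polynomial.coeff_map, h]

/-- the derivation `t(1-t) d/dt` of `K[t]` -/
noncomputable def DLL_dA (K : Type*) [Field K] : Dv (Polynomial K) where
  toFun P := Polynomial.X * (1 - Polynomial.X) * Polynomial.derivative P
  add' P Q := by rw [Polynomial.derivative_add]; ring
  mul' P Q := by rw [Polynomial.derivative_mul]; ring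

theorem DLL_dA_apply {K : Type*} [Field K] (P : Polynomial K) :
    DLL_dA K P = Polynomial.X * (1 - Polynomial.X) * Polynomial.derivative P := rfl

theorem DLL_aeval {K L : Type*} [Field K] [Field L] [Algebra K L]
    (d : Dv L) (hK : ∀ c : K, d (algebraMap K L c) = 0) (ℓ : L) (P : Polynomial K) :
    d (Polynomial.aeval ℓ P) = Polynomial.aeval ℓ (Polynomial.derivative P) * d ℓ := by
  induction P using Polynomial.induction_on' with
  | add p q hp hq =>
    rw [map_add, Dv.map_add, hp, hq, Polynomial.derivative_add, map_add, add_mul]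
  | monomial n a =>
    rw [Polynomial.aeval_monomial, Dv.map_mul, hK, zero_mul, zero_add,
      Polynomial.derivative_monomial, Polynomial.aeval_monomial]
    rcases n with _ | n
    · rw [pow_zero, Dv.map_one]
      simp
    · rw [Dv.map_pow, map_mul, map_natCast, Nat.add_sub_cancel]
      push_cast
      ring

theorem DLL_psi {K : Type*} [Field K] [CharZero K] (P : Polynomial K) :
    (DLL_dA K P).comp (1 - Polynomial.X ^ 2) = dX0 K (P.comp (1 - Polynomial.X ^ 2)) := by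
  rw [DLL_dA_apply, dX0_apply, Polynomial.derivative_comp, Polynomial.mul_comp, Polynomial.mul_comp,
    Polynomial.sub_comp, Polynomial.X_comp, Polynomial.one_comp]
  have h1 : Polynomial.derivative ((1 : Polynomial K) - Polynomial.X ^ 2)
      = -(Polynomial.C 2 * Polynomial.X) := by
    rw [Polynomial.derivative_sub, Polynomial.derivative_one, Polynomial.derivative_X_sq, zero_sub]
  have h2 : (Polynomial.C (-1 / 2 : K)) * Polynomial.C 2 = -1 := by
    rw [← Polynomial.C_mul]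
    have : (-1 / 2 : K) * 2 = -1 := by field_simp
    rw [this, Polynomial.C_neg, Polynomial.C_1]
  rw [h1]
  linear_combination (Polynomial.X ^ 2 * (1 - Polynomial.X ^ 2)
    * (Polynomial.derivative P).comp (1 - Polynomial.X ^ 2)) * h2

theorem DLL_comp_inj {K : Type*} [Field K] (P : Polynomial K)
    (h : P.comp (1 - Polynomial.X ^ 2) = 0) : P = 0 := by
  rcases Polynomial.comp_eq_zero_iff.1 h with h1 | h1
  · exact h1
  · exfalso
    have h2 := congrArg (fun Q : Polynomial K => Q.coeff 2) h1.2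
    simp [Polynomial.coeff_one] at h2

theorem DLL_exists {A L : Type*} [CommRing A] [IsDomain A] [Field L] (φ : A →+* L)
    (halg : ∀ a : L, ∃ P : Polynomial A, P ≠ 0 ∧ P.eval₂ φ a = 0)
    (Q : Polynomial L) (hQ : Irreducible Q) :
    ∃ P : Polynomial A, P ≠ 0 ∧ Q ∣ P.map φ := by
  let _ : Algebra A L := φ.toAlgebra
  haveI : Algebra.IsAlgebraic A L := ⟨fun a => by
    obtain ⟨P, hP, h⟩ := halg a
    exact ⟨P, hP, h⟩⟩
  have h1 : IsAlgebraic L (AdjoinRoot.root Q) := by
    refine ⟨Q, hQ.ne_zero, ?_⟩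
    rw [AdjoinRoot.aeval_eq, AdjoinRoot.mk_self]
  have h2 : IsAlgebraic A (AdjoinRoot.root Q) := IsAlgebraic.restrictScalars A h1
  obtain ⟨P, hP, h⟩ := h2
  refine ⟨P, hP, ?_⟩
  rw [AdjoinRoot.aeval_eq_of_algebra, AdjoinRoot.mk_eq_zero] at h
  exact h

theorem dlp_of_algebraic {K L : Type*} [Field K] [CharZero K] [Field L] [Algebra K L]
    (d : Dv L) (hK : ∀ c : K, d (algebraMap K L c) = 0) (ℓ : L) (hℓ : d ℓ = ℓ * (1 - ℓ))
    (htr : ∀ P : Polynomial K, P ≠ 0 → Polynomial.aeval ℓ P ≠ 0)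
    (halg : ∀ a : L, ∃ P : Polynomial (Polynomial K), P ≠ 0 ∧
      P.eval₂ (Polynomial.aeval ℓ : Polynomial K →ₐ[K] L).toRingHom a = 0) :
    DLp d (ℓ * (1 - ℓ) / 4) := by
  classical
  haveI : CharZero L := charZero_of_injective_algebraMap (algebraMap K L).injective
  intro Q hQ hdvd
  by_contra hdeg
  obtain ⟨Q1, hirr, hQ1⟩ := DLL_factor _ Q hQ hdvd hdeg
  set φ : Polynomial K →+* L := (Polynomial.aeval ℓ : Polynomial K →ₐ[K] L).toRingHom with hφ
  have hφa : ∀ P : Polynomial K, φ P = Polynomial.aeval ℓ P := fun P => rfl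
  obtain ⟨P0, hP0, hP0d⟩ := DLL_exists φ halg Q1 hirr
  -- the ideal
  set I : Ideal (Polynomial (Polynomial K)) :=
    (Ideal.span {Q1}).comap (Polynomial.mapRingHom φ) with hI
  have hmemI : ∀ F : Polynomial (Polynomial K), F ∈ I ↔ Q1 ∣ F.map φ := by
    intro F
    rw [hI, Ideal.mem_comap, Ideal.mem_span_singleton, Polynomial.coe_mapRingHom]
  have hex : ∃ n : ℕ, ∃ F ∈ I, F ≠ 0 ∧ F.natDegree = n := ⟨_, P0, (hmemI _).2 hP0d, hP0, rfl⟩
  obtain ⟨P, hPI, hP, hPn⟩ := Nat.find_spec hex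
  have hmin : ∀ F ∈ I, F ≠ 0 → P.natDegree ≤ F.natDegree := by
    intro F hF hF0
    rw [hPn]
    exact Nat.find_min' hex ⟨F, hF, hF0, rfl⟩
  have hn : 0 < P.natDegree := by
    rcases Nat.eq_zero_or_pos P.natDegree with h0 | h0
    · exfalso
      rw [Polynomial.eq_C_of_natDegree_eq_zero h0] at hPI hP
      have h1 : P.coeff 0 ≠ 0 := fun h => hP (by rw [h, Polynomial.C_0])
      have h2 := (hmemI _).1 hPI
      rw [Polynomial.map_C] at h2
      refine hirr.not_isUnit (isUnit_of_dvd_unit h2 (Polynomial.isUnit_C.2 (isUnit_iff_ne_zero.2 ?_)))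
      exact htr _ h1
    · exact h0
  -- the derivations
  set gA : Polynomial K := Polynomial.C (1 / 4 : K) * Polynomial.X * (1 - Polynomial.X) with hgA
  have hφd : ∀ a : Polynomial K, φ (DLL_dA K a) = d (φ a) := by
    intro a
    rw [hφa, hφa, DLL_aeval d hK, hℓ, DLL_dA_apply, map_mul, map_mul, map_sub, map_one,
      Polynomial.aeval_X]
    ring
  have hφg : (Polynomial.C gA - Polynomial.X ^ 2 : Polynomial (Polynomial K)).map φ
      = Polynomial.C (ℓ * (1 - ℓ) / 4) - Polynomial.X ^ 2 := by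
    have h1 : φ gA = ℓ * (1 - ℓ) / 4 := by
      rw [hφa, hgA, map_mul, map_mul, map_sub, map_one, Polynomial.aeval_X, Polynomial.aeval_C,
        map_div₀, map_one, map_ofNat]
      ring
    rw [Polynomial.map_sub, Polynomial.map_C, Polynomial.map_pow, Polynomial.map_X, h1]
  have hdP : dext (DLL_dA K) (Polynomial.C gA - Polynomial.X ^ 2) P ∈ I := by
    rw [hmemI, DLL_map φ (DLL_dA K) d hφd _ _ hφg]
    obtain ⟨R, hR⟩ := (hmemI _).1 hPI
    rw [hR, Dv.map_mul]
    exact dvd_add (Dvd.dvd.mul_right hQ1 _) (dvd_mul_right _ _)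
  obtain ⟨c, hc, hcd⟩ := DLL_min I P hPI hP hn hmin _ _ hdP le_rfl
  -- transport
  set ψ : Polynomial K →+* Polynomial K := Polynomial.compRingHom (1 - Polynomial.X ^ 2) with hψ
  have hψa : ∀ a : Polynomial K, ψ a = a.comp (1 - Polynomial.X ^ 2) := fun a => rfl
  have hψi : Function.Injective ψ := by
    rw [injective_iff_map_eq_zero]
    intro a ha
    exact DLL_comp_inj a ha
  have hψd : ∀ a : Polynomial K, ψ (DLL_dA K a) = dX0 K (ψ a) := fun a => DLL_psi a
  have hψg : (Polynomial.C gA - Polynomial.X ^ 2 : Polynomial (Polynomial K)).map ψ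
      = Polynomial.C (g0 K) - Polynomial.X ^ 2 := by
    have h1 : ψ gA = g0 K := by
      rw [hψa, hgA, Polynomial.mul_comp, Polynomial.mul_comp, Polynomial.sub_comp,
        Polynomial.one_comp, Polynomial.X_comp, Polynomial.C_comp]
      unfold g0
      ring
    rw [Polynomial.map_sub, Polynomial.map_C, Polynomial.map_pow, Polynomial.map_X, h1]
  have h5 : P.map ψ ∣ Polynomial.C (ψ c) * dX1 K (P.map ψ) := by
    have h6 := Polynomial.map_dvd ψ hcd
    rw [Polynomial.map_mul, Polynomial.map_C, DLL_map ψ (DLL_dA K) (dX0 K) hψd _ _ hψg] at h6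
    exact h6
  have h6 : P.map ψ ≠ 0 := (Polynomial.map_ne_zero_iff hψi).2 hP
  have h7 : ψ c ≠ 0 := (map_ne_zero_iff ψ hψi).2 hc
  have h8 := dl (P.map ψ) h6 (ψ c) h7 h5
  rw [Polynomial.natDegree_map_eq_of_injective hψi] at h8
  omega

end Pool.Agent.H85.OU
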