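import Pool.Agent.H85.OU.UV

/-!
# Row DVB (project OU): calculus of `DVal`

`V.ge j x` : `x = 0 ∨ j ≤ v x`.  Elementary.
* `v(-x) = v(x)`: `-1 = algebraMap (-1)`.
* `add_eq`: if `x ≠ 0` and `v(y) > v(x)` (or `y = 0`) then `x + y ≠ 0` and `v(x+y) = v(x)`: `x + y = 0` gives `y = -x`, `v y = v x`; `≥` by `add`;
  `x = (x+y) + (-y)` gives `v x ≥ min (v (x+y)) (v y)`, so `v x ≥ v (x+y)`.
* `of_intOver`: `s` with `v(s) ≥ 0` and `x` integral over `K[s]`: `x^r + ∑ P_m(s) x^(r-m) = 0`, `v(P_m(s)) ≥ 0`; if `v(x) < 0` then `v(x^r) = r v(x)` is smaller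
  than the valuations of all other terms, contradiction with the sum being `0`.
-/

open Pool.Agent.H85.OT

namespace Pool.Agent.H85.OU

variable {K L : Type*} [Field K] [Field L] [Algebra K L] (V : DVal K L)

namespace DVal

theorem v_one : V.v 1 = 0 := by
  have h := V.const 1 one_ne_zero
  rwa [map_one] at h

theorem v_neg (x : L) : V.v (-x) = V.v x ∨ x = 0 := by
  by_cases hx : x = 0
  · exact Or.inr hx
  · left
    have h1 : (-x) = algebraMap K L (-1) * x := by
      rw [map_neg, map_one]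
      ring
    have h2 : algebraMap K L (-1) ≠ 0 := by
      rw [map_neg, map_one]
      simp
    rw [h1, V.mul _ _ h2 hx, V.const (-1) (by simp), zero_add]

theorem v_inv (x : L) (hx : x ≠ 0) : V.v x⁻¹ = -V.v x := by
  have h1 := V.mul x x⁻¹ hx (inv_ne_zero hx)
  rw [mul_inv_cancel₀ hx, v_one] at h1
  linarith

theorem v_div (x y : L) (hx : x ≠ 0) (hy : y ≠ 0) : V.v (x / y) = V.v x - V.v y := by
  rw [div_eq_mul_inv, V.mul _ _ hx (inv_ne_zero hy), v_inv V y hy]
  ring

theorem v_pow (x : L) (hx : x ≠ 0) (n : ℕ) : V.v (x ^ n) = n * V.v x := by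
  induction n with
  | zero => simp [v_one]
  | succ n ih =>
    rw [pow_succ, V.mul _ _ (pow_ne_zero _ hx) hx, ih]
    push_cast
    ring

theorem v_zpow (x : L) (hx : x ≠ 0) (n : ℤ) : V.v (x ^ n) = n * V.v x := by
  rcases n with n | n
  · rw [Int.ofNat_eq_natCast, zpow_natCast, v_pow V x hx]
  · rw [zpow_negSucc, v_inv V _ (pow_ne_zero _ hx), v_pow V x hx, Int.negSucc_eq]
    push_cast
    ring

theorem ge_zero (j : ℤ) : V.ge j 0 := Or.inl rfl

theorem ge_self (x : L) : V.ge (V.v x) x := Or.inr le_rfl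

theorem ge_mono {i j : ℤ} (h : i ≤ j) {x : L} (hx : V.ge j x) : V.ge i x := by
  rcases hx with hx | hx
  · exact Or.inl hx
  · exact Or.inr (h.trans hx)

theorem ge_neg {j : ℤ} {x : L} (hx : V.ge j x) : V.ge j (-x) := by
  rcases hx with hx | hx
  · left
    rw [hx, neg_zero]
  · rcases v_neg V x with h | h
    · right
      rw [h]
      exact hx
    · left
      rw [h, neg_zero]

theorem ge_add {j : ℤ} {x y : L} (hx : V.ge j x) (hy : V.ge j y) : V.ge j (x + y) := by
  by_cases hx0 : x = 0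
  · rw [hx0, zero_add]
    exact hy
  by_cases hy0 : y = 0
  · rw [hy0, add_zero]
    exact hx
  by_cases hxy : x + y = 0
  · exact Or.inl hxy
  · right
    have h1 := hx.resolve_left hx0
    have h2 := hy.resolve_left hy0
    exact (le_min h1 h2).trans (V.add x y hx0 hy0 hxy)

theorem ge_sub {j : ℤ} {x y : L} (hx : V.ge j x) (hy : V.ge j y) : V.ge j (x - y) := by
  rw [sub_eq_add_neg]
  exact ge_add V hx (ge_neg V hy)

theorem ge_mul {i j : ℤ} {x y : L} (hx : V.ge i x) (hy : V.ge j y) : V.ge (i + j) (x * y) := by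
  by_cases hx0 : x = 0
  · left
    rw [hx0, zero_mul]
  by_cases hy0 : y = 0
  · left
    rw [hy0, mul_zero]
  · right
    rw [V.mul x y hx0 hy0]
    exact add_le_add (hx.resolve_left hx0) (hy.resolve_left hy0)

theorem ge_const (c : K) : V.ge 0 (algebraMap K L c) := by
  by_cases hc : c = 0
  · left
    rw [hc, map_zero]
  · right
    rw [V.const c hc]

theorem ge_natCast (n : ℕ) : V.ge 0 (n : L) := by
  have h := ge_const V (n : K)
  rwa [map_natCast] at h

theorem ge_intCast (n : ℤ) : V.ge 0 (n : L) := by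
  have h := ge_const V (n : K)
  rwa [map_intCast] at h

theorem ge_sum {ι : Type*} (s : Finset ι) (f : ι → L) {j : ℤ} (h : ∀ i ∈ s, V.ge j (f i)) :
    V.ge j (∑ i ∈ s, f i) := by
  classical
  induction s using Finset.induction_on with
  | empty =>
    rw [Finset.sum_empty]
    exact ge_zero V j
  | insert a s ha ih =>
    rw [Finset.sum_insert ha]
    exact ge_add V (h a (Finset.mem_insert_self a s)) (ih fun i hi => h i (Finset.mem_insert_of_mem hi))

theorem v_natCast [CharZero K] (n : ℕ) (hn : n ≠ 0) : V.v (n : L) = 0 := by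
  have h := V.const (n : K) (by exact_mod_cast hn)
  rwa [map_natCast] at h

theorem v_intCast [CharZero K] (n : ℤ) (hn : n ≠ 0) : V.v (n : L) = 0 := by
  have h := V.const (n : K) (by exact_mod_cast hn)
  rwa [map_intCast] at h

/-- a constant in the maximal ideal is zero -/
theorem const_eq_zero {c : K} (h : V.ge 1 (algebraMap K L c)) : c = 0 := by
  by_contra hc
  rcases h with h | h
  · exact hc ((map_eq_zero _).mp h)
  · rw [V.const c hc] at h
    omega

/-- strict triangle inequality -/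
theorem add_eq {x y : L} (hx : x ≠ 0) (hy : V.ge (V.v x + 1) y) :
    x + y ≠ 0 ∧ V.v (x + y) = V.v x := by
  by_cases hy0 : y = 0
  · rw [hy0, add_zero]
    exact ⟨hx, rfl⟩
  have h1 := hy.resolve_left hy0
  have h2 : V.v (-y) = V.v y := (v_neg V y).resolve_right hy0
  have h3 : x + y ≠ 0 := by
    intro h
    have h4 : x = -y := eq_neg_of_add_eq_zero_left h
    rw [h4, h2] at h1
    omega
  refine ⟨h3, le_antisymm ?_ ?_⟩
  · have h4 : (x + y) + (-y) = x := by ring
    have h5 := V.add (x + y) (-y) h3 (neg_ne_zero.mpr hy0) (by rw [h4]; exact hx)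
    rw [h4, h2] at h5
    rcases min_le_iff.mp h5 with h6 | h6
    · exact h6
    · omega
  · have h5 := V.add x y hx hy0 h3
    rw [min_eq_left (by omega)] at h5
    exact h5

/-- decomposition: `v x ≥ 0` implies `x = c + y` with `c ∈ K`, `v y ≥ 1` -/
theorem exists_const {x : L} (hx : V.ge 0 x) : ∃ c : K, V.ge 1 (x - algebraMap K L c) := by
  by_cases hx0 : x = 0
  · refine ⟨0, ?_⟩
    rw [hx0, map_zero, sub_zero]
    exact ge_zero V 1
  have h1 := hx.resolve_left hx0
  by_cases h2 : V.v x = 0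
  · obtain ⟨c, hc⟩ := V.res x hx0 h2
    refine ⟨c, ?_⟩
    rcases hc with hc | hc
    · left
      rw [← hc, sub_self]
    · right
      omega
  · refine ⟨0, Or.inr ?_⟩
    rw [map_zero, sub_zero]
    omega

theorem ge_pow {s : L} (hs : V.ge 0 s) (n : ℕ) : V.ge 0 (s ^ n) := by
  induction n with
  | zero =>
    rw [pow_zero]
    have h := ge_natCast V 1
    rwa [Nat.cast_one] at h
  | succ n ih =>
    rw [pow_succ]
    have h := ge_mul V ih hs
    rwa [add_zero] at h

theorem ge_aeval {s : L} (hs : V.ge 0 s) (P : Polynomial K) : V.ge 0 (Polynomial.aeval s P) := by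
  rw [Polynomial.aeval_eq_sum_range]
  refine ge_sum V _ _ fun i _ => ?_
  rw [Algebra.smul_def]
  have h := ge_mul V (ge_const V (P.coeff i)) (ge_pow V hs i)
  rwa [add_zero] at h

theorem of_intOver {s : L} (hs : V.ge 0 s) {x : L} (hx : IntOver K s x) : V.ge 0 x := by
  by_contra hcon
  have hx0 : x ≠ 0 := fun h => hcon (Or.inl h)
  have hv : V.v x < 0 := by
    by_contra h
    exact hcon (Or.inr (not_lt.mp h))
  obtain ⟨p, hp, he⟩ := hx
  rw [Polynomial.eval₂_eq_sum_range, Finset.sum_range_succ, hp.coeff_natDegree, map_one, one_mul, add_comm] at he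
  have hxr : x ^ p.natDegree ≠ 0 := pow_ne_zero _ hx0
  refine (add_eq V hxr ?_).1 he
  refine ge_sum V _ _ fun i hi => ?_
  rw [Finset.mem_range] at hi
  have h1 : V.ge 0 (((Polynomial.aeval s : Polynomial K →ₐ[K] L) : Polynomial K →+* L) (p.coeff i)) :=
    ge_aeval V hs (p.coeff i)
  have h2 := ge_mul V h1 (ge_self V (x ^ i))
  refine ge_mono V ?_ h2
  rw [v_pow V x hx0, v_pow V x hx0, zero_add]
  have h3 : (i : ℤ) + 1 ≤ (p.natDegree : ℤ) := by exact_mod_cast hi
  nlinarith

end DVal

end Pool.Agent.H85.OU
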