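import Pool.Agent.H85.OU.DVb

/-!
# Row DVL (project OU): logarithmic derivatives at a place

`V` a discrete valuation with residue field `K` of characteristic `0`, `D` a derivation with `D(K) = 0`, continuous (`v(x) ≥ 0 ⇒ v(Dx) ≥ -N` for some `N`),
`s` with `e = v(s) > 0`, `D s = s u`, `v(u) ≥ 0`.  Write `O = {v ≥ 0}`, `m = {v ≥ 1}` (with `0`).  Fix `t` with `v(t) = 1`.
1. Let `N ≥ 0` be minimal with `v(Dx) ≥ -N` for all `x ∈ O` (`Nat.find`).  Suppose `N ≥ 1`; then there is `x ∈ O` with `Dx ≠ 0`, `v(Dx) = -N` exactly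
   (otherwise `N - 1` works).  `x = c + t y`, `c ∈ K`, `y ∈ O` (`exists_const`; divide by `t`).  `Dx = y Dt + t Dy`, `v(t Dy) ≥ 1 - N`, so `y Dt ≠ 0` and
   `v(y Dt) = -N`; as `v(Dt) ≥ -N` and `v(y) ≥ 0`, `v(Dt) = -N`.  Write `s = t^e w`, `v(w) = 0` (`e` as a natural number).
   `s u = Ds = e t^(e-1) w Dt + t^e Dw`; the first term has valuation `e - 1 - N` (`v_natCast`), the second `≥ e - N`, so `v(s u) = e - 1 - N < e`,
   contradiction with `v(s u) ≥ e` (in particular `s u ≠ 0`).  So `D O ⊆ O`.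
2. If `Dt ≠ 0` and `v(Dt) = 0`, the same computation with `N = 0` gives `v(s u) = e - 1 < e`, contradiction.  So `Dt = t r0`, `r0 = Dt/t ∈ O`.  Choose `ρ ∈ K` with
   `r0 - ρ ∈ m` (`exists_const`).
3. `x ∈ m`: `x = t y`, `Dx = y t r0 + t Dy ∈ m`.  `v(x) = 0`: `x = c + y`, `y ∈ m`, `Dx = Dy ∈ m`, so `Dx/x ∈ m`.  General `x ≠ 0`, `n = v(x)`: `x = t^n y` (`zpow`),
   `v(y) = 0`; `Dx/x = n r0 + Dy/y` (logarithmic derivative of a product; `D(t^n)/t^n = n Dt/t`), so `Dx/x - n ρ ∈ m`.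
4. `u = Ds/s`, so `u - e ρ ∈ m`.
-/

open Pool.Agent.H85.OT

namespace Pool.Agent.H85.OU

private theorem DVl_ge_div {K L : Type*} [Field K] [Field L] [Algebra K L] (V : DVal K L)
    {j : ℤ} {x y : L} (hx : V.ge j x) (hy : y ≠ 0) : V.ge (j - V.v y) (x / y) := by
  by_cases h0 : x = 0
  · rw [h0, zero_div]
    exact V.ge_zero _
  · refine Or.inr ?_
    rw [V.v_div x y h0 hy]
    have h1 : j ≤ V.v x := Or.resolve_left hx h0
    omega

private theorem DVl_step {K L : Type*} [Field K] [CharZero K] [Field L] [Algebra K L]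
    (V : DVal K L) (D : Dv L) (N : ℕ) (hN : ∀ x, V.ge 0 x → V.ge (-(N : ℤ)) (D x)) {t s u : L}
    (ht : t ≠ 0) (ht1 : V.v t = 1) (hs : s ≠ 0) (hs1 : 0 < V.v s) (hu : V.ge 0 u)
    (hDs : D s = s * u) : V.ge (1 - (N : ℤ)) (D t) := by
  haveI : CharZero L := charZero_of_injective_algebraMap (algebraMap K L).injective
  have h1 : V.ge (-(N : ℤ)) (D t) := hN t (Or.inr (by rw [ht1]; norm_num))
  by_contra hcon
  have hDt : D t ≠ 0 := fun h => hcon (Or.inl h)
  have hv : V.v (D t) = -(N : ℤ) := by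
    have h2 : -(N : ℤ) ≤ V.v (D t) := Or.resolve_left h1 hDt
    have h3 : ¬ (1 - (N : ℤ) ≤ V.v (D t)) := fun h => hcon (Or.inr h)
    omega
  obtain ⟨e, he⟩ : ∃ e : ℕ, V.v s = (e : ℤ) + 1 := ⟨(V.v s - 1).toNat, by omega⟩
  obtain ⟨w, hw⟩ : ∃ w, w = s / t ^ (e + 1) := ⟨_, rfl⟩
  have htp : t ^ (e + 1) ≠ 0 := pow_ne_zero _ ht
  have hw0 : w ≠ 0 := by
    rw [hw]
    exact div_ne_zero hs htp
  have hsw : s = t ^ (e + 1) * w := by
    rw [hw]
    field_simp
  have hvw : V.v w = 0 := by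
    rw [hw, V.v_div _ _ hs htp, V.v_pow t ht, ht1, he]
    push_cast
    ring
  have hDs2 : s * u = ((e + 1 : ℕ) : L) * t ^ e * D t * w + t ^ (e + 1) * D w := by
    rw [← hDs, hsw, D.map_mul, D.map_pow]
    push_cast
    ring
  have hn0 : ((e + 1 : ℕ) : L) ≠ 0 := Nat.cast_ne_zero.2 (Nat.succ_ne_zero e)
  have htn0 : t ^ e ≠ 0 := pow_ne_zero _ ht
  have hfirst0 : ((e + 1 : ℕ) : L) * t ^ e * D t * w ≠ 0 :=
    mul_ne_zero (mul_ne_zero (mul_ne_zero hn0 htn0) hDt) hw0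
  have hfirst : V.v (((e + 1 : ℕ) : L) * t ^ e * D t * w) = (e : ℤ) - N := by
    rw [V.mul _ _ (mul_ne_zero (mul_ne_zero hn0 htn0) hDt) hw0,
      V.mul _ _ (mul_ne_zero hn0 htn0) hDt, V.mul _ _ hn0 htn0,
      V.v_natCast _ (Nat.succ_ne_zero e), V.v_pow t ht, ht1, hv, hvw]
    ring
  have hsecond : V.ge ((e : ℤ) - N + 1) (t ^ (e + 1) * D w) := by
    have h2 : V.ge (((e + 1 : ℕ) : ℤ) * 1) (t ^ (e + 1)) :=
      Or.inr (by rw [V.v_pow t ht, ht1])
    have h3 := V.ge_mul h2 (hN w (Or.inr hvw.ge))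
    have e1 : ((e + 1 : ℕ) : ℤ) * 1 + -(N : ℤ) = (e : ℤ) - N + 1 := by
      push_cast
      ring
    rwa [e1] at h3
  obtain ⟨h4, h5⟩ := V.add_eq hfirst0 (by rw [hfirst]; exact hsecond)
  have h6 : V.ge (V.v s + 0) (s * u) := V.ge_mul (V.ge_self s) hu
  rw [hDs2] at h6
  have h7 : V.v s + 0 ≤ _ := Or.resolve_left h6 h4
  rw [h5, hfirst, he] at h7
  omega

private theorem DVl_split {K L : Type*} [Field K] [Field L] [Algebra K L]
    (V : DVal K L) (D : Dv L) (hK : ∀ c : K, D (algebraMap K L c) = 0) {t : L}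
    (ht : t ≠ 0) (ht1 : V.v t = 1) {x : L} (hx : V.ge 0 x) :
    ∃ y, V.ge 0 y ∧ D x = D t * y + t * D y := by
  obtain ⟨c, hc⟩ := V.exists_const hx
  obtain ⟨y, hy⟩ : ∃ y, y = (x - algebraMap K L c) / t := ⟨_, rfl⟩
  have hxy : x - algebraMap K L c = t * y := by
    rw [hy]
    field_simp
  refine ⟨y, ?_, ?_⟩
  · have h1 := DVl_ge_div V hc ht
    rw [ht1, ← hy, sub_self] at h1
    exact h1
  · have h2 : D x = D (x - algebraMap K L c) := by rw [D.map_sub, hK, sub_zero]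
    rw [h2, hxy, D.map_mul]

private theorem DVl_int {K L : Type*} [Field K] [CharZero K] [Field L] [Algebra K L]
    (V : DVal K L) (D : Dv L) (hK : ∀ c : K, D (algebraMap K L c) = 0) {t s u : L}
    (ht : t ≠ 0) (ht1 : V.v t = 1) (hs : s ≠ 0) (hs1 : 0 < V.v s) (hu : V.ge 0 u)
    (hDs : D s = s * u) (N : ℕ) :
    (∀ x, V.ge 0 x → V.ge (-(N : ℤ)) (D x)) → ∀ x, V.ge 0 x → V.ge 0 (D x) := by
  induction N with
  | zero =>
    intro h x hx
    have h1 := h x hx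
    rw [Nat.cast_zero, neg_zero] at h1
    exact h1
  | succ N ih =>
    intro h
    apply ih
    have hDt := DVl_step V D (N + 1) h ht ht1 hs hs1 hu hDs
    intro x hx
    obtain ⟨y, hy0, hxy⟩ := DVl_split V D hK ht ht1 hx
    rw [hxy]
    have h3 : V.ge (-(N : ℤ)) (D t * y) := by
      have h5 := V.ge_mul hDt hy0
      have e1 : 1 - ((N + 1 : ℕ) : ℤ) + 0 = -(N : ℤ) := by
        push_cast
        ring
      rwa [e1] at h5
    have h4 : V.ge (-(N : ℤ)) (t * D y) := by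
      have h5 := V.ge_mul (V.ge_self t) (h y hy0)
      rw [ht1] at h5
      have e1 : 1 + -((N + 1 : ℕ) : ℤ) = -(N : ℤ) := by
        push_cast
        ring
      rwa [e1] at h5
    exact V.ge_add h3 h4

private theorem DVl_ld_mul {L : Type*} [Field L] (D : Dv L) {x y : L} (hx : x ≠ 0) (hy : y ≠ 0) :
    D (x * y) / (x * y) = D x / x + D y / y := by
  rw [D.map_mul]
  field_simp

private theorem DVl_ld_pow {L : Type*} [Field L] (D : Dv L) {x : L} (hx : x ≠ 0) (n : ℕ) :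
    D (x ^ n) / x ^ n = n * (D x / x) := by
  induction n with
  | zero => rw [pow_zero, D.map_one, Nat.cast_zero, zero_mul, zero_div]
  | succ n ih =>
    rw [pow_succ, DVl_ld_mul D (pow_ne_zero n hx) hx, ih]
    push_cast
    ring

private theorem DVl_ld_inv {L : Type*} [Field L] (D : Dv L) {x : L} (hx : x ≠ 0) :
    D x⁻¹ / x⁻¹ = -(D x / x) := by
  have h1 := DVl_ld_mul D hx (inv_ne_zero hx)
  rw [mul_inv_cancel₀ hx, D.map_one, zero_div] at h1
  linear_combination -h1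

private theorem DVl_ld_zpow {L : Type*} [Field L] (D : Dv L) {x : L} (hx : x ≠ 0) (n : ℤ) :
    D (x ^ n) / x ^ n = n * (D x / x) := by
  obtain ⟨m, rfl | rfl⟩ := Int.eq_nat_or_neg n
  · rw [zpow_natCast, DVl_ld_pow D hx, Int.cast_natCast]
  · rw [zpow_neg, zpow_natCast, DVl_ld_inv D (pow_ne_zero m hx), DVl_ld_pow D hx]
    push_cast
    ring

theorem dlog {K L : Type*} [Field K] [CharZero K] [Field L] [Algebra K L] (V : DVal K L)
    (D : Dv L) (hK : ∀ c : K, D (algebraMap K L c) = 0)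
    (hcont : ∃ N : ℕ, ∀ x, V.ge 0 x → V.ge (-(N : ℤ)) (D x)) (s u : L) (hs : s ≠ 0)
    (hs1 : 0 < V.v s) (hu : V.ge 0 u) (hDs : D s = s * u) :
    ∃ ρ : K, V.ge 1 (u - algebraMap K L ((V.v s : K) * ρ)) ∧
      ∀ x, x ≠ 0 → V.ge 1 (D x / x - algebraMap K L ((V.v x : K) * ρ)) := by
  obtain ⟨N, hN⟩ := hcont
  obtain ⟨t, ht, ht1⟩ := V.unif
  have hO := DVl_int V D hK ht ht1 hs hs1 hu hDs N hN
  have hDt : V.ge 1 (D t) := by
    have h1 := DVl_step V D 0 (fun x hx => by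
      rw [Nat.cast_zero, neg_zero]
      exact hO x hx) ht ht1 hs hs1 hu hDs
    rw [Nat.cast_zero, sub_zero] at h1
    exact h1
  have hr0 : V.ge 0 (D t / t) := by
    have h1 := DVl_ge_div V hDt ht
    rw [ht1, sub_self] at h1
    exact h1
  obtain ⟨ρ, hρ⟩ := V.exists_const hr0
  have key : ∀ x, x ≠ 0 → V.ge 1 (D x / x - algebraMap K L ((V.v x : K) * ρ)) := by
    intro x hx
    have htn : t ^ (V.v x) ≠ 0 := zpow_ne_zero _ ht
    obtain ⟨y, hy⟩ : ∃ y, y = x / t ^ (V.v x) := ⟨_, rfl⟩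
    have hy0 : y ≠ 0 := by
      rw [hy]
      exact div_ne_zero hx htn
    have hvy : V.v y = 0 := by
      rw [hy, V.v_div _ _ hx htn, V.v_zpow t ht, ht1]
      ring
    have hxy : x = t ^ (V.v x) * y := by
      rw [hy]
      field_simp
    have hDy : V.ge 1 (D y) := by
      obtain ⟨z, hz0, hyz⟩ := DVl_split V D hK ht ht1 (x := y) (Or.inr hvy.ge)
      rw [hyz]
      have h1 : V.ge 1 (D t * z) := by
        have h2 := V.ge_mul hDt hz0
        rwa [add_zero] at h2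
      have h3 : V.ge 1 (t * D z) := by
        have h2 := V.ge_mul (V.ge_self t) (hO z hz0)
        rwa [ht1, add_zero] at h2
      exact V.ge_add h1 h3
    have hly : V.ge 1 (D y / y) := by
      have h1 := DVl_ge_div V hDy hy0
      rwa [hvy, sub_zero] at h1
    have hlx : D x / x = (V.v x : L) * (D t / t) + D y / y := by
      have h1 := DVl_ld_mul D htn hy0
      rw [← hxy, DVl_ld_zpow D ht] at h1
      exact h1
    have e1 : D x / x - algebraMap K L ((V.v x : K) * ρ) =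
        (V.v x : L) * (D t / t - algebraMap K L ρ) + D y / y := by
      rw [hlx, _root_.map_mul, map_intCast]
      ring
    rw [e1]
    refine V.ge_add ?_ hly
    have h2 := V.ge_mul (V.ge_intCast (V.v x)) hρ
    rwa [zero_add] at h2
  refine ⟨ρ, ?_, key⟩
  have h1 := key s hs
  have h2 : D s / s = u := by
    rw [hDs]
    field_simp
  rw [h2] at h1
  exact h1

end Pool.Agent.H85.OU
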