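import Pool.Agent.H85.OU.DVb

/-!
# Row DVP (project OU): places of a function field

`K` algebraically closed of characteristic `0`, `s ∈ L` transcendental over `K`, `L` finite over `K(s)`.  Let `L` be a `K[X]`-algebra through `X ↦ s`
(`(Polynomial.aeval s).toRingHom.toAlgebra`, injective by `htr`), `B = integralClosure (Polynomial K) L`.  `K(s) = IntermediateField.adjoin K {s}` is a fraction field of
`K[X]` (or use `FractionRing (Polynomial K)` / `RatFunc K` mapping onto it); `L` is finite and separable over it, so `B` is a Dedekind domain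
(`integralClosure.isDedekindDomain`), finitely generated as a `K[X]`-module (`IsIntegralClosure.finite` / `IsIntegralClosure.isNoetherian`), `Frac B = L`
(`integralClosure.isFractionRing_of_finite_extension`).
`I = IsDedekindDomain.HeightOneSpectrum B`, `v_P x = ` additive version of `P.valuation L x` (for `x ≠ 0`: `- (WithZero.unzero ..).toAdd`, or
`-(WithZero.log (P.valuation L x))`).
* `mul`, `add`: properties of the valuation; `unif`: `valuation_exists_uniformizer`; `const`: a nonzero constant is a unit of `B`.
* residue field `K`: `B/P` is a field, integral over `K[X]/(P ∩ K[X])`; `P ∩ K[X]` is a maximal ideal of `K[X]` (nonzero because `B` is integral over `K[X]`), generated by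
  `X - λ0` as `K` is algebraically closed.  So `B/P` is algebraic over `K` and `K → B/P` is surjective.  `x ∈ L` with `v(x) = 0`: `x = b/c` with `b, c ∈ B`, `c ∉ P`
  (see below), `b ≡ β`, `c ≡ γ ≠ 0 mod P`, so `x - β/γ = (γ b - β c)/(γ c)` has `v > 0` or is `0`.
* localization: `v(x) ≥ 0` implies `x = b/c` with `b, c ∈ B`, `c ∉ P`.  (`x = b'/c'`; choose `c'' ∈ B` with `v_P(c'') = -...`: e.g. the ideal quotient
  `{c ∈ B : c x ∈ B}` is not contained in `P`: otherwise localize at `P`: `B_P` is a discrete valuation ring with fraction field `L` and valuation ring `{v ≥ 0}`; or by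
  the Chinese remainder theorem choose `c ∉ P` divisible enough by the other primes dividing `c'` and with `c x` integral, using
  `HeightOneSpectrum.mem_integers_of_valuation_le_one`.  Maybe there is a Mathlib lemma on `IsLocalization.AtPrime` and `valuation` / `valuationSubring`.)
* first claim: elements integral over `K[s]` lie in `B`, so `v ≥ 0` (`valuation_le_one`).  Second claim: `mem_integers_of_valuation_le_one`.
* continuity: `D` a derivation of `L` with `D(K) = 0`; `b_1, .., b_n` generators of `B` over `K[X]`.  Choose `0 ≠ h ∈ B` with `h Ds ∈ B`, `h Db_i ∈ B` (`Frac B = L`).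
  Then `h D(B) ⊆ B` (`D(∑ p_i(s) b_i) = ∑ p_i'(s) Ds b_i + p_i(s) Db_i`).  For `x = b/c`, `c ∉ P`: `Dx = Db/c - b Dc/c²`, so `v(Dx) ≥ -v(h)`; `N = v(h)`.
(The three claims may be proved in separate lemmas.)
-/

open Pool.Agent.H85.OT

namespace Pool.Agent.H85.OU

section gen

open IsDedekindDomain

variable {K L B : Type} [Field K] [Field L] [Algebra K L] [CommRing B] [IsDedekindDomain B]
  [Algebra K B] [Algebra B L] [IsScalarTower K B L] [IsFractionRing B L]

/-- the valuation of a prime of a Dedekind domain with residue field `K` -/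
noncomputable def DVp_V (P : HeightOneSpectrum B)
    (hres : ∀ b : B, ∃ c : K, b - algebraMap K B c ∈ P.asIdeal) : DVal K L where
  v x := - WithZero.log (P.valuation L x)
  mul x y hx hy := by
    rw [map_mul, WithZero.log_mul ((Valuation.ne_zero_iff _).2 hx)
      ((Valuation.ne_zero_iff _).2 hy)]
    ring
  add x y hx hy hxy := by
    have h := (P.valuation L).map_add x y
    have hx' := (Valuation.ne_zero_iff (P.valuation L)).2 hx
    have hy' := (Valuation.ne_zero_iff (P.valuation L)).2 hy
    have hxy' := (Valuation.ne_zero_iff (P.valuation L)).2 hxy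
    rcases le_max_iff.1 h with h1 | h1
    · have h2 := (WithZero.log_le_log hxy' hx').2 h1
      exact (min_le_left _ _).trans (by linarith)
    · have h2 := (WithZero.log_le_log hxy' hy').2 h1
      exact (min_le_right _ _).trans (by linarith)
  const c hc := by
    have h1 : algebraMap K L c = algebraMap B L (algebraMap K B c) :=
      IsScalarTower.algebraMap_apply K B L c
    have h2 : algebraMap K B c ∉ P.asIdeal := by
      intro h3
      have h4 : (1 : B) ∈ P.asIdeal := by
        have h5 : algebraMap K B c⁻¹ * algebraMap K B c = 1 := by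
          rw [← map_mul, inv_mul_cancel₀ hc, map_one]
        rw [← h5]
        exact Ideal.mul_mem_left _ _ h3
      exact P.isPrime.ne_top ((Ideal.eq_top_iff_one _).2 h4)
    rw [h1, (P.valuation_eq_one_iff_notMem).2 h2, WithZero.log_one, neg_zero]
  res x hx hv := by
    have hx' := (Valuation.ne_zero_iff (P.valuation L)).2 hx
    have h1 : P.valuation L x ≤ 1 := by
      rw [← WithZero.log_le_log hx' one_ne_zero, WithZero.log_one]
      linarith
    obtain ⟨a, ha⟩ := P.exists_valuation_sub_lt_of_integer h1 1
    rw [Units.val_one] at ha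
    obtain ⟨c, hc⟩ := hres a
    refine ⟨c, ?_⟩
    by_cases hxc : x = algebraMap K L c
    · exact Or.inl hxc
    right
    have h2 : P.valuation L (algebraMap B L (a - algebraMap K B c)) < 1 :=
      (HeightOneSpectrum.valuation_lt_one_iff_mem P _).2 hc
    have h3 : x - algebraMap K L c = algebraMap B L (a - algebraMap K B c) - (algebraMap B L a - x) := by
      rw [map_sub, ← IsScalarTower.algebraMap_apply K B L c]
      ring
    have h4 : P.valuation L (x - algebraMap K L c) < 1 := by
      rw [h3]
      exact lt_of_le_of_lt (Valuation.map_sub _ _ _) (max_lt h2 ha)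
    have h5 := (Valuation.ne_zero_iff (P.valuation L)).2 (sub_ne_zero.2 hxc)
    rw [← WithZero.log_lt_log h5 one_ne_zero, WithZero.log_one] at h4
    linarith
  unif := by
    obtain ⟨π, hπ⟩ := P.valuation_exists_uniformizer L
    refine ⟨π, ?_, ?_⟩
    · rintro rfl
      rw [map_zero] at hπ
      exact WithZero.exp_ne_zero hπ.symm
    · rw [hπ, WithZero.log_exp]
      ring

theorem DVp_ge (P : HeightOneSpectrum B)
    (hres : ∀ b : B, ∃ c : K, b - algebraMap K B c ∈ P.asIdeal) (x : L) :
    (DVp_V (L := L) P hres).ge 0 x ↔ P.valuation L x ≤ 1 := by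
  by_cases hx : x = 0
  · subst hx
    rw [map_zero]
    exact ⟨fun _ => zero_le_one, fun _ => Or.inl rfl⟩
  · have hx' := (Valuation.ne_zero_iff (P.valuation L)).2 hx
    rw [← WithZero.log_le_log hx' one_ne_zero, WithZero.log_one]
    constructor
    · rintro (h | h)
      · exact absurd h hx
      · have h' : (0 : ℤ) ≤ - WithZero.log (P.valuation L x) := h
        linarith
    · intro h
      right
      show (0 : ℤ) ≤ - WithZero.log (P.valuation L x)
      linarith

theorem DVp_cont (P : HeightOneSpectrum B)
    (hres : ∀ b : B, ∃ c : K, b - algebraMap K B c ∈ P.asIdeal) (D : Dv L) (h : B) (h0 : h ≠ 0)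
    (hD : ∀ b : B, ∃ b' : B, algebraMap B L h * D (algebraMap B L b) = algebraMap B L b') :
    ∃ N : ℕ, ∀ x, (DVp_V (L := L) P hres).ge 0 x → (DVp_V (L := L) P hres).ge (-(N : ℤ)) (D x) := by
  have hL : algebraMap B L h ≠ 0 := by
    intro h1
    exact h0 ((FaithfulSMul.algebraMap_injective B L) (h1.trans (map_zero _).symm))
  have hv := (Valuation.ne_zero_iff (P.valuation L)).2 hL
  have hv1 : WithZero.log (P.valuation L (algebraMap B L h)) ≤ 0 := by
    rw [← WithZero.log_one, WithZero.log_le_log hv one_ne_zero]
    exact P.valuation_le_one h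
  refine ⟨(- WithZero.log (P.valuation L (algebraMap B L h))).toNat, ?_⟩
  intro x hx
  rw [Int.toNat_of_nonneg (by linarith)]
  rw [DVp_ge] at hx
  obtain ⟨n, d, hnd⟩ := P.exists_primeCompl_mul_eq_of_integer x hx
  have hd : P.valuation L (algebraMap B L (d : B)) = 1 :=
    (P.valuation_eq_one_iff_notMem).2 d.2
  have hd0 : algebraMap B L (d : B) ≠ 0 := by
    rw [← Valuation.ne_zero_iff (P.valuation L), hd]
    exact one_ne_zero
  obtain ⟨n', hn'⟩ := hD n
  obtain ⟨d', hd'⟩ := hD d
  have h1 : D (algebraMap B L n) = D x * algebraMap B L (d : B) + x * D (algebraMap B L (d : B)) := by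
    rw [← hnd, D.map_mul]
  have h2 : algebraMap B L h * D x * algebraMap B L (d : B) =
      algebraMap B L n' - x * algebraMap B L d' := by
    rw [← hn', ← hd', h1]
    ring
  have h3 : P.valuation L (algebraMap B L h * D x) ≤ 1 := by
    have h4 : P.valuation L (algebraMap B L h * D x * algebraMap B L (d : B)) =
        P.valuation L (algebraMap B L h * D x) := by
      rw [map_mul, hd, mul_one]
    rw [← h4, h2]
    refine (Valuation.map_sub _ _ _).trans (max_le (P.valuation_le_one n') ?_)
    rw [map_mul]
    exact mul_le_one' hx (P.valuation_le_one d')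
  by_cases hDx : D x = 0
  · exact Or.inl hDx
  right
  show - - WithZero.log (P.valuation L (algebraMap B L h)) ≤ - WithZero.log (P.valuation L (D x))
  have hDx' := (Valuation.ne_zero_iff (P.valuation L)).2 hDx
  rw [map_mul, ← WithZero.log_le_log (mul_ne_zero hv hDx') one_ne_zero, WithZero.log_one,
    WithZero.log_mul hv hDx'] at h3
  linarith

end gen

theorem DVp_der {K L : Type} [Field K] [Field L] [Algebra K L] (D : Dv L)
    (hD : ∀ c : K, D (algebraMap K L c) = 0) (s : L) (p : Polynomial K) :
    D (Polynomial.aeval s p) = Polynomial.aeval s (Polynomial.derivative p) * D s := by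
  have hpow : ∀ n : ℕ, D (s ^ n) = (n : L) * s ^ (n - 1) * D s := by
    intro n
    induction n with
    | zero => rw [pow_zero, D.map_one, Nat.cast_zero, zero_mul, zero_mul]
    | succ n ih =>
      rw [pow_succ, D.map_mul, ih]
      rcases Nat.eq_zero_or_pos n with h | h
      · subst h
        simp
      · obtain ⟨m, rfl⟩ : ∃ m, n = m + 1 := ⟨n - 1, by omega⟩
        have h1 : m + 1 - 1 = m := by omega
        have h2 : m + 1 + 1 - 1 = m + 1 := by omega
        rw [h1, h2]
        push_cast
        ring
  induction p using Polynomial.induction_on' with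
  | add p q hp hq => rw [map_add, D.map_add, hp, hq, map_add, map_add, add_mul]
  | monomial n c =>
    rw [Polynomial.aeval_monomial, D.map_mul, hD, zero_mul, zero_add, hpow,
      Polynomial.derivative_monomial, Polynomial.aeval_monomial, map_mul, map_natCast]
    ring

theorem DVp_res {K B : Type} [Field K] [IsAlgClosed K] [CommRing B] [Algebra K B]
    [Algebra (Polynomial K) B] [IsScalarTower K (Polynomial K) B] [Module.Finite (Polynomial K) B]
    (P : Ideal B) [P.IsMaximal] (b : B) : ∃ c : K, b - algebraMap K B c ∈ P := by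
  have : Algebra.FiniteType K B :=
    Algebra.FiniteType.trans (S := Polynomial K) inferInstance inferInstance
  let _ : Field (B ⧸ P) := Ideal.Quotient.field P
  have : Algebra.FiniteType K (B ⧸ P) := inferInstance
  have : Module.Finite K (B ⧸ P) := finite_of_finite_type_of_isJacobsonRing K (B ⧸ P)
  have : Algebra.IsIntegral K (B ⧸ P) := inferInstance
  obtain ⟨c, hc⟩ := (IsAlgClosed.algebraMap_bijective_of_isIntegral (k := K) (K := B ⧸ P)).2
    (Ideal.Quotient.mk P b)
  refine ⟨c, ?_⟩
  rw [← Ideal.Quotient.eq, ← hc]
  rfl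

theorem DVp_h {K L B : Type} [Field K] [Field L] [Algebra K L] [CommRing B] [IsDomain B]
    [Algebra (Polynomial K) L] [Algebra (Polynomial K) B] [Algebra B L]
    [IsScalarTower (Polynomial K) B L] [IsFractionRing B L] [Module.Finite (Polynomial K) B]
    (s : L) (hs : ∀ p : Polynomial K, algebraMap (Polynomial K) L p = Polynomial.aeval s p)
    (D : Dv L) (hD : ∀ c : K, D (algebraMap K L c) = 0) :
    ∃ h : B, h ≠ 0 ∧ ∀ b : B, ∃ b' : B,
      algebraMap B L h * D (algebraMap B L b) = algebraMap B L b' := by
  classical
  obtain ⟨S, hS⟩ := (Module.Finite.fg_top : (⊤ : Submodule (Polynomial K) B).FG)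
  obtain ⟨h, hh⟩ := IsLocalization.exist_integer_multiples_of_finset (nonZeroDivisors B)
    (insert (D s) (S.image fun b => D (algebraMap B L b)))
  have hint : ∀ a ∈ insert (D s) (S.image fun b => D (algebraMap B L b)), ∃ b' : B,
      algebraMap B L (h : B) * a = algebraMap B L b' := by
    intro a ha
    obtain ⟨b', hb'⟩ := hh a ha
    refine ⟨b', ?_⟩
    rw [hb', Algebra.smul_def]
  refine ⟨h, nonZeroDivisors.ne_zero h.2, ?_⟩
  intro b
  have hb : b ∈ Submodule.span (Polynomial K) (S : Set B) := by
    rw [hS]
    exact Submodule.mem_top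
  induction hb using Submodule.span_induction with
  | mem x hx =>
    exact hint _ (Finset.mem_insert_of_mem (Finset.mem_image_of_mem _ hx))
  | zero => exact ⟨0, by rw [map_zero, D.map_zero, mul_zero]⟩
  | add x y _ _ hx hy =>
    obtain ⟨x', hx'⟩ := hx
    obtain ⟨y', hy'⟩ := hy
    exact ⟨x' + y', by rw [map_add, D.map_add, mul_add, hx', hy', map_add]⟩
  | smul p x _ hx =>
    obtain ⟨x', hx'⟩ := hx
    obtain ⟨t, ht⟩ := hint (D s) (Finset.mem_insert_self _ _)
    refine ⟨algebraMap (Polynomial K) B (Polynomial.derivative p) * t * x +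
      algebraMap (Polynomial K) B p * x', ?_⟩
    have h1 : ∀ q : Polynomial K, algebraMap B L (algebraMap (Polynomial K) B q) =
        Polynomial.aeval s q := fun q => by
      rw [← IsScalarTower.algebraMap_apply, hs]
    rw [Algebra.smul_def, map_mul, D.map_mul, h1, DVp_der D hD, map_add, map_mul, map_mul, map_mul,
      h1, h1, ← ht, ← hx']
    ring

theorem places {K L : Type} [Field K] [CharZero K] [IsAlgClosed K] [Field L] [Algebra K L]
    (s : L) (htr : ∀ P : Polynomial K, P ≠ 0 → Polynomial.aeval s P ≠ 0)
    (hfin : FiniteDimensional (IntermediateField.adjoin K {s}) L) :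
    ∃ (I : Type) (V : I → DVal K L),
      (∀ i x, IntOver K s x → (V i).ge 0 x) ∧
      (∀ x, (∀ i, (V i).ge 0 x) → IntOver K s x) ∧
      (∀ i (D : Dv L), (∀ c : K, D (algebraMap K L c) = 0) →
        ∃ N : ℕ, ∀ x, (V i).ge 0 x → (V i).ge (-(N : ℤ)) (D x)) := by
  obtain ⟨F, hF⟩ : ∃ F : IntermediateField K L, F = IntermediateField.adjoin K {s} := ⟨_, rfl⟩
  rw [← hF] at hfin
  have hsF : s ∈ F := by
    rw [hF]
    exact IntermediateField.mem_adjoin_simple_self K s
  let iAL : Algebra (Polynomial K) L := (Polynomial.aeval s).toRingHom.toAlgebra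
  let iAF : Algebra (Polynomial K) F := (Polynomial.aeval (⟨s, hsF⟩ : F)).toRingHom.toAlgebra
  have hs : ∀ p : Polynomial K, algebraMap (Polynomial K) L p = Polynomial.aeval s p :=
    fun _ => rfl
  have hsF' : ∀ p : Polynomial K,
      ((algebraMap (Polynomial K) F p : F) : L) = Polynomial.aeval s p := by
    intro p
    show ((Polynomial.aeval (⟨s, hsF⟩ : F) p : F) : L) = Polynomial.aeval s p
    have h := Polynomial.aeval_algebraMap_apply L (⟨s, hsF⟩ : F) p
    exact h.symm
  have : IsScalarTower (Polynomial K) F L := IsScalarTower.of_algebraMap_eq fun p => by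
    rw [hs, ← hsF']
    rfl
  have : IsScalarTower K (Polynomial K) L := IsScalarTower.of_algebraMap_eq fun c => by
    rw [hs, Polynomial.algebraMap_eq, Polynomial.aeval_C]
  have : FaithfulSMul (Polynomial K) F := by
    rw [faithfulSMul_iff_algebraMap_injective, injective_iff_map_eq_zero]
    intro p hp
    by_contra hp0
    apply htr p hp0
    rw [← hsF' p, hp]
    rfl
  have : IsFractionRing (Polynomial K) F := by
    refine IsFractionRing.of_field (Polynomial K) F fun z => ?_
    have hz : (z : L) ∈ IntermediateField.adjoin K {s} := by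
      rw [← hF]
      exact z.2
    obtain ⟨r, t, hrt⟩ := (IntermediateField.mem_adjoin_simple_iff K _).1 hz
    refine ⟨r, t, Subtype.ext ?_⟩
    rw [hrt, ← hsF', ← hsF']
    rfl
  have : CharZero F := charZero_of_injective_algebraMap (algebraMap K F).injective
  have : FiniteDimensional F L := hfin
  have : IsDedekindDomain (integralClosure (Polynomial K) L) :=
    integralClosure.isDedekindDomain (Polynomial K) F L
  have : IsFractionRing (integralClosure (Polynomial K) L) L :=
    integralClosure.isFractionRing_of_finite_extension F L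
  have : Module.Finite (Polynomial K) (integralClosure (Polynomial K) L) :=
    IsIntegralClosure.finite (Polynomial K) F L (integralClosure (Polynomial K) L)
  have hres : ∀ (P : IsDedekindDomain.HeightOneSpectrum (integralClosure (Polynomial K) L))
      (b : integralClosure (Polynomial K) L), ∃ c : K,
      b - algebraMap K (integralClosure (Polynomial K) L) c ∈ P.asIdeal := fun P b => by
    have := P.isMaximal
    exact DVp_res P.asIdeal b
  refine ⟨IsDedekindDomain.HeightOneSpectrum (integralClosure (Polynomial K) L),
    fun P => DVp_V (L := L) P (hres P), ?_, ?_, ?_⟩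
  · intro P x hx
    rw [DVp_ge]
    have h1 : IsIntegral (Polynomial K) x := hx
    exact P.valuation_le_one (⟨x, h1⟩ : integralClosure (Polynomial K) L)
  · intro x hx
    obtain ⟨b, hb⟩ := IsDedekindDomain.HeightOneSpectrum.mem_integers_of_valuation_le_one
      (R := integralClosure (Polynomial K) L) L x (fun P => (DVp_ge P (hres P) x).1 (hx P))
    have h1 : IsIntegral (Polynomial K) (b : L) := b.2
    rw [← hb]
    exact h1
  · intro P D hD
    obtain ⟨h, h0, hh⟩ := DVp_h (B := integralClosure (Polynomial K) L) s hs D hD
    exact DVp_cont P (hres P) D h h0 hh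

end Pool.Agent.H85.OU
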