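import Pool.Agent.H85.OU.UA
import Mathlib.FieldTheory.PrimitiveElement

/-!
# Row DFR (project OU): the differential field of a level datum

* `exists_dfr`: a derivation `d` of a domain `R` extends to its fraction field: `D(a/b) = (da b - a db)/b²`.  Well defined: if `a/b = a'/b'`, i.e. `a b' = a' b`, then
  `da b' + a db' = da' b + a' db`; multiply out.  Define `D x` by choosing a representation (`IsLocalization.sec` / `IsFractionRing.div_surjective`); the formula then holds for
  every representation; additivity and Leibniz follow by computing with representations.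
* `const_of_del`: `K` of characteristic zero, `α, β ∈ K⟦X⟧`, `β ≠ 0`, `β δα = α δβ`.  Then `α = c β` with `c ∈ K`.  `δ = U^(-2) D`, so `β Dα = α Dβ`.  Let `n` be the order of `β`,
  `β_n ≠ 0`.  First: if `α ≠ 0` satisfies the equation and has order `m`, coefficient `m + n` of the equation is `m α_m β_n = n α_m β_n`, so `m = n`.  Take `c = α_n/β_n` and
  `α' = α - cβ`: it satisfies the same equation and its coefficient `n` vanishes; its order is not `n`, so `α' = 0`.
* `naset_of_LD`: `A = h.alg`, `L = FractionRing A`, `ℓ` = image of `λ`, `R` = image of `A` in `L`.  `D` from `exists_dfr`.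
  `dK`: `δ` kills constants.  `dl`: `Dq_lam`.  `tr`: `P(λ) ≠ 0` in `K⟦X⟧` by `ord_lam` (so in `A`, so in `L`).  `stab`, `mem`, `frac`: clear.  `int`: `LD.int_deg` (an equation in `K⟦X⟧` between
  elements of `A` holds in `A`, then in `L`).
  `fin`: `K0 = IntermediateField.adjoin K {ℓ}`; `L` is generated over `K0` by the images of `e_1, .., e_r`, which are algebraic (integral) over `K0`, so
  `K0(e_1, .., e_r) = L` is finite over `K0` (`IntermediateField.finiteDimensional_adjoin` or `essFiniteType`): every element of `A` is `∑ p_l(λ) e_l`, every element of `L` a quotient of such.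
  (Each `e_l ∈ SP K e` by `SP_gen`.)
  constants: `D c = 0`, `c = α/β`: `βδα = αδβ` in `A ⊆ K⟦X⟧`, `const_of_del`.
-/

open PowerSeries
open Pool.Agent.H85.OT

namespace Pool.Agent.H85.OU

/-- the quotient rule is independent of the representation -/
private theorem dfr_aux {R : Type*} [CommRing R] [IsDomain R] (d : Dv R) (L : Type*) [Field L]
    [Algebra R L] [IsFractionRing R L] {a b a' b' : R} (hb : algebraMap R L b ≠ 0)
    (hb' : algebraMap R L b' ≠ 0)
    (h : algebraMap R L a / algebraMap R L b = algebraMap R L a' / algebraMap R L b') :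
    (algebraMap R L (d a) * algebraMap R L b - algebraMap R L a * algebraMap R L (d b)) /
      algebraMap R L b ^ 2 =
    (algebraMap R L (d a') * algebraMap R L b' - algebraMap R L a' * algebraMap R L (d b')) /
      algebraMap R L b' ^ 2 := by
  rw [div_eq_div_iff hb hb'] at h
  have h0 : a * b' = a' * b := by
    apply IsFractionRing.injective R L
    rw [_root_.map_mul, _root_.map_mul]
    exact h
  have h1 : d a * b' + a * d b' = d a' * b + a' * d b := by
    rw [← d.map_mul, ← d.map_mul, h0]
  have h2 : algebraMap R L (d a) * algebraMap R L b' + algebraMap R L a * algebraMap R L (d b') =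
      algebraMap R L (d a') * algebraMap R L b + algebraMap R L a' * algebraMap R L (d b) := by
    rw [← _root_.map_mul, ← _root_.map_mul, ← _root_.map_add, h1, _root_.map_add, _root_.map_mul,
      _root_.map_mul]
  rw [div_eq_div_iff (pow_ne_zero 2 hb) (pow_ne_zero 2 hb')]
  linear_combination (algebraMap R L b * algebraMap R L b') * h2 +
    (-(algebraMap R L (d b) * algebraMap R L b') - algebraMap R L b * algebraMap R L (d b')) * h

theorem exists_dfr {R : Type*} [CommRing R] [IsDomain R] (d : Dv R) (L : Type*) [Field L]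
    [Algebra R L] [IsFractionRing R L] :
    ∃ D : Dv L, ∀ a : R, D (algebraMap R L a) = algebraMap R L (d a) := by
  classical
  have hrep : ∀ x : L, ∃ a b : R, algebraMap R L b ≠ 0 ∧
      algebraMap R L a / algebraMap R L b = x := by
    intro x
    obtain ⟨a, b, hb, hx⟩ := IsFractionRing.div_surjective (A := R) x
    refine ⟨a, b, ?_, hx⟩
    intro h0
    exact nonZeroDivisors.ne_zero hb ((injective_iff_map_eq_zero _).1
      (IsFractionRing.injective R L) b h0)
  choose nu de hde hx using hrep
  let D : L → L := fun x =>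
    (algebraMap R L (d (nu x)) * algebraMap R L (de x) -
      algebraMap R L (nu x) * algebraMap R L (d (de x))) / algebraMap R L (de x) ^ 2
  have hD : ∀ a b : R, algebraMap R L b ≠ 0 → D (algebraMap R L a / algebraMap R L b) =
      (algebraMap R L (d a) * algebraMap R L b - algebraMap R L a * algebraMap R L (d b)) /
        algebraMap R L b ^ 2 := by
    intro a b hb
    exact dfr_aux d L (hde _) hb (hx _)
  have hsum : ∀ x y, D (x + y) = D x + D y := by
    intro x y
    obtain ⟨a, b, hb, rfl⟩ : ∃ a b : R, algebraMap R L b ≠ 0 ∧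
        algebraMap R L a / algebraMap R L b = x := ⟨_, _, hde x, hx x⟩
    obtain ⟨a', b', hb', rfl⟩ : ∃ a b : R, algebraMap R L b ≠ 0 ∧
        algebraMap R L a / algebraMap R L b = y := ⟨_, _, hde y, hx y⟩
    have hs : algebraMap R L a / algebraMap R L b + algebraMap R L a' / algebraMap R L b' =
        algebraMap R L (a * b' + a' * b) / algebraMap R L (b * b') := by
      rw [_root_.map_add, _root_.map_mul, _root_.map_mul, _root_.map_mul]
      field_simp
    have hbb : algebraMap R L (b * b') ≠ 0 := by
      rw [_root_.map_mul]; exact mul_ne_zero hb hb'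
    rw [hs, hD _ _ hbb, hD _ _ hb, hD _ _ hb', d.map_add, d.map_mul, d.map_mul, d.map_mul]
    simp only [_root_.map_add, _root_.map_mul]
    field_simp
    ring
  have hmul : ∀ x y, D (x * y) = D x * y + x * D y := by
    intro x y
    obtain ⟨a, b, hb, rfl⟩ : ∃ a b : R, algebraMap R L b ≠ 0 ∧
        algebraMap R L a / algebraMap R L b = x := ⟨_, _, hde x, hx x⟩
    obtain ⟨a', b', hb', rfl⟩ : ∃ a b : R, algebraMap R L b ≠ 0 ∧
        algebraMap R L a / algebraMap R L b = y := ⟨_, _, hde y, hx y⟩
    have hs : algebraMap R L a / algebraMap R L b * (algebraMap R L a' / algebraMap R L b') =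
        algebraMap R L (a * a') / algebraMap R L (b * b') := by
      rw [_root_.map_mul, _root_.map_mul]
      field_simp
    have hbb : algebraMap R L (b * b') ≠ 0 := by
      rw [_root_.map_mul]; exact mul_ne_zero hb hb'
    rw [hs, hD _ _ hbb, hD _ _ hb, hD _ _ hb', d.map_mul, d.map_mul]
    simp only [_root_.map_add, _root_.map_mul]
    field_simp
    ring
  refine ⟨⟨D, hsum, hmul⟩, fun a => ?_⟩
  have h1 : algebraMap R L (1 : R) ≠ 0 := by rw [_root_.map_one]; exact one_ne_zero
  have h2 := hD a 1 h1
  rw [d.map_one, _root_.map_one, _root_.map_zero] at h2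
  have h3 : D (algebraMap R L a) = algebraMap R L (d a) := by
    simpa using h2
  exact h3

/-- an element of `K⟦X⟧` has a first nonzero coefficient -/
private theorem dfr_first {K : Type*} [Field K] (α : K⟦X⟧) (h : α ≠ 0) :
    ∃ m : ℕ, coeff m α ≠ 0 ∧ ∀ i < m, coeff i α = 0 := by
  classical
  have h1 : ∃ m : ℕ, coeff m α ≠ 0 := by
    by_contra hc
    push Not at hc
    exact h (PowerSeries.ext fun n => by rw [hc n, _root_.map_zero])
  refine ⟨Nat.find h1, Nat.find_spec h1, fun i hi => ?_⟩
  by_contra hne
  exact Nat.find_min h1 hi hne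

/-- lowest coefficient of a product -/
private theorem dfr_low {K : Type*} [Field K] {a b : K⟦X⟧} {m n : ℕ}
    (ha : ∀ i < n, coeff i a = 0) (hb : ∀ i < m, coeff i b = 0) :
    coeff (n + m) (a * b) = coeff n a * coeff m b := by
  classical
  rw [PowerSeries.coeff_mul]
  refine Finset.sum_eq_single (n, m) (fun x hx hne => ?_) (fun h => ?_)
  · have h1 : x.1 + x.2 = n + m := Finset.HasAntidiagonal.mem_antidiagonal.1 hx
    rcases lt_or_ge x.1 n with h2 | h2
    · rw [ha _ h2, zero_mul]
    · have h3 : x.2 < m := by
        rcases Nat.lt_or_ge x.2 m with h4 | h4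
        · exact h4
        · exfalso
          apply hne
          have h5 : x.1 = n := by omega
          have h6 : x.2 = m := by omega
          exact Prod.ext h5 h6
      rw [hb _ h3, mul_zero]
  · exact absurd (Finset.HasAntidiagonal.mem_antidiagonal.2 (by rfl : (n, m).1 + (n, m).2 = n + m)) h

theorem const_of_del {K : Type*} [Field K] [CharZero K] (α β : K⟦X⟧) (hβ : β ≠ 0)
    (h : β * OT.del K α = α * OT.del K β) : ∃ c : K, α = PowerSeries.C c * β := by
  obtain ⟨n, hn, hn0⟩ := dfr_first β hβ
  have hU : (U K)⁻¹ ^ 2 ≠ 0 := by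
    refine pow_ne_zero 2 fun h0 => ?_
    have h1 := PowerSeries.mul_inv_cancel (U K) (by
      rw [constCoeff_U]; exact one_ne_zero)
    rw [h0, mul_zero] at h1
    exact zero_ne_one h1
  have key : ∀ γ : K⟦X⟧, β * Dq K γ = γ * Dq K β → coeff n γ = 0 → γ = 0 := by
    intro γ hγ hc
    by_contra hne
    obtain ⟨m, hm, hm0⟩ := dfr_first γ hne
    have e1 : coeff (n + m) (β * Dq K γ) = coeff n β * ((m : K) * coeff m γ) := by
      rw [dfr_low hn0 (m := m) (fun i hi => by rw [coeff_Dq, hm0 i hi, mul_zero]), coeff_Dq]
    have e2 : coeff (n + m) (γ * Dq K β) = coeff m γ * ((n : K) * coeff n β) := by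
      rw [add_comm n m, dfr_low hm0 (m := n) (fun i hi => by rw [coeff_Dq, hn0 i hi, mul_zero]),
        coeff_Dq]
    rw [hγ, e2] at e1
    have e3 : ((n : K) - m) * (coeff m γ * coeff n β) = 0 := by linear_combination e1
    rcases mul_eq_zero.1 e3 with h4 | h4
    · have h5 : (n : K) = m := sub_eq_zero.1 h4
      have h6 : n = m := Nat.cast_injective h5
      rw [h6] at hc
      exact hm hc
    · rcases mul_eq_zero.1 h4 with h5 | h5
      · exact hm h5
      · exact hn h5
  have h' : β * Dq K α = α * Dq K β := by
    rw [del_apply, del_apply] at h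
    have h7 : (U K)⁻¹ ^ 2 * (β * Dq K α) = (U K)⁻¹ ^ 2 * (α * Dq K β) := by
      linear_combination h
    exact mul_left_cancel₀ hU h7
  refine ⟨coeff n α / coeff n β, ?_⟩
  have h8 := key (α - PowerSeries.C (coeff n α / coeff n β) * β) (by
    have h9 : Dq K (PowerSeries.C (coeff n α / coeff n β) * β) =
        PowerSeries.C (coeff n α / coeff n β) * Dq K β := by
      ext i
      rw [coeff_Dq, PowerSeries.coeff_C_mul, PowerSeries.coeff_C_mul, coeff_Dq]
      ring
    rw [_root_.map_sub, h9]
    linear_combination h') (by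
    rw [_root_.map_sub, PowerSeries.coeff_C_mul, div_mul_cancel₀ _ hn, sub_self])
  exact sub_eq_zero.1 h8

end Pool.Agent.H85.OU
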