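import Pool.Agent.H85.OU.ID2

/-!
# Row EIS (project OU): Eisenstein's theorem

For `M ≥ 1` let `S_M = {x ∈ ℚ : M^j x ∈ ℤ for some j}`, a subring of `ℚ`; `S_M ⊆ S_(MM')`.  `λ = lam ℚ` has integral coefficients (`U` has constant term `1`, so `U⁻¹` is integral).
Let `y ∈ ℚ⟦X⟧`, `IsDeg ℚ n y`.  `μ` from `exists_min`: `F(Y) := μ(λ)(Y) ∈ ℚ⟦X⟧[Y]` satisfies `F(y) = 0`, `F'(y) ≠ 0` (characteristic zero, `μ' ≠ 0` has smaller degree than `μ`, and `μ` divides every annihilating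
polynomial).  All coefficients of `F` lie in `S_(M1)⟦X⟧`, `M1` a common denominator of the rational numbers occurring in `μ`.
Let `ν` be the order of `F'(y)`, `F'(y) = X^ν (c + ...)`, `c ≠ 0`; `y = a + X^(ν+1) w`, `a = ∑_{l ≤ ν} y_l X^l`, `w ∈ ℚ⟦X⟧`.  Taylor: with `F_i = F^{(i)}/i!` (Hasse derivatives, coefficients in `S_(M1)⟦X⟧`)
`0 = F(y) = F(a) + F'(a) X^(ν+1) w + ∑_{i ≥ 2} F_i(a) X^(i(ν+1)) w^i`.
`F'(a) = F'(y) mod X^(ν+1)`, so `F'(a) = X^ν (c + X b)`; hence `F(a) = X^(2ν+1) d` and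
`d + (c + X b) w + X ∑_{i ≥ 2} F_i(a) X^((i-2)(ν+1)) w^i = 0`.
Let `M2` be `M1` times the denominators of `y_0, .., y_ν`: `a`, `F_i(a)`, `d`, `b`, `c` have coefficients in `S_(M2)`; let `M = M2 · |numerator of c|` (times the denominator), so `c⁻¹ ∈ S_M`.
Coefficient `l`: `c w_l = -(d_l + (b w)_(l-1) + (∑_{i ≥ 2} F_i(a) X^(..) w^i)_(l-1))` involves only `w_0, .., w_(l-1)`; strong induction: `w_l ∈ S_M`.  So all `y_l ∈ S_M`.
-/

open PowerSeries
open Pool.Agent.H85.OT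

namespace Pool.Agent.H85.OU

/-- series with coefficients in a subring -/
def Eis_A (R : Subring ℚ) : Subring ℚ⟦X⟧ where
  carrier := {f | ∀ l, PowerSeries.coeff l f ∈ R}
  mul_mem' := by
    intro f g hf hg l
    rw [PowerSeries.coeff_mul]
    exact R.sum_mem fun x _ => R.mul_mem (hf _) (hg _)
  one_mem' := by
    intro l
    rw [PowerSeries.coeff_one]
    split_ifs
    · exact R.one_mem
    · exact R.zero_mem
  add_mem' := by
    intro f g hf hg l
    rw [map_add]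
    exact R.add_mem (hf _) (hg _)
  zero_mem' := by
    intro l
    rw [map_zero]
    exact R.zero_mem
  neg_mem' := by
    intro f hf l
    rw [map_neg]
    exact R.neg_mem (hf _)

theorem Eis_mem {R : Subring ℚ} {f : ℚ⟦X⟧} : f ∈ Eis_A R ↔ ∀ l, PowerSeries.coeff l f ∈ R := Iff.rfl

theorem Eis_X (R : Subring ℚ) : (PowerSeries.X : ℚ⟦X⟧) ∈ Eis_A R := by
  intro l
  rw [PowerSeries.coeff_X]
  split_ifs
  · exact R.one_mem
  · exact R.zero_mem

theorem Eis_C {R : Subring ℚ} {c : ℚ} (hc : c ∈ R) : (PowerSeries.C c : ℚ⟦X⟧) ∈ Eis_A R := by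
  intro l
  rw [PowerSeries.coeff_C]
  split_ifs
  · exact hc
  · exact R.zero_mem

theorem Eis_int (R : Subring ℚ) (f : ℤ⟦X⟧) : PowerSeries.map (Int.castRingHom ℚ) f ∈ Eis_A R := by
  intro l
  rw [PowerSeries.coeff_map]
  exact intCast_mem R _

theorem Eis_shift {R : Subring ℚ} {f g : ℚ⟦X⟧} {k : ℕ} (hf : f ∈ Eis_A R)
    (h : f = PowerSeries.X ^ k * g) : g ∈ Eis_A R := by
  intro l
  have h1 := hf (l + k)
  rw [h, PowerSeries.coeff_X_pow_mul] at h1
  exact h1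

theorem Eis_lam (R : Subring ℚ) : lam ℚ ∈ Eis_A R := by
  have hu : IsUnit (th3 ^ 2) := by
    rw [PowerSeries.isUnit_iff_constantCoeff, map_pow]
    have h1 : PowerSeries.constantCoeff th3 = 1 := by
      rw [← PowerSeries.coeff_zero_eq_constantCoeff_apply]
      unfold th3
      rw [PowerSeries.coeff_mk, if_pos rfl]
    rw [h1, one_pow]
    exact isUnit_one
  obtain ⟨I, hI⟩ := hu.exists_right_inv
  have h2 : (U ℚ)⁻¹ = PowerSeries.map (Int.castRingHom ℚ) I := by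
    have h3 : U ℚ * PowerSeries.map (Int.castRingHom ℚ) I = 1 := by
      unfold U
      rw [← map_mul, hI, map_one]
    have h4 : U ℚ ≠ 0 := fun h => by rw [h, zero_mul] at h3; exact zero_ne_one h3
    have h5 : PowerSeries.constantCoeff (U ℚ) ≠ 0 := by
      intro h
      have h6 := congrArg PowerSeries.constantCoeff h3
      rw [map_mul, h, zero_mul, map_one] at h6
      exact zero_ne_one h6
    have h7 := PowerSeries.mul_inv_cancel (U ℚ) h5
    exact mul_left_cancel₀ h4 (h7.trans h3.symm)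
  unfold lam xx
  rw [h2]
  exact (Eis_A R).sub_mem (Eis_A R).one_mem
    ((Eis_A R).pow_mem ((Eis_A R).mul_mem (Eis_int R _) (Eis_int R _)) 2)

theorem Eis_evl {R : Subring ℚ} {P : Polynomial ℚ} (hP : ∀ j, P.coeff j ∈ R) :
    evl ℚ P ∈ Eis_A R := by
  rw [Polynomial.aeval_eq_sum_range]
  refine (Eis_A R).sum_mem fun i _ => ?_
  rw [PowerSeries.smul_eq_C_mul]
  exact (Eis_A R).mul_mem (Eis_C (hP i)) ((Eis_A R).pow_mem (Eis_lam R) i)

/-- the rationals with denominator dividing a power of `M` -/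
def Eis_R (M : ℕ) : Subring ℚ where
  carrier := {x | ∃ (j : ℕ) (m : ℤ), (M : ℚ) ^ j * x = m}
  mul_mem' := by
    rintro x y ⟨j, m, h⟩ ⟨j', m', h'⟩
    refine ⟨j + j', m * m', ?_⟩
    push_cast
    rw [← h, ← h', pow_add]
    ring
  one_mem' := ⟨0, 1, by simp⟩
  add_mem' := by
    rintro x y ⟨j, m, h⟩ ⟨j', m', h'⟩
    refine ⟨j + j', (M : ℤ) ^ j' * m + (M : ℤ) ^ j * m', ?_⟩
    push_cast
    rw [← h, ← h', pow_add]
    ring
  zero_mem' := ⟨0, 0, by simp⟩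
  neg_mem' := by
    rintro x ⟨j, m, h⟩
    refine ⟨j, -m, ?_⟩
    push_cast
    rw [← h]
    ring

theorem Eis_exists_M (s : Finset ℚ) : ∃ M : ℕ, 1 ≤ M ∧ ∀ x ∈ s, x ∈ Eis_R M := by
  refine ⟨∏ x ∈ s, x.den, Finset.one_le_prod' fun x _ => x.den_pos, fun x hx => ?_⟩
  obtain ⟨k, hk⟩ := Finset.dvd_prod_of_mem (fun x : ℚ => x.den) hx
  refine ⟨1, k * x.num, ?_⟩
  rw [pow_one, hk]
  push_cast
  have h1 : ((x.den : ℕ) : ℚ) * x = x.num := by rw [mul_comm]; exact Rat.mul_den_eq_num x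
  rw [← h1]
  ring

theorem Eis_fix {R : Subring ℚ} {w e : ℚ⟦X⟧} (he : e ∈ Eis_A R) (P : Polynomial (Eis_A R))
    (h : w = e + PowerSeries.X * P.eval₂ (Eis_A R).subtype w) : w ∈ Eis_A R := by
  intro l
  induction l using Nat.strong_induction_on with
  | _ l ih =>
    rcases l with _ | k
    · have h1 := congrArg (PowerSeries.coeff 0) h
      rw [map_add, PowerSeries.coeff_zero_X_mul, add_zero] at h1
      rw [h1]
      exact he 0
    · have h1 := congrArg (PowerSeries.coeff (k + 1)) h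
      rw [map_add, PowerSeries.coeff_succ_X_mul] at h1
      rw [h1]
      refine R.add_mem (he _) ?_
      have ht : (PowerSeries.mk fun i => if i < k + 1 then PowerSeries.coeff i w else 0 : ℚ⟦X⟧)
          ∈ Eis_A R := by
        intro i
        rw [PowerSeries.coeff_mk]
        split_ifs with hi
        · exact ih i hi
        · exact R.zero_mem
      obtain ⟨t, htd⟩ : ∃ t : Eis_A R, t = ⟨_, ht⟩ := ⟨_, rfl⟩
      have htc : (t : ℚ⟦X⟧) = PowerSeries.mk fun i => if i < k + 1 then PowerSeries.coeff i w else 0 := by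
        rw [htd]
      have h2 : w - (t : ℚ⟦X⟧) ∣ P.eval₂ (Eis_A R).subtype w - P.eval₂ (Eis_A R).subtype (t : ℚ⟦X⟧) := by
        rw [Polynomial.eval₂_eq_eval_map, Polynomial.eval₂_eq_eval_map]
        exact Polynomial.sub_dvd_eval_sub _ _ _
      have h3 : (PowerSeries.X : ℚ⟦X⟧) ^ (k + 1) ∣ w - (t : ℚ⟦X⟧) := by
        rw [PowerSeries.X_pow_dvd_iff]
        intro m hm
        rw [map_sub, htc, PowerSeries.coeff_mk, if_pos hm, sub_self]
      have h4 := (PowerSeries.X_pow_dvd_iff.1 (h3.trans h2)) k (Nat.lt_succ_self k)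
      rw [map_sub, sub_eq_zero] at h4
      rw [h4]
      have h5 : P.eval₂ (Eis_A R).subtype (t : ℚ⟦X⟧) = ((P.eval t : Eis_A R) : ℚ⟦X⟧) :=
        Polynomial.eval₂_at_apply (Eis_A R).subtype t
      rw [h5]
      exact (P.eval t).2 k

theorem Eis_main {R : Subring ℚ} (F : Polynomial (Eis_A R)) {y : ℚ⟦X⟧}
    (hF : F.eval₂ (Eis_A R).subtype y = 0) {ν : ℕ}
    (hν0 : ∀ l < ν, PowerSeries.coeff l (F.derivative.eval₂ (Eis_A R).subtype y) = 0)
    {c : ℚ} (hc : PowerSeries.coeff ν (F.derivative.eval₂ (Eis_A R).subtype y) = c)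
    (hc0 : c ≠ 0) (hcR : c⁻¹ ∈ R) (hy : ∀ l ≤ ν, PowerSeries.coeff l y ∈ R) : y ∈ Eis_A R := by
  have ha : (PowerSeries.mk fun i => if i < ν + 1 then PowerSeries.coeff i y else 0 : ℚ⟦X⟧)
      ∈ Eis_A R := by
    intro i
    rw [PowerSeries.coeff_mk]
    split_ifs with hi
    · exact hy i (by omega)
    · exact R.zero_mem
  obtain ⟨a, had⟩ : ∃ a : Eis_A R, a = ⟨_, ha⟩ := ⟨_, rfl⟩
  have hac : (a : ℚ⟦X⟧) = PowerSeries.mk fun i => if i < ν + 1 then PowerSeries.coeff i y else 0 := by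
    rw [had]
  have hdvd : (PowerSeries.X : ℚ⟦X⟧) ^ (ν + 1) ∣ y - (a : ℚ⟦X⟧) := by
    rw [PowerSeries.X_pow_dvd_iff]
    intro m hm
    rw [map_sub, hac, PowerSeries.coeff_mk, if_pos hm, sub_self]
  obtain ⟨w, hw⟩ := hdvd
  have hya : y = PowerSeries.X ^ (ν + 1) * w + (a : ℚ⟦X⟧) := by rw [← hw, sub_add_cancel]
  obtain ⟨G, hG⟩ : ∃ G : Polynomial (Eis_A R), G = F.comp (Polynomial.X + Polynomial.C a) := ⟨_, rfl⟩
  have hG0 : G.eval₂ (Eis_A R).subtype (PowerSeries.X ^ (ν + 1) * w) = 0 := by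
    rw [hG, Polynomial.eval₂_comp, Polynomial.eval₂_add, Polynomial.eval₂_X, Polynomial.eval₂_C]
    have h1 : (PowerSeries.X : ℚ⟦X⟧) ^ (ν + 1) * w + (Eis_A R).subtype a = y := hya.symm
    rw [h1]
    exact hF
  obtain ⟨G2, hG2⟩ : ∃ G2 : Polynomial (Eis_A R), G2 = G.divX.divX := ⟨_, rfl⟩
  have hdec : G = (G2 * Polynomial.X + Polynomial.C (G.coeff 1)) * Polynomial.X
      + Polynomial.C (G.coeff 0) := by
    have h1 := Polynomial.divX_mul_X_add G
    have h2 := Polynomial.divX_mul_X_add G.divX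
    rw [Polynomial.coeff_divX, zero_add] at h2
    rw [hG2, h2, h1]
  have hg1 : ((G.coeff 1 : Eis_A R) : ℚ⟦X⟧) = F.derivative.eval₂ (Eis_A R).subtype (a : ℚ⟦X⟧) := by
    have h1 : G.coeff 1 = F.derivative.eval a := by
      have h2 := Polynomial.taylor_coeff_one a F
      rw [Polynomial.taylor_apply, ← hG] at h2
      exact h2
    rw [h1]
    exact (Polynomial.eval₂_at_apply (Eis_A R).subtype a).symm
  have hgl : ∀ l < ν + 1, PowerSeries.coeff l ((G.coeff 1 : Eis_A R) : ℚ⟦X⟧)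
      = PowerSeries.coeff l (F.derivative.eval₂ (Eis_A R).subtype y) := by
    intro l hl
    have h1 : y - (a : ℚ⟦X⟧) ∣ F.derivative.eval₂ (Eis_A R).subtype y
        - F.derivative.eval₂ (Eis_A R).subtype (a : ℚ⟦X⟧) := by
      rw [Polynomial.eval₂_eq_eval_map, Polynomial.eval₂_eq_eval_map]
      exact Polynomial.sub_dvd_eval_sub _ _ _
    have h2 : (PowerSeries.X : ℚ⟦X⟧) ^ (ν + 1) ∣ y - (a : ℚ⟦X⟧) := ⟨w, hw⟩
    have h3 := (PowerSeries.X_pow_dvd_iff.1 (h2.trans h1)) l hl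
    rw [map_sub, sub_eq_zero] at h3
    rw [hg1, h3]
  obtain ⟨g, hg⟩ : (PowerSeries.X : ℚ⟦X⟧) ^ ν ∣ ((G.coeff 1 : Eis_A R) : ℚ⟦X⟧) := by
    rw [PowerSeries.X_pow_dvd_iff]
    intro m hm
    rw [hgl m (by omega)]
    exact hν0 m hm
  have hgA : g ∈ Eis_A R := Eis_shift (G.coeff 1).2 hg
  have hg0 : PowerSeries.constantCoeff g = c := by
    have h1 := hgl ν (by omega)
    rw [hc, hg] at h1
    have h2 := PowerSeries.coeff_X_pow_mul g ν 0
    rw [zero_add] at h2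
    rw [h2, PowerSeries.coeff_zero_eq_constantCoeff_apply] at h1
    exact h1
  have hcRR : c ∈ R := by
    rw [← hg0, ← PowerSeries.coeff_zero_eq_constantCoeff_apply]
    exact hgA 0
  obtain ⟨b, hb⟩ : (PowerSeries.X : ℚ⟦X⟧) ∣ g - PowerSeries.C c := by
    rw [PowerSeries.X_dvd_iff, map_sub, hg0, PowerSeries.constantCoeff_C, sub_self]
  have hbA : b ∈ Eis_A R := by
    refine Eis_shift (k := 1) ((Eis_A R).sub_mem hgA (Eis_C hcRR)) ?_
    rw [pow_one]
    exact hb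
  obtain ⟨Z, hZ⟩ : ∃ Z : ℚ⟦X⟧, Z = G2.eval₂ (Eis_A R).subtype (PowerSeries.X ^ (ν + 1) * w) := ⟨_, rfl⟩
  have heq : (Z * (PowerSeries.X ^ (ν + 1) * w) + PowerSeries.X ^ ν * g) * (PowerSeries.X ^ (ν + 1) * w)
      + ((G.coeff 0 : Eis_A R) : ℚ⟦X⟧) = 0 := by
    have h1 := hG0
    rw [hdec] at h1
    simp only [Polynomial.eval₂_add, Polynomial.eval₂_mul, Polynomial.eval₂_X, Polynomial.eval₂_C] at h1
    rw [← hZ] at h1
    have h2 : (Eis_A R).subtype (G.coeff 1) = PowerSeries.X ^ ν * g := hg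
    rw [h2] at h1
    exact h1
  have hd : ((G.coeff 0 : Eis_A R) : ℚ⟦X⟧)
      = PowerSeries.X ^ (2 * ν + 1) * (-(PowerSeries.X * Z * w ^ 2 + g * w)) := by
    rw [eq_neg_of_add_eq_zero_right heq]
    ring
  obtain ⟨d, hdd⟩ : ∃ d : ℚ⟦X⟧, d = -(PowerSeries.X * Z * w ^ 2 + g * w) := ⟨_, rfl⟩
  rw [← hdd] at hd
  have hdA : d ∈ Eis_A R := Eis_shift (G.coeff 0).2 hd
  have hgb : g = PowerSeries.C c + PowerSeries.X * b := by rw [← hb]; ring
  have hcc : (PowerSeries.C c⁻¹ : ℚ⟦X⟧) * PowerSeries.C c = 1 := by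
    rw [← map_mul, inv_mul_cancel₀ hc0, map_one]
  have hcA : (PowerSeries.C c⁻¹ : ℚ⟦X⟧) ∈ Eis_A R := Eis_C hcR
  have hXA : (PowerSeries.X : ℚ⟦X⟧) ^ (ν + 1) ∈ Eis_A R := (Eis_A R).pow_mem (Eis_X R) _
  obtain ⟨P, hP⟩ : ∃ P : Polynomial (Eis_A R), P = -(Polynomial.C ⟨_, hcA⟩ *
      (Polynomial.C ⟨b, hbA⟩ * Polynomial.X
        + G2.comp (Polynomial.C ⟨_, hXA⟩ * Polynomial.X) * Polynomial.X ^ 2)) := ⟨_, rfl⟩
  have hPe : P.eval₂ (Eis_A R).subtype w = -(PowerSeries.C c⁻¹ * (b * w + Z * w ^ 2)) := by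
    rw [hP]
    simp only [Polynomial.eval₂_neg, Polynomial.eval₂_add, Polynomial.eval₂_mul, Polynomial.eval₂_X,
      Polynomial.eval₂_C, Polynomial.eval₂_comp, Polynomial.eval₂_X_pow]
    rw [hZ]
    rfl
  have hwA : w ∈ Eis_A R := by
    refine Eis_fix (e := -(PowerSeries.C c⁻¹ * d)) ((Eis_A R).neg_mem ((Eis_A R).mul_mem hcA hdA)) P ?_
    rw [hPe, hdd, hgb]
    have h1 : -(PowerSeries.C c⁻¹ * -(PowerSeries.X * Z * w ^ 2 + (PowerSeries.C c + PowerSeries.X * b) * w))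
        + PowerSeries.X * -(PowerSeries.C c⁻¹ * (b * w + Z * w ^ 2))
        = ((PowerSeries.C c⁻¹ : ℚ⟦X⟧) * PowerSeries.C c) * w := by ring
    rw [h1, hcc, one_mul]
  rw [hya]
  exact (Eis_A R).add_mem ((Eis_A R).mul_mem hXA hwA) a.2

theorem eisenstein {n : ℕ} {y : ℚ⟦X⟧} (hy : IsDeg ℚ n y) :
    ∃ M : ℕ, 1 ≤ M ∧ ∀ l : ℕ, ∃ (j : ℕ) (m : ℤ), (M : ℚ) ^ j * PowerSeries.coeff l y = m := by
  obtain ⟨μ, hμm, hμ1, hμ0, hμd, -⟩ := exists_min (K := ℚ) two_ne_zero hy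
  obtain ⟨φ, hφ⟩ : ∃ φ : Polynomial ℚ →+* ℚ⟦X⟧, φ = (evl ℚ).toRingHom := ⟨_, rfl⟩
  rw [← hφ] at hμ0 hμd
  have hD : μ.derivative.eval₂ φ y ≠ 0 := by
    intro h0
    have h1 := hμd _ h0
    have h2 : μ.derivative ≠ 0 := by
      intro h3
      have := Polynomial.natDegree_eq_zero_of_derivative_eq_zero h3
      omega
    have h4 := Polynomial.natDegree_le_of_dvd h1 h2
    have h5 := Polynomial.natDegree_derivative_lt (p := μ) (by omega)
    omega
  have hex : ∃ l, PowerSeries.coeff l (μ.derivative.eval₂ φ y) ≠ 0 := by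
    by_contra hcon
    push Not at hcon
    exact hD (PowerSeries.ext fun l => by rw [hcon l, map_zero])
  classical
  obtain ⟨ν, hν, hνm⟩ : ∃ ν, PowerSeries.coeff ν (μ.derivative.eval₂ φ y) ≠ 0 ∧
      ∀ l < ν, PowerSeries.coeff l (μ.derivative.eval₂ φ y) = 0 :=
    ⟨Nat.find hex, Nat.find_spec hex, fun l hl => not_not.1 (Nat.find_min hex hl)⟩
  obtain ⟨M, hM1, hM⟩ := Eis_exists_M
    ((μ.support.biUnion fun i => (μ.coeff i).support.image fun j => (μ.coeff i).coeff j)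
      ∪ ((Finset.range (ν + 1)).image fun l => PowerSeries.coeff l y)
      ∪ {(PowerSeries.coeff ν (μ.derivative.eval₂ φ y))⁻¹})
  refine ⟨M, hM1, ?_⟩
  have hcoef : ∀ i j, (μ.coeff i).coeff j ∈ Eis_R M := by
    intro i j
    by_cases h0 : (μ.coeff i).coeff j = 0
    · rw [h0]
      exact (Eis_R M).zero_mem
    · refine hM _ (Finset.mem_union_left _ (Finset.mem_union_left _ (Finset.mem_biUnion.2
        ⟨i, ?_, Finset.mem_image.2 ⟨j, ?_, rfl⟩⟩)))
      · rw [Polynomial.mem_support_iff]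
        intro h1
        rw [h1, Polynomial.coeff_zero] at h0
        exact h0 rfl
      · rw [Polynomial.mem_support_iff]
        exact h0
  have hA : ((μ.map φ).coeffs : Set ℚ⟦X⟧) ⊆ Eis_A (Eis_R M) := by
    intro f hf
    obtain ⟨i, -, rfl⟩ := Polynomial.mem_coeffs_iff.1 hf
    rw [Polynomial.coeff_map, hφ]
    exact Eis_evl (hcoef i)
  obtain ⟨F, hF⟩ : ∃ F : Polynomial (Eis_A (Eis_R M)), F = (μ.map φ).toSubring (Eis_A (Eis_R M)) hA :=
    ⟨_, rfl⟩
  have hFm : F.map (Eis_A (Eis_R M)).subtype = μ.map φ := by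
    rw [hF]
    exact Polynomial.map_toSubring _ _ _
  have e1 : F.eval₂ (Eis_A (Eis_R M)).subtype y = 0 := by
    rw [Polynomial.eval₂_eq_eval_map, hFm, ← Polynomial.eval₂_eq_eval_map]
    exact hμ0
  have e2 : F.derivative.eval₂ (Eis_A (Eis_R M)).subtype y = μ.derivative.eval₂ φ y := by
    rw [Polynomial.eval₂_eq_eval_map, ← Polynomial.derivative_map, hFm, Polynomial.derivative_map,
      ← Polynomial.eval₂_eq_eval_map]
  have hmain : y ∈ Eis_A (Eis_R M) := by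
    refine Eis_main F e1 (ν := ν) (c := PowerSeries.coeff ν (μ.derivative.eval₂ φ y)) ?_ ?_ hν ?_ ?_
    · intro l hl
      rw [e2]
      exact hνm l hl
    · rw [e2]
    · exact hM _ (Finset.mem_union_right _ (Finset.mem_singleton_self _))
    · intro l hl
      exact hM _ (Finset.mem_union_left _ (Finset.mem_union_right _
        (Finset.mem_image.2 ⟨l, Finset.mem_range.2 (by omega), rfl⟩)))
  exact fun l => hmain l

end Pool.Agent.H85.OU
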