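import Pool.Agent.H85.OU.Mb
import Pool.Agent.H85.OU.Md

/-!
# Row MF (project OU): `12 ε = E₂ + 4a - 5b`

`a = tR ℂ (th3^4) = U²`, `b = tR ℂ (th4^4)`, `ε = ee ℂ = D U / U`.
`uu²` is a form of weight `2` on `Γ₀(4)` with q-expansion `a` (`isMF_ga`), so its Serre derivative has weight `4` and q-expansion `D a - (1/6) E₂ a` (`IsMF.serre`, `QE.serre`); the form
`φ = 6 ∂(uu²) - (4 uu² - 5 b) uu²` of weight `4` on `Γ₀(4)` has q-expansion `6 D a - E₂ a - (4a - 5b) a`, whose coefficients `0, 1, 2` vanish: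
`a = 1 + 8q + 24q² + ..`, `b = 1 - 8q + 24q² - ..`, `E₂ = 1 - 24q - 72q² - ..` (`σ₁(1) = 1, σ₁(2) = 3`), `6 D a = 48 q + 288 q²`, `E₂ a = 1 - 16q - 240q²`, `(4a - 5b) a = (-1 + 72q - 24q²)(1 + 8q + 24q²) = -1 + 64q + 528q²`:
`-1 + 1 = 0`, `48 + 16 - 64 = 0`, `288 + 240 - 528 = 0`.  So `φ = 0` by `sturm4` with `w = 2` (`OT/Wd.lean`; `IsMF.exists_modularForm`).
(`th3 = 1 + 2q + 2q⁴ + ..`: coefficients `0, 1, 2` of `th3` are `1, 2, 0`, of `th4` `1, -2, 0`.)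
Hence `6 D a = E₂ a + (4a - 5b) a`; `D a = D(U²) = 2 ε U² = 2 ε a` (`Dq_U`), cancel `a ≠ 0`.
-/

open PowerSeries UpperHalfPlane ModularForm MatrixGroups CongruenceSubgroup
open scoped Manifold

namespace Pool.Agent.H85.OU

open Pool.Agent.H85.OT

theorem Mf_c2 {R : Type*} [CommRing R] (f g : R⟦X⟧) :
    PowerSeries.coeff 2 (f * g) = PowerSeries.coeff 0 f * PowerSeries.coeff 2 g +
      PowerSeries.coeff 1 f * PowerSeries.coeff 1 g +
      PowerSeries.coeff 2 f * PowerSeries.coeff 0 g := by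
  rw [PowerSeries.coeff_mul, Finset.Nat.sum_antidiagonal_eq_sum_range_succ_mk]
  simp only [Finset.sum_range_succ, Finset.sum_range_zero, zero_add]

theorem Mf_c1 {R : Type*} [CommRing R] (f g : R⟦X⟧) :
    PowerSeries.coeff 1 (f * g) = PowerSeries.coeff 0 f * PowerSeries.coeff 1 g +
      PowerSeries.coeff 1 f * PowerSeries.coeff 0 g := by
  rw [PowerSeries.coeff_mul, Finset.Nat.sum_antidiagonal_eq_sum_range_succ_mk]
  simp only [Finset.sum_range_succ, Finset.sum_range_zero, zero_add]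

theorem Mf_c0 {R : Type*} [CommRing R] (f g : R⟦X⟧) :
    PowerSeries.coeff 0 (f * g) = PowerSeries.coeff 0 f * PowerSeries.coeff 0 g := by
  rw [PowerSeries.coeff_mul, Finset.Nat.sum_antidiagonal_eq_sum_range_succ_mk]
  simp only [Finset.sum_range_succ, Finset.sum_range_zero, zero_add]

theorem Mf_th3 : PowerSeries.coeff 0 th3 = 1 ∧ PowerSeries.coeff 1 th3 = 2 ∧
    PowerSeries.coeff 2 th3 = 0 := by
  refine ⟨?_, fld_d3, ?_⟩
  · rw [th3, PowerSeries.coeff_mk, if_pos rfl]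
  · rw [th3, PowerSeries.coeff_mk, if_neg two_ne_zero, if_neg]
    rintro ⟨r, hr⟩
    rcases r with _ | _ | r
    · omega
    · omega
    · nlinarith

theorem Mf_th4 : PowerSeries.coeff 0 th4 = 1 ∧ PowerSeries.coeff 1 th4 = -2 ∧
    PowerSeries.coeff 2 th4 = 0 := by
  obtain ⟨h0, h1, h2⟩ := Mf_th3
  refine ⟨?_, fld_d4, ?_⟩
  · rw [th4, PowerSeries.coeff_mk, h0, pow_zero, one_mul]
  · rw [th4, PowerSeries.coeff_mk, h2, mul_zero]

theorem Mf_pow4 (f : ℤ⟦X⟧) (c : ℤ) (h0 : PowerSeries.coeff 0 f = 1) (h1 : PowerSeries.coeff 1 f = c)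
    (h2 : PowerSeries.coeff 2 f = 0) :
    PowerSeries.coeff 0 (tR ℂ (f ^ 4)) = 1 ∧ PowerSeries.coeff 1 (tR ℂ (f ^ 4)) = 4 * (c : ℂ) ∧
    PowerSeries.coeff 2 (tR ℂ (f ^ 4)) = 6 * (c : ℂ) ^ 2 := by
  have e : f ^ 4 = (f * f) * (f * f) := by ring
  have a0 : PowerSeries.coeff 0 (f * f) = 1 := by rw [Mf_c0, h0, mul_one]
  have a1 : PowerSeries.coeff 1 (f * f) = 2 * c := by rw [Mf_c1, h0, h1]; ring
  have a2 : PowerSeries.coeff 2 (f * f) = c ^ 2 := by rw [Mf_c2, h0, h1, h2]; ring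
  have b0 : PowerSeries.coeff 0 (f ^ 4) = 1 := by rw [e, Mf_c0, a0, mul_one]
  have b1 : PowerSeries.coeff 1 (f ^ 4) = 4 * c := by rw [e, Mf_c1, a0, a1]; ring
  have b2 : PowerSeries.coeff 2 (f ^ 4) = 6 * c ^ 2 := by rw [e, Mf_c2, a0, a1, a2]; ring
  have hc : ∀ n, PowerSeries.coeff n (tR ℂ (f ^ 4)) = ((PowerSeries.coeff n (f ^ 4) : ℤ) : ℂ) := by
    intro n
    rw [tR, PowerSeries.coeff_map]
    rfl
  rw [hc, hc, hc, b0, b1, b2]
  refine ⟨by push_cast; rfl, by push_cast; rfl, by push_cast; rfl⟩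

theorem Mf_E2 : PowerSeries.coeff 0 E2s = 1 ∧ PowerSeries.coeff 1 E2s = -24 ∧
    PowerSeries.coeff 2 E2s = -72 := by
  refine ⟨?_, ?_, ?_⟩
  · rw [E2s, PowerSeries.coeff_mk, if_pos rfl]
  · rw [E2s, PowerSeries.coeff_mk, if_neg one_ne_zero, ArithmeticFunction.sigma_one_apply,
      Nat.divisors_one, Finset.sum_singleton]
    norm_num
  · rw [E2s, PowerSeries.coeff_mk, if_neg two_ne_zero, ArithmeticFunction.sigma_one_apply,
      Nat.Prime.sum_divisors Nat.prime_two]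
    norm_num

theorem Mf_T : ModularGroup.T ∈ Gamma0 4 := by
  rw [Gamma0_mem]
  simp [ModularGroup.T]

theorem ee_E2 : 12 * ee ℂ = E2s + 4 * tR ℂ (th3 ^ 4) - 5 * tR ℂ (th4 ^ 4) := by
  obtain ⟨hM, hQ⟩ := isMF_ga
  obtain ⟨bb, hbM, hbQ⟩ := exists_gb'
  obtain ⟨a, ha⟩ : ∃ a, a = tR ℂ (th3 ^ 4) := ⟨_, rfl⟩
  obtain ⟨b, hb⟩ : ∃ b, b = tR ℂ (th4 ^ 4) := ⟨_, rfl⟩
  obtain ⟨t0, t1, t2⟩ := Mf_th3
  obtain ⟨s0, s1, s2⟩ := Mf_th4
  obtain ⟨a0, a1, a2⟩ := Mf_pow4 th3 2 t0 t1 t2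
  obtain ⟨b0, b1, b2⟩ := Mf_pow4 th4 (-2) s0 s1 s2
  obtain ⟨e0, e1, e2⟩ := Mf_E2
  rw [← ha] at hQ a0 a1 a2 ⊢
  rw [← hb] at hbQ b0 b1 b2 ⊢
  have hφM := ((hM.serre).smul 6).add (((hM.mul hM).smul (-4)).add ((hbM.mul hM).smul 5))
  have hφQ := ((hQ.serre 2).smul 6).add (((hQ.mul hQ).smul (-4)).add ((hbQ.mul hQ).smul 5))
  obtain ⟨F, hF⟩ : ∃ F, F = PowerSeries.C 6 * (Dq ℂ a - PowerSeries.C (((2 : ℤ) : ℂ) / 12) * E2s * a) +
    (PowerSeries.C (-4) * (a * a) + PowerSeries.C 5 * (b * a)) := ⟨_, rfl⟩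
  rw [← hF] at hφQ
  have hw : (2 : ℤ) + 2 = ((2 * 2 : ℕ) : ℤ) := by norm_num
  rw [hw] at hφM
  obtain ⟨g, hg⟩ := hφM.exists_modularForm
  have hqe := QE.unique (hφM.exists_QE Mf_T) hφQ
  have hg0 : g = 0 := by
    apply sturm4 2 g
    intro n hn
    rw [hg, hqe, hF]
    have d : ∀ m, PowerSeries.coeff m (Dq ℂ a) = (m : ℂ) * PowerSeries.coeff m a :=
      fun m => coeff_Dq a m
    interval_cases n
    · simp only [map_add, map_sub, PowerSeries.coeff_C_mul, mul_assoc, Mf_c0, d, a0, b0, e0]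
      push_cast
      norm_num
    · simp only [map_add, map_sub, PowerSeries.coeff_C_mul, mul_assoc, Mf_c1, d, a0, b0, e0, a1,
        b1, e1]
      push_cast
      norm_num
    · simp only [map_add, map_sub, PowerSeries.coeff_C_mul, mul_assoc, Mf_c2, d, a0, b0, e0, a1,
        b1, e1, a2, b2, e2]
      push_cast
      norm_num
  have hF0 : F = 0 := by
    have h1 := QE.const 0
    rw [hg0] at hg
    have h2 : (fun _ : ℍ => (0 : ℂ)) = ((0 : ModularForm G04 ((2 * 2 : ℕ) : ℤ)) : ℍ → ℂ) := rfl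
    rw [h2] at h1
    have h3 : QE ((0 : ModularForm G04 ((2 * 2 : ℕ) : ℤ)) : ℍ → ℂ) F := by
      rw [hg]
      exact hφQ
    have h4 := QE.unique h3 h1
    rw [h4]
    exact map_zero _
  have haU : a = U ℂ ^ 2 := by
    rw [ha, tR, U, ← map_pow]
    congr 1
    ring
  have hDa : Dq ℂ a = 2 * ee ℂ * a := by
    rw [haU, sq, Derivation.leibniz, smul_eq_mul, Dq_U]
    ring
  have ha0 : a ≠ 0 := by
    rw [haU]
    exact pow_ne_zero 2 (U_ne_zero ℂ)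
  have hc1 : (PowerSeries.C (6 : ℂ) : ℂ⟦X⟧) = 6 := map_ofNat _ 6
  have hc2 : (PowerSeries.C (5 : ℂ) : ℂ⟦X⟧) = 5 := map_ofNat _ 5
  have hc3 : (PowerSeries.C (-4 : ℂ) : ℂ⟦X⟧) = -4 := by
    rw [map_neg]
    congr 1
  have hc4 : 6 * (PowerSeries.C (((2 : ℤ) : ℂ) / 12) : ℂ⟦X⟧) = 1 := by
    rw [← hc1, ← map_mul, ← map_one (PowerSeries.C (R := ℂ))]
    congr 1
    norm_num
  rw [hF, hc1, hc2, hc3, hDa] at hF0
  apply mul_right_cancel₀ ha0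
  linear_combination hF0 + (E2s * a) * hc4

end Pool.Agent.H85.OU
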