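import Pool.Agent.H85.OU.Md

/-!
# Row MG (project OU): integrality over `ℂ[λ]`

`Γ' ≤ Γ₀(4)` of finite index, `h` a form of weight `j` for `Γ'`, `H` its q-expansion.  Let `γ_1 = 1, .., γ_I` be representatives of the right cosets `Γ'\Γ₀(4)` (a finite set `ι` of cosets, `I ≥ 1`), `b_i = h² ∣[2j] γ_i`
(independent of the representative).  For `γ ∈ Γ₀(4)`, `b_i ∣[2j] γ = b_(π i)` for a permutation `π` of `ι`.
* `e_m` = `m`-th elementary symmetric function of the `b_i` (`∑_{S ⊆ ι, |S| = m} ∏_{i ∈ S} b_i`) is `IsMF (Gamma0 4) (2jm)`: holomorphic; invariant: the slash action is multiplicative (`mul_slash_SL2`, weights add), so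
  `e_m ∣[2jm] γ` is the elementary symmetric function of the permuted family; bounded: every `b_i∣γ` (`γ ∈ SL₂(ℤ)`) is bounded.  (Maybe convenient: induction on `m` and the set, or `Finset.esymm`/`Multiset.esymm`.)
* `T ∈ Γ₀(4)`, so `e_m` has a q-expansion (`IsMF.exists_QE`), `= U^(2jm) P_m(λ)`, `deg P_m ≤ jm` (`form_G04` with `w = jm`).  `e_0 = 1`.
* Pointwise `∏_i (X - b_i(τ)) = ∑_m (-1)^m e_m(τ) X^(I-m)` (`Multiset.prod_X_sub_X_eq_sum_esymm`); at `X = h(τ)² = b_1(τ)`: `∑_m (-1)^m e_m (h²)^(I-m) = 0` as functions; q-expansions (`QE` calculus, `QE.unique` with the q-expansion `0` of `0`):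
  `∑_m (-1)^m U^(2jm) P_m(λ) H^(2(I-m)) = 0`.  Multiply by `U^(-2jI)`: with `a = H U^(-j)`: `(a²)^I + ∑_{m ≥ 1} (-1)^m P_m(λ) (a²)^(I-m) = 0`.
-/

open PowerSeries UpperHalfPlane ModularForm MatrixGroups CongruenceSubgroup
open scoped Manifold

namespace Pool.Agent.H85.OU

open Pool.Agent.H85.OT

/-- translates of `f` by the cosets -/
noncomputable def Mg_b (Γ' : Subgroup SL(2, ℤ)) (k : ℤ) (f : ℍ → ℂ)
    (q : ↥(Gamma0 4) ⧸ Γ'.subgroupOf (Gamma0 4)) : ℍ → ℂ :=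
  f ∣[k] (((Quotient.out q : ↥(Gamma0 4)) : SL(2, ℤ))⁻¹)

theorem Mg_b_mk {Γ' : Subgroup SL(2, ℤ)} {k : ℤ} {f : ℍ → ℂ} (hf : ∀ γ ∈ Γ', f ∣[k] γ = f)
    (g : ↥(Gamma0 4)) :
    Mg_b Γ' k f (QuotientGroup.mk g) = f ∣[k] ((g : SL(2, ℤ))⁻¹) := by
  have h1 : (QuotientGroup.mk (Quotient.out (QuotientGroup.mk g :
      ↥(Gamma0 4) ⧸ Γ'.subgroupOf (Gamma0 4))) : ↥(Gamma0 4) ⧸ Γ'.subgroupOf (Gamma0 4)) =
      QuotientGroup.mk g := QuotientGroup.out_eq' _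
  rw [QuotientGroup.eq, Subgroup.mem_subgroupOf] at h1
  have h2 : ((g : SL(2, ℤ))⁻¹) =
      (((Quotient.out (QuotientGroup.mk g : ↥(Gamma0 4) ⧸ Γ'.subgroupOf (Gamma0 4)))⁻¹ * g :
        ↥(Gamma0 4)) : SL(2, ℤ))⁻¹ *
      ((Quotient.out (QuotientGroup.mk g : ↥(Gamma0 4) ⧸ Γ'.subgroupOf (Gamma0 4)) :
        ↥(Gamma0 4)) : SL(2, ℤ))⁻¹ := by
    push_cast
    group
  rw [h2, SlashAction.slash_mul, hf _ (inv_mem h1)]
  rfl

theorem Mg_b_slash {Γ' : Subgroup SL(2, ℤ)} {k : ℤ} {f : ℍ → ℂ} (hf : ∀ γ ∈ Γ', f ∣[k] γ = f)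
    (γ : ↥(Gamma0 4)) (q : ↥(Gamma0 4) ⧸ Γ'.subgroupOf (Gamma0 4)) :
    (Mg_b Γ' k f q) ∣[k] (γ : SL(2, ℤ)) = Mg_b Γ' k f (γ⁻¹ • q) := by
  obtain ⟨r, rfl⟩ := QuotientGroup.mk_surjective q
  have h1 : (γ⁻¹ • (QuotientGroup.mk r : ↥(Gamma0 4) ⧸ Γ'.subgroupOf (Gamma0 4))) =
      QuotientGroup.mk (γ⁻¹ * r) := rfl
  rw [h1, Mg_b_mk hf, Mg_b_mk hf, ← SlashAction.slash_mul]
  congr 1
  push_cast
  group

theorem Mg_prod_slash {ι : Type*} (k : ℤ) (A : SL(2, ℤ)) (f : ι → ℍ → ℂ) (s : Finset ι) :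
    (∏ i ∈ s, f i) ∣[k * (s.card : ℤ)] A = ∏ i ∈ s, (f i ∣[k] A) := by
  classical
  induction s using Finset.induction_on with
  | empty =>
    rw [Finset.prod_empty, Finset.prod_empty, Finset.card_empty, Nat.cast_zero, mul_zero]
    exact is_invariant_one A
  | insert i s hi ih =>
    rw [Finset.prod_insert hi, Finset.prod_insert hi, Finset.card_insert_of_notMem hi, ← ih,
      ← mul_slash_SL2]
    congr 1
    push_cast
    ring

/-- elementary symmetric functions of the translates -/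
noncomputable def Mg_e (Γ' : Subgroup SL(2, ℤ)) [Fintype (↥(Gamma0 4) ⧸ Γ'.subgroupOf (Gamma0 4))]
    (k : ℤ) (f : ℍ → ℂ) (m : ℕ) : ℍ → ℂ :=
  ∑ S ∈ Finset.powersetCard m (Finset.univ : Finset (↥(Gamma0 4) ⧸ Γ'.subgroupOf (Gamma0 4))),
    ∏ i ∈ S, Mg_b Γ' k f i

theorem Mg_e_inv {Γ' : Subgroup SL(2, ℤ)}
    [Fintype (↥(Gamma0 4) ⧸ Γ'.subgroupOf (Gamma0 4))]
    {k : ℤ} {f : ℍ → ℂ} (hf : ∀ γ ∈ Γ', f ∣[k] γ = f) (m : ℕ) (γ : SL(2, ℤ))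
    (hγ : γ ∈ Gamma0 4) : (Mg_e Γ' k f m) ∣[k * (m : ℤ)] γ = Mg_e Γ' k f m := by
  classical
  unfold Mg_e
  rw [SlashAction.sum_slash]
  have h1 : ∀ S ∈ Finset.powersetCard m
      (Finset.univ : Finset (↥(Gamma0 4) ⧸ Γ'.subgroupOf (Gamma0 4))),
      (∏ i ∈ S, Mg_b Γ' k f i) ∣[k * (m : ℤ)] γ =
        ∏ i ∈ S.map (MulAction.toPerm ((⟨γ, hγ⟩ : ↥(Gamma0 4))⁻¹)).toEmbedding, Mg_b Γ' k f i := by
    intro S hS
    rw [Finset.mem_powersetCard] at hS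
    rw [← hS.2, Mg_prod_slash, Finset.prod_map]
    refine Finset.prod_congr rfl fun i _ => ?_
    exact Mg_b_slash hf ⟨γ, hγ⟩ i
  rw [Finset.sum_congr rfl h1]
  refine Finset.sum_bij (fun S _ =>
    S.map (MulAction.toPerm ((⟨γ, hγ⟩ : ↥(Gamma0 4))⁻¹)).toEmbedding) ?_ ?_ ?_ ?_
  · intro S hS
    rw [Finset.mem_powersetCard] at hS ⊢
    exact ⟨Finset.subset_univ _, by rw [Finset.card_map]; exact hS.2⟩
  · intro S _ S' _ h
    exact Finset.map_injective _ h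
  · intro S hS
    rw [Finset.mem_powersetCard] at hS
    refine ⟨S.map (MulAction.toPerm ((⟨γ, hγ⟩ : ↥(Gamma0 4))⁻¹)).symm.toEmbedding, ?_, ?_⟩
    · rw [Finset.mem_powersetCard]
      exact ⟨Finset.subset_univ _, by rw [Finset.card_map]; exact hS.2⟩
    · rw [Finset.map_map]
      ext x
      simp
  · intro S _
    rfl

theorem Mg_bot_slash {k : ℤ} {f : ℍ → ℂ} (hf : MDifferentiable 𝓘(ℂ) 𝓘(ℂ) f)
    (hb : ∀ γ : SL(2, ℤ), IsBoundedAtImInfty (f ∣[k] γ)) (γ : SL(2, ℤ)) :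
    IsMF ⊥ k (f ∣[k] γ) := by
  refine ⟨?_, ?_, ?_⟩
  · rw [ModularForm.SL_slash]
    exact hf.slash k _
  · intro δ hδ
    rw [Subgroup.mem_bot] at hδ
    rw [hδ, SlashAction.slash_one]
  · intro δ
    rw [← SlashAction.slash_mul]
    exact hb _

theorem Mg_bot_prod {ι : Type*} {k : ℤ} {b : ι → ℍ → ℂ} (hb : ∀ i, IsMF ⊥ k (b i))
    (s : Finset ι) : IsMF ⊥ (k * (s.card : ℤ)) (∏ i ∈ s, b i) := by
  classical
  induction s using Finset.induction_on with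
  | empty =>
    rw [Finset.prod_empty, Finset.card_empty, Nat.cast_zero, mul_zero]
    exact IsMF.const ⊥ 1
  | insert i s hi ih =>
    rw [Finset.prod_insert hi, Finset.card_insert_of_notMem hi]
    have h1 := (hb i).mul ih
    have h2 : k * ((s.card + 1 : ℕ) : ℤ) = k + k * (s.card : ℤ) := by
      push_cast
      ring
    rw [h2]
    exact h1

theorem Mg_bot_sum {κ : Type*} {k : ℤ} {b : κ → ℍ → ℂ} (s : Finset κ)
    (hb : ∀ i ∈ s, IsMF ⊥ k (b i)) : IsMF ⊥ k (∑ i ∈ s, b i) := by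
  classical
  induction s using Finset.induction_on with
  | empty =>
    rw [Finset.sum_empty]
    exact IsMF.zero ⊥ k
  | insert i s hi ih =>
    rw [Finset.sum_insert hi]
    exact (hb i (Finset.mem_insert_self i s)).add
      (ih fun j hj => hb j (Finset.mem_insert_of_mem hj))

theorem Mg_e_isMF {Γ' : Subgroup SL(2, ℤ)}
    [Fintype (↥(Gamma0 4) ⧸ Γ'.subgroupOf (Gamma0 4))]
    {k : ℤ} {f : ℍ → ℂ} (hf : IsMF Γ' k f) (m : ℕ) :
    IsMF (Gamma0 4) (k * (m : ℤ)) (Mg_e Γ' k f m) := by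
  have h1 : IsMF ⊥ (k * (m : ℤ)) (Mg_e Γ' k f m) := by
    unfold Mg_e
    refine Mg_bot_sum _ fun S hS => ?_
    rw [Finset.mem_powersetCard] at hS
    rw [← hS.2]
    exact Mg_bot_prod (fun i => Mg_bot_slash hf.1 hf.2.2 _) S
  exact ⟨h1.1, fun γ hγ => Mg_e_inv hf.2.1 m γ hγ, h1.2.2⟩

/-- the equation -/
theorem Mg_eqn {Γ' : Subgroup SL(2, ℤ)}
    [Fintype (↥(Gamma0 4) ⧸ Γ'.subgroupOf (Gamma0 4))]
    {k : ℤ} {f : ℍ → ℂ} (hf : ∀ γ ∈ Γ', f ∣[k] γ = f) :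
    ∑ m ∈ Finset.range (Fintype.card (↥(Gamma0 4) ⧸ Γ'.subgroupOf (Gamma0 4)) + 1),
      ((-1 : ℂ) ^ m • Mg_e Γ' k f m) *
        f ^ (Fintype.card (↥(Gamma0 4) ⧸ Γ'.subgroupOf (Gamma0 4)) - m) = 0 := by
  classical
  have h1 := Multiset.prod_X_sub_X_eq_sum_esymm
    ((Finset.univ : Finset (↥(Gamma0 4) ⧸ Γ'.subgroupOf (Gamma0 4))).val.map (Mg_b Γ' k f))
  have h2 := congrArg (Polynomial.eval f) h1
  rw [Multiset.map_map, Polynomial.eval_multiset_prod, Multiset.map_map,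
    Polynomial.eval_finset_sum] at h2
  have h3 : (Multiset.map ((Polynomial.eval f) ∘ ((fun t => Polynomial.X - Polynomial.C t) ∘
      (Mg_b Γ' k f))) (Finset.univ : Finset (↥(Gamma0 4) ⧸ Γ'.subgroupOf (Gamma0 4))).val).prod
      = 0 := by
    have h4 : (∏ q : ↥(Gamma0 4) ⧸ Γ'.subgroupOf (Gamma0 4), (f - Mg_b Γ' k f q)) = 0 := by
      apply Finset.prod_eq_zero (Finset.mem_univ (QuotientGroup.mk 1))
      rw [Mg_b_mk hf, Subgroup.coe_one, inv_one, SlashAction.slash_one, sub_self]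
    rw [← h4]
    show Multiset.prod _ = Multiset.prod _
    congr 1
    refine Multiset.map_congr rfl fun q _ => ?_
    simp
  rw [h3] at h2
  rw [h2]
  rw [Multiset.card_map, Finset.card_val, Finset.card_univ]
  refine Finset.sum_congr rfl fun m _ => ?_
  rw [Finset.esymm_map_val]
  simp only [Polynomial.eval_mul, Polynomial.eval_pow, Polynomial.eval_neg, Polynomial.eval_one,
    Polynomial.eval_C, Polynomial.eval_X]
  unfold Mg_e
  rw [← mul_assoc]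
  congr 1

theorem Mg_QE_sum {κ : Type*} (s : Finset κ) {b : κ → ℍ → ℂ} {B : κ → ℂ⟦X⟧}
    (hb : ∀ i ∈ s, QE (b i) (B i)) : QE (∑ i ∈ s, b i) (∑ i ∈ s, B i) := by
  classical
  induction s using Finset.induction_on with
  | empty =>
    rw [Finset.sum_empty, Finset.sum_empty]
    have h := QE.const 0
    rw [map_zero] at h
    exact h
  | insert i s hi ih =>
    rw [Finset.sum_insert hi, Finset.sum_insert hi]
    exact (hb i (Finset.mem_insert_self i s)).add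
      (ih fun j hj => hb j (Finset.mem_insert_of_mem hj))

theorem sq_int (Γ' : Subgroup SL(2, ℤ)) (hfin : Γ'.FiniteIndex) (hle : Γ' ≤ Gamma0 4)
    (hT : ModularGroup.T ∈ Γ') :
    ∃ I : ℕ, 1 ≤ I ∧ ∀ (j : ℕ) (h : ℍ → ℂ) (H : ℂ⟦X⟧), IsMF Γ' (j : ℤ) h → QE h H →
      ∃ c : ℕ → Polynomial ℂ, (∀ m, (c m).natDegree ≤ j * m) ∧
        ((H * (U ℂ)⁻¹ ^ j) ^ 2) ^ I + ∑ m ∈ Finset.Icc 1 I,
          evl ℂ (c m) * ((H * (U ℂ)⁻¹ ^ j) ^ 2) ^ (I - m) = 0 := by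
  classical
  haveI := hfin
  haveI : (Γ'.subgroupOf (Gamma0 4)).FiniteIndex := inferInstance
  letI : Fintype (↥(Gamma0 4) ⧸ Γ'.subgroupOf (Gamma0 4)) := Fintype.ofFinite _
  refine ⟨Fintype.card (↥(Gamma0 4) ⧸ Γ'.subgroupOf (Gamma0 4)), Fintype.card_pos, ?_⟩
  intro j h H hh hH
  set I := Fintype.card (↥(Gamma0 4) ⧸ Γ'.subgroupOf (Gamma0 4)) with hI
  have hf : IsMF Γ' ((j : ℤ) * ((2 : ℕ) : ℤ)) (h ^ 2) := hh.pow 2
  have hF : QE (h ^ 2) (H ^ 2) := hH.pow 2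
  -- the elementary symmetric functions
  have he : ∀ m, ∃ P : Polynomial ℂ, P.natDegree ≤ j * m ∧
      QE (Mg_e Γ' ((j : ℤ) * ((2 : ℕ) : ℤ)) (h ^ 2) m) (U ℂ ^ (2 * (j * m)) * evl ℂ P) := by
    intro m
    have h1 := Mg_e_isMF hf m
    have h2 : (j : ℤ) * ((2 : ℕ) : ℤ) * (m : ℤ) = ((2 * (j * m) : ℕ) : ℤ) := by
      push_cast
      ring
    rw [h2] at h1
    have h3 := h1.exists_QE (hle hT)
    obtain ⟨P, hP, hP2⟩ := form_G04 h1 h3
    refine ⟨P, hP, ?_⟩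
    rw [← hP2]
    exact h3
  choose P hP hPe using he
  have hQ := Mg_QE_sum (Finset.range (I + 1))
    (b := fun m => ((-1 : ℂ) ^ m • Mg_e Γ' ((j : ℤ) * ((2 : ℕ) : ℤ)) (h ^ 2) m) *
      (h ^ 2) ^ (I - m))
    (B := fun m => (PowerSeries.C ((-1 : ℂ) ^ m) * (U ℂ ^ (2 * (j * m)) * evl ℂ (P m))) *
      (H ^ 2) ^ (I - m)) (fun m _ => ((hPe m).smul _).mul (hF.pow _))
  rw [Mg_eqn hf.2.1] at hQ
  have h0 : QE (0 : ℍ → ℂ) 0 := by
    have h := QE.const 0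
    rw [map_zero] at h
    exact h
  have hsum := QE.unique hQ h0
  refine ⟨fun m => Polynomial.C ((-1 : ℂ) ^ m) * P m, ?_, ?_⟩
  · intro m
    exact (Polynomial.natDegree_C_mul_le _ _).trans (hP m)
  -- the term of index zero
  have hP0 : evl ℂ (P 0) = 1 := by
    have h1 := hPe 0
    have h2 : Mg_e Γ' ((j : ℤ) * ((2 : ℕ) : ℤ)) (h ^ 2) 0 = fun _ => (1 : ℂ) := by
      unfold Mg_e
      rw [Finset.powersetCard_zero, Finset.sum_singleton, Finset.prod_empty]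
      rfl
    rw [h2] at h1
    have h3 := QE.unique h1 (QE.const 1)
    rw [mul_zero, mul_zero, pow_zero, one_mul, map_one] at h3
    exact h3
  have hU : ∀ n : ℕ, U ℂ ^ n * (U ℂ)⁻¹ ^ n = 1 := by
    intro n
    rw [← mul_pow, U_mul_inv, one_pow]
  have hterm : ∀ m ∈ Finset.range (I + 1),
      (PowerSeries.C ((-1 : ℂ) ^ m) * (U ℂ ^ (2 * (j * m)) * evl ℂ (P m))) *
        (H ^ 2) ^ (I - m) * (U ℂ)⁻¹ ^ (2 * (j * I)) =
      evl ℂ (Polynomial.C ((-1 : ℂ) ^ m) * P m) * ((H * (U ℂ)⁻¹ ^ j) ^ 2) ^ (I - m) := by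
    intro m hm
    have hmI : m ≤ I := Nat.lt_succ_iff.mp (Finset.mem_range.mp hm)
    have e1 : 2 * (j * I) = 2 * (j * m) + j * 2 * (I - m) := by
      obtain ⟨r, hr⟩ := Nat.exists_eq_add_of_le hmI
      rw [hr, Nat.add_sub_cancel_left]
      ring
    rw [e1, pow_add, map_mul, LFc_evl_C]
    calc _ = (U ℂ ^ (2 * (j * m)) * (U ℂ)⁻¹ ^ (2 * (j * m))) *
        (PowerSeries.C ((-1 : ℂ) ^ m) * evl ℂ (P m) *
          ((H ^ 2) ^ (I - m) * (U ℂ)⁻¹ ^ (j * 2 * (I - m)))) := by ring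
      _ = _ := by
        rw [hU, one_mul]
        congr 1
        rw [mul_pow, mul_pow, ← pow_mul, ← pow_mul, ← pow_mul, mul_assoc j 2]
  have hfin2 : ∑ m ∈ Finset.range (I + 1),
      evl ℂ (Polynomial.C ((-1 : ℂ) ^ m) * P m) * ((H * (U ℂ)⁻¹ ^ j) ^ 2) ^ (I - m) = 0 := by
    rw [← Finset.sum_congr rfl hterm, ← Finset.sum_mul, hsum, zero_mul]
  rw [Finset.range_eq_Ico, Finset.sum_eq_sum_Ico_succ_bot (Nat.succ_pos I)] at hfin2
  rw [pow_zero, map_one, one_mul, hP0, one_mul, Nat.sub_zero] at hfin2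
  rw [← hfin2]
  congr 1

end Pool.Agent.H85.OU
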