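import Pool.Agent.H85.OU.Me
import Pool.Agent.H85.OU.Mf
import Pool.Agent.H85.OU.Mg
import Pool.Agent.H85.OU.FG

/-!
# Row MH (project OU): q-expansions of modular forms are `LForm`s

`Γ` of finite index, `T ∈ Γ`, `g` of weight `k ≥ 0` for `Γ`, q-expansion `G`.  `Γu` from `exists_Gu`, `Γ2, g2` from `exists_dbl`; `Γ' = Γ ⊓ Γu ⊓ Γ2` has finite index, contains `T`, `Γ' ≤ Γ₀(4)`; `g, g2, uu` are forms for `Γ'`.
`A = {a ∈ ℂ⟦X⟧ : ∃ j h, IsMF Γ' j h ∧ QE h (a U^j)}` is a `ℂ`-subalgebra: constants (`j = 0`); sums: `(a + a') U^(j+j')` is the q-expansion of `h uu^j' + h' uu^j`; products `h h'`.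
* `λ ∈ A`: `λ U² = U² - V²` (`xx_mul_U`), `j = 2`, `h = uu² - b` (`isMF_ga`, `exists_gb'`, `IsMF.mono`); `tR ℂ (th3^4) = U²`, `tR ℂ (th4^4) = V²`.
* `δ`: `a U^j = H`; `δa · U^(j+2) = U^j D a = D H - j ε H` (`D(H U^(-j))`, `Dq_U`); `12 ε = E₂ + 4U² - 5V²` (`ee_E2`), so this is `(D H - (j/12) E₂ H) - (j/12)(4U² - 5V²) H`, the q-expansion of
  `serreDerivative j h - (j/12)(4 uu² - 5 b) h`, a form of weight `j+2` for `Γ'` (`IsMF.serre`, `QE.serre`).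
* every `a ∈ A`: `a²` satisfies a monic equation of degree `I` over `ℂ[λ]` (`sq_int`, `a = H U^(-j)`), so `a` satisfies a monic equation of degree `2I`.  `fg` with `R = 2I` gives `e` with `LD ℂ r e`, `A ⊆ SP ℂ e`.
* `G U^(-k) ∈ A` (`j = k`, `h = g`) and `dbl G U^(-k) ∈ A` (`h = g2`); `IsDeg ℂ k` of the squares: `sq_int` with `j = k` (`IsDeg` with `r = I`).
-/

open PowerSeries UpperHalfPlane ModularForm MatrixGroups CongruenceSubgroup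
open scoped Manifold

namespace Pool.Agent.H85.OU

open Pool.Agent.H85.OT

private theorem Mh_tR3 : tR ℂ (th3 ^ 4) = U ℂ ^ 2 := by
  unfold tR U
  rw [← map_pow]
  congr 1
  ring

private theorem Mh_tR4 : tR ℂ (th4 ^ 4) = V ℂ ^ 2 := by
  unfold tR V
  rw [← map_pow]
  congr 1
  ring

private theorem Mh_Dq_pow (j : ℕ) : Dq ℂ (U ℂ ^ j) = (j : ℂ⟦X⟧) * ee ℂ * U ℂ ^ j := by
  induction j with
  | zero => simp
  | succ j ih =>
    rw [pow_succ, Derivation.leibniz, ih, Dq_U, smul_eq_mul, smul_eq_mul]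
    push_cast
    ring

private theorem Mh_inv_mul (a : ℂ⟦X⟧) (j : ℕ) : a * U ℂ ^ j * (U ℂ)⁻¹ ^ j = a := by
  rw [mul_assoc, ← mul_pow, U_mul_inv, one_pow, mul_one]

private theorem Mh_mul_inv (a : ℂ⟦X⟧) (j : ℕ) : a * (U ℂ)⁻¹ ^ j * U ℂ ^ j = a := by
  rw [mul_assoc, ← mul_pow, mul_comm (U ℂ)⁻¹, U_mul_inv, one_pow, mul_one]

/-- the algebra of the quotients `H U^(-j)` -/
private noncomputable def Mh_A (Γ : Subgroup SL(2, ℤ)) (huu : IsMF Γ 1 uu) : Subalgebra ℂ ℂ⟦X⟧ where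
  carrier := {a | ∃ (j : ℕ) (h : ℍ → ℂ), IsMF Γ (j : ℤ) h ∧ QE h (a * U ℂ ^ j)}
  mul_mem' := by
    rintro a a' ⟨j, h, h1, h2⟩ ⟨j', h', h1', h2'⟩
    refine ⟨j + j', h * h', ?_, ?_⟩
    · rw [Nat.cast_add]
      exact h1.mul h1'
    · have h3 : a * a' * U ℂ ^ (j + j') = (a * U ℂ ^ j) * (a' * U ℂ ^ j') := by
        rw [pow_add]; ring
      rw [h3]
      exact h2.mul h2'
  add_mem' := by
    rintro a a' ⟨j, h, h1, h2⟩ ⟨j', h', h1', h2'⟩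
    refine ⟨j + j', h * uu ^ j' + h' * uu ^ j, ?_, ?_⟩
    · refine IsMF.add ?_ ?_
      · have h3 : ((j + j' : ℕ) : ℤ) = (j : ℤ) + 1 * (j' : ℤ) := by push_cast; ring
        rw [h3]
        exact h1.mul (huu.pow j')
      · have h3 : ((j + j' : ℕ) : ℤ) = (j' : ℤ) + 1 * (j : ℤ) := by push_cast; ring
        rw [h3]
        exact h1'.mul (huu.pow j)
    · have h3 : (a + a') * U ℂ ^ (j + j') = (a * U ℂ ^ j) * U ℂ ^ j' + (a' * U ℂ ^ j') * U ℂ ^ j := by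
        rw [pow_add]; ring
      rw [h3]
      exact (h2.mul (QE_uu.pow j')).add (h2'.mul (QE_uu.pow j))
  algebraMap_mem' := by
    intro c
    refine ⟨0, fun _ => c, IsMF.const Γ c, ?_⟩
    have h3 : algebraMap ℂ ℂ⟦X⟧ c * U ℂ ^ 0 = PowerSeries.C c := by
      rw [pow_zero, mul_one]; rfl
    rw [h3]
    exact QE.const c

private theorem Mh_mem {Γ : Subgroup SL(2, ℤ)} (huu : IsMF Γ 1 uu) {a : ℂ⟦X⟧} :
    a ∈ Mh_A Γ huu ↔ ∃ (j : ℕ) (h : ℍ → ℂ), IsMF Γ (j : ℤ) h ∧ QE h (a * U ℂ ^ j) := Iff.rfl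

private theorem Mh_lam {Γ : Subgroup SL(2, ℤ)} (huu : IsMF Γ 1 uu) (hle : Γ ≤ Gamma0 4) :
    lam ℂ ∈ Mh_A Γ huu := by
  obtain ⟨b, hb, hbQ⟩ := exists_gb'
  obtain ⟨ha, haQ⟩ := isMF_ga
  rw [Mh_mem]
  refine ⟨2, uu ^ 2 + (-1 : ℂ) • b, ?_, ?_⟩
  · exact (ha.mono hle).add ((hb.mono hle).smul _)
  · have h1 := haQ.add (hbQ.smul (-1))
    rw [Mh_tR3, Mh_tR4] at h1
    have h2 : lam ℂ * U ℂ ^ 2 = U ℂ ^ 2 + PowerSeries.C (-1) * V ℂ ^ 2 := by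
      have h3 : (PowerSeries.C (-1) : ℂ⟦X⟧) = -1 := by rw [map_neg, map_one]
      rw [lam, h3, ← xx_mul_U]
      ring
    rw [h2]
    exact h1

private theorem Mh_del {Γ : Subgroup SL(2, ℤ)} (huu : IsMF Γ 1 uu) (hle : Γ ≤ Gamma0 4)
    (a : ℂ⟦X⟧) (haA : a ∈ Mh_A Γ huu) : OT.del ℂ a ∈ Mh_A Γ huu := by
  obtain ⟨b, hb, hbQ⟩ := exists_gb'
  obtain ⟨ha, haQ⟩ := isMF_ga
  rw [Mh_mem] at haA ⊢
  obtain ⟨j, h, h1, h2⟩ := haA
  obtain ⟨c, hc⟩ : ∃ c : ℂ, c = (j : ℂ) / 12 := ⟨_, rfl⟩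
  refine ⟨j + 2, Derivative.serreDerivative (j : ℤ) h + (-(4 * c)) • (h * uu ^ 2) + (5 * c) • (h * b),
    ?_, ?_⟩
  · have h3 : ((j + 2 : ℕ) : ℤ) = (j : ℤ) + 2 := by push_cast; ring
    rw [h3]
    exact (h1.serre.add ((h1.mul (ha.mono hle)).smul _)).add ((h1.mul (hb.mono hle)).smul _)
  · have h3 := ((h2.serre (j : ℤ)).add ((h2.mul haQ).smul (-(4 * c)))).add ((h2.mul hbQ).smul (5 * c))
    have h4 : OT.del ℂ a * U ℂ ^ (j + 2) =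
        Dq ℂ (a * U ℂ ^ j) - PowerSeries.C (((j : ℤ) : ℂ) / 12) * E2s * (a * U ℂ ^ j) +
          PowerSeries.C (-(4 * c)) * (a * U ℂ ^ j * tR ℂ (th3 ^ 4)) +
          PowerSeries.C (5 * c) * (a * U ℂ ^ j * tR ℂ (th4 ^ 4)) := by
      have hE := ee_E2
      have hD : Dq ℂ (a * U ℂ ^ j) = a * ((j : ℂ⟦X⟧) * ee ℂ * U ℂ ^ j) + U ℂ ^ j * Dq ℂ a := by
        rw [Derivation.leibniz, Mh_Dq_pow, smul_eq_mul, smul_eq_mul]
      have hdel : OT.del ℂ a * U ℂ ^ (j + 2) = U ℂ ^ j * Dq ℂ a := by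
        rw [del_apply, pow_add]
        have h5 : (U ℂ)⁻¹ ^ 2 * U ℂ ^ 2 = 1 := by
          rw [← mul_pow, mul_comm, U_mul_inv, one_pow]
        linear_combination (Dq ℂ a * U ℂ ^ j) * h5
      have hcc : (j : ℂ⟦X⟧) = 12 * PowerSeries.C c := by
        have h5 : (12 : ℂ⟦X⟧) = PowerSeries.C (12 : ℂ) := (map_ofNat PowerSeries.C 12).symm
        have h6 : (j : ℂ⟦X⟧) = PowerSeries.C (j : ℂ) := (map_natCast PowerSeries.C j).symm
        rw [h5, h6, ← map_mul, hc]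
        congr 1
        ring
      have hc1 : (PowerSeries.C (((j : ℤ) : ℂ) / 12) : ℂ⟦X⟧) = PowerSeries.C c := by
        rw [hc]; push_cast; rfl
      have hc2 : (PowerSeries.C (-(4 * c)) : ℂ⟦X⟧) = -(4 * PowerSeries.C c) := by
        rw [map_neg, map_mul, map_ofNat]
      have hc3 : (PowerSeries.C (5 * c) : ℂ⟦X⟧) = 5 * PowerSeries.C c := by
        rw [map_mul, map_ofNat]
      rw [hdel, hD, hcc, hc1, hc2, hc3]
      linear_combination (-(PowerSeries.C c) * a * U ℂ ^ j) * hE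
    rw [h4]
    exact h3

private theorem Mh_even (I : ℕ) (c : ℕ → Polynomial ℂ) (a : ℂ⟦X⟧) :
    ∑ m ∈ Finset.Icc 1 (2 * I), evl ℂ (if Even m then c (m / 2) else 0) * a ^ (2 * I - m) =
      ∑ m ∈ Finset.Icc 1 I, evl ℂ (c m) * (a ^ 2) ^ (I - m) := by
  have h1 : ∀ m ∈ Finset.Icc 1 (2 * I), evl ℂ (if Even m then c (m / 2) else 0) * a ^ (2 * I - m) =
      if Even m then evl ℂ (c (m / 2)) * a ^ (2 * I - m) else 0 := by
    intro m _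
    split_ifs
    · rfl
    · rw [map_zero, zero_mul]
  rw [Finset.sum_congr rfl h1, ← Finset.sum_filter]
  have h2 : (Finset.Icc 1 (2 * I)).filter (fun m => Even m) = (Finset.Icc 1 I).image (fun m => 2 * m) := by
    ext m
    rw [Finset.mem_filter, Finset.mem_image, Finset.mem_Icc]
    constructor
    · rintro ⟨⟨h3, h4⟩, n, rfl⟩
      exact ⟨n, Finset.mem_Icc.2 ⟨by omega, by omega⟩, by ring⟩
    · rintro ⟨n, hn, rfl⟩
      rw [Finset.mem_Icc] at hn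
      exact ⟨⟨by omega, by omega⟩, n, by ring⟩
  rw [h2, Finset.sum_image (fun x _ y _ hxy => by simpa using hxy)]
  refine Finset.sum_congr rfl fun m _ => ?_
  rw [Nat.mul_div_cancel_left m (by norm_num : 0 < 2), ← pow_mul, Nat.mul_sub]

theorem lform_of_mf {Γ : Subgroup SL(2, ℤ)} (hfin : Γ.FiniteIndex) (hT : ModularGroup.T ∈ Γ)
    {k : ℕ} {g : ℍ → ℂ} (hg : IsMF Γ (k : ℤ) g) {G : ℂ⟦X⟧} (hG : QE g G) : LForm ℂ k G := by
  obtain ⟨Γu, hufin, hule, huT, huu⟩ := exists_Gu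
  obtain ⟨Γ2, g2, h2fin, h2T, hg2, hG2⟩ := exists_dbl hfin hT hg hG
  obtain ⟨Γ', hΓ'⟩ : ∃ Γ' : Subgroup SL(2, ℤ), Γ' = Γ ⊓ Γu ⊓ Γ2 := ⟨_, rfl⟩
  have hfin' : Γ'.FiniteIndex := by
    rw [hΓ']
    haveI := hfin
    haveI := hufin
    haveI := h2fin
    infer_instance
  have hT' : ModularGroup.T ∈ Γ' := by
    rw [hΓ']
    exact ⟨⟨hT, huT⟩, h2T⟩
  have hle1 : Γ' ≤ Γ := by rw [hΓ']; exact inf_le_left.trans inf_le_left
  have hleu : Γ' ≤ Γu := by rw [hΓ']; exact inf_le_left.trans inf_le_right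
  have hle2 : Γ' ≤ Γ2 := by rw [hΓ']; exact inf_le_right
  have hle4 : Γ' ≤ Gamma0 4 := hleu.trans hule
  have huu' : IsMF Γ' 1 uu := huu.mono hleu
  obtain ⟨I, hI, hsq⟩ := sq_int Γ' hfin' hle4 hT'
  obtain ⟨r, e, hLD, hmem⟩ := fg (Mh_A Γ' huu') (Mh_lam huu' hle4) (Mh_del huu' hle4) (2 * I) (by
    intro a ha
    rw [Mh_mem] at ha
    obtain ⟨j, h, h1, h2⟩ := ha
    obtain ⟨c, -, hc⟩ := hsq j h _ h1 h2
    rw [Mh_inv_mul] at hc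
    refine ⟨2 * I, fun m => if Even m then c (m / 2) else 0, by omega, le_rfl, ?_⟩
    rw [Mh_even, pow_mul]
    exact hc)
  refine ⟨r, e, hLD, ?_, ?_, ?_, ?_⟩
  · refine hmem _ ?_
    rw [Mh_mem]
    exact ⟨k, g, hg.mono hle1, by rw [Mh_mul_inv]; exact hG⟩
  · refine hmem _ ?_
    rw [Mh_mem]
    exact ⟨k, g2, hg2.mono hle2, by rw [Mh_mul_inv]; exact hG2⟩
  · obtain ⟨c, hc1, hc2⟩ := hsq k g G (hg.mono hle1) hG
    exact ⟨I, c, hI, hc1, hc2⟩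
  · obtain ⟨c, hc1, hc2⟩ := hsq k g2 (dbl ℂ G) (hg2.mono hle2) hG2
    exact ⟨I, c, hI, hc1, hc2⟩

end Pool.Agent.H85.OU
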