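import Pool.Agent.H85.OU.ThC
import Pool.Agent.H85.OU.Mh
import Pool.Agent.H85.OT.Wcong
import Pool.Agent.H85.OT.Weig
import Pool.Agent.H85.OT.AofB

/-!
# Final assembly of the project OU
-/

open PowerSeries UpperHalfPlane ModularForm MatrixGroups CongruenceSubgroup NumberField

namespace Pool.Agent.H85.OU

open Pool.Agent.H85.OT

/-- `Ord0R` and `Sl2R` exclude each other -/
theorem not_sl2R {R : Type*} [CommRing R] (f : R⟦X⟧) (p : ℕ)
    (hO : Ord0R f p) : ¬ Sl2R f p := by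
  rintro hS
  obtain ⟨n, hn, h⟩ := hO
  apply h
  by_cases hp : p ∣ n
  · exact dvd_trans (pow_dvd_pow _ (Nat.le_succ _)) (hS n hn hp)
  · have : padicValNat p n = 0 := padicValNat.eq_zero_of_not_dvd hp
    rw [this, pow_zero]
    exact one_dvd _

/-- modular forms of weight `k ≥ 3` for subgroups of finite index of `SL₂(ℤ)` -/
theorem main_all (E : Type) [Field E] [NumberField E] (σ : E →+* ℂ) (Γ : Subgroup SL(2, ℤ))
    [hfin : Γ.FiniteIndex] (hT : ModularGroup.T ∈ Γ) (k : ℕ) (hk : 3 ≤ k)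
    (g : ModularForm (Γ : Subgroup (GL (Fin 2) ℝ)) (k : ℤ)) (F : (𝓞 E)⟦X⟧)
    (hF : qExpansion 1 (g : ℍ → ℂ) = PowerSeries.map (σ.comp (algebraMap (𝓞 E) E)) F)
    (hne : F ≠ 0) (h0 : PowerSeries.coeff 0 F = 0) :
    Dich (Sl2R F) (Ord0R F) := by
  have hg := IsMF.of_modularForm g
  have h1 : LForm ℂ k (qExpansion 1 (g : ℍ → ℂ)) := lform_of_mf hfin hT hg (hg.exists_QE hT)
  rw [hF] at h1
  have h2 : LForm E k (PowerSeries.map (algebraMap (𝓞 E) E) F) := by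
    refine LForm.descend σ ?_
    have e : PowerSeries.map σ (PowerSeries.map (algebraMap (𝓞 E) E) F) =
        PowerSeries.map (σ.comp (algebraMap (𝓞 E) E)) F := by
      ext n
      simp
    rwa [e]
  exact dichotomy_OL E F k hk h2 hne h0

/-- eigenforms -/
theorem main_eigL (E : Type) [Field E] [NumberField E] (k : ℕ) (hk : 4 ≤ k)
    (F : (𝓞 E)⟦X⟧) (h : Dich (Sl2R F) (Ord0R F)) (N : ℕ) (hN : 1 ≤ N) (χ : ℕ → 𝓞 E)
    (heck : ∀ p : ℕ, p.Prime → ¬ p ∣ N → ∀ n : ℕ, 1 ≤ n → PowerSeries.coeff (p * n) F =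
      PowerSeries.coeff p F * PowerSeries.coeff n F -
        χ p * (p : 𝓞 E) ^ (k - 1) * (if p ∣ n then PowerSeries.coeff (n / p) F else 0)) :
    Dich (fun p => (p : 𝓞 E) ^ 2 ∣ PowerSeries.coeff p F)
      (fun p => ¬ (p : 𝓞 E) ∣ PowerSeries.coeff p F) := by
  have key : ∀ p : ℕ, p.Prime → N + 1 ≤ p →
      ((p : 𝓞 E) ^ 2 ∣ PowerSeries.coeff p F → Sl2R F p) ∧
      (Ord0R F p → ¬ (p : 𝓞 E) ∣ PowerSeries.coeff p F) := by
    intro p hp h3
    have h4 := heck p hp (fun hd => by have := Nat.le_of_dvd (by omega) hd; omega)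
    exact ⟨fun hd => sl2R_of_dvd F k p hk hp (χ p) h4 hd,
      fun hO hd => not_ord0R_of_dvd F k p hk hp (χ p) h4 hd hO⟩
  have hcnt : ∀ (P Q : ℕ → Prop), (∀ p, p.Prime → (P p ↔ Q p)) → ∀ x, cnt P x = cnt Q x := by
    intro P Q hPQ x
    classical
    unfold cnt
    refine congrArg Finset.card (Finset.filter_congr fun p _ => ?_)
    constructor
    · rintro ⟨h1, h2⟩; exact ⟨h1, (hPQ p h1).1 h2⟩
    · rintro ⟨h1, h2⟩; exact ⟨h1, (hPQ p h1).2 h2⟩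
  have h5 : Dich (fun p => p.Prime ∧ (p : 𝓞 E) ^ 2 ∣ PowerSeries.coeff p F)
      (fun p => ¬ p.Prime ∨ ¬ (p : 𝓞 E) ∣ PowerSeries.coeff p F) := by
    refine Dich.congr (N + 1) (fun p h3 hp => (key p hp.1 h3).1 hp.2) (fun p h3 hO => ?_) h
    by_cases hp : p.Prime
    · exact Or.inr ((key p hp h3).2 hO)
    · exact Or.inl hp
  intro ε hε
  obtain ⟨K, hK, δ, hδ, X0, hX⟩ := h5 ε hε
  refine ⟨K, hK, δ, hδ, X0, fun X hX0 hx => ?_⟩
  have h6 := hX X hX0 (fun x hx1 hx2 => by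
    rw [hcnt _ (fun p => (p : 𝓞 E) ^ 2 ∣ PowerSeries.coeff p F) (fun p hp => by simp [hp]) x]
    exact hx x hx1 hx2)
  rw [hcnt _ (fun p => ¬ (p : 𝓞 E) ∣ PowerSeries.coeff p F) (fun p hp => by simp [hp]) (K * X)]
    at h6
  exact h6

end Pool.Agent.H85.OU
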