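import Pool.Agent.H85.OU.UDef

/-!
# Row ID1 (project OU): calculus of `IsDeg`

`S` = the subring of `K⟦X⟧[T]` of the polynomials whose coefficient of `T^k` is `a(λ)` with `deg a ≤ k`;
`IsDeg K n y ↔ IsIntegral S (C y * T^n)`.
-/

open PowerSeries
open Pool.Agent.H85.OT

namespace Pool.Agent.H85.OU

variable {K : Type*} [Field K]

/-- auxiliary graded ring -/
noncomputable def ID1_S (K : Type*) [Field K] : Subring (Polynomial K⟦X⟧) where
  carrier := {f | ∀ k, ∃ a : Polynomial K, a.natDegree ≤ k ∧ f.coeff k = evl K a}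
  mul_mem' := by
    intro f g hf hg k
    choose a ha ha' using hf
    choose b hb hb' using hg
    refine ⟨∑ x ∈ Finset.HasAntidiagonal.antidiagonal k, a x.1 * b x.2, ?_, ?_⟩
    · refine Polynomial.natDegree_sum_le_of_forall_le _ _ ?_
      intro x hx
      have h1 := Finset.HasAntidiagonal.mem_antidiagonal.1 hx
      refine Polynomial.natDegree_mul_le.trans ?_
      have := ha x.1
      have := hb x.2
      omega
    · rw [Polynomial.coeff_mul, map_sum]
      refine Finset.sum_congr rfl ?_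
      intro x _
      rw [map_mul, ha', hb']
  one_mem' := by
    intro k
    rcases Nat.eq_zero_or_pos k with rfl | hk
    · exact ⟨1, by simp, by simp⟩
    · exact ⟨0, by simp, by rw [Polynomial.coeff_one, if_neg hk.ne', map_zero]⟩
  add_mem' := by
    intro f g hf hg k
    obtain ⟨a, ha, ha'⟩ := hf k
    obtain ⟨b, hb, hb'⟩ := hg k
    exact ⟨a + b, Polynomial.natDegree_add_le_of_degree_le ha hb, by
      rw [Polynomial.coeff_add, ha', hb', map_add]⟩
  zero_mem' := fun k => ⟨0, by simp, by simp⟩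
  neg_mem' := by
    intro f hf k
    obtain ⟨a, ha, ha'⟩ := hf k
    exact ⟨-a, by rwa [Polynomial.natDegree_neg], by rw [Polynomial.coeff_neg, ha', map_neg]⟩

lemma ID1_mem (P : Polynomial K) {k : ℕ} (hP : P.natDegree ≤ k) :
    Polynomial.C (evl K P) * Polynomial.X ^ k ∈ ID1_S K := by
  intro j
  rw [Polynomial.coeff_C_mul_X_pow]
  by_cases h : j = k
  · rw [if_pos h]
    exact ⟨P, h ▸ hP, rfl⟩
  · rw [if_neg h]
    exact ⟨0, by simp, by simp⟩

lemma ID1_iff (n : ℕ) (y : K⟦X⟧) :
    IsDeg K n y ↔ IsIntegral (ID1_S K) (Polynomial.C y * Polynomial.X ^ n) := by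
  constructor
  · rintro ⟨r, a, hr, ha, h⟩
    let b : ℕ → ID1_S K := fun m => ⟨_, ID1_mem (a m) (ha m)⟩
    refine ⟨Polynomial.X ^ r + ∑ m ∈ Finset.Icc 1 r, Polynomial.C (b m) * Polynomial.X ^ (r - m),
      ?_, ?_⟩
    · refine Polynomial.monic_X_pow_add ?_
      refine (Polynomial.degree_sum_le _ _).trans_lt ?_
      refine (Finset.sup_lt_iff (WithBot.bot_lt_coe r)).2 ?_
      intro m hm
      have h1 := Finset.mem_Icc.1 hm
      refine (Polynomial.degree_C_mul_X_pow_le _ _).trans_lt ?_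
      exact WithBot.coe_lt_coe.2 (by omega : r - m < r)
    · rw [Polynomial.eval₂_add, Polynomial.eval₂_X_pow, Polynomial.eval₂_finsetSum]
      have h2 : ∀ m ∈ Finset.Icc 1 r, Polynomial.eval₂ (algebraMap (ID1_S K) (Polynomial K⟦X⟧))
          (Polynomial.C y * Polynomial.X ^ n) (Polynomial.C (b m) * Polynomial.X ^ (r - m)) =
          Polynomial.C (evl K (a m) * y ^ (r - m)) * Polynomial.X ^ (n * r) := by
        intro m hm
        have h1 := Finset.mem_Icc.1 hm
        rw [Polynomial.eval₂_mul, Polynomial.eval₂_C, Polynomial.eval₂_X_pow]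
        change (Polynomial.C (evl K (a m)) * Polynomial.X ^ (n * m)) *
          (Polynomial.C y * Polynomial.X ^ n) ^ (r - m) = _
        rw [mul_pow, ← pow_mul, Polynomial.C_mul, Polynomial.C_pow]
        have h3 : n * r = n * m + n * (r - m) := by
          rw [← mul_add]; congr 1; omega
        rw [h3, pow_add]
        ring
      rw [Finset.sum_congr rfl h2, ← Finset.sum_mul, mul_pow, ← pow_mul, ← map_sum,
        ← Polynomial.C_pow, ← add_mul, ← map_add, h, map_zero, zero_mul]
  · rintro ⟨p, hp, h⟩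
    -- make the degree positive
    obtain ⟨q, hq, hq1, h⟩ : ∃ q : Polynomial (ID1_S K), q.Monic ∧ 1 ≤ q.natDegree ∧
        Polynomial.eval₂ (algebraMap (ID1_S K) (Polynomial K⟦X⟧))
          (Polynomial.C y * Polynomial.X ^ n) q = 0 := by
      refine ⟨p * Polynomial.X, hp.mul Polynomial.monic_X, ?_, ?_⟩
      · rw [Polynomial.Monic.natDegree_mul hp Polynomial.monic_X, Polynomial.natDegree_X]
        omega
      · rw [Polynomial.eval₂_mul, h, zero_mul]
    set r := q.natDegree with hr
    have hco : ∀ m, ∃ a : Polynomial K, a.natDegree ≤ n * m ∧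
        ((q.coeff (r - m) : Polynomial K⟦X⟧)).coeff (n * m) = evl K a := by
      intro m
      exact (q.coeff (r - m)).2 (n * m)
    choose a ha ha' using hco
    refine ⟨r, a, hq1, ha, ?_⟩
    rw [Polynomial.eval₂_eq_sum_range, ← hr] at h
    have h1 := congrArg (fun f => Polynomial.coeff f (n * r)) h
    simp only [Polynomial.finsetSum_coeff, Polynomial.coeff_zero] at h1
    have h2 : ∀ j ∈ Finset.range (r + 1),
        (algebraMap (ID1_S K) (Polynomial K⟦X⟧) (q.coeff j) *
          (Polynomial.C y * Polynomial.X ^ n) ^ j).coeff (n * r) =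
        ((q.coeff j : Polynomial K⟦X⟧)).coeff (n * (r - j)) * y ^ j := by
      intro j hj
      have h3 : j ≤ r := by
        have := Finset.mem_range.1 hj
        omega
      have h4 : n * r = n * (r - j) + n * j := by
        rw [← mul_add]; congr 1; omega
      rw [mul_pow, ← pow_mul, ← mul_assoc, h4, Polynomial.coeff_mul_X_pow, ← Polynomial.C_pow,
        Polynomial.coeff_mul_C]
      rfl
    rw [Finset.sum_congr rfl h2, Finset.sum_range_succ, Nat.sub_self, mul_zero] at h1
    have h5 : ((q.coeff r : Polynomial K⟦X⟧)).coeff 0 = 1 := by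
      have : q.coeff r = 1 := hq
      rw [this]
      simp
    rw [h5, one_mul, add_comm] at h1
    rw [← h1]
    congr 1
    refine Finset.sum_nbij' (fun m => r - m) (fun j => r - j) ?_ ?_ ?_ ?_ ?_
    · intro m hm
      have h1 := Finset.mem_Icc.1 hm
      exact Finset.mem_range.2 (by omega)
    · intro j hj
      have h1 := Finset.mem_range.1 hj
      exact Finset.mem_Icc.2 (by omega)
    · intro m hm
      have h1 := Finset.mem_Icc.1 hm
      show r - (r - m) = m
      omega
    · intro j hj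
      have h1 := Finset.mem_range.1 hj
      show r - (r - j) = j
      omega
    · intro m hm
      have h1 := Finset.mem_Icc.1 hm
      have h6 : r - (r - m) = m := by omega
      rw [h6, ha']

theorem IsDeg.add {n : ℕ} {y z : K⟦X⟧} (hy : IsDeg K n y) (hz : IsDeg K n z) :
    IsDeg K n (y + z) := by
  rw [ID1_iff] at *
  rw [map_add, add_mul]
  exact hy.add hz

theorem IsDeg.mul {n m : ℕ} {y z : K⟦X⟧} (hy : IsDeg K n y) (hz : IsDeg K m z) :
    IsDeg K (n + m) (y * z) := by
  rw [ID1_iff] at *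
  have : Polynomial.C (y * z) * Polynomial.X ^ (n + m) =
      (Polynomial.C y * Polynomial.X ^ n) * (Polynomial.C z * Polynomial.X ^ m) := by
    rw [map_mul, pow_add]
    ring
  rw [this]
  exact hy.mul hz

theorem IsDeg.of_evl {n : ℕ} (P : Polynomial K) (hP : P.natDegree ≤ n) : IsDeg K n (evl K P) := by
  rw [ID1_iff]
  exact isIntegral_algebraMap (R := ID1_S K) (x := ⟨_, ID1_mem P hP⟩)

theorem IsDeg.zero (n : ℕ) : IsDeg K n 0 := by
  have := IsDeg.of_evl (K := K) (n := n) 0 (by simp)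
  rwa [map_zero] at this

theorem IsDeg.one (n : ℕ) : IsDeg K n 1 := by
  have := IsDeg.of_evl (K := K) (n := n) 1 (by simp)
  rwa [map_one] at this

theorem IsDeg.mono {n m : ℕ} (h : n ≤ m) {y : K⟦X⟧} (hy : IsDeg K n y) : IsDeg K m y := by
  have := hy.mul (IsDeg.one (K := K) (m - n))
  rwa [mul_one, Nat.add_sub_cancel' h] at this

theorem IsDeg.neg {n : ℕ} {y : K⟦X⟧} (hy : IsDeg K n y) : IsDeg K n (-y) := by
  rw [ID1_iff] at *
  have : Polynomial.C (-y) * Polynomial.X ^ n = -(Polynomial.C y * Polynomial.X ^ n) := by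
    refine eq_neg_of_add_eq_zero_left ?_
    rw [← add_mul, ← Polynomial.C_add, neg_add_cancel, Polynomial.C_0, zero_mul]
  rw [this]
  exact hy.neg

theorem IsDeg.pow {n : ℕ} {y : K⟦X⟧} (hy : IsDeg K n y) (j : ℕ) : IsDeg K (n * j) (y ^ j) := by
  rw [ID1_iff] at *
  rw [map_pow, pow_mul, ← mul_pow]
  exact hy.pow j

theorem IsDeg.sqrt {n : ℕ} {y : K⟦X⟧} (hy : IsDeg K (2 * n) (y ^ 2)) : IsDeg K n y := by
  rw [ID1_iff] at *
  rw [map_pow, mul_comm 2 n, pow_mul, ← mul_pow] at hy
  exact IsIntegral.of_pow two_pos hy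

theorem IsDeg.sum {ι : Type*} (s : Finset ι) {n : ℕ} (y : ι → K⟦X⟧)
    (hy : ∀ i ∈ s, IsDeg K n (y i)) : IsDeg K n (∑ i ∈ s, y i) := by
  rw [ID1_iff, map_sum, Finset.sum_mul]
  exact IsIntegral.sum _ fun i hi => (ID1_iff n (y i)).1 (hy i hi)

/-- elements of `SPn` with generators of bounded degree -/
theorem IsDeg.of_SPn {r c n : ℕ} {e : Fin r → K⟦X⟧} (he : ∀ l, IsDeg K c (e l)) {y : K⟦X⟧}
    (hy : y ∈ SPn K e n) : IsDeg K (n + c) y := by
  obtain ⟨p, hp, rfl⟩ := hy
  exact IsDeg.sum _ _ fun l _ => (IsDeg.of_evl (p l) (hp l)).mul (he l)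

end Pool.Agent.H85.OU
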