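import Pool.Agent.H85.OU.LDb

/-!
# Row LFC (project OU): closure properties of `LForm`

* `isDeg_sq_add`: `(y + z)² = y² + 2yz + z²`; `(yz)² = y² z²` is `IsDeg (2k)` (`IsDeg.mul`), so `yz` is `IsDeg k` (`IsDeg.sqrt`).  Constants are `IsDeg 0`.
* `LForm.smul`: the same `e`; `dbl (C c * f) = C c * dbl f`; `C c = evl (C c)`.
* `LForm.add`: data `e` (`r`), `e'` (`r'`); take `e'' = (e_l e'_l')`, indexed by `Fin (r * r')` (`finProdFinEquiv`).  `SP e'' ⊇ {y y' : y ∈ SP e, y' ∈ SP e'}` (expand the product), and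
  it is closed under sums; so `1 = 1·1 ∈ SP e''`, `e_l e'_l' e_m e'_m' = (e_l e_m)(e'_l' e'_m') ∈ SP e''`, `δ(e_l e'_l') = (δe_l) e'_l' + e_l δe'_l' ∈ SP e''`, `SP e, SP e' ⊆ SP e''`
  (multiply by `1`).  `isDeg_sq_add` for the two degree conditions.
* `LForm.map`: `φ : K → K'` a ring homomorphism of fields; `PowerSeries.map φ` maps `U K, V K, lam K` to `U K', V K', lam K'` (`U` is the image of an integral series; inverses:
  `U K * (U K)⁻¹ = 1` maps to `U K' * map φ (U K)⁻¹ = 1`), commutes with `dbl`, `Dq`, `del`; `map φ (evl K P) = evl K' (P.map φ)`, so maps `SP K e` into `SP K' (map φ ∘ e)`, and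
  `IsDeg K n y` to `IsDeg K' n (map φ y)` (`natDegree` does not increase).
-/

/-!
Row LFC: closure properties of `LForm`, base change.
-/

open PowerSeries
open Pool.Agent.H85.OT

namespace Pool.Agent.H85.OU

theorem isDeg_sq_add {K : Type*} [Field K] {k : ℕ} {y z : K⟦X⟧} (hy : IsDeg K k (y ^ 2))
    (hz : IsDeg K k (z ^ 2)) : IsDeg K k ((y + z) ^ 2) := by
  have h1 : IsDeg K k (y * z) := by
    apply IsDeg.sqrt
    rw [mul_pow, two_mul]
    exact hy.mul hz
  have h2 : (y + z) ^ 2 = y ^ 2 + z ^ 2 + (y * z + y * z) := by ring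
  rw [h2]
  exact (hy.add hz).add (h1.add h1)

theorem LFc_evl_C {K : Type*} [Field K] (c : K) :
    evl K (Polynomial.C c) = PowerSeries.C c := Polynomial.aeval_C _ _

theorem LFc_dbl_C {K : Type*} [Field K] (c : K) :
    dbl K (PowerSeries.C c) = PowerSeries.C c := (dbl K).commutes c

theorem LForm.smul {K : Type*} [Field K] {k : ℕ} {f : K⟦X⟧} (hf : LForm K k f) (c : K) :
    LForm K k (PowerSeries.C c * f) := by
  obtain ⟨r, e, hLD, h1, h2, h3, h4⟩ := hf
  have hdeg : ∀ y : K⟦X⟧, IsDeg K k (y ^ 2) → IsDeg K k ((PowerSeries.C c * y) ^ 2) := by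
    intro y hy
    have h5 : (PowerSeries.C c * y) ^ 2 = evl K (Polynomial.C (c ^ 2)) * y ^ 2 := by
      rw [LFc_evl_C, mul_pow, map_pow]
    have h6 := (IsDeg.of_evl (K := K) (n := 0) (Polynomial.C (c ^ 2))
      (Polynomial.natDegree_C _).le).mul hy
    rw [zero_add] at h6
    rw [h5]
    exact h6
  have e1 : PowerSeries.C c * f * (U K)⁻¹ ^ k = PowerSeries.C c * (f * (U K)⁻¹ ^ k) :=
    mul_assoc _ _ _
  have e2 : dbl K (PowerSeries.C c * f) * (U K)⁻¹ ^ k =
      PowerSeries.C c * (dbl K f * (U K)⁻¹ ^ k) := by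
    rw [map_mul, LFc_dbl_C, mul_assoc]
  refine ⟨r, e, hLD, ?_, ?_, ?_, ?_⟩
  · rw [e1, ← LFc_evl_C]
    exact SP_evl_mul _ h1
  · rw [e2, ← LFc_evl_C]
    exact SP_evl_mul _ h2
  · rw [e1]
    exact hdeg _ h3
  · rw [e2]
    exact hdeg _ h4

/-- the products of two families. -/
noncomputable def LFc_e {K : Type*} [Field K] {r r' : ℕ} (e : Fin r → K⟦X⟧)
    (e' : Fin r' → K⟦X⟧) (i : Fin (r * r')) : K⟦X⟧ :=
  e (finProdFinEquiv.symm i).1 * e' (finProdFinEquiv.symm i).2

theorem LFc_mul {K : Type*} [Field K] {r r' : ℕ} {e : Fin r → K⟦X⟧}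
    {e' : Fin r' → K⟦X⟧} {y y' : K⟦X⟧} (hy : y ∈ SP K e) (hy' : y' ∈ SP K e') :
    y * y' ∈ SP K (LFc_e e e') := by
  obtain ⟨p, rfl⟩ := hy
  obtain ⟨p', rfl⟩ := hy'
  refine ⟨fun i => p (finProdFinEquiv.symm i).1 * p' (finProdFinEquiv.symm i).2, ?_⟩
  have h1 : ∑ l : Fin (r * r'), evl K (p (finProdFinEquiv.symm l).1 *
      p' (finProdFinEquiv.symm l).2) * LFc_e e e' l =
      ∑ x : Fin r × Fin r', evl K (p x.1 * p' x.2) * (e x.1 * e' x.2) :=
    Equiv.sum_comp finProdFinEquiv.symm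
      (fun x : Fin r × Fin r' => evl K (p x.1 * p' x.2) * (e x.1 * e' x.2))
  rw [h1, Fintype.sum_prod_type, Finset.sum_mul_sum]
  refine Finset.sum_congr rfl fun i _ => Finset.sum_congr rfl fun j _ => ?_
  rw [map_mul]
  ring

theorem LFc_LD {K : Type*} [Field K] {r r' : ℕ} {e : Fin r → K⟦X⟧}
    {e' : Fin r' → K⟦X⟧} (h : LD K r e) (h' : LD K r' e') : LD K (r * r') (LFc_e e e') := by
  refine ⟨?_, ?_, ?_⟩
  · have := LFc_mul h.one h'.one
    rwa [one_mul] at this
  · intro l m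
    have h1 : LFc_e e e' l * LFc_e e e' m =
        (e (finProdFinEquiv.symm l).1 * e (finProdFinEquiv.symm m).1) *
        (e' (finProdFinEquiv.symm l).2 * e' (finProdFinEquiv.symm m).2) := by
      unfold LFc_e
      ring
    rw [h1]
    exact LFc_mul (h.mul _ _) (h'.mul _ _)
  · intro l
    have h1 : OT.del K (LFc_e e e' l) = OT.del K (e (finProdFinEquiv.symm l).1) *
        e' (finProdFinEquiv.symm l).2 + e (finProdFinEquiv.symm l).1 *
        OT.del K (e' (finProdFinEquiv.symm l).2) := (OT.del K).mul' _ _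
    rw [h1]
    exact SP_add (LFc_mul (h.del _) (SP_gen _)) (LFc_mul (SP_gen _) (h'.del _))

theorem LForm.add {K : Type*} [Field K] {k : ℕ} {f g : K⟦X⟧} (hf : LForm K k f)
    (hg : LForm K k g) : LForm K k (f + g) := by
  obtain ⟨r, e, hLD, h1, h2, h3, h4⟩ := hf
  obtain ⟨r', e', hLD', h1', h2', h3', h4'⟩ := hg
  refine ⟨r * r', LFc_e e e', LFc_LD hLD hLD', ?_, ?_, ?_, ?_⟩
  · rw [add_mul]
    have a1 := LFc_mul h1 hLD'.one
    have a2 := LFc_mul hLD.one h1'
    rw [mul_one] at a1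
    rw [one_mul] at a2
    exact SP_add a1 a2
  · rw [map_add, add_mul]
    have a1 := LFc_mul h2 hLD'.one
    have a2 := LFc_mul hLD.one h2'
    rw [mul_one] at a1
    rw [one_mul] at a2
    exact SP_add a1 a2
  · rw [add_mul]
    exact isDeg_sq_add h3 h3'
  · rw [map_add, add_mul]
    exact isDeg_sq_add h4 h4'

theorem LForm.sum {K : Type*} [Field K] {k : ℕ} {ι : Type*} (s : Finset ι) (hs : s.Nonempty)
    (f : ι → K⟦X⟧) (hf : ∀ i ∈ s, LForm K k (f i)) : LForm K k (∑ i ∈ s, f i) :=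
  Finset.sum_induction_nonempty f (LForm K k) (fun _ _ ha hb => LForm.add ha hb) hs hf

section map
variable {K K' : Type*} [Field K] [Field K'] (φ : K →+* K')

theorem LFc_map_int (f : ℤ⟦X⟧) :
    PowerSeries.map φ (PowerSeries.map (Int.castRingHom K) f) =
      PowerSeries.map (Int.castRingHom K') f := by
  ext n
  simp only [PowerSeries.coeff_map, eq_intCast, map_intCast]

theorem map_U : PowerSeries.map φ (U K) = U K' := LFc_map_int φ _

theorem LFc_map_V : PowerSeries.map φ (V K) = V K' := LFc_map_int φ _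

theorem map_Uinv : PowerSeries.map φ (U K)⁻¹ = (U K')⁻¹ := by
  apply mul_left_cancel₀ (U_ne_zero K')
  rw [U_mul_inv, ← map_U φ, ← map_mul, U_mul_inv, map_one]

theorem map_lam : PowerSeries.map φ (lam K) = lam K' := by
  unfold lam xx
  rw [map_sub, map_one, map_pow, map_mul, LFc_map_V, map_Uinv]

theorem map_dbl (f : K⟦X⟧) : PowerSeries.map φ (dbl K f) = dbl K' (PowerSeries.map φ f) := by
  unfold dbl
  exact PowerSeries.map_expand 2 two_ne_zero φ f

theorem LFc_map_Dq (f : K⟦X⟧) :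
    PowerSeries.map φ (Dq K f) = Dq K' (PowerSeries.map φ f) := by
  ext n
  rw [PowerSeries.coeff_map, coeff_Dq, coeff_Dq, PowerSeries.coeff_map, map_mul, map_natCast]

theorem map_del (f : K⟦X⟧) :
    PowerSeries.map φ (OT.del K f) = OT.del K' (PowerSeries.map φ f) := by
  rw [del_apply, del_apply, map_mul, map_pow, map_Uinv, LFc_map_Dq]

theorem map_evl (P : Polynomial K) : PowerSeries.map φ (evl K P) = evl K' (P.map φ) := by
  rw [Polynomial.aeval_def, Polynomial.aeval_def, Polynomial.hom_eval₂, Polynomial.eval₂_map,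
    map_lam]
  congr 1
  refine RingHom.ext fun c => ?_
  show PowerSeries.map φ (PowerSeries.C c) = PowerSeries.C (φ c)
  exact PowerSeries.map_C φ c

theorem map_SP {r : ℕ} {e : Fin r → K⟦X⟧} {y : K⟦X⟧} (hy : y ∈ SP K e) :
    PowerSeries.map φ y ∈ SP K' (fun l => PowerSeries.map φ (e l)) := by
  obtain ⟨p, rfl⟩ := hy
  refine ⟨fun l => (p l).map φ, ?_⟩
  rw [map_sum]
  refine Finset.sum_congr rfl fun l _ => ?_
  rw [map_mul, map_evl]

theorem IsDeg.map {n : ℕ} {y : K⟦X⟧} (hy : IsDeg K n y) :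
    IsDeg K' n (PowerSeries.map φ y) := by
  obtain ⟨r, a, hr, ha, h0⟩ := hy
  refine ⟨r, fun m => (a m).map φ, hr, fun m => ?_, ?_⟩
  · exact (Polynomial.natDegree_map_le).trans (ha m)
  · have h1 := congrArg (PowerSeries.map φ) h0
    rw [map_add, map_pow, map_sum, map_zero] at h1
    rw [← h1]
    congr 1
    refine Finset.sum_congr rfl fun m _ => ?_
    rw [map_mul, map_pow, map_evl]

theorem LForm.map {k : ℕ} {f : K⟦X⟧} (hf : LForm K k f) :
    LForm K' k (PowerSeries.map φ f) := by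
  obtain ⟨r, e, hLD, h1, h2, h3, h4⟩ := hf
  have e1 : PowerSeries.map φ (f * (U K)⁻¹ ^ k) = PowerSeries.map φ f * (U K')⁻¹ ^ k := by
    rw [map_mul, map_pow, map_Uinv]
  have e2 : PowerSeries.map φ (dbl K f * (U K)⁻¹ ^ k) =
      dbl K' (PowerSeries.map φ f) * (U K')⁻¹ ^ k := by
    rw [map_mul, map_pow, map_Uinv, map_dbl]
  refine ⟨r, fun l => PowerSeries.map φ (e l), ⟨?_, ?_, ?_⟩, ?_, ?_, ?_, ?_⟩
  · have := map_SP φ hLD.one
    rwa [map_one] at this
  · intro l l'
    have := map_SP φ (hLD.mul l l')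
    rwa [map_mul] at this
  · intro l
    have := map_SP φ (hLD.del l)
    rwa [map_del] at this
  · rw [← e1]
    exact map_SP φ h1
  · rw [← e2]
    exact map_SP φ h2
  · rw [← e1, ← map_pow]
    exact h3.map φ
  · rw [← e2, ← map_pow]
    exact h4.map φ

end map

end Pool.Agent.H85.OU
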