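import Pool.Agent.H85.OU.UA

/-!
# Row LDB (project OU): integrality of the elements of a level datum

`LD K r e`.  For `y ∈ SP K e`: the `K[λ]`-module `M = SP K e ⊆ K⟦X⟧` (module structure through `evl K`) is generated by `e_1..e_r`, `y M ⊆ M` and
`1 ∈ M`; so by Cayley-Hamilton (`LinearMap.exists_monic_and_aeval_eq_zero`, `Module.Finite` version, or the determinant trick with the matrix `B`,
`y e_l = ∑ B_(l l')(λ) e_l'`, `P = charpoly B`, `P(y) e_l = 0` for all `l`, hence `P(y) M = 0`, `P(y) = 0`) `y` is a root of a monic polynomial of degree `r`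
with coefficients in `K[λ]`.  (`r ≥ 1` since `1 ∈ M`, `1 ≠ 0`.)
* `int_deg`: this is stated with the degree `r`: `y^r + ∑_{m=1}^r P_m(λ) y^(r-m) = 0`.
* `isDeg`: take `n = max natDegree P_m` (for `m ≥ 1`, `n ≤ n m`; redefine `P_m = 0` outside `1..r`).
* `bounds`: `bound1` and `isDeg` for the `e_l`, maximum of the constants (`IsDeg.mono`, `MPg_mono`).
-/

open PowerSeries
open Pool.Agent.H85.OT

namespace Pool.Agent.H85.OU

variable {K : Type*} [Field K] {r : ℕ} {e : Fin r → K⟦X⟧}

theorem LD.int_deg (h : LD K r e) {y : K⟦X⟧} (hy : y ∈ SP K e) :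
    ∃ a : ℕ → Polynomial K, y ^ r + ∑ m ∈ Finset.Icc 1 r, evl K (a m) * y ^ (r - m) = 0 := by
  have h1 : ∀ l, ∃ p : Fin r → Polynomial K, y * e l = ∑ l', evl K (p l') * e l' :=
    fun l => SP_mul h.mul hy (SP_gen l)
  choose B hB using h1
  let M : Matrix (Fin r) (Fin r) (Polynomial K) := Matrix.of B
  have he : e ≠ 0 := by
    intro he
    obtain ⟨p, hp⟩ := h.one
    rw [he] at hp
    simp at hp
  have hdet : (Matrix.scalar (Fin r) y - M.map (evl K).toRingHom).det = 0 := by
    rw [← Matrix.exists_mulVec_eq_zero_iff]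
    refine ⟨e, he, ?_⟩
    funext l
    rw [Matrix.sub_mulVec, Pi.sub_apply, Pi.zero_apply, sub_eq_zero, Matrix.scalar_apply,
      Matrix.mulVec_diagonal, hB]
    rfl
  have hev : (M.charpoly.map (evl K).toRingHom).eval y = 0 := by
    rw [← Matrix.charpoly_map, Matrix.eval_charpoly]
    exact hdet
  have hmon : M.charpoly.Monic := Matrix.charpoly_monic M
  have hdeg : M.charpoly.natDegree = r := by
    rw [Matrix.charpoly_natDegree_eq_dim, Fintype.card_fin]
  refine ⟨fun m => M.charpoly.coeff (r - m), ?_⟩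
  rw [Polynomial.eval_map, Polynomial.eval₂_eq_sum_range, hdeg, Finset.sum_range_succ, add_comm]
    at hev
  rw [← hev]
  congr 1
  · have h2 : M.charpoly.coeff r = 1 := by
      have h3 := hmon.coeff_natDegree
      rwa [hdeg] at h3
    rw [h2, map_one, one_mul]
  · refine Finset.sum_bij' (fun m _ => r - m) (fun i _ => r - i) ?_ ?_ ?_ ?_ ?_
    · intro m hm
      rw [Finset.mem_Icc] at hm
      rw [Finset.mem_range]
      omega
    · intro i hi
      rw [Finset.mem_range] at hi
      rw [Finset.mem_Icc]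
      omega
    · intro m hm
      rw [Finset.mem_Icc] at hm
      omega
    · intro i hi
      rw [Finset.mem_range] at hi
      omega
    · intro m hm
      rfl

theorem LD.isDeg (h : LD K r e) {y : K⟦X⟧} (hy : y ∈ SP K e) : ∃ n, IsDeg K n y := by
  obtain ⟨a, ha⟩ := h.int_deg hy
  have hr : 1 ≤ r := by
    by_contra hr
    have hr0 : r = 0 := by omega
    subst hr0
    obtain ⟨p, hp⟩ := h.one
    simp at hp
  refine ⟨∑ m ∈ Finset.Icc 1 r, (a m).natDegree, r, fun m => if m ∈ Finset.Icc 1 r then a m else 0,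
    hr, fun m => ?_, ?_⟩
  · by_cases hm : m ∈ Finset.Icc 1 r
    · have h1 : (a m).natDegree ≤ ∑ m ∈ Finset.Icc 1 r, (a m).natDegree :=
        Finset.single_le_sum (f := fun m => (a m).natDegree) (fun _ _ => Nat.zero_le _) hm
      beta_reduce
      rw [if_pos hm]
      rw [Finset.mem_Icc] at hm
      exact h1.trans (Nat.le_mul_of_pos_right _ hm.1)
    · beta_reduce
      rw [if_neg hm]
      simp
  · rw [← ha]
    congr 1
    exact Finset.sum_congr rfl fun m hm => by
      beta_reduce
      rw [if_pos hm]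

theorem LD.bounds (h : LD K r e) : ∃ c, (1 : K⟦X⟧) ∈ SPn K e c ∧
    (∀ l l', e l * e l' ∈ SPn K e c) ∧ (∀ l, OT.del K (e l) ∈ SPn K e c) ∧
    ∀ l, IsDeg K c (e l) := by
  obtain ⟨c, h1, h2, h3⟩ := h.bound1
  choose n hn using fun l => h.isDeg (SP_gen (K := K) (e := e) l)
  refine ⟨c + ∑ l, n l, MPg_mono (by omega) h1, fun l l' => MPg_mono (by omega) (h2 l l'),
    fun l => MPg_mono (by omega) (h3 l), fun l => IsDeg.mono ?_ (hn l)⟩
  have h4 : n l ≤ ∑ l, n l :=
    Finset.single_le_sum (f := fun l => n l) (fun _ _ => Nat.zero_le _) (Finset.mem_univ l)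
  omega

end Pool.Agent.H85.OU
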