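import Pool.Agent.H85.OU.Dfr
import Pool.Agent.H85.OU.LDb

/-!
# Row NAS (project OU): the differential field of a level datum

`A = h.alg`, `L = FractionRing A`, `ℓ` = image of `λ`, `R` = image of `A` in `L`.  `D` from `exists_dfr` (`Dfr.lean`).
* `dK`: `δ` kills constants.  `dl`: `Dq_lam` (`OT/Hd.lean`) and `U² U^(-2) = 1`.  `tr`: `P(λ) ≠ 0` in `K⟦X⟧` by `ord_lam` (so in `A`, so in `L`).  `stab`, `mem`, `frac`: clear.
* `int`: `LD.int_deg` (an equation in `K⟦X⟧` between elements of `A` holds in `A`, then in `L`); `r ≥ 1` because `1 ∈ SP K e`.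
* `fin`: `K0 = IntermediateField.adjoin K {ℓ}`; `L` is generated over `K0` by the images of `e_1, .., e_r`, which are algebraic (integral) over `K0`, so
  `K0(e_1, .., e_r) = L` is finite over `K0` (`IntermediateField.finiteDimensional_adjoin`): every element of `A` is `∑ p_l(λ) e_l`, every element of `L` a quotient of such.
  (Each `e_l ∈ SP K e` by `SP_gen`.)
* constants: `D c = 0`, `c = α/β`: `β δα = α δβ` in `A ⊆ K⟦X⟧`, `const_of_del` (`α = c0 β` in `K⟦X⟧`, hence in `A`, `c = c0`).
-/

open PowerSeries
open Pool.Agent.H85.OT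

namespace Pool.Agent.H85.OU

private lemma NAs_del_lam (K : Type*) [Field K] (h2 : (2 : K) ≠ 0) :
    OT.del K (lam K) = lam K * (1 - lam K) := by
  rw [OT.del_apply, Dq_lam K h2]
  have h := U_mul_inv K
  have h1 : (U K)⁻¹ ^ 2 * U K ^ 2 = 1 := by
    rw [← mul_pow, mul_comm, h, one_pow]
  linear_combination (lam K * (1 - lam K)) * h1

private lemma NAs_del_C (K : Type*) [Field K] (c : K) :
    OT.del K (algebraMap K K⟦X⟧ c) = 0 := by
  rw [OT.del_apply, Derivation.map_algebraMap, mul_zero]

private lemma NAs_tr {K : Type*} [Field K] [CharZero K] (P : Polynomial K) (hP : P ≠ 0) :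
    Polynomial.aeval (lam K) P ≠ 0 := by
  intro h
  obtain ⟨l, -, hl⟩ := ord_lam (K := K) two_ne_zero P hP P.natDegree le_rfl
  apply hl
  unfold lam at h
  rw [h, map_zero]

private lemma NAs_intElem {K : Type*} [Field K] {L : Type*} [Field L] [Algebra K L] (s x : L)
    (r : ℕ) (a : ℕ → Polynomial K)
    (h : x ^ r + ∑ m ∈ Finset.Icc 1 r, Polynomial.aeval s (a m) * x ^ (r - m) = 0) :
    IntOver K s x := by
  refine ⟨Polynomial.X ^ r + ∑ m ∈ Finset.Icc 1 r, Polynomial.C (a m) * Polynomial.X ^ (r - m),
    ?_, ?_⟩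
  · rcases Nat.eq_zero_or_pos r with hr | hr
    · subst hr
      simp
    · refine Polynomial.monic_X_pow_add ?_
      refine lt_of_le_of_lt (Polynomial.degree_sum_le _ _) ?_
      rw [Finset.sup_lt_iff (WithBot.bot_lt_coe _)]
      intro m hm
      rw [Finset.mem_Icc] at hm
      refine lt_of_le_of_lt (Polynomial.degree_C_mul_X_pow_le _ _) ?_
      exact_mod_cast (by omega : r - m < r)
  · rw [Polynomial.eval₂_add, Polynomial.eval₂_pow, Polynomial.eval₂_X,
      Polynomial.eval₂_finsetSum]
    simp only [Polynomial.eval₂_mul, Polynomial.eval₂_pow, Polynomial.eval₂_X,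
      Polynomial.eval₂_C]
    exact h

private lemma NAs_int {K : Type*} [Field K] {L : Type*} [Field L] [Algebra K L] (s x : L)
    (h : IntOver K s x) : IsIntegral (IntermediateField.adjoin K {s}) x := by
  obtain ⟨p, hp, hx⟩ := h
  obtain ⟨s0, hs0⟩ : ∃ s0 : IntermediateField.adjoin K {s},
      s0 = ⟨s, IntermediateField.mem_adjoin_simple_self K s⟩ := ⟨_, rfl⟩
  refine ⟨p.map ((Polynomial.aeval s0 : Polynomial K →ₐ[K] _) : Polynomial K →+* _),
    hp.map _, ?_⟩
  rw [Polynomial.eval₂_map]
  have hc : (algebraMap (IntermediateField.adjoin K {s}) L).comp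
      ((Polynomial.aeval s0 : Polynomial K →ₐ[K] _) : Polynomial K →+* _) =
      ((Polynomial.aeval s : Polynomial K →ₐ[K] L) : Polynomial K →+* L) := by
    apply RingHom.ext
    intro q
    show (algebraMap (IntermediateField.adjoin K {s}) L) (Polynomial.aeval s0 q) =
      Polynomial.aeval s q
    rw [← Polynomial.aeval_algebraMap_apply]
    congr 1
    rw [hs0]
    rfl
  rw [hc]
  exact hx

theorem naset_of_LD {K : Type} [Field K] [CharZero K] {r : ℕ} {e : Fin r → K⟦X⟧}
    (h : LD K r e) :
    ∃ D : Dv (FractionRing h.alg),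
      (∀ a : h.alg, D (algebraMap h.alg (FractionRing h.alg) a) =
        algebraMap h.alg (FractionRing h.alg) (h.dA a)) ∧
      NAset K (FractionRing h.alg) D
        (algebraMap h.alg (FractionRing h.alg) ⟨lam K, h.lam_mem⟩)
        (IsScalarTower.toAlgHom K h.alg (FractionRing h.alg)).range ∧
      ∀ c, D c = 0 → ∃ c0 : K, c = algebraMap K (FractionRing h.alg) c0 := by
  obtain ⟨D, hD⟩ := exists_dfr h.dA (FractionRing h.alg)
  have hinj : Function.Injective (algebraMap h.alg (FractionRing h.alg)) :=
    IsFractionRing.injective _ _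
  obtain ⟨ℓA, hℓA⟩ : ∃ ℓA : h.alg, ℓA = ⟨lam K, h.lam_mem⟩ := ⟨_, rfl⟩
  have hval : ((ℓA : h.alg) : K⟦X⟧) = lam K := by rw [hℓA]
  have haev : ∀ P : Polynomial K, ((Polynomial.aeval ℓA P : h.alg) : K⟦X⟧) =
      Polynomial.aeval (lam K) P := by
    intro P
    rw [← hval]
    exact (Polynomial.aeval_algHom_apply h.alg.val ℓA P).symm
  have haevL : ∀ P : Polynomial K, Polynomial.aeval (algebraMap h.alg (FractionRing h.alg) ℓA) P =
      algebraMap h.alg (FractionRing h.alg) (Polynomial.aeval ℓA P) := by
    intro P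
    rw [Polynomial.aeval_algebraMap_apply]
  have hint : ∀ a : h.alg, IntOver K (algebraMap h.alg (FractionRing h.alg) ℓA)
      (algebraMap h.alg (FractionRing h.alg) a) := by
    intro a
    obtain ⟨p, hp⟩ := h.int_deg a.2
    refine NAs_intElem _ _ r p ?_
    have h1 : a ^ r + ∑ m ∈ Finset.Icc 1 r, Polynomial.aeval ℓA (p m) * a ^ (r - m) = 0 := by
      apply Subtype.ext
      rw [Subalgebra.coe_add, Subalgebra.coe_pow, Subalgebra.coe_zero]
      rw [← Subalgebra.val_apply, ← Subalgebra.val_apply, map_sum]
      simp only [map_mul, map_pow, Subalgebra.val_apply, haev]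
      exact hp
    have h2 := congrArg (algebraMap h.alg (FractionRing h.alg)) h1
    rw [map_add, map_pow, map_sum, map_zero] at h2
    rw [← h2]
    congr 1
    refine Finset.sum_congr rfl fun m _ => ?_
    rw [map_mul, map_pow, haevL]
  refine ⟨D, hD, ?_, ?_⟩
  · rw [← hℓA]
    refine ⟨?_, ?_, ?_, ?_, ?_, ?_, ?_, ?_⟩
    · intro c
      rw [IsScalarTower.algebraMap_apply K h.alg (FractionRing h.alg), hD]
      have : h.dA (algebraMap K h.alg c) = 0 := by
        apply Subtype.ext
        rw [h.coe_dA]
        exact NAs_del_C K c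
      rw [this, map_zero]
    · rw [hD]
      have : h.dA ℓA = ℓA * (1 - ℓA) := by
        apply Subtype.ext
        rw [h.coe_dA, hval, NAs_del_lam K two_ne_zero, Subalgebra.coe_mul, Subalgebra.coe_sub,
          Subalgebra.coe_one, hval]
      rw [this, map_mul, map_sub, map_one]
    · intro P hP hcon
      rw [haevL] at hcon
      have h1 := hinj (hcon.trans (map_zero _).symm)
      have h2 := haev P
      rw [h1] at h2
      exact NAs_tr P hP h2.symm
    · obtain ⟨eL, heL⟩ : ∃ eL : Fin r → FractionRing h.alg,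
          eL = fun l => algebraMap h.alg (FractionRing h.alg) ⟨e l, SP_gen l⟩ := ⟨_, rfl⟩
      obtain ⟨F, hF⟩ : ∃ F : IntermediateField
          (IntermediateField.adjoin K {algebraMap h.alg (FractionRing h.alg) ℓA})
          (FractionRing h.alg), F = IntermediateField.adjoin
          (IntermediateField.adjoin K {algebraMap h.alg (FractionRing h.alg) ℓA})
          (Set.range eL) := ⟨_, rfl⟩
      have hfinF : FiniteDimensional
          (IntermediateField.adjoin K {algebraMap h.alg (FractionRing h.alg) ℓA}) F := by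
        rw [hF]
        haveI : Finite (Set.range eL) := Set.finite_range eL
        refine IntermediateField.finiteDimensional_adjoin ?_
        rintro x ⟨l, rfl⟩
        rw [heL]
        exact NAs_int _ _ (hint _)
      have hA : ∀ a : h.alg, algebraMap h.alg (FractionRing h.alg) a ∈ F := by
        intro a
        obtain ⟨p, hp⟩ := a.2
        have h1 : a = ∑ l, Polynomial.aeval ℓA (p l) * (⟨e l, SP_gen l⟩ : h.alg) := by
          apply Subtype.ext
          rw [hp, ← Subalgebra.val_apply, map_sum]
          refine Finset.sum_congr rfl fun l _ => ?_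
          rw [map_mul, Subalgebra.val_apply, Subalgebra.val_apply, haev]
        rw [h1, map_sum]
        refine sum_mem fun l _ => ?_
        rw [map_mul]
        refine mul_mem ?_ ?_
        · rw [← haevL]
          have h2 : Polynomial.aeval (algebraMap h.alg (FractionRing h.alg) ℓA) (p l) ∈
              IntermediateField.adjoin K {algebraMap h.alg (FractionRing h.alg) ℓA} := by
            refine IntermediateField.algebra_adjoin_le_adjoin K _ ?_
            rw [Algebra.adjoin_singleton_eq_range_aeval]
            exact ⟨_, rfl⟩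
          exact F.algebraMap_mem ⟨_, h2⟩
        · rw [hF]
          refine IntermediateField.subset_adjoin _ _ ⟨l, ?_⟩
          rw [heL]
      have htop : F = ⊤ := by
        rw [eq_top_iff]
        intro x _
        obtain ⟨a, b, -, rfl⟩ := IsFractionRing.div_surjective (A := h.alg) x
        exact div_mem (hA a) (hA b)
      rw [htop] at hfinF
      exact Module.Finite.equiv (IntermediateField.topEquiv
        (F := IntermediateField.adjoin K {algebraMap h.alg (FractionRing h.alg) ℓA})
        (E := FractionRing h.alg)).toLinearEquiv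
    · exact ⟨ℓA, rfl⟩
    · rintro b ⟨a, rfl⟩
      refine ⟨h.dA a, ?_⟩
      exact (hD a).symm
    · rintro b ⟨a, rfl⟩
      exact hint a
    · intro x
      obtain ⟨a, b, hb, rfl⟩ := IsFractionRing.div_surjective (A := h.alg) x
      refine ⟨algebraMap h.alg (FractionRing h.alg) a, ⟨a, rfl⟩,
        algebraMap h.alg (FractionRing h.alg) b, ⟨b, rfl⟩, ?_, rfl⟩
      intro hcon
      have := hinj (hcon.trans (map_zero _).symm)
      exact nonZeroDivisors.ne_zero hb this
  · intro c hc
    obtain ⟨a, b, hb, rfl⟩ := IsFractionRing.div_surjective (A := h.alg) c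
    have hb0 : b ≠ 0 := nonZeroDivisors.ne_zero hb
    have hbL : algebraMap h.alg (FractionRing h.alg) b ≠ 0 := fun hcon =>
      hb0 (hinj (hcon.trans (map_zero _).symm))
    have h1 : D (algebraMap h.alg (FractionRing h.alg) a) =
        (algebraMap h.alg (FractionRing h.alg) a / algebraMap h.alg (FractionRing h.alg) b) *
          D (algebraMap h.alg (FractionRing h.alg) b) := by
      have h2 : algebraMap h.alg (FractionRing h.alg) a =
          (algebraMap h.alg (FractionRing h.alg) a / algebraMap h.alg (FractionRing h.alg) b) *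
            algebraMap h.alg (FractionRing h.alg) b := by
        rw [div_mul_cancel₀ _ hbL]
      conv_lhs => rw [h2]
      rw [D.map_mul, hc, zero_mul, zero_add]
    have h3 : algebraMap h.alg (FractionRing h.alg) (b * h.dA a) =
        algebraMap h.alg (FractionRing h.alg) (a * h.dA b) := by
      rw [map_mul, map_mul, ← hD, ← hD, h1]
      field_simp
    have h4 := congrArg (Subtype.val) (hinj h3)
    rw [Subalgebra.coe_mul, Subalgebra.coe_mul, h.coe_dA, h.coe_dA] at h4
    obtain ⟨c0, hc0⟩ := const_of_del (a : K⟦X⟧) (b : K⟦X⟧)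
      (fun hcon => hb0 (Subtype.ext hcon)) h4
    refine ⟨c0, ?_⟩
    have h5 : a = algebraMap K h.alg c0 * b := by
      apply Subtype.ext
      rw [hc0]
      rfl
    rw [div_eq_iff hbL]
    conv_lhs => rw [h5]
    rw [map_mul, ← IsScalarTower.algebraMap_apply]

end Pool.Agent.H85.OU
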