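import Pool.Agent.H85.OU.NSL

/-!
# Row NST (project OU): transfer from the fraction field to the ring

`ι : A → L` injective, `D ι = ι dA`.  `Polynomial.map ι : A[X] → L[X]` is injective and commutes with `dext` : `map ι (dext dA G P) = dext D (map ι G) (map ι P)`
(`coeff_mapc`, `Polynomial.derivative_map`); the same for `A[X][Y] → L[X][Y]` (`Polynomial.map (Polynomial.mapRingHom ι)`).
* `nst0`: `P ∣ C c * dext dA (C g - X²) P` in `A[X]` gives `map P ∣ C (ι c) * ∂ (map P)` in `L[X]`, and `C (ι c)` is a unit, so `map P ∣ ∂ (map P)`; `DLp`; `natDegree` is preserved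
  (`Polynomial.natDegree_map_eq_of_injective`).
* `nst1`, `nst2`: a solution `p, q` (`q ≠ 0`) over `A` maps to a solution over `L`, `map q ≠ 0`.  (`bX κ` maps to `bX κ`.)
-/

open Pool.Agent.H85.OT

namespace Pool.Agent.H85.OU

theorem NST_mapc {R S : Type*} [CommRing R] [CommRing S] (φ : R →+* S) (d : Dv R) (D : Dv S)
    (h : ∀ a, D (φ a) = φ (d a)) (P : Polynomial R) :
    (mapc d P).map φ = mapc D (P.map φ) := by
  ext i
  rw [Polynomial.coeff_map, coeff_mapc, coeff_mapc, Polynomial.coeff_map, h]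

theorem NST_dext {R S : Type*} [CommRing R] [CommRing S] (φ : R →+* S) (d : Dv R) (D : Dv S)
    (h : ∀ a, D (φ a) = φ (d a)) (G P : Polynomial R) :
    dext D (G.map φ) (P.map φ) = (dext d G P).map φ := by
  rw [dext_apply, dext_apply, Polynomial.map_add, Polynomial.map_mul, Polynomial.derivative_map,
    NST_mapc φ d D h]

theorem NST_NS {R S : Type*} [CommRing R] [CommRing S] (φ : R →+* S)
    (hφ : Function.Injective φ) (d : Dv R) (D : Dv S) (h : ∀ a, D (φ a) = φ (d a)) (α β : R)
    (hN : NS D (φ α) (φ β)) : NS d α β := by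
  intro p q hq he
  refine hN (φ p) (φ q) (fun h0 => hq (hφ (h0.trans (_root_.map_zero φ).symm))) ?_
  rw [h, h, ← _root_.map_mul, ← _root_.map_mul, ← _root_.map_sub, he, _root_.map_add,
    _root_.map_mul, _root_.map_pow, _root_.map_mul, _root_.map_mul]

theorem NST_bX {R S : Type*} [CommRing R] [CommRing S] (φ : R →+* S) (κ : ℕ) :
    (bX κ : Polynomial R).map φ = bX κ := by
  unfold bX
  rw [Polynomial.map_neg, Polynomial.map_mul, Polynomial.map_X, Polynomial.map_natCast]

theorem NST_G {R S : Type*} [CommRing R] [CommRing S] (φ : R →+* S) (g : R) :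
    (Polynomial.C g - Polynomial.X ^ 2 : Polynomial R).map φ =
      Polynomial.C (φ g) - Polynomial.X ^ 2 := by
  rw [Polynomial.map_sub, Polynomial.map_C, Polynomial.map_pow, Polynomial.map_X]

variable {A L : Type*} [CommRing A] [IsDomain A] [Field L] (ι : A →+* L)
  (hι : Function.Injective ι) (dA : Dv A) (D : Dv L) (hD : ∀ a, D (ι a) = ι (dA a)) (g : A)
include hι hD

theorem nst0 (h : DLp D (ι g)) (P : Polynomial A) (hP : P ≠ 0) (c : A) (hc : c ≠ 0)
    (hd : P ∣ Polynomial.C c * dext dA (Polynomial.C g - Polynomial.X ^ 2) P) :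
    P.natDegree = 0 := by
  have h1 := Polynomial.map_dvd ι hd
  rw [Polynomial.map_mul, Polynomial.map_C, ← NST_dext ι dA D hD, NST_G] at h1
  have hc0 : ι c ≠ 0 := fun h0 => hc (hι (h0.trans (_root_.map_zero ι).symm))
  have hu : IsUnit (Polynomial.C (ι c)) := Polynomial.isUnit_C.2 (isUnit_iff_ne_zero.2 hc0)
  have h2 : P.map ι ∣ dext D (Polynomial.C (ι g) - Polynomial.X ^ 2) (P.map ι) :=
    (IsUnit.dvd_mul_left hu).1 h1
  have h3 : P.map ι ≠ 0 := (Polynomial.map_ne_zero_iff hι).2 hP
  rw [← Polynomial.natDegree_map_eq_of_injective hι P]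
  exact h (P.map ι) h3 h2

theorem nst1 (ψ : A) (κ : ℕ)
    (h : NS (dext D (Polynomial.C (ι g) - Polynomial.X ^ 2)) (Polynomial.C (ι ψ)) (bX κ)) :
    NS (dext dA (Polynomial.C g - Polynomial.X ^ 2)) (Polynomial.C ψ) (bX κ) := by
  refine NST_NS (Polynomial.mapRingHom ι) (Polynomial.map_injective ι hι) _
    (dext D (Polynomial.C (ι g) - Polynomial.X ^ 2)) ?_ _ _ ?_
  · intro P
    rw [Polynomial.coe_mapRingHom, ← NST_G, NST_dext ι dA D hD]
  · rw [Polynomial.coe_mapRingHom, Polynomial.map_C, NST_bX]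
    exact h

theorem nst2 (ψ1 ψ2 : A) (κ : ℕ)
    (h : NS (dext (dext D (Polynomial.C (ι g) - Polynomial.X ^ 2))
        (Polynomial.C (Polynomial.C (ι ψ1)) + Polynomial.C (bX κ) * Polynomial.X))
      (Polynomial.C (Polynomial.C (ι ψ2))) (Polynomial.C (bX κ))) :
    NS (dext (dext dA (Polynomial.C g - Polynomial.X ^ 2))
        (Polynomial.C (Polynomial.C ψ1) + Polynomial.C (bX κ) * Polynomial.X))
      (Polynomial.C (Polynomial.C ψ2)) (Polynomial.C (bX κ)) := by
  have hD1 : ∀ P : Polynomial A, dext D (Polynomial.C (ι g) - Polynomial.X ^ 2)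
      (Polynomial.mapRingHom ι P) =
      Polynomial.mapRingHom ι (dext dA (Polynomial.C g - Polynomial.X ^ 2) P) := by
    intro P
    rw [Polynomial.coe_mapRingHom, ← NST_G, NST_dext ι dA D hD]
  have hG : (Polynomial.C (Polynomial.C ψ1) + Polynomial.C (bX κ) * Polynomial.X :
      Polynomial (Polynomial A)).map (Polynomial.mapRingHom ι) =
      Polynomial.C (Polynomial.C (ι ψ1)) + Polynomial.C (bX κ) * Polynomial.X := by
    rw [Polynomial.map_add, Polynomial.map_mul, Polynomial.map_C, Polynomial.map_C,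
      Polynomial.map_X, Polynomial.coe_mapRingHom, Polynomial.map_C, NST_bX]
  refine NST_NS (Polynomial.mapRingHom (Polynomial.mapRingHom ι))
    (Polynomial.map_injective _ (Polynomial.map_injective ι hι)) _
    (dext (dext D (Polynomial.C (ι g) - Polynomial.X ^ 2))
        (Polynomial.C (Polynomial.C (ι ψ1)) + Polynomial.C (bX κ) * Polynomial.X)) ?_ _ _ ?_
  · intro P
    rw [Polynomial.coe_mapRingHom, ← hG, NST_dext (Polynomial.mapRingHom ι) _ _ hD1]
  · rw [Polynomial.coe_mapRingHom, Polynomial.map_C, Polynomial.map_C, Polynomial.coe_mapRingHom,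
      Polynomial.map_C, NST_bX]
    exact h

end Pool.Agent.H85.OU
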