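import Pool.Agent.H85.OU.NBe
import Pool.Agent.H85.OU.DLL

/-!
# Row NSA (project OU): the two linear equations for a level datum

`g = ℓ(1-ℓ)/4`.
* `DLp d g`: `dlp_of_algebraic`; every `a ∈ L` is algebraic over `K[ℓ]`: `a = b/c` with `b, c` integral over `K[ℓ]` (`NAset`), and quotients of algebraic elements are algebraic
  (work over the field `K(ℓ)`, or `IsAlgebraic` calculus for the algebra `K[X] → L`, `X ↦ ℓ`; `h.fin` also gives it: `L` is algebraic over `K(ℓ)`, clear denominators).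
* for `c1, c2 ∈ K` not both zero, `ψ = c1 ψ1 + c2 ψ2`: there is no `a ∈ L` with `nabs d g κ (κ+1) a = C ((-1)^κ κ! ψ)`: `ψ' = (-1)^κ κ! ψ` is integral over `K[ℓ]`, `(ψ')²` is
  `IsDegA (κ+2)` (`hdeg` with `(-1)^κ κ! c1, (-1)^κ κ! c2`), so `noNA` gives `ψ' = 0`, contradicting `hne` (`κ! ≠ 0`).
* `nsL1` for such `ψ`, in particular `ψ1`, `-e ψ1` (`e ≥ 1`), `ψ2 - c ψ1` (`c ∈ L`, `dc = 0`, so `c ∈ K` by `hconst`); then `nsL2`.
-/

open Pool.Agent.H85.OT

namespace Pool.Agent.H85.OU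

theorem NSa_alg {K L : Type} [Field K] [Field L] [Algebra K L] {d : Dv L} {ℓ : L} {R : Subalgebra K L}
    (h : NAset K L d ℓ R) (a : L) : ∃ P : Polynomial (Polynomial K), P ≠ 0 ∧
      P.eval₂ (Polynomial.aeval ℓ : Polynomial K →ₐ[K] L).toRingHom a = 0 := by
  let _ : Algebra (Polynomial K) L := ((Polynomial.aeval ℓ : Polynomial K →ₐ[K] L) : Polynomial K →+* L).toAlgebra
  have hint : ∀ b ∈ R, IsAlgebraic (Polynomial K) b := by
    intro b hb
    obtain ⟨p, hp, hp0⟩ := h.int b hb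
    exact ⟨p, hp.ne_zero, hp0⟩
  obtain ⟨b, hb, c, hc, hc0, hab⟩ := h.frac a
  have h1 : IsAlgebraic (Polynomial K) a := by
    rw [hab, div_eq_mul_inv]
    exact (hint b hb).mul (hint c hc).inv
  obtain ⟨P, hP, hP0⟩ := h1
  exact ⟨P, hP, hP0⟩

theorem NSa_int {K L : Type} [Field K] [Field L] [Algebra K L] (ℓ ψ1 ψ2 : L)
    (hi1 : IntOver K ℓ ψ1) (hi2 : IntOver K ℓ ψ2) (c1 c2 : K) :
    IntOver K ℓ (algebraMap K L c1 * ψ1 + algebraMap K L c2 * ψ2) := by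
  have hc : ∀ c : K, IntOver K ℓ (algebraMap K L c) := by
    intro c
    unfold IntOver
    have h1 := RingHom.isIntegralElem_map ((Polynomial.aeval ℓ : Polynomial K →ₐ[K] L) : Polynomial K →+* L)
      (x := Polynomial.C c)
    have h2 : ((Polynomial.aeval ℓ : Polynomial K →ₐ[K] L) : Polynomial K →+* L) (Polynomial.C c) = algebraMap K L c := by
      show Polynomial.aeval ℓ (Polynomial.C c) = algebraMap K L c
      rw [Polynomial.aeval_C]
    rwa [h2] at h1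
  exact RingHom.IsIntegralElem.add _ (RingHom.IsIntegralElem.mul _ (hc c1) hi1)
    (RingHom.IsIntegralElem.mul _ (hc c2) hi2)

theorem ns_all {K L : Type} [Field K] [CharZero K] [IsAlgClosed K] [Field L] [CharZero L]
    [Algebra K L] {d : Dv L} {ℓ : L} {R : Subalgebra K L} (h : NAset K L d ℓ R)
    (hconst : ∀ c, d c = 0 → ∃ c0 : K, c = algebraMap K L c0) (κ : ℕ) (hκ : 0 < κ) (ψ1 ψ2 : L)
    (hi1 : IntOver K ℓ ψ1) (hi2 : IntOver K ℓ ψ2)
    (hdeg : ∀ c1 c2 : K,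
      IsDegA K ℓ (κ + 2) ((algebraMap K L c1 * ψ1 + algebraMap K L c2 * ψ2) ^ 2))
    (hne : ∀ c1 c2 : K, (c1 ≠ 0 ∨ c2 ≠ 0) →
      algebraMap K L c1 * ψ1 + algebraMap K L c2 * ψ2 ≠ 0) :
    DLp d (ℓ * (1 - ℓ) / 4) ∧
    NS (dext d (Polynomial.C (ℓ * (1 - ℓ) / 4) - Polynomial.X ^ 2)) (Polynomial.C ψ1) (bX κ) ∧
    NS (dext (dext d (Polynomial.C (ℓ * (1 - ℓ) / 4) - Polynomial.X ^ 2))
        (Polynomial.C (Polynomial.C ψ1) + Polynomial.C (bX κ) * Polynomial.X))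
      (Polynomial.C (Polynomial.C ψ2)) (Polynomial.C (bX κ)) := by
  have hDL : DLp d (ℓ * (1 - ℓ) / 4) := dlp_of_algebraic d h.dK ℓ h.dl h.tr (NSa_alg h)
  have hfac : (((-1) ^ κ * (κ.factorial : K) : K)) ≠ 0 :=
    mul_ne_zero (pow_ne_zero _ (neg_ne_zero.2 one_ne_zero)) (Nat.cast_ne_zero.2 κ.factorial_ne_zero)
  have key : ∀ c1 c2 : K, (c1 ≠ 0 ∨ c2 ≠ 0) →
      NS (dext d (Polynomial.C (ℓ * (1 - ℓ) / 4) - Polynomial.X ^ 2))
        (Polynomial.C (algebraMap K L c1 * ψ1 + algebraMap K L c2 * ψ2)) (bX κ) := by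
    intro c1 c2 hc
    refine nsL1 d _ hDL κ hκ _ ?_
    intro a ha
    have e1 : (-1) ^ κ * (κ.factorial : L) * (algebraMap K L c1 * ψ1 + algebraMap K L c2 * ψ2)
        = algebraMap K L ((-1) ^ κ * (κ.factorial : K) * c1) * ψ1
          + algebraMap K L ((-1) ^ κ * (κ.factorial : K) * c2) * ψ2 := by
      simp only [map_mul, map_pow, map_neg, map_one, map_natCast]
      ring
    rw [e1] at ha
    have h0 := noNA h κ hκ a _ (NSa_int ℓ ψ1 ψ2 hi1 hi2 _ _) (hdeg _ _) ha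
    refine hne _ _ ?_ h0
    rcases hc with hc | hc
    · exact Or.inl (mul_ne_zero hfac hc)
    · exact Or.inr (mul_ne_zero hfac hc)
  refine ⟨hDL, ?_, ?_⟩
  · have h1 := key 1 0 (Or.inl one_ne_zero)
    simpa using h1
  · refine nsL2 d _ hDL κ hκ ψ1 ψ2 ?_ ?_
    · intro e he
      have h1 := key (-(e : K)) 0 (Or.inl (neg_ne_zero.2 (Nat.cast_ne_zero.2 (by omega))))
      have e1 : algebraMap K L (-(e : K)) * ψ1 + algebraMap K L 0 * ψ2 = -(e : L) * ψ1 := by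
        rw [map_zero, zero_mul, add_zero, map_neg, map_natCast]
      rwa [e1] at h1
    · intro c hc
      obtain ⟨c0, rfl⟩ := hconst c hc
      have h1 := key (-c0) 1 (Or.inr one_ne_zero)
      have e1 : algebraMap K L (-c0) * ψ1 + algebraMap K L 1 * ψ2 = ψ2 - algebraMap K L c0 * ψ1 := by
        rw [map_one, one_mul, map_neg]
        ring
      rwa [e1] at h1

end Pool.Agent.H85.OU
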