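import Pool.Agent.H85.OT.Zext
import Pool.Agent.H85.OT.Zlin

/-!
# Row ZR (project OU): the zero estimate for the Riccati extension of a general ring

Same as row ZRIC (file `OT/Zric.lean`, copy and adapt) and `OT/Zlin.lean` (`Zlin_nat`, `Zlin_sub`).  `R` a domain of characteristic zero, `d = Z.d`, `d' = dext d (C g - X²)`; coefficients:
`(d' P)_(j+1) = d P_(j+1) + (j+2) g P_(j+2) - j P_j`, `(d' P)_0 = d P_0 + g P_1`.
Claim, by induction on `k`: for all `e` there is `C` such that for all `n` and all `P` with `natDegree P ≤ k`, all coefficients in `B n e`, `P ≠ 0`, some coefficient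
`l ≤ C (n+1)` of `ev' P` is nonzero.
* `k = 0`: `Zest` for `Z`.
* `k + 1`: let `natDegree P = r = k+1 ≥ 1`, `p_r ≠ 0` its leading coefficient.  Put `P2 = C p_r * (d' P + r X P) - C (d p_r + p_(r-1)) * P`.
  The coefficients of `d' P + r X P` at `X^(r+1)` and `X^r` are `- r p_r + r p_r = 0` and `d p_r - (r-1) p_(r-1) + r p_(r-1) = d p_r + p_(r-1)`; so `natDegree P2 ≤ r - 1 = k`.
  `P2 ≠ 0`: otherwise `C p_r * d' P = (C (d p_r + p_(r-1)) - C p_r * r X) * P`, so `P ∣ C p_r * d' P`, and `hDL` gives `natDegree P = 0`, contradiction.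
  The coefficients of `P2` lie in `B (2n + c2) (2e + c2)`, `c2` depending only on `Z.c, c1`.  Induction hypothesis for `e' = 2e + c2`; `ev' P2` is a combination of
  `ev' P` and `del (ev' P)`, so some coefficient `≤ l` of `ev' P` is nonzero (`Van`).
-/

open PowerSeries
open Pool.Agent.H85.OT

namespace Pool.Agent.H85.OU

theorem ZR_coeff {R : Type*} [CommRing R] (d : Dv R) (g : R) (P : Polynomial R) (j : ℕ) :
    (dext d (Polynomial.C g - Polynomial.X ^ 2) P).coeff (j + 1) = d (P.coeff (j + 1)) +
      ((j : R) + 2) * g * P.coeff (j + 2) - (j : R) * P.coeff j := by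
  rw [coeff_dext]
  have : (Polynomial.C g - Polynomial.X ^ 2) * Polynomial.derivative P =
    Polynomial.C g * Polynomial.derivative P -
      Polynomial.X * (Polynomial.X * Polynomial.derivative P) := by ring
  rw [this, Polynomial.coeff_sub, Polynomial.coeff_C_mul, Polynomial.coeff_X_mul]
  rcases j with _ | j
  · simp [Polynomial.coeff_derivative]; ring
  · rw [Polynomial.coeff_X_mul, Polynomial.coeff_derivative, Polynomial.coeff_derivative]
    push_cast; ring

theorem ZR_coeff_zero {R : Type*} [CommRing R] (d : Dv R) (g : R) (P : Polynomial R) :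
    (dext d (Polynomial.C g - Polynomial.X ^ 2) P).coeff 0 = d (P.coeff 0) + g * P.coeff 1 := by
  rw [coeff_dext]
  have : (Polynomial.C g - Polynomial.X ^ 2) * Polynomial.derivative P =
    Polynomial.C g * Polynomial.derivative P -
      Polynomial.X * (Polynomial.X * Polynomial.derivative P) := by ring
  rw [this, Polynomial.coeff_sub, Polynomial.coeff_C_mul, Polynomial.coeff_X_mul_zero]
  simp [Polynomial.coeff_derivative]

theorem ZR_main {K : Type*} [Field K] {R : Type*} [CommRing R] [IsDomain R] [CharZero R]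
    (Z : ZD K R) (hZ : Z.Zest) (g : R) (c1 : ℕ) (hg : Z.B c1 c1 g)
    (hDL : ∀ P : Polynomial R, P ≠ 0 → ∀ c : R, c ≠ 0 →
      P ∣ Polynomial.C c * dext Z.d (Polynomial.C g - Polynomial.X ^ 2) P → P.natDegree = 0)
    (Z' : ZD K (Polynomial R))
    (hd : Z'.d = dext Z.d (Polynomial.C g - Polynomial.X ^ 2))
    (hev : ∀ a, Z'.ev (Polynomial.C a) = Z.ev a) (k : ℕ) :
    ∀ e : ℕ, ∃ C : ℕ, ∀ (n : ℕ) (P : Polynomial R), P.natDegree ≤ k →
      (∀ i, Z.B n e (P.coeff i)) → P ≠ 0 →
      ∃ l ≤ C * (n + 1), PowerSeries.coeff l (Z'.ev P) ≠ 0 := by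
  induction k with
  | zero =>
    intro e
    obtain ⟨C, hC⟩ := hZ e
    refine ⟨C, fun n P hP hPB hP0 => ?_⟩
    have hPC := Polynomial.eq_C_of_natDegree_le_zero hP
    have h0 : P.coeff 0 ≠ 0 := by
      intro h0
      rw [h0, Polynomial.C_0] at hPC
      exact hP0 hPC
    obtain ⟨l, hl, h1⟩ := hC n (P.coeff 0) (hPB 0) h0
    refine ⟨l, hl, ?_⟩
    rw [hPC, hev]
    exact h1
  | succ k ih =>
    intro e
    obtain ⟨C', hC'⟩ := ih (2 * e + (Z.c + c1))
    refine ⟨C' * ((Z.c + c1) + 2), fun n P hP hPB hP0 => ?_⟩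
    by_cases hk : P.natDegree ≤ k
    · obtain ⟨l, hl, h1⟩ := hC' n P hk (fun i => Z.B_mono le_rfl (by omega) (hPB i)) hP0
      refine ⟨l, hl.trans ?_, h1⟩
      refine Nat.mul_le_mul_right _ ?_
      exact Nat.le_mul_of_pos_right _ (by omega)
    · have hr : P.natDegree = k + 1 := by omega
      obtain ⟨pr, hpr⟩ : ∃ x, x = P.coeff (k + 1) := ⟨_, rfl⟩
      have hpr0 : pr ≠ 0 := by
        rw [hpr, ← hr]
        exact fun h => hP0 (Polynomial.leadingCoeff_eq_zero.1 h)
      have hvan : ∀ i, k + 1 < i → P.coeff i = 0 := fun i hi =>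
        Polynomial.coeff_eq_zero_of_natDegree_lt (by omega)
      obtain ⟨γ, hγ⟩ : ∃ x, x = Z.d pr + P.coeff k := ⟨_, rfl⟩
      obtain ⟨P2, hP2⟩ : ∃ Q : Polynomial R, Q = Polynomial.C pr *
          (Z'.d P + ((k + 1 : ℕ) : Polynomial R) * (Polynomial.X * P)) -
            Polynomial.C γ * P := ⟨_, rfl⟩
      have hco : ∀ j, P2.coeff (j + 1) = pr * (Z.d (P.coeff (j + 1)) +
          ((j : R) + 2) * g * P.coeff (j + 2) - (j : R) * P.coeff j +
            ((k + 1 : ℕ) : R) * P.coeff j) - γ * P.coeff (j + 1) := by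
        intro j
        rw [hP2, hd, Polynomial.coeff_sub, Polynomial.coeff_C_mul, Polynomial.coeff_C_mul,
          Polynomial.coeff_add, ZR_coeff, Polynomial.coeff_natCast_mul, Polynomial.coeff_X_mul]
      have hco0 : P2.coeff 0 = pr * (Z.d (P.coeff 0) + g * P.coeff 1) - γ * P.coeff 0 := by
        rw [hP2, hd, Polynomial.coeff_sub, Polynomial.coeff_C_mul, Polynomial.coeff_C_mul,
          Polynomial.coeff_add, ZR_coeff_zero, Polynomial.coeff_natCast_mul,
          Polynomial.coeff_X_mul_zero, mul_zero, add_zero]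
      have hdeg : P2.natDegree ≤ k := by
        rw [Polynomial.natDegree_le_iff_coeff_eq_zero]
        intro i hi
        obtain ⟨j, rfl⟩ : ∃ j, i = j + 1 := ⟨i - 1, by omega⟩
        rw [hco]
        rcases Nat.lt_or_ge k j with hkj | hkj
        · rw [hvan (j + 1) (by omega), hvan (j + 2) (by omega), Z.d.map_zero]
          rcases Nat.lt_or_ge (k + 1) j with h1 | h1
          · rw [hvan j h1]
            ring
          · have h2 : j = k + 1 := by omega
            subst h2
            ring
        · have h2 : j = k := by omega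
          subst h2
          rw [hvan (j + 2) (by omega), ← hpr, hγ]
          push_cast
          ring
      have hP20 : P2 ≠ 0 := by
        intro h
        have h1 : P ∣ Polynomial.C pr * dext Z.d (Polynomial.C g - Polynomial.X ^ 2) P := by
          refine ⟨Polynomial.C γ -
            Polynomial.C pr * (((k + 1 : ℕ) : Polynomial R) * Polynomial.X), ?_⟩
          rw [hP2, sub_eq_zero, hd] at h
          have h2 : Polynomial.C pr * dext Z.d (Polynomial.C g - Polynomial.X ^ 2) P =
              Polynomial.C pr * (dext Z.d (Polynomial.C g - Polynomial.X ^ 2) P +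
                ((k + 1 : ℕ) : Polynomial R) * (Polynomial.X * P)) -
              Polynomial.C pr *
                (((k + 1 : ℕ) : Polynomial R) * (Polynomial.X * P)) := by ring
          rw [h2, h]
          ring
        have h3 := hDL P hP0 pr hpr0 h1
        omega
      have hb1 : Z.B (n + (Z.c + c1)) (e + (Z.c + c1)) γ := by
        rw [hγ]
        refine Z.B_add ?_ ?_
        · rw [hpr]
          exact Z.B_mono (by omega) (by omega) (Z.B_d (hPB (k + 1)))
        · exact Z.B_mono (by omega) (by omega) (hPB k)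
      have hb3 : Z.B n e pr := by
        rw [hpr]
        exact hPB _
      have hB1 : ∀ i, Z.B (2 * n + (Z.c + c1)) (2 * e + (Z.c + c1)) (P2.coeff i) := by
        intro i
        rcases i with _ | j
        · rw [hco0]
          refine Zlin_sub Z ?_ ?_
          · refine Z.B_mono (n := n + (n + (Z.c + c1))) (e := e + (e + (Z.c + c1)))
              (by omega) (by omega) (Z.B_mul hb3 (Z.B_add ?_ ?_))
            · exact Z.B_mono (by omega) (by omega) (Z.B_d (hPB 0))
            · exact Z.B_mono (by omega) (by omega) (Z.B_mul hg (hPB 1))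
          · exact Z.B_mono (by omega) (by omega) (Z.B_mul hb1 (hPB 0))
        · rw [hco]
          refine Zlin_sub Z ?_ ?_
          · refine Z.B_mono (n := n + (n + (Z.c + c1))) (e := e + (e + (Z.c + c1)))
              (by omega) (by omega) (Z.B_mul hb3 (Z.B_add (Zlin_sub Z (Z.B_add ?_ ?_) ?_) ?_))
            · exact Z.B_mono (by omega) (by omega) (Z.B_d (hPB (j + 1)))
            · have e1 : ((j : R) + 2) * g * P.coeff (j + 2) =
                  ((j + 2 : ℕ) : R) * (g * P.coeff (j + 2)) := by
                push_cast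
                ring
              rw [e1]
              refine Zlin_nat Z ?_ _
              exact Z.B_mono (by omega) (by omega) (Z.B_mul hg (hPB (j + 2)))
            · refine Zlin_nat Z ?_ _
              exact Z.B_mono (by omega) (by omega) (hPB j)
            · refine Zlin_nat Z ?_ _
              exact Z.B_mono (by omega) (by omega) (hPB j)
          · exact Z.B_mono (by omega) (by omega) (Z.B_mul hb1 (hPB (j + 1)))
      obtain ⟨l, hl, h1⟩ := hC' (2 * n + (Z.c + c1)) P2 hdeg hB1 hP20
      have hnv : ¬ Van l (Z'.ev P) := by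
        intro hv
        apply h1
        have h2 : Z'.ev P2 = Z'.ev (Polynomial.C pr) * (del K (Z'.ev P) +
            Z'.ev (((k + 1 : ℕ) : Polynomial R) * Polynomial.X) * Z'.ev P) -
            Z'.ev (Polynomial.C γ) * Z'.ev P := by
          rw [hP2, ← mul_assoc ((k + 1 : ℕ) : Polynomial R), _root_.map_sub, _root_.map_mul,
            _root_.map_add, Z'.ev_d, _root_.map_mul, _root_.map_mul, _root_.map_mul]
        rw [h2]
        exact ((hv.del.add (hv.mul _)).mul _).sub (hv.mul _) l le_rfl
      unfold Van at hnv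
      push Not at hnv
      obtain ⟨l', hl', h3⟩ := hnv
      refine ⟨l', hl'.trans (hl.trans ?_), h3⟩
      rw [mul_assoc]
      refine Nat.mul_le_mul_left _ ?_
      nlinarith [Nat.zero_le n, Nat.zero_le (Z.c + c1), Nat.zero_le ((Z.c + c1) * n)]

theorem zest_ricG {K : Type*} [Field K] {R : Type*} [CommRing R] [IsDomain R] [CharZero R]
    (Z : ZD K R) (hZ : Z.Zest) (g : R) (c1 : ℕ) (hg : Z.B c1 c1 g)
    (hDL : ∀ P : Polynomial R, P ≠ 0 → ∀ c : R, c ≠ 0 →
      P ∣ Polynomial.C c * dext Z.d (Polynomial.C g - Polynomial.X ^ 2) P → P.natDegree = 0)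
    (Z' : ZD K (Polynomial R))
    (hd : Z'.d = dext Z.d (Polynomial.C g - Polynomial.X ^ 2))
    (hev : ∀ a, Z'.ev (Polynomial.C a) = Z.ev a)
    (hB : ∀ n e P, Z'.B n e P ↔ (P.natDegree ≤ e ∧ ∀ i, Z.B n e (P.coeff i))) :
    Z'.Zest := by
  intro e
  obtain ⟨C, hC⟩ := ZR_main Z hZ g c1 hg hDL Z' hd hev e e
  refine ⟨C, fun n r hr hr0 => ?_⟩
  obtain ⟨h1, h2⟩ := (hB n e r).1 hr
  exact hC n r h1 h2 hr0

end Pool.Agent.H85.OU
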