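import Pool.Agent.H85.OU.ZB
import Pool.Agent.H85.OU.ZR
import Pool.Agent.H85.OU.NAs
import Pool.Agent.H85.OU.NST
import Pool.Agent.H85.OU.NSa
import Pool.Agent.H85.OU.LFc
import Pool.Agent.H85.OT.Zest

/-!
# Row ZEA (project OU): the zero estimate, all levels

Same scheme as `OT/Zest.lean` (use `Zest_ext`, `Zest_coeff`, `Zest_deg` from there).  `k = κ + 2`; `LForm` gives `r, e`, `h : LD K r e`, `A = h.alg`, `φ1 = f U^(-k)`, `φ2 = dbl f U^(-k)` in `A`, with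
`IsDeg k (φ_i²)`.  Put `ψ1 = φ1`, `ψ2 = 2 φ2` in `A`, `g = λ(1-λ)/4 ∈ A`, `L = FractionRing A`, `ι : A → L`; `naset_of_LD` gives `D`, `NAset`, `hconst`.
1. `ns_all` in `L` for `ι ψ1, ι ψ2`: integrality from `NAset.int`; `hdeg`: `c1 ψ1 + c2 ψ2 = c1 φ1 + 2 c2 φ2`, `isDeg_sq_add` and constants give `IsDeg K k` in `K⟦X⟧`, the equation lies in `A` and maps to `L`;
   `hne`: `c1 f + 2 c2 dbl f ≠ 0` for `(c1, c2) ≠ 0`: let `m ≥ 1` be the order of `f` (`f_0 = 0`); coefficient `m` of `dbl f` is `0` (its order is `2m`), so `c1 f_m = 0`, `c1 = 0`; then `2 c2 dbl f = 0`, `c2 = 0`.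
2. `nst0`, `nst1`, `nst2` transfer to `A`.
3. Tower: `Z0` on `A` (`exists_ZB`); `Z1` on `A[z]` (`exists_ext` with `C g - X²`, `T = zz K`: `del zz = U^(-2) D zz = λ(1-λ)/4 - zz²` by `Dq_zz`, `λ(1-λ) = x²(1-x²)`; `Zest` by `zest_ricG`, `nst0`);
   `Z2` on `A[z][U1]` (`Zest_ext`, `α = C ψ1`, `β = bX κ`, `T1 = F1 U^(-κ)`: `del T1 = U^(-2)(f U^(-κ) - κ ε F1 U^(-κ)) = ψ1 - κ zz T1`); `Z3` on `A[z][U1][U2]` (`α = C (C ψ2)`, `β = C (bX κ)`,
   `T2 = F2 U^(-κ)`, `del T2 = ψ2 - κ zz T2`).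
4. Apply `Zest` of `Z3` at `e = L + 1` to `Q = ∑_j monomial j (∑_i monomial i (C (C-image of P i j (λ))))`: nonzero (`P(λ) ≠ 0` for `P ≠ 0`, `ord_lam`), `Z3.B n (L+1) Q` (last claim of `exists_ZB` and `B_mono`).
-/

open PowerSeries
open Pool.Agent.H85.OT

namespace Pool.Agent.H85.OU

private lemma ZEa_nat {K : Type*} [Field K] {R : Type*} [CommRing R] (Z : ZD K R) (m : ℕ) :
    Z.B 0 0 (m : R) := by
  induction m with
  | zero => simpa using Z.B_zero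
  | succ m ih =>
    rw [Nat.cast_succ]
    exact Z.B_add ih Z.B_one

private lemma ZEa_lam {K : Type*} [Field K] [CharZero K] (P : Polynomial K) (hP : P ≠ 0) :
    evl K P ≠ 0 := by
  intro h
  obtain ⟨l, -, hl⟩ := ord_lam (K := K) two_ne_zero P hP P.natDegree le_rfl
  apply hl
  unfold evl lam at h
  rw [h, map_zero]

/-- `δ (F U^(-κ)) = φ U^(-κ-2) - κ z F U^(-κ)` -/
private lemma ZEa_T {K : Type*} [Field K] (κ : ℕ) (hκ : 0 < κ) (F φ : K⟦X⟧) (hF : Dq K F = φ) :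
    OT.del K (F * (U K)⁻¹ ^ κ) = φ * (U K)⁻¹ ^ (κ + 2) + -((κ : K⟦X⟧) * zz K) * (F * (U K)⁻¹ ^ κ) := by
  obtain ⟨m, rfl⟩ : ∃ m, κ = m + 1 := ⟨κ - 1, by omega⟩
  have hU := U_mul_inv K
  -- the derivative of the inverse
  have h1 : Dq K ((U K)⁻¹) = -(ee K * (U K)⁻¹) := by
    have h2 : Dq K (U K * (U K)⁻¹) = 0 := by
      rw [hU]
      exact Derivation.map_one_eq_zero _
    rw [Derivation.leibniz, smul_eq_mul, smul_eq_mul, Dq_U] at h2
    have h3 : (U K)⁻¹ * (U K * Dq K ((U K)⁻¹) + (U K)⁻¹ * (ee K * U K)) = 0 := by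
      rw [h2, mul_zero]
    linear_combination h3 - (Dq K ((U K)⁻¹) + ee K * (U K)⁻¹) * hU
  have h2 : Dq K ((U K)⁻¹ ^ (m + 1)) = -(((m + 1 : ℕ) : K⟦X⟧) * ee K * (U K)⁻¹ ^ (m + 1)) := by
    rw [Derivation.leibniz_pow, h1, Nat.add_sub_cancel, nsmul_eq_mul, smul_eq_mul]
    ring
  rw [OT.del_apply, Derivation.leibniz, smul_eq_mul, smul_eq_mul, hF, h2]
  unfold zz
  ring

private lemma ZEa_smul {K : Type*} [Field K] {k : ℕ} (c : K) {y : K⟦X⟧}
    (hy : IsDeg K k (y ^ 2)) : IsDeg K k ((algebraMap K K⟦X⟧ c * y) ^ 2) := by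
  have h5 : (algebraMap K K⟦X⟧ c * y) ^ 2 = evl K (Polynomial.C (c ^ 2)) * y ^ 2 := by
    rw [evl, Polynomial.aeval_C, mul_pow, map_pow]
  have h6 := (IsDeg.of_evl (K := K) (n := 0) (Polynomial.C (c ^ 2))
    (Polynomial.natDegree_C _).le).mul hy
  rw [zero_add] at h6
  rw [h5]
  exact h6

/-- the order argument -/
private lemma ZEa_ne {K : Type*} [Field K] [CharZero K] {f : K⟦X⟧} (hne : f ≠ 0)
    (h0 : PowerSeries.coeff 0 f = 0) (c1 c2 : K) (hc : c1 ≠ 0 ∨ c2 ≠ 0) :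
    algebraMap K K⟦X⟧ c1 * f + algebraMap K K⟦X⟧ c2 * (2 * dbl K f) ≠ 0 := by
  classical
  intro h
  have hex : ∃ m, PowerSeries.coeff m f ≠ 0 := by
    by_contra hcon
    push Not at hcon
    exact hne (PowerSeries.ext fun n => by rw [hcon n, map_zero])
  obtain ⟨m, hm⟩ : ∃ m, m = Nat.find hex := ⟨_, rfl⟩
  have hm1 : PowerSeries.coeff m f ≠ 0 := by
    rw [hm]
    exact Nat.find_spec hex
  have hm2 : ∀ j < m, PowerSeries.coeff j f = 0 := by
    intro j hj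
    by_contra hcon
    exact Nat.find_min hex (by rw [← hm]; exact hj) hcon
  have hmpos : 0 < m := by
    rcases Nat.eq_zero_or_pos m with h1 | h1
    · rw [h1] at hm1
      exact absurd h0 hm1
    · exact h1
  have hcoef : ∀ n, c1 * PowerSeries.coeff n f + c2 * (2 * PowerSeries.coeff n (dbl K f)) = 0 := by
    intro n
    have h1 := congrArg (PowerSeries.coeff n) h
    rw [map_add, map_zero] at h1
    have h2 : ∀ (c : K) (g : K⟦X⟧), PowerSeries.coeff n (algebraMap K K⟦X⟧ c * g)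
        = c * PowerSeries.coeff n g := by
      intro c g
      rw [← Algebra.smul_def, PowerSeries.coeff_smul, smul_eq_mul]
    rw [h2, h2, two_mul, map_add, ← two_mul] at h1
    exact h1
  have hd : PowerSeries.coeff m (dbl K f) = 0 := by
    unfold dbl
    rw [PowerSeries.coeff_expand]
    split_ifs with h1
    · exact hm2 _ (by omega)
    · rfl
  have hc1 : c1 = 0 := by
    have h1 := hcoef m
    rw [hd, mul_zero, mul_zero, add_zero] at h1
    exact (mul_eq_zero.1 h1).resolve_right hm1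
  have hc2 : c2 = 0 := by
    have h1 := hcoef (2 * m)
    have h2 : PowerSeries.coeff (2 * m) (dbl K f) = PowerSeries.coeff m f := by
      unfold dbl
      exact PowerSeries.coeff_expand_mul 2 two_ne_zero f m
    rw [h2, hc1, zero_mul, zero_add] at h1
    exact (mul_eq_zero.1 h1).resolve_right (mul_ne_zero two_ne_zero hm1)
  rcases hc with hc | hc
  · exact hc hc1
  · exact hc hc2

private lemma ZEa_degA {K : Type} [Field K] {r : ℕ} {e : Fin r → K⟦X⟧} (h : LD K r e) {n : ℕ}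
    (z : h.alg) (hz : IsDeg K n (z : K⟦X⟧)) :
    IsDegA K (algebraMap h.alg (FractionRing h.alg) ⟨lam K, h.lam_mem⟩) n
      (algebraMap h.alg (FractionRing h.alg) z) := by
  obtain ⟨r', a, hr, ha, h0⟩ := hz
  refine ⟨r', a, hr, ha, ?_⟩
  obtain ⟨ℓA, hℓA⟩ : ∃ ℓA : h.alg, ℓA = ⟨lam K, h.lam_mem⟩ := ⟨_, rfl⟩
  rw [← hℓA]
  have hval : ((ℓA : h.alg) : K⟦X⟧) = lam K := by rw [hℓA]
  have haev : ∀ P : Polynomial K, ((Polynomial.aeval ℓA P : h.alg) : K⟦X⟧) =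
      Polynomial.aeval (lam K) P := by
    intro P
    rw [← hval]
    exact (Polynomial.aeval_algHom_apply h.alg.val ℓA P).symm
  have h1 : z ^ r' + ∑ m ∈ Finset.Icc 1 r', Polynomial.aeval ℓA (a m) * z ^ (r' - m) = 0 := by
    apply Subtype.ext
    rw [Subalgebra.coe_add, Subalgebra.coe_pow, Subalgebra.coe_zero]
    rw [← Subalgebra.val_apply, ← Subalgebra.val_apply, map_sum]
    simp only [map_mul, map_pow, Subalgebra.val_apply, haev]
    exact h0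
  have h2 := congrArg (algebraMap h.alg (FractionRing h.alg)) h1
  rw [map_add, map_pow, map_sum, map_zero] at h2
  rw [← h2]
  congr 1
  refine Finset.sum_congr rfl fun m _ => ?_
  rw [map_mul, map_pow, Polynomial.aeval_algebraMap_apply]

/-- the tower over an abstract ring -/
private lemma ZEa_tower {K : Type*} [Field K] [CharZero K] {A : Type*} [CommRing A] [IsDomain A]
    [CharZero A] (κ : ℕ) (Z0 : ZD K A) (hZ0 : Z0.Zest) (gA ψ1 ψ2 : A) (cg c1 c2 : ℕ)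
    (hcg : Z0.B cg cg gA) (hc1 : Z0.B c1 c1 ψ1) (hc2 : Z0.B c2 c2 ψ2)
    (hgev : (4 : K⟦X⟧) * Z0.ev gA = xx K ^ 2 * (1 - xx K ^ 2))
    (hn0 : ∀ P : Polynomial A, P ≠ 0 → ∀ c : A, c ≠ 0 →
      P ∣ Polynomial.C c * dext Z0.d (Polynomial.C gA - Polynomial.X ^ 2) P → P.natDegree = 0)
    (hn1 : NS (dext Z0.d (Polynomial.C gA - Polynomial.X ^ 2)) (Polynomial.C ψ1) (bX κ))
    (hn2 : NS (dext (dext Z0.d (Polynomial.C gA - Polynomial.X ^ 2))
        (Polynomial.C (Polynomial.C ψ1) + Polynomial.C (bX κ) * Polynomial.X))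
      (Polynomial.C (Polynomial.C ψ2)) (Polynomial.C (bX κ)))
    (T1 T2 : K⟦X⟧) (hT1 : OT.del K T1 = Z0.ev ψ1 + -((κ : K⟦X⟧) * zz K) * T1)
    (hT2 : OT.del K T2 = Z0.ev ψ2 + -((κ : K⟦X⟧) * zz K) * T2)
    (pA : Polynomial K → A) (hpB : ∀ (n : ℕ) (P : Polynomial K), P.natDegree ≤ n → Z0.B n 1 (pA P))
    (hp0 : ∀ P : Polynomial K, P ≠ 0 → pA P ≠ 0) (L : ℕ) :
    ∃ C : ℕ, ∀ (n : ℕ) (P : ℕ → ℕ → Polynomial K),
      (∀ i < L, ∀ j < L, (P i j).natDegree ≤ n) → (∃ i < L, ∃ j < L, P i j ≠ 0) →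
      ∃ l ≤ C * (n + 1), PowerSeries.coeff l
        (∑ i ∈ Finset.range L, ∑ j ∈ Finset.range L,
          Z0.ev (pA (P i j)) * T1 ^ i * T2 ^ j) ≠ 0 := by
  have two : (2 : K) ≠ 0 := two_ne_zero
  have hB00 : ∀ n e, Z0.B n e 0 := fun n e => Z0.B_mono (Nat.zero_le _) (Nat.zero_le _) Z0.B_zero
  -- Z1
  obtain ⟨Z1, hD1, hev1, hB1⟩ := exists_ext Z0 (Polynomial.C gA - Polynomial.X ^ 2)
    (by
      refine (Polynomial.natDegree_sub_le _ _).trans (max_le ?_ ?_)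
      · rw [Polynomial.natDegree_C]
        omega
      · exact (Polynomial.natDegree_X_pow_le 2)) cg
    (by
      intro i
      rw [Polynomial.coeff_sub, Polynomial.coeff_C, Polynomial.coeff_X_pow]
      rcases i with _ | _ | _ | i
      · simpa using hcg
      · simpa using hB00 cg cg
      · simpa using Z0.B_mono (Nat.zero_le _) (Nat.zero_le _) (Z0.B_neg Z0.B_one)
      · simpa using hB00 cg cg) (zz K)
    (by
      rw [Polynomial.eval₂_sub, Polynomial.eval₂_C, Polynomial.eval₂_pow, Polynomial.eval₂_X,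
        del_apply]
      have h3 := Dq_zz K two
      have h4 := Zest_inv (K := K)
      have h5 : (4 : K⟦X⟧) ≠ 0 := by
        have h8 : (4 : K⟦X⟧) = algebraMap K K⟦X⟧ 4 := (map_ofNat _ 4).symm
        rw [h8]
        intro h9
        have h10 : (4 : K) = 0 := (algebraMap K K⟦X⟧).injective (h9.trans (map_zero _).symm)
        have h11 : (4 : K) ≠ 0 := by norm_num
        exact h11 h10
      apply mul_left_cancel₀ h5
      rw [mul_sub, hgev]
      linear_combination (U K)⁻¹ ^ 2 * h3 + (xx K ^ 2 * (1 - xx K ^ 2) - 4 * zz K ^ 2) * h4)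
  have hZ1 : Z1.Zest := zest_ricG Z0 hZ0 gA cg hcg
    hn0 Z1 hD1
    (fun a => by rw [hev1, Polynomial.eval₂_C]) hB1
  -- values
  have hev1C : ∀ a, Z1.ev (Polynomial.C a) = Z0.ev a := by
    intro a
    rw [hev1, Polynomial.eval₂_C]
  have hevb : Z1.ev (bX κ) = -((κ : K⟦X⟧) * zz K) := by
    unfold bX
    rw [map_neg, map_mul, map_natCast, hev1 Polynomial.X, Polynomial.eval₂_X]
  have hBC : ∀ (n e : ℕ) (a : A), Z0.B n e a → Z1.B n e (Polynomial.C a) := by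
    intro n e a ha
    rw [hB1]
    refine ⟨by rw [Polynomial.natDegree_C]; omega, fun i => ?_⟩
    rw [Polynomial.coeff_C]
    split_ifs
    · exact ha
    · exact hB00 n e
  have hBb : Z1.B 1 1 (bX κ) := by
    rw [hB1]
    unfold bX
    refine ⟨?_, fun i => ?_⟩
    · rw [Polynomial.natDegree_neg]
      refine (Polynomial.natDegree_mul_le).trans ?_
      rw [Polynomial.natDegree_natCast]
      have := Polynomial.natDegree_X_le (R := A)
      omega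
    · rw [Polynomial.coeff_neg, ← Polynomial.C_eq_natCast, Polynomial.coeff_C_mul,
        Polynomial.coeff_X]
      refine Z0.B_neg ?_
      split_ifs
      · rw [mul_one]
        exact Z0.B_mono (Nat.zero_le _) (Nat.zero_le _) (ZEa_nat Z0 κ)
      · rw [mul_zero]
        exact hB00 1 1
  -- Z2
  obtain ⟨Z2, hZ2, hD2, hev2, hB2⟩ := Zest_ext Z1 hZ1 (Polynomial.C ψ1) (bX κ) (c1 + 1)
    (hBC _ _ _ (Z0.B_mono (Nat.le_succ _) (Nat.le_succ _) hc1))
    (Z1.B_mono (by omega) (by omega) hBb)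
    (by rw [hD1]; exact hn1) T1
    (by rw [hev1C, hevb]; exact hT1)
  rw [hD1] at hD2
  have hB2C : ∀ (n e : ℕ) (a : Polynomial A), Z1.B n e a → Z2.B n e (Polynomial.C a) := by
    intro n e a ha
    rw [hB2]
    refine ⟨by rw [Polynomial.natDegree_C]; omega, fun i => ?_⟩
    rw [Polynomial.coeff_C]
    split_ifs
    · exact ha
    · exact Z1.B_mono (Nat.zero_le _) (Nat.zero_le _) Z1.B_zero
  have hev2C : ∀ a, Z2.ev (Polynomial.C a) = Z1.ev a := fun a => by rw [hev2, Polynomial.eval₂_C]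
  -- Z3
  obtain ⟨Z3, hZ3, hD3, hev3, hB3⟩ := Zest_ext Z2 hZ2 (Polynomial.C (Polynomial.C ψ2))
    (Polynomial.C (bX κ)) (c2 + 1)
    (hB2C _ _ _ (hBC _ _ _ (Z0.B_mono (Nat.le_succ _) (Nat.le_succ _) hc2)))
    (hB2C _ _ _ (Z1.B_mono (by omega) (by omega) hBb))
    (by rw [hD2]; exact hn2) T2
    (by rw [hev2C, hev2C, hev1C, hevb]; exact hT2)
  obtain ⟨C, hC⟩ := hZ3 (L + 1)
  refine ⟨C, ?_⟩
  intro n P hPn hP0
  obtain ⟨Q, hQ⟩ : ∃ Q : Polynomial (Polynomial (Polynomial A)),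
    Q = ∑ j ∈ Finset.range L, Polynomial.monomial j
      (∑ i ∈ Finset.range L, Polynomial.monomial i (Polynomial.C (pA (P i j)))) := ⟨_, rfl⟩
  have hQB : Z3.B n (L + 1) Q := by
    rw [hB3, hQ]
    refine ⟨(Zest_deg _ L).trans (Nat.le_succ _), fun j => ?_⟩
    rw [Zest_coeff]
    split_ifs with hj
    · rw [hB2]
      refine ⟨(Zest_deg _ L).trans (Nat.le_succ _), fun i => ?_⟩
      rw [Zest_coeff]
      split_ifs with hi
      · refine hBC _ _ _ ?_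
        exact Z0.B_mono le_rfl (by omega) (hpB n (P i j) (hPn i hi j hj))
      · exact Z1.B_mono (Nat.zero_le _) (Nat.zero_le _) Z1.B_zero
    · exact Z2.B_mono (Nat.zero_le _) (Nat.zero_le _) Z2.B_zero
  have hQ0 : Q ≠ 0 := by
    obtain ⟨i, hi, j, hj, hij⟩ := hP0
    intro h0'
    have h3 : (Q.coeff j).coeff i = 0 := by
      rw [h0', Polynomial.coeff_zero, Polynomial.coeff_zero]
    have h4 : (Q.coeff j).coeff i = Polynomial.C (pA (P i j)) := by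
      rw [hQ]
      have e1 := Zest_coeff (fun j => ∑ i ∈ Finset.range L,
        Polynomial.monomial i (Polynomial.C (pA (P i j)))) L j
      rw [if_pos hj] at e1
      have e2 := Zest_coeff (fun i => Polynomial.C (pA (P i j))) L i
      rw [if_pos hi] at e2
      exact (congrArg (fun q => Polynomial.coeff q i) e1).trans e2
    have h5 : pA (P i j) = 0 :=
      Polynomial.C_injective ((h4.symm.trans h3).trans Polynomial.C_0.symm)
    exact hp0 _ hij h5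
  have hQev : Z3.ev Q = ∑ i ∈ Finset.range L, ∑ j ∈ Finset.range L,
      Z0.ev (pA (P i j)) * T1 ^ i * T2 ^ j := by
    rw [hev3, hQ, Polynomial.eval₂_finsetSum, Finset.sum_comm]
    refine Finset.sum_congr rfl fun j _ => ?_
    rw [Polynomial.eval₂_monomial, hev2, Polynomial.eval₂_finsetSum, Finset.sum_mul]
    refine Finset.sum_congr rfl fun i _ => ?_
    rw [Polynomial.eval₂_monomial, hev1C]
  rw [← hQev]
  exact hC n Q hQB hQ0

theorem ze_all {K : Type} [Field K] [CharZero K] [IsAlgClosed K] (κ : ℕ) (hκ : 0 < κ)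
    (f : K⟦X⟧) (hf : LForm K (κ + 2) f) (hne : f ≠ 0) (h0 : PowerSeries.coeff 0 f = 0)
    (F1 F2 : K⟦X⟧) (h1 : Dq K F1 = f) (h2 : Dq K F2 = 2 * dbl K f) (L : ℕ) :
    ∃ C : ℕ, ∀ (n : ℕ) (P : ℕ → ℕ → Polynomial K),
      (∀ i < L, ∀ j < L, (P i j).natDegree ≤ n) → (∃ i < L, ∃ j < L, P i j ≠ 0) →
      ∃ l ≤ C * (n + 1), PowerSeries.coeff l
        (∑ i ∈ Finset.range L, ∑ j ∈ Finset.range L,
          evl K (P i j) * (F1 * (U K)⁻¹ ^ κ) ^ i * (F2 * (U K)⁻¹ ^ κ) ^ j) ≠ 0 := by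
  have two : (2 : K) ≠ 0 := two_ne_zero
  obtain ⟨r, e, h, hf1, hf2, hd1, hd2⟩ := hf
  obtain ⟨D, hD, hNA, hconst⟩ := naset_of_LD h
  obtain ⟨ψ1, hψ1⟩ : ∃ ψ1 : h.alg, (ψ1 : K⟦X⟧) = f * (U K)⁻¹ ^ (κ + 2) := ⟨⟨_, hf1⟩, rfl⟩
  obtain ⟨φ2, hφ2⟩ : ∃ φ2 : h.alg, (φ2 : K⟦X⟧) = dbl K f * (U K)⁻¹ ^ (κ + 2) := ⟨⟨_, hf2⟩, rfl⟩
  obtain ⟨ψ2, hψ2⟩ : ∃ ψ2 : h.alg, ψ2 = 2 * φ2 := ⟨_, rfl⟩
  have hψ2' : (ψ2 : K⟦X⟧) = 2 * dbl K f * (U K)⁻¹ ^ (κ + 2) := by
    rw [hψ2, Subalgebra.coe_mul, hφ2]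
    have : ((2 : h.alg) : K⟦X⟧) = 2 := rfl
    rw [this, mul_assoc]
  obtain ⟨ℓA, hℓA⟩ : ∃ ℓA : h.alg, ℓA = ⟨lam K, h.lam_mem⟩ := ⟨_, rfl⟩
  have hℓv : ((ℓA : h.alg) : K⟦X⟧) = lam K := by rw [hℓA]
  obtain ⟨gA, hgA⟩ : ∃ gA : h.alg, gA = algebraMap K h.alg (1 / 4) * (ℓA * (1 - ℓA)) := ⟨_, rfl⟩
  have hι : Function.Injective (algebraMap h.alg (FractionRing h.alg)) :=
    IsFractionRing.injective _ _
  have hL0 : CharZero (FractionRing h.alg) :=
    charZero_of_injective_algebraMap (algebraMap K (FractionRing h.alg)).injective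
  have hA0 : CharZero h.alg := charZero_of_injective_algebraMap (algebraMap K h.alg).injective
  have hιK : ∀ c : K, algebraMap h.alg (FractionRing h.alg) (algebraMap K h.alg c) =
      algebraMap K (FractionRing h.alg) c := fun c =>
    (IsScalarTower.algebraMap_apply K h.alg (FractionRing h.alg) c).symm
  have hιg : algebraMap h.alg (FractionRing h.alg) gA =
      algebraMap h.alg (FractionRing h.alg) ℓA *
        (1 - algebraMap h.alg (FractionRing h.alg) ℓA) / 4 := by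
    rw [hgA, map_mul, map_mul, map_sub, map_one, hιK, map_div₀, map_one, map_ofNat]
    ring
  rw [← hℓA] at hNA
  -- the non-solvability in the fraction field
  have hcomb : ∀ c1 c2 : K, algebraMap K (FractionRing h.alg) c1 *
      algebraMap h.alg (FractionRing h.alg) ψ1 + algebraMap K (FractionRing h.alg) c2 *
      algebraMap h.alg (FractionRing h.alg) ψ2 = algebraMap h.alg (FractionRing h.alg)
        (algebraMap K h.alg c1 * ψ1 + algebraMap K h.alg c2 * ψ2) := by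
    intro c1 c2
    rw [map_add, map_mul, map_mul, hιK, hιK]
  have hcoe : ∀ c1 c2 : K, ((algebraMap K h.alg c1 * ψ1 + algebraMap K h.alg c2 * ψ2 : h.alg) :
      K⟦X⟧) = algebraMap K K⟦X⟧ c1 * (f * (U K)⁻¹ ^ (κ + 2)) +
        algebraMap K K⟦X⟧ (2 * c2) * (dbl K f * (U K)⁻¹ ^ (κ + 2)) := by
    intro c1 c2
    have e1 : ((algebraMap K h.alg c1 * ψ1 + algebraMap K h.alg c2 * ψ2 : h.alg) :
      K⟦X⟧) = algebraMap K K⟦X⟧ c1 * (ψ1 : K⟦X⟧) + algebraMap K K⟦X⟧ c2 * (ψ2 : K⟦X⟧) := rfl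
    rw [e1, hψ1, hψ2', map_mul, map_ofNat]
    ring
  have hall := ns_all hNA hconst κ hκ (algebraMap h.alg (FractionRing h.alg) ψ1)
    (algebraMap h.alg (FractionRing h.alg) ψ2) (hNA.int _ ⟨ψ1, rfl⟩) (hNA.int _ ⟨ψ2, rfl⟩)
    (by
      intro c1 c2
      rw [hcomb, ← map_pow, hℓA]
      refine ZEa_degA h _ ?_
      rw [Subalgebra.coe_pow, hcoe]
      exact isDeg_sq_add (ZEa_smul c1 hd1) (ZEa_smul (2 * c2) hd2))
    (by
      intro c1 c2 hc h3
      rw [hcomb] at h3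
      have h4 := hι (h3.trans (map_zero _).symm)
      have h5 := hcoe c1 c2
      rw [h4] at h5
      have h6 : (algebraMap K K⟦X⟧ c1 * f + algebraMap K K⟦X⟧ c2 * (2 * dbl K f)) *
          (U K)⁻¹ ^ (κ + 2) = 0 := by
        rw [map_mul, map_ofNat] at h5
        have h7 : ((0 : h.alg) : K⟦X⟧) = 0 := rfl
        rw [h7] at h5
        rw [h5]
        ring
      have h7 : (U K)⁻¹ ^ (κ + 2) ≠ 0 := by
        refine pow_ne_zero _ ?_
        intro h8
        have h9 := U_mul_inv K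
        rw [h8, mul_zero] at h9
        exact zero_ne_one h9
      exact ZEa_ne hne h0 c1 c2 hc ((mul_eq_zero.1 h6).resolve_right h7))
  obtain ⟨hDL, hns1, hns2⟩ := hall
  rw [← hιg] at hDL hns1 hns2
  have hn0 := nst0 (algebraMap h.alg (FractionRing h.alg)) hι h.dA D hD gA hDL
  have hn1 := nst1 (algebraMap h.alg (FractionRing h.alg)) hι h.dA D hD gA ψ1 κ hns1
  have hn2 := nst2 (algebraMap h.alg (FractionRing h.alg)) hι h.dA D hD gA ψ1 ψ2 κ hns2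
  -- the tower
  obtain ⟨Z0, hZ0, hD0, hev0, hBc, hBP⟩ := exists_ZB h
  obtain ⟨cg, hcg⟩ := hBc gA
  obtain ⟨c1, hc1⟩ := hBc ψ1
  obtain ⟨c2, hc2⟩ := hBc ψ2
  have hgev : (4 : K⟦X⟧) * Z0.ev gA = xx K ^ 2 * (1 - xx K ^ 2) := by
    rw [hev0, hgA]
    have e1 : ((algebraMap K h.alg (1 / 4) * (ℓA * (1 - ℓA)) : h.alg) : K⟦X⟧) =
        algebraMap K K⟦X⟧ (1 / 4) * ((ℓA : K⟦X⟧) * (1 - (ℓA : K⟦X⟧))) := rfl
    rw [e1, hℓv]
    have h7 : (4 : K⟦X⟧) * algebraMap K K⟦X⟧ (1 / 4) = 1 := by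
      have h8 : (4 : K⟦X⟧) = algebraMap K K⟦X⟧ 4 := (map_ofNat _ 4).symm
      rw [h8, ← map_mul]
      norm_num
    unfold lam
    linear_combination (xx K ^ 2 * (1 - xx K ^ 2)) * h7
  rw [← hD0] at hn0 hn1 hn2
  obtain ⟨pA, hpA⟩ : ∃ pA : Polynomial K → h.alg, ∀ Q, ((pA Q : h.alg) : K⟦X⟧) = evl K Q :=
    ⟨fun Q => ⟨evl K Q, h.evl_mem Q⟩, fun Q => rfl⟩
  obtain ⟨C, hC⟩ := ZEa_tower κ Z0 hZ0 gA ψ1 ψ2 cg c1 c2 hcg hc1 hc2 hgev hn0 hn1 hn2
    (F1 * (U K)⁻¹ ^ κ) (F2 * (U K)⁻¹ ^ κ)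
    (by rw [hev0, hψ1]; exact ZEa_T κ hκ F1 f h1)
    (by rw [hev0, hψ2']; exact ZEa_T κ hκ F2 (2 * dbl K f) h2) pA
    (fun n P hP => hBP n P _ hP (hpA P))
    (fun P hP h0' => ZEa_lam P hP (by rw [← hpA P, h0']; rfl)) L
  refine ⟨C, fun n P hPn hP0 => ?_⟩
  obtain ⟨l, hl, hl0⟩ := hC n P hPn hP0
  refine ⟨l, hl, ?_⟩
  have e1 : ∀ Q : Polynomial K, Z0.ev (pA Q) = evl K Q := fun Q => by rw [hev0, hpA]
  simp only [e1] at hl0
  exact hl0

end Pool.Agent.H85.OU
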