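import Pool.Agent.H85.OU.UC
import Pool.Agent.H85.OU.ZEa

/-!
# Row ILA (project OU): the zero estimate for `PhiL`

Same as `OT/Cze.lean`.  `κ = k - 2 ≥ 1`, `Ω = AlgebraicClosure ℚ`, `φ = algebraMap ℚ Ω`.  `LForm.map` gives `LForm Ω k (map φ f_ℚ)`, `f_ℚ = map f ≠ 0`, coefficient `0` zero.
`D F1 = f_ℚ` (coefficient `n`: `n * (a_n/n)`), `D F2 = 2 dbl f_ℚ`; map to `Ω`.  `ze_all` gives `C`.
Let `t ≠ 0`, `P i j = ∑_e t_(i,j,e) X^e` (degree `≤ n`, not all `0`).  Then `PhiL = U^(2n + 2κL) ∑ P i j (λ) (F1 U^(-κ))^i (F2 U^(-κ))^j`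
(`U² - V² = U² λ`; exponents `2n - 2e + κ(2L-i-j) + 2e = 2n + 2κL - κ i - κ j`, `e ≤ n`, `i + j ≤ 2L`).
If all coefficients `≤ C(n+1)` of `PhiL` vanish, so do those of `U^(-(2n+2κL)) PhiL`, and those of its image in `Ω⟦X⟧` (`map_evl`, `map_Uinv`), contradiction.
-/

open PowerSeries
open Pool.Agent.H85.OT

namespace Pool.Agent.H85.OU

private theorem ILa_dbl (F : ℚ⟦X⟧) (n : ℕ) : PowerSeries.coeff n (dbl ℚ F) =
    if 2 ∣ n then PowerSeries.coeff (n / 2) F else 0 := by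
  unfold dbl
  exact PowerSeries.coeff_expand _ _ _

private theorem ILa_Ddbl (F : ℚ⟦X⟧) : Dq ℚ (dbl ℚ F) = 2 * dbl ℚ (Dq ℚ F) := by
  ext n
  have h2 : (2 : ℚ⟦X⟧) = PowerSeries.C (2 : ℚ) := (map_ofNat PowerSeries.C 2).symm
  rw [coeff_Dq, h2, PowerSeries.coeff_C_mul, ILa_dbl, ILa_dbl]
  split_ifs with h
  · obtain ⟨m, rfl⟩ := h
    rw [coeff_Dq, Nat.mul_div_cancel_left m (by norm_num)]
    push_cast
    ring
  · ring

private theorem ILa_DF1 {f : ℤ⟦X⟧} (h0 : PowerSeries.coeff 0 f = 0) :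
    Dq ℚ (F1 f) = PowerSeries.map (Int.castRingHom ℚ) f := by
  ext n
  rw [coeff_Dq, F1, PowerSeries.coeff_mk, PowerSeries.coeff_map]
  rcases Nat.eq_zero_or_pos n with rfl | hn
  · rw [h0]
    simp
  · have hn' : (n : ℚ) ≠ 0 := by exact_mod_cast hn.ne'
    show (n : ℚ) * (((PowerSeries.coeff n f : ℤ) : ℚ) / n) = ((PowerSeries.coeff n f : ℤ) : ℚ)
    field_simp

private theorem ILa_inj {f : ℤ⟦X⟧} (hne : f ≠ 0) :
    PowerSeries.map (Int.castRingHom ℚ) f ≠ 0 := by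
  intro h
  apply hne
  ext n
  have h1 := congrArg (PowerSeries.coeff n) h
  rw [PowerSeries.coeff_map, map_zero] at h1
  rw [map_zero]
  have h2 : ((PowerSeries.coeff n f : ℤ) : ℚ) = 0 := h1
  exact_mod_cast h2

private theorem ILa_map_inj {K K' : Type*} [Field K] [Field K'] (φ : K →+* K') {g : K⟦X⟧}
    (hg : g ≠ 0) : PowerSeries.map φ g ≠ 0 := by
  intro h
  apply hg
  ext n
  have h1 := congrArg (PowerSeries.coeff n) h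
  rw [PowerSeries.coeff_map, map_zero] at h1
  rw [map_zero]
  exact (map_eq_zero φ).1 h1

private theorem ILa_lam : U ℚ ^ 2 - V ℚ ^ 2 = U ℚ ^ 2 * lam ℚ := by
  unfold lam
  linear_combination (xx ℚ * U ℚ + V ℚ) * xx_mul_U ℚ

private theorem ILa_GG (f : ℤ⟦X⟧) (κ L n : ℕ) (s : Fin L × Fin L × Fin (n + 1)) :
    GGl f κ L n s = U ℚ ^ (2 * n + 2 * κ * L) * (lam ℚ ^ (s.2.2 : ℕ) *
      (F1 f * (U ℚ)⁻¹ ^ κ) ^ (s.1 : ℕ) * (F2 f * (U ℚ)⁻¹ ^ κ) ^ (s.2.1 : ℕ)) := by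
  obtain ⟨i, j, e⟩ := s
  have hi := i.2
  have hj := j.2
  have he := e.2
  unfold GGl
  show U ℚ ^ (2 * n - 2 * (e : ℕ) + κ * (2 * L - (i : ℕ) - (j : ℕ))) *
    (U ℚ ^ 2 - V ℚ ^ 2) ^ (e : ℕ) *
    F1 f ^ (i : ℕ) * F2 f ^ (j : ℕ) = U ℚ ^ (2 * n + 2 * κ * L) * (lam ℚ ^ (e : ℕ) *
      (F1 f * (U ℚ)⁻¹ ^ κ) ^ (i : ℕ) * (F2 f * (U ℚ)⁻¹ ^ κ) ^ (j : ℕ))
  obtain ⟨m, hm⟩ : ∃ m, 2 * L - (i : ℕ) - (j : ℕ) = m := ⟨_, rfl⟩
  have hE : 2 * L = m + i + j := by omega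
  obtain ⟨q, hq⟩ : ∃ q, 2 * n - 2 * (e : ℕ) = q := ⟨_, rfl⟩
  have hq2 : 2 * n = q + 2 * e := by omega
  have h1 : 2 * n + 2 * κ * L = q + κ * m + 2 * e + κ * i + κ * j := by
    have h2 : 2 * n + 2 * κ * L = 2 * n + κ * (2 * L) := by ring
    rw [h2, hE, hq2]
    ring
  rw [hm, hq, h1, ILa_lam, mul_pow, mul_pow, mul_pow, ← pow_mul, ← pow_mul, ← pow_mul,
    pow_add (U ℚ) (q + κ * m + 2 * e + κ * i), pow_add (U ℚ) (q + κ * m + 2 * e),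
    pow_add (U ℚ) (q + κ * m)]
  have h2 : U ℚ ^ (κ * (i : ℕ)) * (U ℚ)⁻¹ ^ (κ * (i : ℕ)) = 1 := by
    rw [← mul_pow, U_mul_inv, one_pow]
  have h3 : U ℚ ^ (κ * (j : ℕ)) * (U ℚ)⁻¹ ^ (κ * (j : ℕ)) = 1 := by
    rw [← mul_pow, U_mul_inv, one_pow]
  have h4 : U ℚ ^ (q + κ * m) * U ℚ ^ (2 * (e : ℕ)) * U ℚ ^ (κ * (i : ℕ)) *
      U ℚ ^ (κ * (j : ℕ)) *
      (lam ℚ ^ (e : ℕ) * (F1 f ^ (i : ℕ) * (U ℚ)⁻¹ ^ (κ * (i : ℕ))) *
        (F2 f ^ (j : ℕ) * (U ℚ)⁻¹ ^ (κ * (j : ℕ)))) =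
      U ℚ ^ (q + κ * m) * (U ℚ ^ (2 * (e : ℕ)) * lam ℚ ^ (e : ℕ)) * F1 f ^ (i : ℕ) *
        F2 f ^ (j : ℕ) *
        ((U ℚ ^ (κ * (i : ℕ)) * (U ℚ)⁻¹ ^ (κ * (i : ℕ))) *
          (U ℚ ^ (κ * (j : ℕ)) * (U ℚ)⁻¹ ^ (κ * (j : ℕ)))) := by ring
  rw [h4, h2, h3, mul_one, mul_one]

/-- the polynomials -/
private noncomputable def ILa_P {E n : ℕ} (t : Fin E × Fin E × Fin (n + 1) → ℤ) (i j : ℕ) :
    Polynomial ℚ :=
  if h : i < E ∧ j < E then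
    ∑ e : Fin (n + 1), Polynomial.monomial (e : ℕ) ((t (⟨i, h.1⟩, ⟨j, h.2⟩, e) : ℤ) : ℚ)
  else 0

private theorem ILa_P_eq {E n : ℕ} (t : Fin E × Fin E × Fin (n + 1) → ℤ) (i j : Fin E) :
    ILa_P t i j = ∑ e : Fin (n + 1), Polynomial.monomial (e : ℕ) ((t (i, j, e) : ℤ) : ℚ) := by
  unfold ILa_P
  rw [dif_pos ⟨i.2, j.2⟩]

private theorem ILa_P_deg {E n : ℕ} (t : Fin E × Fin E × Fin (n + 1) → ℤ) (i j : ℕ) :
    (ILa_P t i j).natDegree ≤ n := by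
  unfold ILa_P
  split_ifs with h
  · refine Polynomial.natDegree_sum_le_of_forall_le _ _ (fun e _ => ?_)
    exact (Polynomial.natDegree_monomial_le _).trans (Nat.lt_succ_iff.1 e.2)
  · rw [Polynomial.natDegree_zero]
    exact Nat.zero_le _

private theorem ILa_P_coeff {E n : ℕ} (t : Fin E × Fin E × Fin (n + 1) → ℤ) (i j : Fin E)
    (e : Fin (n + 1)) : (ILa_P t i j).coeff e = ((t (i, j, e) : ℤ) : ℚ) := by
  rw [ILa_P_eq, Polynomial.finsetSum_coeff, Finset.sum_eq_single e]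
  · rw [Polynomial.coeff_monomial, if_pos rfl]
  · intro b _ hb
    rw [Polynomial.coeff_monomial, if_neg (fun h => hb (Fin.ext h))]
  · intro h
    exact absurd (Finset.mem_univ _) h

private theorem ILa_Phi (f : ℤ⟦X⟧) (κ L n : ℕ) (t : Fin L × Fin L × Fin (n + 1) → ℤ) :
    PhiL f κ L n t = U ℚ ^ (2 * n + 2 * κ * L) * ∑ i ∈ Finset.range L, ∑ j ∈ Finset.range L,
      evl ℚ (ILa_P t i j) * (F1 f * (U ℚ)⁻¹ ^ κ) ^ i *
        (F2 f * (U ℚ)⁻¹ ^ κ) ^ j := by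
  unfold PhiL
  rw [Finset.sum_range, Finset.mul_sum, Fintype.sum_prod_type]
  refine Finset.sum_congr rfl fun i _ => ?_
  rw [Finset.sum_range, Finset.mul_sum, Fintype.sum_prod_type]
  refine Finset.sum_congr rfl fun j _ => ?_
  rw [ILa_P_eq, map_sum, Finset.sum_mul, Finset.sum_mul, Finset.mul_sum]
  refine Finset.sum_congr rfl fun e _ => ?_
  rw [ILa_GG, Polynomial.aeval_monomial]
  show PowerSeries.C ((t (i, j, e) : ℤ) : ℚ) * _ = _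
  have h1 : algebraMap ℚ ℚ⟦X⟧ ((t (i, j, e) : ℤ) : ℚ) = PowerSeries.C ((t (i, j, e) : ℤ) : ℚ) :=
    rfl
  rw [h1]
  ring

theorem ze_phiL (f : ℤ⟦X⟧) (k : ℕ) (hk : 3 ≤ k)
    (hf : LForm ℚ k (PowerSeries.map (Int.castRingHom ℚ) f)) (hne : f ≠ 0)
    (h0 : PowerSeries.coeff 0 f = 0) (L : ℕ) :
    ∃ C : ℕ, ∀ (n : ℕ) (t : Fin L × Fin L × Fin (n + 1) → ℤ), t ≠ 0 →
      ∃ l ≤ C * (n + 1), PowerSeries.coeff l (PhiL f (k - 2) L n t) ≠ 0 := by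
  obtain ⟨κ, hκ⟩ : ∃ κ, k - 2 = κ := ⟨_, rfl⟩
  rw [hκ]
  obtain rfl : k = κ + 2 := by omega
  obtain ⟨φ, hφ⟩ : ∃ φ : ℚ →+* AlgebraicClosure ℚ, φ = algebraMap ℚ (AlgebraicClosure ℚ) :=
    ⟨_, rfl⟩
  have hne' := ILa_map_inj φ (ILa_inj hne)
  have h0' : PowerSeries.coeff 0 (PowerSeries.map φ (PowerSeries.map (Int.castRingHom ℚ) f)) =
      0 := by
    rw [PowerSeries.coeff_map, PowerSeries.coeff_map, h0, map_zero, map_zero]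
  have hD1 : Dq (AlgebraicClosure ℚ) (PowerSeries.map φ (F1 f)) =
      PowerSeries.map φ (PowerSeries.map (Int.castRingHom ℚ) f) := by
    rw [← LFc_map_Dq, ILa_DF1 h0]
  have hD2 : Dq (AlgebraicClosure ℚ) (PowerSeries.map φ (F2 f)) =
      2 * dbl (AlgebraicClosure ℚ)
        (PowerSeries.map φ (PowerSeries.map (Int.castRingHom ℚ) f)) := by
    rw [← LFc_map_Dq, F2, ILa_Ddbl, ILa_DF1 h0, map_mul, map_ofNat, map_dbl]
  obtain ⟨C, hC⟩ := ze_all (K := AlgebraicClosure ℚ) κ (by omega) _ (hf.map φ) hne' h0'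
    _ _ hD1 hD2 L
  refine ⟨C, fun n t ht => ?_⟩
  obtain ⟨⟨i, j, e⟩, hs⟩ : ∃ s, t s ≠ 0 := by
    by_contra hcon
    push Not at hcon
    exact ht (funext hcon)
  obtain ⟨l, hl, h3⟩ := hC n (fun i j => (ILa_P t i j).map φ)
    (fun i _ j _ => Polynomial.natDegree_map_le.trans (ILa_P_deg t i j))
    ⟨i, i.2, j, j.2, by
      intro h4
      have h5 := ILa_P_coeff t i j e
      have h6 : (ILa_P t i j).map φ = 0 := h4
      have h7 : ILa_P t i j = 0 := (Polynomial.map_eq_zero φ).1 h6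
      rw [h7, Polynomial.coeff_zero] at h5
      exact hs (by exact_mod_cast h5.symm)⟩
  by_contra hcon
  push Not at hcon
  have hvan : Van l (PhiL f κ L n t) := fun l' hl' => hcon l' (hl'.trans hl)
  have hI : (U ℚ)⁻¹ ^ (2 * n + 2 * κ * L) * U ℚ ^ (2 * n + 2 * κ * L) = 1 := by
    rw [← mul_pow, mul_comm (U ℚ)⁻¹, U_mul_inv, one_pow]
  have h7 := hvan.mul ((U ℚ)⁻¹ ^ (2 * n + 2 * κ * L))
  rw [ILa_Phi, ← mul_assoc, hI, one_mul] at h7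
  have h8 : ∑ i ∈ Finset.range L, ∑ j ∈ Finset.range L,
      evl (AlgebraicClosure ℚ) ((ILa_P t i j).map φ) *
        (PowerSeries.map φ (F1 f) * (U (AlgebraicClosure ℚ))⁻¹ ^ κ) ^ i *
        (PowerSeries.map φ (F2 f) * (U (AlgebraicClosure ℚ))⁻¹ ^ κ) ^ j =
      PowerSeries.map φ (∑ i ∈ Finset.range L, ∑ j ∈ Finset.range L,
        evl ℚ (ILa_P t i j) * (F1 f * (U ℚ)⁻¹ ^ κ) ^ i * (F2 f * (U ℚ)⁻¹ ^ κ) ^ j) := by
    rw [map_sum]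
    refine Finset.sum_congr rfl fun i _ => ?_
    rw [map_sum]
    refine Finset.sum_congr rfl fun j _ => ?_
    rw [map_mul, map_mul, map_pow, map_pow, map_mul, map_mul, map_pow, map_Uinv, map_evl]
  have h9 := h3
  rw [h8, PowerSeries.coeff_map, h7 l le_rfl, map_zero] at h9
  exact h9 rfl

end Pool.Agent.H85.OU
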