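import Pool.Agent.H85.OU.UC
import Pool.Agent.H85.OT.Cbd
import Pool.Agent.H85.OT.Cden
import Pool.Agent.H85.OT.Csieg

/-!
# Row ILB (project OU): bounds, denominators, Siegel's lemma for `PhiL`

Same as rows CBD (`GG_bd`), CDEN (`den_GG`), CSIEG (`siegel_phi`); files `OT/Cbd.lean`, `OT/Cden.lean`, `OT/Csieg.lean`: copy and adapt.
* `GGl_bd`: `U`, `V` have bound `MR ρ ≥ 1` (`Bd_U`, `Bd_V`), so `U² - V²` has bound `2 MR² ≤ (2 MR)²` and `U` has bound `2 MR`; `GGl` has bound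
  `(2MR)^(2n - 2e + κ(2L-i-j)) (2MR)^(2e) B^(i+j) ≤ (2MR)^(2n+2κL) B^(2L)`.
* `den_GGl`: `CdenI` calculus: `U`, `V`, `U² - V²` (images of integral series) are `(Y, 0)`-integral, `F1, F2` `(Y, 1)`-integral.
* `siegel_phiL`: exactly as `siegel_phi` with the bound `Q = Z0^(2L) (2MR)^(2n+2κL) B^(2L) ρ^(-T)`.
-/

open PowerSeries
open Pool.Agent.H85.OT

namespace Pool.Agent.H85.OU

private theorem ILb_mono {ρ A B : ℝ} {g : ℚ⟦X⟧} (hg : Bd ρ A g) (h : A ≤ B) : Bd ρ B g :=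
  fun N => (hg N).trans h

private theorem ILb_neg {ρ A : ℝ} {g : ℚ⟦X⟧} (hg : Bd ρ A g) : Bd ρ A (-g) := by
  intro N
  refine le_trans (le_of_eq ?_) (hg N)
  refine Finset.sum_congr rfl fun n _ => ?_
  rw [map_neg, Rat.cast_neg, abs_neg]

private theorem ILb_MR {ρ : ℝ} (hρ : 0 < ρ) (hρ1 : ρ < 1) : 1 ≤ MR ρ := by
  unfold MR
  rw [le_div_iff₀ (by nlinarith)]
  nlinarith

theorem GGl_bd (f : ℤ⟦X⟧) (κ L n : ℕ) (s : Fin L × Fin L × Fin (n + 1)) {ρ B : ℝ}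
    (hρ : 0 < ρ) (hρ1 : ρ < 1) (hB : 1 ≤ B) (h1 : Bd ρ B (F1 f)) (h2 : Bd ρ B (F2 f)) (l : ℕ) :
    |((PowerSeries.coeff l (GGl f κ L n s) : ℚ) : ℝ)| ≤
      (2 * MR ρ) ^ (2 * n + 2 * κ * L) * B ^ (2 * L) * (ρ⁻¹) ^ l := by
  obtain ⟨i, j, e⟩ := s
  have hMR : 1 ≤ MR ρ := ILb_MR hρ hρ1
  obtain ⟨M, hM⟩ : ∃ M : ℝ, M = 2 * MR ρ := ⟨_, rfl⟩
  have hM1 : 1 ≤ M := by linarith
  rw [← hM]
  have hU : Bd ρ M (U ℚ) := ILb_mono (Bd_U hρ hρ1) (by linarith)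
  have hD : Bd ρ (M ^ 2) (U ℚ ^ 2 - V ℚ ^ 2) := by
    rw [sub_eq_add_neg]
    refine ILb_mono (((Bd_U hρ hρ1).pow hρ 2).add hρ (ILb_neg ((Bd_V hρ hρ1).pow hρ 2))) ?_
    rw [hM]
    nlinarith
  have h3 : Bd ρ (M ^ (2 * n - 2 * (e : ℕ) + κ * (2 * L - i - j)) * (M ^ 2) ^ (e : ℕ) *
      B ^ (i : ℕ) * B ^ (j : ℕ)) (GGl f κ L n (i, j, e)) :=
    (((hU.pow hρ _).mul hρ (hD.pow hρ _)).mul hρ (h1.pow hρ _)).mul hρ (h2.pow hρ _)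
  have h4 : |((PowerSeries.coeff l (GGl f κ L n (i, j, e)) : ℚ) : ℝ)| * ρ ^ l ≤
      M ^ (2 * n - 2 * (e : ℕ) + κ * (2 * L - i - j)) * (M ^ 2) ^ (e : ℕ) *
        B ^ (i : ℕ) * B ^ (j : ℕ) := by
    refine le_trans ?_ (h3 (l + 1))
    rw [Finset.sum_range_succ]
    have : 0 ≤ ∑ m ∈ Finset.range l,
        |((PowerSeries.coeff m (GGl f κ L n (i, j, e)) : ℚ) : ℝ)| * ρ ^ m :=
      Finset.sum_nonneg fun m _ => by positivity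
    linarith
  have h5 : M ^ (2 * n - 2 * (e : ℕ) + κ * (2 * L - i - j)) * (M ^ 2) ^ (e : ℕ) *
      B ^ (i : ℕ) * B ^ (j : ℕ) ≤ M ^ (2 * n + 2 * κ * L) * B ^ (2 * L) := by
    have e1 : M ^ (2 * n - 2 * (e : ℕ) + κ * (2 * L - i - j)) * (M ^ 2) ^ (e : ℕ) *
        B ^ (i : ℕ) * B ^ (j : ℕ) =
        M ^ (2 * n - 2 * (e : ℕ) + κ * (2 * L - i - j) + 2 * (e : ℕ)) * B ^ ((i : ℕ) + j) := by
      rw [pow_add, pow_add, ← pow_mul]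
      ring
    rw [e1]
    have e2 : 2 * n - 2 * (e : ℕ) + κ * (2 * L - i - j) + 2 * (e : ℕ) ≤ 2 * n + 2 * κ * L := by
      have he : (e : ℕ) ≤ n := Nat.lt_succ_iff.1 e.2
      have h6 : κ * (2 * L - i - j) ≤ κ * (2 * L) := Nat.mul_le_mul_left _ (by omega)
      have h7 : κ * (2 * L) = 2 * κ * L := by ring
      omega
    have e3 : (i : ℕ) + j ≤ 2 * L := by
      have := i.2
      have := j.2
      omega
    exact mul_le_mul (pow_le_pow_right₀ hM1 e2) (pow_le_pow_right₀ hB e3) (by positivity)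
      (by positivity)
  have h6 : 0 < ρ ^ l := by positivity
  have h7 := h4.trans h5
  rw [← le_div_iff₀ h6] at h7
  rw [inv_pow, ← div_eq_mul_inv]
  exact h7

private theorem ILb_sub {f : ℤ⟦X⟧} {Y a : ℕ} {g h : ℚ⟦X⟧} (hg : CdenI f Y a g)
    (hh : CdenI f Y a h) : CdenI f Y a (g - h) := by
  intro l hl
  obtain ⟨m1, h1⟩ := hg l hl
  obtain ⟨m2, h2⟩ := hh l hl
  refine ⟨m1 - m2, ?_⟩
  rw [map_sub, mul_sub, h1, h2, Int.cast_sub]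

theorem den_GGl (f : ℤ⟦X⟧) (κ L n : ℕ) (s : Fin L × Fin L × Fin (n + 1)) (Y l : ℕ)
    (hl : l ≤ Y) :
    ∃ m : ℤ, (Z0 f Y : ℚ) ^ (2 * L) * PowerSeries.coeff l (GGl f κ L n s) = m := by
  have hU : CdenI f Y 0 (U ℚ) := CdenI_map f Y _
  have hV : CdenI f Y 0 (V ℚ) := CdenI_map f Y _
  have hU2 : CdenI f Y 0 (U ℚ ^ 2) := by
    have h := CdenI_pow hU 2
    rwa [zero_mul] at h
  have hV2 : CdenI f Y 0 (V ℚ ^ 2) := by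
    have h := CdenI_pow hV 2
    rwa [zero_mul] at h
  have h := CdenI_mul (CdenI_mul (CdenI_mul
    (CdenI_pow hU (2 * n - 2 * (s.2.2 : ℕ) + κ * (2 * L - s.1 - s.2.1)))
    (CdenI_pow (ILb_sub hU2 hV2) (s.2.2 : ℕ)))
    (CdenI_pow (CdenI_F1 f Y) (s.1 : ℕ))) (CdenI_pow (CdenI_F2 f Y) (s.2.1 : ℕ))
  have h2 := CdenI_mono (b := 2 * L) h (by
    have h3 := s.1.2
    have h4 := s.2.1.2
    omega)
  exact h2 l hl

attribute [local instance] Matrix.seminormedAddCommGroup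

private theorem ILb_abs (f : ℤ⟦X⟧) (κ L n Y : ℕ) {ρ B : ℝ}
    (hρ : 0 < ρ) (hρ1 : ρ < 1) (hB : 1 ≤ B) (h1 : Bd ρ B (F1 f)) (h2 : Bd ρ B (F2 f))
    {T l : ℕ} (hl : l ≤ T) (s : Fin L × Fin L × Fin (n + 1)) (m : ℤ)
    (hm : (Z0 f Y : ℚ) ^ (2 * L) * PowerSeries.coeff l (GGl f κ L n s) = m) :
    |(m : ℝ)| ≤ (Z0 f Y : ℝ) ^ (2 * L) * (2 * MR ρ) ^ (2 * n + 2 * κ * L) * B ^ (2 * L) *
      (ρ⁻¹) ^ T := by
  have h3 : (m : ℝ) = (Z0 f Y : ℝ) ^ (2 * L) *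
      ((PowerSeries.coeff l (GGl f κ L n s) : ℚ) : ℝ) := by
    have := congrArg (fun q : ℚ => (q : ℝ)) hm
    simp only [Rat.cast_mul, Rat.cast_pow, Rat.cast_natCast, Rat.cast_intCast] at this
    exact this.symm
  have h4 := GGl_bd f κ L n s hρ hρ1 hB h1 h2 l
  have hMR : 0 ≤ MR ρ := by
    unfold MR
    positivity
  have h5 : (1 : ℝ) ≤ ρ⁻¹ := (one_le_inv₀ hρ).2 hρ1.le
  have h6 : (ρ⁻¹) ^ l ≤ (ρ⁻¹) ^ T := pow_le_pow_right₀ h5 hl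
  rw [h3, abs_mul, abs_pow, Nat.abs_cast]
  calc (Z0 f Y : ℝ) ^ (2 * L) * |((PowerSeries.coeff l (GGl f κ L n s) : ℚ) : ℝ)|
      ≤ (Z0 f Y : ℝ) ^ (2 * L) *
          ((2 * MR ρ) ^ (2 * n + 2 * κ * L) * B ^ (2 * L) * (ρ⁻¹) ^ l) :=
        mul_le_mul_of_nonneg_left h4 (by positivity)
    _ ≤ (Z0 f Y : ℝ) ^ (2 * L) *
          ((2 * MR ρ) ^ (2 * n + 2 * κ * L) * B ^ (2 * L) * (ρ⁻¹) ^ T) := by
        refine mul_le_mul_of_nonneg_left (mul_le_mul_of_nonneg_left h6 ?_) (by positivity)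
        positivity
    _ = _ := by ring

private theorem ILb_one_le (f : ℤ⟦X⟧) (κ L n Y T : ℕ) {ρ B : ℝ}
    (hρ : 0 < ρ) (hρ1 : ρ < 1) (hB : 1 ≤ B) :
    1 ≤ (Z0 f Y : ℝ) ^ (2 * L) * (2 * MR ρ) ^ (2 * n + 2 * κ * L) * B ^ (2 * L) *
      (ρ⁻¹) ^ T := by
  have hMR : 1 ≤ 2 * MR ρ := by
    have := ILb_MR hρ hρ1
    linarith
  have h5 : (1 : ℝ) ≤ ρ⁻¹ := (one_le_inv₀ hρ).2 hρ1.le
  have hZ : (1 : ℝ) ≤ (Z0 f Y : ℝ) := by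
    exact_mod_cast Z0_pos f Y
  exact one_le_mul_of_one_le_of_one_le (one_le_mul_of_one_le_of_one_le
    (one_le_mul_of_one_le_of_one_le (one_le_pow₀ hZ) (one_le_pow₀ hMR)) (one_le_pow₀ hB))
    (one_le_pow₀ h5)

theorem siegel_phiL (f : ℤ⟦X⟧) (κ L n Y : ℕ) (hL : 2 ≤ L) {ρ B : ℝ}
    (hρ : 0 < ρ) (hρ1 : ρ < 1) (hB : 1 ≤ B) (h1 : Bd ρ B (F1 f)) (h2 : Bd ρ B (F2 f))
    (hY : L ^ 2 * (n + 1) / 2 ≤ Y) :
    ∃ t : Fin L × Fin L × Fin (n + 1) → ℤ, t ≠ 0 ∧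
      (∀ l < L ^ 2 * (n + 1) / 2, PowerSeries.coeff l (PhiL f κ L n t) = 0) ∧
      ∀ s, |((t s : ℤ) : ℝ)| ≤ (L ^ 2 * (n + 1) : ℝ) *
        ((Z0 f Y : ℝ) ^ (2 * L) * (2 * MR ρ) ^ (2 * n + 2 * κ * L) * B ^ (2 * L) *
          (ρ⁻¹) ^ (L ^ 2 * (n + 1) / 2)) := by
  classical
  set T : ℕ := L ^ 2 * (n + 1) / 2 with hT
  set Q : ℝ := (Z0 f Y : ℝ) ^ (2 * L) * (2 * MR ρ) ^ (2 * n + 2 * κ * L) * B ^ (2 * L) *
    (ρ⁻¹) ^ T with hQ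
  have hQ1 : 1 ≤ Q := ILb_one_le f κ L n Y T hρ hρ1 hB
  have hN4 : 4 ≤ L ^ 2 * (n + 1) := by nlinarith
  have hex : ∀ (l : Fin T) (s : Fin L × Fin L × Fin (n + 1)),
      ∃ m : ℤ, (Z0 f Y : ℚ) ^ (2 * L) * PowerSeries.coeff (l : ℕ) (GGl f κ L n s) = m :=
    fun l s => den_GGl f κ L n s Y l (l.2.le.trans hY)
  choose A hA using hex
  have hcard : Fintype.card (Fin L × Fin L × Fin (n + 1)) = L ^ 2 * (n + 1) := by
    rw [Fintype.card_prod, Fintype.card_prod, Fintype.card_fin, Fintype.card_fin]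
    ring
  have hcT : Fintype.card (Fin T) = T := Fintype.card_fin T
  obtain ⟨t, ht0, hAt, htn⟩ := Int.Matrix.exists_ne_zero_int_vec_norm_le (Matrix.of A)
    (by rw [hcard, hcT]; omega) (by rw [hcT]; omega)
  have hAn : ‖Matrix.of A‖ ≤ Q := by
    rw [Matrix.norm_le_iff (by linarith)]
    intro l s
    rw [Int.norm_eq_abs]
    exact ILb_abs f κ L n Y hρ hρ1 hB h1 h2 l.2.le s (A l s) (hA l s)
  refine ⟨t, ht0, ?_, ?_⟩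
  · intro l hl
    have h3 := congrFun hAt ⟨l, hl⟩
    have h4 : (Z0 f Y : ℚ) ^ (2 * L) * PowerSeries.coeff l (PhiL f κ L n t) = 0 := by
      rw [PhiL, map_sum, Finset.mul_sum]
      have h5 : ((∑ s, A ⟨l, hl⟩ s * t s : ℤ) : ℚ) = 0 := by
        have h6 : ∑ s, A ⟨l, hl⟩ s * t s = 0 := h3
        rw [h6, Int.cast_zero]
      rw [← h5, Int.cast_sum]
      refine Finset.sum_congr rfl fun s _ => ?_
      rw [PowerSeries.coeff_C_mul, Int.cast_mul, ← hA ⟨l, hl⟩ s]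
      ring
    have h7 : (Z0 f Y : ℚ) ^ (2 * L) ≠ 0 := by
      have := Z0_pos f Y
      positivity
    exact (mul_eq_zero.1 h4).resolve_left h7
  · intro s
    have h3 : ‖t s‖ ≤ ‖t‖ := norm_le_pi_norm t s
    rw [Int.norm_eq_abs] at h3
    refine h3.trans (htn.trans ?_)
    rw [hcard, hcT]
    have hN1 : (1 : ℝ) ≤ ((L ^ 2 * (n + 1) : ℕ) : ℝ) := by
      exact_mod_cast (by omega : 1 ≤ L ^ 2 * (n + 1))
    have hb1 : (1 : ℝ) ≤ ((L ^ 2 * (n + 1) : ℕ) : ℝ) * max 1 ‖Matrix.of A‖ :=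
      one_le_mul_of_one_le_of_one_le hN1 (le_max_left _ _)
    have hTN : ((T : ℕ) : ℝ) * 2 ≤ ((L ^ 2 * (n + 1) : ℕ) : ℝ) := by
      exact_mod_cast (by omega : T * 2 ≤ L ^ 2 * (n + 1))
    have hT0 : (0 : ℝ) < (T : ℝ) := by
      exact_mod_cast (by omega : 0 < T)
    have he : (T : ℝ) / (((L ^ 2 * (n + 1) : ℕ) : ℝ) - (T : ℝ)) ≤ 1 := by
      rw [div_le_one (by linarith)]
      linarith
    refine (Real.rpow_le_rpow_of_exponent_le hb1 he).trans ?_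
    rw [Real.rpow_one]
    have hm : max 1 ‖Matrix.of A‖ ≤ Q := max_le hQ1 hAn
    have h8 : ((L ^ 2 * (n + 1) : ℕ) : ℝ) = (L ^ 2 * (n + 1) : ℝ) := by push_cast; ring
    rw [← h8]
    exact mul_le_mul_of_nonneg_left hm (by linarith)

end Pool.Agent.H85.OU
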