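import Pool.Agent.H85.OU.UC
import Pool.Agent.H85.OU.MPg
import Pool.Agent.H85.OT.Cdvd

/-!
# Row ILC (project OU): the leading coefficient of `PhiL` is divisible by `p`

Same scheme as `OT/Cdvd.lean` and `OT/Cred.lean` (`exists_F1p`: `G ∈ ℤ_[p]⟦X⟧` with coefficients `a_n/n`, reduction `G1` with `G1_n = 0` for `p ∣ n`, `D G1 = f mod p`).  `κ = k - 2`, `c2 = 3c + 1 + k`.
1. `mp_gen` (`MPg.lean`) for `(f mod p, G1)` and for `(2 dbl f mod p, dbl G1)` (`D (dbl G1) = 2 dbl (D G1)`, coefficients of `dbl G1` at multiples of `p` vanish as `p` is odd; `2 dbl f U^(-k) ∈ SPn e c`):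
   `G1 = U^(κp) H1`, `dbl G1 = U^(κp) H2`, `H_i ∈ SP e`, `IsDeg (c2 p) H_i`.
2. In `ℤ_[p]⟦X⟧` put `Ψ = ∑_s C (t_s) Up^(2n-2e+κ(2L-i-j)) (Up² - Vp²)^e G^i (dbl G)^j`; its image in `ℚ_[p]⟦X⟧` is the image of `PhiL`, so its coefficients `l < T'` vanish and `Z coeff T' Ψ = m`.
3. Its reduction: `U² - V² = U² λ`; multiply the term `s` by `1 = (U^(p-1) h(λ))^(κ(2L-i-j))` (`hasse`): total exponent of `U`
   `2n + κ(2L-i-j) + κp(i+j) + (p-1)κ(2L-i-j) = 2n + 2κLp =: W`, so `Ψ_p = U^W Y`, `Y = ∑_s t_s λ^e h(λ)^(κ(2L-i-j)) H1^i H2^j ∈ SP e` (`SP_mul`, `SP_evl_mul`, `SP_add`).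
   Degree: `IsDeg (e + mm p κ (2L-i-j) + c2 p (i+j)) `, and this is `≤ n + 2L(κ+c2)p =: N`.
4. The coefficients `l < T'` of `Y = U^(-W) Ψ_p` vanish and `N r < T'`, so `Y = 0` by `order_le`; so `Ψ_p = 0`, coefficient `T'` of `Ψ` is divisible by `p`, hence `p ∣ m`.
-/

open PowerSeries
open Pool.Agent.H85.OT

namespace Pool.Agent.H85.OU

/-- the combination `PhiL` over a general ring -/
noncomputable def ILc_Psi (R : Type*) [CommRing R] (G : R⟦X⟧) (κ L n : ℕ)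
    (t : Fin L × Fin L × Fin (n + 1) → ℤ) : R⟦X⟧ :=
  ∑ s, PowerSeries.C ((t s : ℤ) : R) *
    (U R ^ (2 * n - 2 * (s.2.2 : ℕ) + κ * (2 * L - s.1 - s.2.1)) *
      (U R ^ 2 - V R ^ 2) ^ (s.2.2 : ℕ) * G ^ (s.1 : ℕ) * dbl R G ^ (s.2.1 : ℕ))

theorem ILc_Psi_map {R S : Type*} [CommRing R] [CommRing S] (φ : R →+* S) (G : R⟦X⟧)
    (κ L n : ℕ) (t : Fin L × Fin L × Fin (n + 1) → ℤ) :
    PowerSeries.map φ (ILc_Psi R G κ L n t) =
      ILc_Psi S (PowerSeries.map φ G) κ L n t := by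
  unfold ILc_Psi
  rw [map_sum]
  refine Finset.sum_congr rfl fun s _ => ?_
  simp only [map_mul, map_pow, map_sub, Cdvd_map_U, Cdvd_map_V, Cdvd_map_dbl,
    map_intCast]

theorem ILc_dbl {R : Type*} [CommRing R] (F : R⟦X⟧) (n : ℕ) : PowerSeries.coeff n (dbl R F) =
    if 2 ∣ n then PowerSeries.coeff (n / 2) F else 0 := by
  unfold dbl
  exact PowerSeries.coeff_expand _ _ _

theorem ILc_Ddbl {K : Type*} [Field K] (F : K⟦X⟧) : Dq K (dbl K F) = 2 * dbl K (Dq K F) := by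
  ext n
  have h2 : (2 : K⟦X⟧) = PowerSeries.C (2 : K) := (map_ofNat PowerSeries.C 2).symm
  rw [coeff_Dq, h2, PowerSeries.coeff_C_mul, ILc_dbl, ILc_dbl]
  split_ifs with h
  · obtain ⟨m, rfl⟩ := h
    rw [coeff_Dq, Nat.mul_div_cancel_left m (by norm_num)]
    push_cast
    ring
  · ring

theorem ILc_dbl_zero {p : ℕ} (hp : p.Prime) (hp2 : p ≠ 2) {K : Type*} [Field K] (F : K⟦X⟧)
    (h : ∀ n, p ∣ n → PowerSeries.coeff n F = 0) (n : ℕ) (hn : p ∣ n) :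
    PowerSeries.coeff n (dbl K F) = 0 := by
  rw [ILc_dbl]
  split_ifs with h2
  · obtain ⟨m, rfl⟩ := h2
    rw [Nat.mul_div_cancel_left m (by norm_num)]
    refine h m ?_
    rcases (Nat.Prime.dvd_mul hp).1 hn with h3 | h3
    · exact absurd ((Nat.prime_dvd_prime_iff_eq hp Nat.prime_two).1 h3) hp2
    · exact h3
  · rfl

theorem ILc_SP_pow {K : Type*} [Field K] {r : ℕ} {e : Fin r → K⟦X⟧} (h1 : (1 : K⟦X⟧) ∈ SP K e)
    (hm : ∀ l l', e l * e l' ∈ SP K e) {y : K⟦X⟧} (hy : y ∈ SP K e) (i : ℕ) : y ^ i ∈ SP K e := by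
  induction i with
  | zero => rw [pow_zero]; exact h1
  | succ i ih => rw [pow_succ]; exact SP_mul hm ih hy

theorem ILc_Y {p : ℕ} [hp : Fact p.Prime] (h2 : p ≠ 2) (κ L n c2 : ℕ)
    (t : Fin L × Fin L × Fin (n + 1) → ℤ) {r c : ℕ} (e : Fin r → (ZMod p)⟦X⟧)
    (hR : RD (ZMod p) r c e) (G1 H1 H2 : (ZMod p)⟦X⟧)
    (hH1 : H1 ∈ SP (ZMod p) e) (hH2 : H2 ∈ SP (ZMod p) e)
    (hd1 : IsDeg (ZMod p) (c2 * p) H1) (hd2 : IsDeg (ZMod p) (c2 * p) H2)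
    (hG1 : G1 = U (ZMod p) ^ (κ * p) * H1)
    (hG2 : dbl (ZMod p) G1 = U (ZMod p) ^ (κ * p) * H2) :
    ∃ Y ∈ SP (ZMod p) e, IsDeg (ZMod p) (n + 2 * L * (κ + c2) * p) Y ∧
      ILc_Psi (ZMod p) G1 κ L n t = U (ZMod p) ^ (2 * n + 2 * κ * p * L) * Y := by
  have hm := two_mm hp.out h2
  have hU : U (ZMod p) ^ (2 * mm p) * evl (ZMod p) (hh p) = 1 := hasse h2
  refine ⟨∑ s : Fin L × Fin L × Fin (n + 1), evl (ZMod p) (Polynomial.C ((t s : ℤ) : ZMod p) *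
      (Polynomial.X ^ (s.2.2 : ℕ) * hh p ^ (κ * (2 * L - s.1 - s.2.1)))) *
      (H1 ^ (s.1 : ℕ) * H2 ^ (s.2.1 : ℕ)), ?_, ?_, ?_⟩
  · refine ID2_SP_sum _ _ fun s _ => ?_
    exact SP_evl_mul _ (SP_mul hR.mul (ILc_SP_pow hR.one hR.mul hH1 _) (ILc_SP_pow hR.one hR.mul hH2 _))
  · refine IsDeg.sum _ _ fun s _ => ?_
    have hi := s.1.2
    have hj := s.2.1.2
    have he : (s.2.2 : ℕ) ≤ n := Nat.lt_succ_iff.1 s.2.2.2
    obtain ⟨M, hM⟩ : ∃ M, M = 2 * L - s.1 - s.2.1 := ⟨_, rfl⟩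
    have hM2 : (s.1 : ℕ) + s.2.1 + M = 2 * L := by omega
    rw [← hM]
    have h1 : (Polynomial.C ((t s : ℤ) : ZMod p) *
      (Polynomial.X ^ (s.2.2 : ℕ) * hh p ^ (κ * M))).natDegree ≤ n + (κ * M) * mm p := by
      refine (Polynomial.natDegree_C_mul_le _ _).trans ?_
      refine Polynomial.natDegree_mul_le_of_le ?_ ?_
      · rw [Polynomial.natDegree_X_pow]
        exact he
      · exact Polynomial.natDegree_pow_le_of_le _ (hh_natDegree h2).le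
    have h3 := (IsDeg.of_evl _ h1).mul ((hd1.pow (s.1 : ℕ)).mul (hd2.pow (s.2.1 : ℕ)))
    refine h3.mono ?_
    have hmp : mm p ≤ p := by omega
    have e1 : κ * M * mm p ≤ κ * M * p := Nat.mul_le_mul le_rfl hmp
    have e2 : 2 * L * (κ + c2) * p = κ * M * p + (κ * (s.1 + s.2.1) * p + (c2 * p * s.1 + c2 * p * s.2.1) + c2 * M * p) := by
      rw [← hM2]; ring
    rw [e2]
    omega
  · have key : ∀ s : Fin L × Fin L × Fin (n + 1), 2 * n + 2 * κ * p * L =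
        (2 * n - 2 * (s.2.2 : ℕ) + κ * (2 * L - s.1 - s.2.1)) + 2 * (s.2.2 : ℕ) + κ * p * s.1 + κ * p * s.2.1 +
          2 * mm p * (κ * (2 * L - s.1 - s.2.1)) := by
      intro s
      have hi := s.1.2
      have hj := s.2.1.2
      have he : (s.2.2 : ℕ) ≤ n := Nat.lt_succ_iff.1 s.2.2.2
      obtain ⟨d, hd⟩ : ∃ d, 2 * L = s.1 + s.2.1 + d := ⟨2 * L - s.1 - s.2.1, by omega⟩
      have hd' : 2 * L - s.1 - s.2.1 = d := by omega
      rw [hd']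
      have e0 : 2 * n - 2 * (s.2.2 : ℕ) + κ * d + 2 * (s.2.2 : ℕ) = 2 * n + κ * d := by omega
      rw [e0]
      have e1 : 2 * κ * p * L = κ * p * (2 * L) := by ring
      rw [e1, hd]
      calc 2 * n + κ * p * (s.1 + s.2.1 + d) = 2 * n + κ * p * s.1 + κ * p * s.2.1 + κ * d * p := by ring
        _ = 2 * n + κ * p * s.1 + κ * p * s.2.1 + κ * d * (2 * mm p + 1) := by rw [hm]
        _ = _ := by ring
    unfold ILc_Psi
    rw [hG2, hG1, Finset.mul_sum]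
    refine Finset.sum_congr rfl fun s _ => ?_
    rw [key s]
    obtain ⟨M, hM⟩ : ∃ M, M = κ * (2 * L - s.1 - s.2.1) := ⟨_, rfl⟩
    rw [← hM]
    obtain ⟨a, ha⟩ : ∃ a, a = 2 * n - 2 * (s.2.2 : ℕ) + M := ⟨_, rfl⟩
    rw [← ha]
    have hV : U (ZMod p) ^ 2 - V (ZMod p) ^ 2 = U (ZMod p) ^ 2 * lam (ZMod p) := by
      rw [← xx_mul_U (ZMod p)]
      unfold lam
      ring
    rw [hV]
    simp only [map_mul, map_pow, Polynomial.aeval_X, Polynomial.aeval_C]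
    have hUM : U (ZMod p) ^ (2 * mm p * M) * (evl (ZMod p) (hh p)) ^ M = 1 := by
      rw [pow_mul, ← mul_pow, hU, one_pow]
    have hC : algebraMap (ZMod p) (ZMod p)⟦X⟧ ((t s : ℤ) : ZMod p) =
      PowerSeries.C ((t s : ℤ) : ZMod p) := rfl
    rw [hC, pow_add, pow_add, pow_add, pow_add, pow_mul (U (ZMod p)) (κ * p) (s.1 : ℕ),
      pow_mul (U (ZMod p)) (κ * p) (s.2.1 : ℕ), pow_mul (U (ZMod p)) 2 (s.2.2 : ℕ)]
    simp only [mul_pow]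
    linear_combination (-(PowerSeries.C ((t s : ℤ) : ZMod p) * (U (ZMod p) ^ a *
      ((U (ZMod p) ^ 2) ^ (s.2.2 : ℕ) * lam (ZMod p) ^ (s.2.2 : ℕ)) *
      ((U (ZMod p) ^ (κ * p)) ^ (s.1 : ℕ) * H1 ^ (s.1 : ℕ)) *
      ((U (ZMod p) ^ (κ * p)) ^ (s.2.1 : ℕ) * H2 ^ (s.2.1 : ℕ))))) * hUM

theorem p_dvdL (f : ℤ⟦X⟧) (h0 : PowerSeries.coeff 0 f = 0) (k : ℕ) (hk : 3 ≤ k)
    (p : ℕ) [hp : Fact p.Prime] (hp2 : p ≠ 2) (hkp : k < p) (hS : Sl2 f p)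
    {r c : ℕ} (e : Fin r → (ZMod p)⟦X⟧) (hR : RD (ZMod p) r c e)
    (hf1 : PowerSeries.map (Int.castRingHom (ZMod p)) f * (U (ZMod p))⁻¹ ^ k ∈
      SPn (ZMod p) e c)
    (hf2 : dbl (ZMod p) (PowerSeries.map (Int.castRingHom (ZMod p)) f) * (U (ZMod p))⁻¹ ^ k ∈
      SPn (ZMod p) e c)
    (L n T' : ℕ) (t : Fin L × Fin L × Fin (n + 1) → ℤ)
    (hT : r * (n + 2 * L * ((k - 2) + (3 * c + 1 + k)) * p) < T')
    (hvan : ∀ l < T', PowerSeries.coeff l (PhiL f (k - 2) L n t) = 0)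
    (Z m : ℤ) (hm : (Z : ℚ) * PowerSeries.coeff T' (PhiL f (k - 2) L n t) = m) :
    (p : ℤ) ∣ m := by
  obtain ⟨G, hG1, hG2, hG3⟩ := exists_F1p f h0 p hS
  obtain ⟨G1, hG1d⟩ : ∃ G1, G1 = PowerSeries.map (PadicInt.toZMod (p := p)) G := ⟨_, rfl⟩
  rw [← hG1d] at hG2
  simp only [← hG1d] at hG3
  obtain ⟨H1, hH1, hH1U, hH1d⟩ := mp_gen p hp2 e hR k hk hkp _ G1 hf1 hG2 hG3
  have hf2' : 2 * dbl (ZMod p) (PowerSeries.map (Int.castRingHom (ZMod p)) f) * (U (ZMod p))⁻¹ ^ k ∈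
      SPn (ZMod p) e c := by
    have h1 := MPg_evl_mul (d := 0) (Polynomial.C (2 : ZMod p)) (by rw [Polynomial.natDegree_C]) hf2
    have h2 : evl (ZMod p) (Polynomial.C (2 : ZMod p)) = 2 := by
      rw [evl, Polynomial.aeval_C, map_ofNat]
    rw [h2, add_zero, ← mul_assoc] at h1
    exact h1
  have hDd : Dq (ZMod p) (dbl (ZMod p) G1) =
      2 * dbl (ZMod p) (PowerSeries.map (Int.castRingHom (ZMod p)) f) := by
    rw [ILc_Ddbl, hG2]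
  obtain ⟨H2, hH2, hH2U, hH2d⟩ := mp_gen p hp2 e hR k hk hkp _ (dbl (ZMod p) G1) hf2' hDd
    (ILc_dbl_zero hp.out hp2 G1 hG3)
  obtain ⟨κ, hκ⟩ : ∃ κ, κ = k - 2 := ⟨_, rfl⟩
  obtain ⟨c2, hc2⟩ : ∃ c2, c2 = 3 * c + 1 + k := ⟨_, rfl⟩
  rw [← hκ, ← hc2] at hT
  rw [← hκ] at hvan hm hH1U hH2U
  rw [← hc2] at hH1d hH2d
  have e1 : PowerSeries.map (PadicInt.Coe.ringHom (p := p)) (ILc_Psi ℤ_[p] G κ L n t) =
      PowerSeries.map (Rat.castHom ℚ_[p]) (PhiL f κ L n t) := by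
    have e0 : PhiL f κ L n t = ILc_Psi ℚ (F1 f) κ L n t := rfl
    rw [ILc_Psi_map, hG1, ← ILc_Psi_map, e0]
  have e2 : ∀ l, PadicInt.Coe.ringHom (p := p)
      (PowerSeries.coeff l (ILc_Psi ℤ_[p] G κ L n t)) =
      Rat.castHom ℚ_[p] (PowerSeries.coeff l (PhiL f κ L n t)) := fun l => by
    rw [← PowerSeries.coeff_map, e1, PowerSeries.coeff_map]
  have hinj : Function.Injective (PadicInt.Coe.ringHom (p := p)) := Subtype.coe_injective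
  have hvan' : ∀ l < T', PowerSeries.coeff l (ILc_Psi ℤ_[p] G κ L n t) = 0 := fun l hl => by
    apply hinj
    rw [e2, hvan l hl, map_zero, map_zero]
  have hm' : (Z : ℤ_[p]) * PowerSeries.coeff T' (ILc_Psi ℤ_[p] G κ L n t) = (m : ℤ_[p]) := by
    apply hinj
    rw [map_mul, e2, map_intCast, map_intCast]
    have h3 := congrArg (Rat.castHom ℚ_[p]) hm
    rw [map_mul, map_intCast, map_intCast] at h3
    exact h3
  have e3 : PowerSeries.map (PadicInt.toZMod (p := p)) (ILc_Psi ℤ_[p] G κ L n t) =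
      ILc_Psi (ZMod p) G1 κ L n t := by
    rw [hG1d]
    exact ILc_Psi_map _ _ _ _ _ _
  obtain ⟨Y, hYS, hYd, hY⟩ := ILc_Y hp2 κ L n c2 t e hR G1 H1 H2 hH1 hH2 hH1d hH2d hH1U hH2U
  have hY0 : Y = 0 := by
    by_contra hne
    obtain ⟨l, hl, hlY⟩ := order_le (two_ne hp2) hR.one hR.mul hne hYS hYd
    apply hlY
    have hlT : l < T' := by
      refine lt_of_le_of_lt hl ?_
      rw [mul_comm]
      exact hT
    have h5 : Y = (U (ZMod p))⁻¹ ^ (2 * n + 2 * κ * p * L) * ILc_Psi (ZMod p) G1 κ L n t := by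
      rw [hY, ← mul_assoc, ← mul_pow, mul_comm (U (ZMod p))⁻¹, U_mul_inv, one_pow, one_mul]
    rw [h5, PowerSeries.coeff_mul]
    refine Finset.sum_eq_zero fun q hq => ?_
    have hq' := Finset.HasAntidiagonal.mem_antidiagonal.1 hq
    have h6 : PowerSeries.coeff q.2 (ILc_Psi (ZMod p) G1 κ L n t) = 0 := by
      rw [← e3, PowerSeries.coeff_map, hvan' q.2 (by omega), map_zero]
    rw [h6, mul_zero]
  have e5 : PadicInt.toZMod (p := p) (PowerSeries.coeff T' (ILc_Psi ℤ_[p] G κ L n t)) = 0 := by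
    rw [← PowerSeries.coeff_map, e3, hY, hY0, mul_zero, map_zero]
  have e6 : (m : ZMod p) = 0 := by
    have h3 := congrArg (PadicInt.toZMod (p := p)) hm'
    rw [map_mul, e5, mul_zero, map_intCast] at h3
    exact h3.symm
  exact (ZMod.intCast_zmod_eq_zero_iff_dvd m p).1 e6

end Pool.Agent.H85.OU
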