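import Pool.Agent.H85.OU.Eis
import Pool.Agent.H85.OU.LDb
import Pool.Agent.H85.OU.LFc

/-!
# Row RED (project OU): reduction of a level datum mod `p`

`LForm ℚ k (map f)` with data `r, e`, `h : LD ℚ r e`; `c` larger than the constant of `LD.bounds` and than all degrees of the polynomials below.
There is `M ≥ 1` such that all coefficients of the `e_l` (`eisenstein`, `LD.bounds`) and all rational coefficients of the (finitely many) polynomials `p_l` in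
 (a) `1 = ∑ p_l(λ) e_l`, (b) `e_l e_l' = ∑ p_m(λ) e_m`, (c) `δ e_l = ∑ p_m(λ) e_m`, (d) the equations `e_l^R + ∑ a_m(λ) e_l^(R-m) = 0`, `deg a_m ≤ c m` (`IsDeg`; only `m ≤ R` matters),
 (e) `f U^(-k) = ∑ p_l(λ) e_l`, (f) `dbl f U^(-k) = ∑ p_l(λ) e_l`
lie in `S = {x ∈ ℚ : M^j x ∈ ℤ for some j}` (e.g. `S` a `Subring ℚ`, or `Localization.Away (M : ℤ)`).  Let `p > p0 = M` prime (so `p ∤ M`), `π : S → ZMod p` the reduction map (ring homomorphism with
`π(m/M^j) = m/M^j`), `ι : S → ℚ` the inclusion (injective).  For a power series `y` over `ℚ` with coefficients in `S` let `y~ ∈ S⟦X⟧` be its lift and `y^ = map π y~`.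
`U, V, lam` are images of integral power series (`U⁻¹` too: there is `I ∈ ℤ⟦X⟧` with `th3² I = 1`), so all identities (a)-(f) lift to `S⟦X⟧` (injectivity of `map ι`; `δ = U^(-2) D`, `dbl` commute with `map`) and map to
`(ZMod p)⟦X⟧`, with polynomials reduced (degrees do not increase).  This gives `RD (ZMod p) r c e^` and the two memberships (`IsDeg`: in (d) put `a_m = 0` for `m > R`; the degree bound `c`).
-/

open PowerSeries
open Pool.Agent.H85.OT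

namespace Pool.Agent.H85.OU

/-- the `p`-integral rational numbers -/
def Red_A (p : ℕ) [Fact p.Prime] : Subring ℚ where
  carrier := {q | ((q.den : ℕ) : ZMod p) ≠ 0}
  mul_mem' := by
    intro a b ha hb h
    have h1 : ((a.den * b.den : ℕ) : ZMod p) = 0 := by
      rw [ZMod.natCast_eq_zero_iff] at h ⊢
      exact h.trans (Rat.mul_den_dvd a b)
    rw [Nat.cast_mul] at h1
    rcases mul_eq_zero.1 h1 with h2 | h2
    · exact ha h2
    · exact hb h2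
  one_mem' := by
    show (((1 : ℚ).den : ℕ) : ZMod p) ≠ 0
    rw [Rat.den_one, Nat.cast_one]
    exact one_ne_zero
  add_mem' := by
    intro a b ha hb h
    have h1 : ((a.den * b.den : ℕ) : ZMod p) = 0 := by
      rw [ZMod.natCast_eq_zero_iff] at h ⊢
      exact h.trans (Rat.add_den_dvd a b)
    rw [Nat.cast_mul] at h1
    rcases mul_eq_zero.1 h1 with h2 | h2
    · exact ha h2
    · exact hb h2
  zero_mem' := by
    show (((0 : ℚ).den : ℕ) : ZMod p) ≠ 0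
    rw [Rat.den_zero, Nat.cast_one]
    exact one_ne_zero
  neg_mem' := by
    intro a ha
    show (((-a : ℚ).den : ℕ) : ZMod p) ≠ 0
    rw [Rat.den_neg_eq_den]
    exact ha

theorem Red_mem {p : ℕ} [Fact p.Prime] {q : ℚ} : q ∈ Red_A p ↔ ((q.den : ℕ) : ZMod p) ≠ 0 := Iff.rfl

/-- reduction mod `p` -/
def Red_pi (p : ℕ) [Fact p.Prime] : Red_A p →+* ZMod p where
  toFun q := ((q : ℚ) : ZMod p)
  map_one' := by
    show ((1 : ℚ) : ZMod p) = 1
    exact Rat.cast_one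
  map_mul' a b := by
    show ((a.1 * b.1 : ℚ) : ZMod p) = _
    exact Rat.cast_mul_of_ne_zero a.2 b.2
  map_zero' := by
    show ((0 : ℚ) : ZMod p) = 0
    exact Rat.cast_zero
  map_add' a b := by
    show ((a.1 + b.1 : ℚ) : ZMod p) = _
    exact Rat.cast_add_of_ne_zero a.2 b.2

section rel
variable (p : ℕ) [Fact p.Prime]

/-- `z` is the reduction of `y` -/
def Red_R (y : ℚ⟦X⟧) (z : (ZMod p)⟦X⟧) : Prop :=
  ∃ w : (Red_A p)⟦X⟧, PowerSeries.map (Red_A p).subtype w = y ∧ PowerSeries.map (Red_pi p) w = z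

/-- `Q` is the reduction of the polynomial `P` -/
def Red_P (P : Polynomial ℚ) (Q : Polynomial (ZMod p)) : Prop :=
  ∃ W : Polynomial (Red_A p), W.map (Red_A p).subtype = P ∧ W.map (Red_pi p) = Q

variable {p}

theorem Red_R.unique {y : ℚ⟦X⟧} {z z' : (ZMod p)⟦X⟧} (h : Red_R p y z) (h' : Red_R p y z') :
    z = z' := by
  obtain ⟨w, h1, h2⟩ := h
  obtain ⟨w', h1', h2'⟩ := h'
  have h3 : w = w' := by
    ext n
    have h4 := congrArg (PowerSeries.coeff n) (h1.trans h1'.symm)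
    rw [PowerSeries.coeff_map, PowerSeries.coeff_map] at h4
    exact h4
  rw [← h2, ← h2', h3]

theorem Red_R.add {y y' : ℚ⟦X⟧} {z z' : (ZMod p)⟦X⟧} (h : Red_R p y z) (h' : Red_R p y' z') :
    Red_R p (y + y') (z + z') := by
  obtain ⟨w, rfl, rfl⟩ := h
  obtain ⟨w', rfl, rfl⟩ := h'
  exact ⟨w + w', map_add _ _ _, map_add _ _ _⟩

theorem Red_R.mul {y y' : ℚ⟦X⟧} {z z' : (ZMod p)⟦X⟧} (h : Red_R p y z) (h' : Red_R p y' z') :
    Red_R p (y * y') (z * z') := by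
  obtain ⟨w, rfl, rfl⟩ := h
  obtain ⟨w', rfl, rfl⟩ := h'
  exact ⟨w * w', map_mul _ _ _, map_mul _ _ _⟩

theorem Red_R.pow {y : ℚ⟦X⟧} {z : (ZMod p)⟦X⟧} (h : Red_R p y z) (n : ℕ) :
    Red_R p (y ^ n) (z ^ n) := by
  obtain ⟨w, rfl, rfl⟩ := h
  exact ⟨w ^ n, map_pow _ _ _, map_pow _ _ _⟩

theorem Red_R.one : Red_R p 1 1 := ⟨1, map_one _, map_one _⟩

theorem Red_R.zero : Red_R p 0 0 := ⟨0, map_zero _, map_zero _⟩

theorem Red_R.sum {ι : Type*} (s : Finset ι) {y : ι → ℚ⟦X⟧} {z : ι → (ZMod p)⟦X⟧}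
    (h : ∀ i ∈ s, Red_R p (y i) (z i)) : Red_R p (∑ i ∈ s, y i) (∑ i ∈ s, z i) := by
  classical
  induction s using Finset.induction_on with
  | empty =>
    rw [Finset.sum_empty, Finset.sum_empty]
    exact Red_R.zero
  | insert a s ha ih =>
    rw [Finset.sum_insert ha, Finset.sum_insert ha]
    exact (h a (Finset.mem_insert_self a s)).add (ih fun i hi => h i (Finset.mem_insert_of_mem hi))

theorem Red_R.int (f : ℤ⟦X⟧) : Red_R p (PowerSeries.map (Int.castRingHom ℚ) f)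
    (PowerSeries.map (Int.castRingHom (ZMod p)) f) := by
  refine ⟨PowerSeries.map (Int.castRingHom (Red_A p)) f, ?_, ?_⟩
  · ext n
    simp only [PowerSeries.coeff_map, eq_intCast, map_intCast]
  · ext n
    simp only [PowerSeries.coeff_map, eq_intCast, map_intCast]

theorem Red_R.dbl {y : ℚ⟦X⟧} {z : (ZMod p)⟦X⟧} (h : Red_R p y z) :
    Red_R p (OT.dbl ℚ y) (OT.dbl (ZMod p) z) := by
  obtain ⟨w, rfl, rfl⟩ := h
  refine ⟨OT.dbl (Red_A p) w, ?_, ?_⟩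
  · unfold OT.dbl
    exact PowerSeries.map_expand 2 two_ne_zero _ w
  · unfold OT.dbl
    exact PowerSeries.map_expand 2 two_ne_zero _ w

theorem Red_R.Dq {y : ℚ⟦X⟧} {z : (ZMod p)⟦X⟧} (h : Red_R p y z) :
    Red_R p (OT.Dq ℚ y) (OT.Dq (ZMod p) z) := by
  obtain ⟨w, rfl, rfl⟩ := h
  refine ⟨OT.Dq (Red_A p) w, ?_, ?_⟩
  · ext n
    rw [PowerSeries.coeff_map, coeff_Dq, coeff_Dq, PowerSeries.coeff_map, map_mul, map_natCast]
  · ext n
    rw [PowerSeries.coeff_map, coeff_Dq, coeff_Dq, PowerSeries.coeff_map, map_mul, map_natCast]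

/-- the inverse of `U` is integral -/
theorem Red_inv : ∃ I : ℤ⟦X⟧, ∀ (K : Type) [Field K],
    PowerSeries.map (Int.castRingHom K) I = (U K)⁻¹ := by
  have h0 : PowerSeries.constantCoeff (th3 ^ 2) = ((1 : ℤˣ) : ℤ) := by
    have h1 := constCoeff_U (K := ℚ)
    unfold U at h1
    rw [← PowerSeries.coeff_zero_eq_constantCoeff_apply, PowerSeries.coeff_map,
      PowerSeries.coeff_zero_eq_constantCoeff_apply, eq_intCast] at h1
    rw [Units.val_one]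
    exact_mod_cast h1
  refine ⟨PowerSeries.invOfUnit (th3 ^ 2) 1, fun K _ => ?_⟩
  have h1 := PowerSeries.mul_invOfUnit (th3 ^ 2) 1 h0
  have h2 := congrArg (PowerSeries.map (Int.castRingHom K)) h1
  rw [map_mul, map_one] at h2
  apply mul_left_cancel₀ (U_ne_zero K)
  rw [U_mul_inv]
  exact h2

theorem Red_R.Uinv : Red_R p (U ℚ)⁻¹ (U (ZMod p))⁻¹ := by
  obtain ⟨I, hI⟩ := Red_inv
  rw [← hI ℚ, ← hI (ZMod p)]
  exact Red_R.int I

theorem Red_R.del {y : ℚ⟦X⟧} {z : (ZMod p)⟦X⟧} (h : Red_R p y z) :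
    Red_R p (OT.del ℚ y) (OT.del (ZMod p) z) := by
  rw [del_apply, del_apply]
  exact (Red_R.Uinv.pow 2).mul h.Dq

theorem Red_lam : ∃ L : ℤ⟦X⟧, ∀ (K : Type) [Field K],
    PowerSeries.map (Int.castRingHom K) L = lam K := by
  obtain ⟨I, hI⟩ := Red_inv
  refine ⟨1 - (th4 ^ 2 * I) ^ 2, fun K _ => ?_⟩
  rw [map_sub, map_one, map_pow, map_mul, hI K]
  rfl

theorem Red_R.evl {P : Polynomial ℚ} {Q : Polynomial (ZMod p)} (h : Red_P p P Q) :
    Red_R p (OU.evl ℚ P) (OU.evl (ZMod p) Q) := by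
  obtain ⟨W, rfl, rfl⟩ := h
  obtain ⟨L, hL⟩ := Red_lam
  have key : ∀ (K : Type) [Field K] (φ : Red_A p →+* K),
      PowerSeries.map φ (Polynomial.aeval (PowerSeries.map (Int.castRingHom (Red_A p)) L) W) =
        OU.evl K (W.map φ) := by
    intro K _ φ
    have h1 : PowerSeries.map φ (PowerSeries.map (Int.castRingHom (Red_A p)) L) = lam K := by
      rw [← hL K]
      ext n
      simp only [PowerSeries.coeff_map, eq_intCast, map_intCast]
    rw [Polynomial.aeval_def, Polynomial.aeval_def, Polynomial.hom_eval₂, Polynomial.eval₂_map, h1]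
    congr 1
    refine RingHom.ext fun c => ?_
    show PowerSeries.map φ (PowerSeries.C c) = PowerSeries.C (φ c)
    exact PowerSeries.map_C φ c
  exact ⟨_, key ℚ _, key (ZMod p) _⟩

theorem Red_P.natDegree {P : Polynomial ℚ} {Q : Polynomial (ZMod p)} (h : Red_P p P Q) :
    Q.natDegree ≤ P.natDegree := by
  obtain ⟨W, rfl, rfl⟩ := h
  rw [Polynomial.natDegree_map_eq_of_injective (Red_A p).subtype_injective]
  exact Polynomial.natDegree_map_le

theorem Red_P.exists {P : Polynomial ℚ} (h : ∀ i, P.coeff i ∈ Red_A p) : ∃ Q, Red_P p P Q := by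
  have h1 : P ∈ Polynomial.lifts (Red_A p).subtype := by
    rw [Polynomial.lifts_iff_coeff_lifts]
    intro i
    exact ⟨⟨_, h i⟩, rfl⟩
  obtain ⟨W, hW⟩ := (Polynomial.mem_lifts P).1 h1
  exact ⟨_, W, hW, rfl⟩

theorem Red_R.exists {y : ℚ⟦X⟧} (h : ∀ i, PowerSeries.coeff i y ∈ Red_A p) : ∃ z, Red_R p y z := by
  refine ⟨_, PowerSeries.mk fun i => ⟨_, h i⟩, ?_, rfl⟩
  ext i
  rw [PowerSeries.coeff_map, PowerSeries.coeff_mk]
  rfl

end rel

open Filter in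
theorem Red_ev_poly (P : Polynomial ℚ) :
    ∀ᶠ p : ℕ in atTop, ∀ _ : Fact p.Prime, ∃ Q, Red_P p P Q := by
  obtain ⟨N, hN⟩ : ∃ N : ℕ, N = ∑ i ∈ Finset.range (P.natDegree + 1), (P.coeff i).den := ⟨_, rfl⟩
  filter_upwards [eventually_gt_atTop N] with p hp hprime
  refine Red_P.exists fun i => ?_
  rw [Red_mem]
  intro h
  rw [ZMod.natCast_eq_zero_iff] at h
  have h1 := Nat.le_of_dvd (P.coeff i).den_pos h
  by_cases hi : i < P.natDegree + 1
  · have h2 : (P.coeff i).den ≤ N := by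
      rw [hN]
      exact Finset.single_le_sum (f := fun i => (P.coeff i).den) (fun _ _ => Nat.zero_le _)
        (Finset.mem_range.2 hi)
    omega
  · rw [Polynomial.coeff_eq_zero_of_natDegree_lt (by omega), Rat.den_zero] at h1
    have := hprime.out.two_le
    omega

open Filter in
theorem Red_ev_ser {n : ℕ} {y : ℚ⟦X⟧} (hy : IsDeg ℚ n y) :
    ∀ᶠ p : ℕ in atTop, ∀ _ : Fact p.Prime, ∃ z, Red_R p y z := by
  obtain ⟨M, hM, h⟩ := eisenstein hy
  filter_upwards [eventually_gt_atTop M] with p hp hprime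
  refine Red_R.exists fun i => ?_
  rw [Red_mem]
  intro h0
  rw [ZMod.natCast_eq_zero_iff] at h0
  obtain ⟨j, m, hjm⟩ := h i
  have hM0 : (M : ℚ) ^ j ≠ 0 := pow_ne_zero _ (by exact_mod_cast (by omega : M ≠ 0))
  have h1 : PowerSeries.coeff i y = Rat.divInt m ((M ^ j : ℕ) : ℤ) := by
    rw [Rat.divInt_eq_div, eq_div_iff (by exact_mod_cast hM0)]
    push_cast
    rw [mul_comm]
    exact hjm
  have h2 := Rat.den_dvd m ((M ^ j : ℕ) : ℤ)
  rw [← h1] at h2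
  have h3 : p ∣ M ^ j := h0.trans (Int.natCast_dvd_natCast.1 h2)
  have h4 := hprime.out.dvd_of_dvd_pow h3
  have h5 := Nat.le_of_dvd (by omega) h4
  omega

open Filter in
theorem Red_ev_deg {n : ℕ} {y : ℚ⟦X⟧} (hy : IsDeg ℚ n y) :
    ∀ᶠ p : ℕ in atTop, ∀ _ : Fact p.Prime, ∀ z, Red_R p y z → IsDeg (ZMod p) n z := by
  obtain ⟨R, a, hR, ha, h0⟩ := hy
  have h1 : ∀ᶠ p : ℕ in atTop, ∀ m ∈ Finset.Icc 1 R, ∀ _ : Fact p.Prime, ∃ Q, Red_P p (a m) Q :=
    (Filter.eventually_all_finset _).2 fun m _ => Red_ev_poly (a m)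
  filter_upwards [h1] with p hp hprime z hz
  have h2 : ∀ m, ∃ Q : Polynomial (ZMod p), (m ∈ Finset.Icc 1 R → Red_P p (a m) Q) ∧
      Q.natDegree ≤ n * m := by
    intro m
    by_cases hm : m ∈ Finset.Icc 1 R
    · obtain ⟨Q, hQ⟩ := hp m hm hprime
      exact ⟨Q, fun _ => hQ, hQ.natDegree.trans (ha m)⟩
    · exact ⟨0, fun h => absurd h hm, by simp⟩
  choose Q hQ1 hQ2 using h2
  refine ⟨R, Q, hR, hQ2, ?_⟩
  have h3 : Red_R p (y ^ R + ∑ m ∈ Finset.Icc 1 R, OU.evl ℚ (a m) * y ^ (R - m))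
      (z ^ R + ∑ m ∈ Finset.Icc 1 R, OU.evl (ZMod p) (Q m) * z ^ (R - m)) :=
    (hz.pow R).add (Red_R.sum _ fun m hm => (Red_R.evl (hQ1 m hm)).mul (hz.pow _))
  rw [h0] at h3
  exact h3.unique Red_R.zero

open Filter in
theorem Red_ev_SPn {r : ℕ} {e : Fin r → ℚ⟦X⟧} {y : ℚ⟦X⟧} {n : ℕ} (hy : y ∈ SPn ℚ e n) :
    ∀ᶠ p : ℕ in atTop, ∀ _ : Fact p.Prime, ∀ (E : Fin r → (ZMod p)⟦X⟧) (z : (ZMod p)⟦X⟧),
      (∀ l, Red_R p (e l) (E l)) → Red_R p y z → z ∈ SPn (ZMod p) E n := by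
  obtain ⟨P, hP, h0⟩ := hy
  have h1 : ∀ᶠ p : ℕ in atTop, ∀ l, ∀ _ : Fact p.Prime, ∃ Q, Red_P p (P l) Q :=
    Filter.eventually_all.2 fun l => Red_ev_poly (P l)
  filter_upwards [h1] with p hp hprime E z hE hz
  choose Q hQ using fun l => hp l hprime
  refine ⟨Q, fun l => (hQ l).natDegree.trans (hP l), ?_⟩
  have h3 : Red_R p (∑ l, OU.evl ℚ (P l) * e l) (∑ l, OU.evl (ZMod p) (Q l) * E l) :=
    Red_R.sum _ fun l _ => (Red_R.evl (hQ l)).mul (hE l)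
  rw [← h0] at h3
  exact hz.unique h3

theorem Red_SP_SPn {r : ℕ} {e : Fin r → ℚ⟦X⟧} {y : ℚ⟦X⟧} (hy : y ∈ SP ℚ e) :
    ∃ n, y ∈ SPn ℚ e n := by
  obtain ⟨P, hP⟩ := hy
  exact ⟨∑ l, (P l).natDegree, P, fun l =>
    Finset.single_le_sum (f := fun l => (P l).natDegree) (fun _ _ => Nat.zero_le _)
      (Finset.mem_univ l), hP⟩

theorem Red_SPn_SP {K : Type*} [Field K] {r : ℕ} {e : Fin r → K⟦X⟧} {y : K⟦X⟧} {n : ℕ}
    (hy : y ∈ SPn K e n) : y ∈ SP K e := by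
  obtain ⟨P, _, hP⟩ := hy
  exact ⟨P, hP⟩

theorem red (f : ℤ⟦X⟧) (k : ℕ) (hf : LForm ℚ k (PowerSeries.map (Int.castRingHom ℚ) f)) :
    ∃ r c p0 : ℕ, 1 ≤ r ∧ ∀ (p : ℕ) [Fact p.Prime], p0 < p →
      ∃ e : Fin r → (ZMod p)⟦X⟧, RD (ZMod p) r c e ∧
        PowerSeries.map (Int.castRingHom (ZMod p)) f * (U (ZMod p))⁻¹ ^ k ∈ SPn (ZMod p) e c ∧
        dbl (ZMod p) (PowerSeries.map (Int.castRingHom (ZMod p)) f) * (U (ZMod p))⁻¹ ^ k ∈
          SPn (ZMod p) e c := by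
  obtain ⟨r, e, hLD, h1, h2, -, -⟩ := hf
  obtain ⟨c0, hb1, hb2, hb3, hb4⟩ := hLD.bounds
  obtain ⟨n1, hn1⟩ := Red_SP_SPn h1
  obtain ⟨n2, hn2⟩ := Red_SP_SPn h2
  have hr : 1 ≤ r := by
    by_contra hr
    have hr0 : r = 0 := by omega
    subst hr0
    obtain ⟨P, hP⟩ := hLD.one
    simp at hP
  obtain ⟨c, hc⟩ : ∃ c : ℕ, c = c0 + n1 + n2 := ⟨_, rfl⟩
  have k3 : ∀ l, OT.del ℚ (e l) ∈ SPn ℚ e c := fun l => MPg_mono (by omega) (hb3 l)
  have k5 : PowerSeries.map (Int.castRingHom ℚ) f * (U ℚ)⁻¹ ^ k ∈ SPn ℚ e c :=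
    MPg_mono (by omega) hn1
  have k6 : dbl ℚ (PowerSeries.map (Int.castRingHom ℚ) f) * (U ℚ)⁻¹ ^ k ∈ SPn ℚ e c :=
    MPg_mono (by omega) hn2
  have k4 : ∀ l, IsDeg ℚ c (e l) := fun l => IsDeg.mono (by omega) (hb4 l)
  have E1 := Red_ev_SPn hb1
  have E2 := Filter.eventually_all.2 fun l => Filter.eventually_all.2 fun l' => Red_ev_SPn (hb2 l l')
  have E3 := Filter.eventually_all.2 fun l => Red_ev_SPn (k3 l)
  have E4 := Filter.eventually_all.2 fun l => Red_ev_deg (k4 l)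
  have E5 := Red_ev_SPn k5
  have E6 := Red_ev_SPn k6
  have E7 := Filter.eventually_all.2 fun l => Red_ev_ser (k4 l)
  obtain ⟨p0, hp0⟩ := Filter.eventually_atTop.1 ((((((E1.and E2).and E3).and E4).and E5).and E6).and E7)
  refine ⟨r, c, p0, hr, ?_⟩
  intro p hp hpp
  obtain ⟨⟨⟨⟨⟨⟨g1, g2⟩, g3⟩, g4⟩, g5⟩, g6⟩, g7⟩ := hp0 p hpp.le
  choose E hE using fun l => g7 l hp
  refine ⟨E, ⟨?_, ?_, ?_, ?_⟩, ?_, ?_⟩
  · exact Red_SPn_SP (g1 hp E 1 hE Red_R.one)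
  · intro l l'
    exact Red_SPn_SP (g2 l l' hp E _ hE ((hE l).mul (hE l')))
  · intro l
    exact g3 l hp E _ hE (hE l).del
  · intro l
    exact g4 l hp _ (hE l)
  · exact g5 hp E _ hE ((Red_R.int f).mul (Red_R.Uinv.pow k))
  · exact g6 hp E _ hE ((Red_R.int f).dbl.mul (Red_R.Uinv.pow k))

end Pool.Agent.H85.OU
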