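import Pool.Agent.H85.OU.ILa
import Pool.Agent.H85.OU.ILb
import Pool.Agent.H85.OU.ILc
import Pool.Agent.H85.OU.Red
import Pool.Agent.H85.OU.Cnv
import Pool.Agent.H85.OT.Ccore

/-!
# Row ILD (project OU): the core inequality

Same scheme as `OT/Ccore.lean` (copy and adapt).  `κ = k - 2`; `r, c, p1` from `red`; `c3 = (k-2) + (3c+1+k)`.  For `L ≥ 2`: `C0` from `ze_phiL`, `C = max C0 (L²)` (`≥ 1`), `p0 = max p1 (max k 2)`.
Given `ρ, B, n`: `Y = C(n+1)`, `T = L²(n+1)/2 ≤ Y`.  `siegel_phiL` gives `t ≠ 0`; let `T'` be the least index with `coeff T' PhiL ≠ 0`: `T ≤ T' ≤ C0 (n+1) ≤ Y`.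
`m := Z0^(2L) coeff T' PhiL` is a nonzero integer (`den_GGl`).  Each `p ∈ SSl (Sl2 f) r c3 L n p0 T'` divides `m` (`p_dvdL` with `Z = Z0^(2L)`, `e` from `red`; `p > k`, `p > 2`), so the product of these primes
divides `m`, `∑ log p ≤ log |m|`, and `|m| ≤ N Z0^(2L) · (N Z0^(2L) (2MR)^W B^(2L) ρ^(-T)) · ((2MR)^W B^(2L) ρ^(-T'))`, `N = L²(n+1)`, `W = 2n + 2κL`.  Take logs (`Ccore_log`-type lemma), `ρ^(-T) ≤ ρ^(-T')`.
`core_allL` adds `B` from `exists_Bd_FL`.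
-/

open PowerSeries
open Pool.Agent.H85.OT

namespace Pool.Agent.H85.OU

private theorem ILd_log {N z M b r : ℝ} (hN : 0 < N) (hz : 0 < z) (hM : 0 < M) (hb : 0 < b)
    (hr : 0 < r) {e W T : ℕ} :
    Real.log (N * ((N * (z ^ e * M ^ W * b ^ e * r ^ T)) * (z ^ e * (M ^ W * b ^ e * r ^ T)))) =
      2 * e * Real.log z + 2 * T * Real.log r + 2 * W * Real.log M + 2 * e * Real.log b +
        2 * Real.log N := by
  have e1 : N * ((N * (z ^ e * M ^ W * b ^ e * r ^ T)) * (z ^ e * (M ^ W * b ^ e * r ^ T))) =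
      N ^ 2 * z ^ (2 * e) * M ^ (2 * W) * b ^ (2 * e) * r ^ (2 * T) := by ring
  rw [e1, Real.log_mul (by positivity) (by positivity), Real.log_mul (by positivity) (by positivity),
    Real.log_mul (by positivity) (by positivity), Real.log_mul (by positivity) (by positivity),
    Real.log_pow, Real.log_pow, Real.log_pow, Real.log_pow, Real.log_pow]
  push_cast
  ring

theorem core_ineqL (f : ℤ⟦X⟧) (k : ℕ) (hk : 3 ≤ k)
    (hf : LForm ℚ k (PowerSeries.map (Int.castRingHom ℚ) f)) (hne : f ≠ 0)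
    (h0 : PowerSeries.coeff 0 f = 0) :
    ∃ r c3 : ℕ, 1 ≤ r ∧ 1 ≤ c3 ∧ ∀ L : ℕ, 2 ≤ L → ∃ C p0 : ℕ, 1 ≤ C ∧
      ∀ ρ : ℝ, 0 < ρ → ρ < 1 → ∃ B : ℝ, 1 ≤ B ∧
      ∀ n : ℕ, ∃ T' : ℕ, L ^ 2 * (n + 1) / 2 ≤ T' ∧ T' ≤ C * (n + 1) ∧
        ∑ p ∈ SSl (Sl2 f) r c3 L n p0 T', Real.log p ≤
          4 * L * Real.log (Z0 f (C * (n + 1))) + 2 * T' * Real.log (ρ⁻¹) +
          2 * (2 * n + 2 * ((k - 2 : ℕ) : ℝ) * L) * Real.log (2 * MR ρ) + 4 * L * Real.log B +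
          2 * Real.log (L ^ 2 * (n + 1)) := by
  classical
  obtain ⟨r, c, p1, hr, hred⟩ := red f k hf
  refine ⟨r, (k - 2) + (3 * c + 1 + k), hr, by omega, ?_⟩
  intro L hL
  obtain ⟨C0, hC0⟩ := ze_phiL f k hk hf hne h0 L
  refine ⟨max C0 (L ^ 2), max p1 (max k 2), ?_, ?_⟩
  · exact (Nat.one_le_pow 2 L (by omega)).trans (le_max_right _ _)
  intro ρ hρ hρ1
  obtain ⟨B, hB, hb1, hb2⟩ := exists_Bd_FL hf hρ hρ1
  refine ⟨B, hB, ?_⟩
  intro n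
  obtain ⟨Y, hY⟩ : ∃ Y : ℕ, Y = max C0 (L ^ 2) * (n + 1) := ⟨_, rfl⟩
  obtain ⟨T, hT⟩ : ∃ T : ℕ, T = L ^ 2 * (n + 1) / 2 := ⟨_, rfl⟩
  rw [← hY, ← hT]
  have hTY : T ≤ Y := by
    rw [hT, hY]
    exact (Nat.div_le_self _ _).trans (Nat.mul_le_mul_right _ (le_max_right _ _))
  obtain ⟨t, ht0, hvan, htb⟩ := siegel_phiL f (k - 2) L n Y hL hρ hρ1 hB hb1 hb2
    (by rw [← hT]; exact hTY)
  rw [← hT] at hvan htb
  obtain ⟨l0, hl0, hl0'⟩ := hC0 n t ht0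
  have hex : ∃ l, PowerSeries.coeff l (PhiL f (k - 2) L n t) ≠ 0 := ⟨l0, hl0'⟩
  obtain ⟨T', hT1, hT2⟩ : ∃ T', PowerSeries.coeff T' (PhiL f (k - 2) L n t) ≠ 0 ∧
      ∀ l < T', PowerSeries.coeff l (PhiL f (k - 2) L n t) = 0 :=
    ⟨Nat.find hex, Nat.find_spec hex, fun l hl => not_not.1 (Nat.find_min hex hl)⟩
  have hTT : T ≤ T' := by
    by_contra h
    exact hT1 (hvan T' (not_le.1 h))
  have hTl : T' ≤ l0 := by
    by_contra h
    exact hl0' (hT2 l0 (not_le.1 h))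
  have hT'Y : T' ≤ Y := by
    rw [hY]
    exact hTl.trans (hl0.trans (Nat.mul_le_mul_right _ (le_max_left _ _)))
  refine ⟨T', hTT, hT'Y, ?_⟩
  choose ms hms using fun s => den_GGl f (k - 2) L n s Y T' hT'Y
  obtain ⟨m, hmdef⟩ : ∃ m : ℤ, m = ∑ s, t s * ms s := ⟨_, rfl⟩
  have hZ := Z0_pos f Y
  have hm : ((((Z0 f Y : ℕ) : ℤ) ^ (2 * L) : ℤ) : ℚ) *
      PowerSeries.coeff T' (PhiL f (k - 2) L n t) = m := by
    rw [PhiL, map_sum, Finset.mul_sum, hmdef]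
    push_cast
    refine Finset.sum_congr rfl fun s _ => ?_
    rw [PowerSeries.coeff_C_mul, ← hms s]
    ring
  have hm0 : m ≠ 0 := by
    intro h
    rw [h, Int.cast_zero] at hm
    rcases mul_eq_zero.1 hm with h1 | h1
    · have h2 : ((Z0 f Y : ℕ) : ℤ) ^ (2 * L) = 0 := by exact_mod_cast h1
      have h3 := (pow_eq_zero_iff (by omega : 2 * L ≠ 0)).1 h2
      omega
    · exact hT1 h1
  have hdvd : ∀ p ∈ SSl (Sl2 f) r ((k - 2) + (3 * c + 1 + k)) L n (max p1 (max k 2)) T',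
      (p : ℤ) ∣ m := by
    intro p hp
    rw [SSl, Finset.mem_filter] at hp
    obtain ⟨-, hpp, hpl, hps, hpT⟩ := hp
    have hfact : Fact p.Prime := ⟨hpp⟩
    have hp1 : p1 < p := (le_max_left _ _).trans_lt hpl
    have hkp : k < p := ((le_max_left _ _).trans (le_max_right _ _)).trans_lt hpl
    have hp2 : 2 < p := ((le_max_right _ _).trans (le_max_right _ _)).trans_lt hpl
    obtain ⟨e, q1, q2, q3⟩ := hred p hp1
    exact p_dvdL f h0 k hk p (by omega) hkp hps e q1 q2 q3 L n T' t hpT hT2 _ m hm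
  have hprod : (∏ p ∈ SSl (Sl2 f) r ((k - 2) + (3 * c + 1 + k)) L n (max p1 (max k 2)) T', p) ∣
      m.natAbs := by
    refine Finset.prod_primes_dvd _ (fun p hp => ?_) (fun p hp => ?_)
    · rw [SSl, Finset.mem_filter] at hp
      exact hp.2.1.prime
    · exact Int.natCast_dvd.1 (hdvd p hp)
  have hle := Nat.le_of_dvd (Int.natAbs_pos.2 hm0) hprod
  have hprime : ∀ p ∈ SSl (Sl2 f) r ((k - 2) + (3 * c + 1 + k)) L n (max p1 (max k 2)) T',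
      (p : ℝ) ≠ 0 := by
    intro p hp
    rw [SSl, Finset.mem_filter] at hp
    exact_mod_cast hp.2.1.ne_zero
  have hlog1 : ∑ p ∈ SSl (Sl2 f) r ((k - 2) + (3 * c + 1 + k)) L n (max p1 (max k 2)) T',
      Real.log p ≤ Real.log |(m : ℝ)| := by
    rw [← Real.log_prod hprime]
    apply Real.log_le_log
    · exact Finset.prod_pos fun p hp => lt_of_le_of_ne (Nat.cast_nonneg p) (hprime p hp).symm
    · have h1 : ((∏ p ∈ SSl (Sl2 f) r ((k - 2) + (3 * c + 1 + k)) L n (max p1 (max k 2)) T',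
          p : ℕ) : ℝ) ≤ ((m.natAbs : ℕ) : ℝ) := by exact_mod_cast hle
      rw [Nat.cast_prod, Nat.cast_natAbs, Int.cast_abs] at h1
      exact h1
  refine hlog1.trans ?_
  have hMR : 0 < 2 * MR ρ := by
    unfold MR
    have : 0 < 1 - ρ := by linarith
    positivity
  have hB0 : 0 < B := by linarith
  have hZr : (0 : ℝ) < (Z0 f Y : ℝ) := by exact_mod_cast hZ
  have hN0 : (0 : ℝ) < (L : ℝ) ^ 2 * ((n : ℝ) + 1) := by
    have : (0 : ℝ) < L := by exact_mod_cast (by omega : 0 < L)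
    positivity
  have hri : 0 < ρ⁻¹ := inv_pos.2 hρ
  have hri1 : 1 ≤ ρ⁻¹ := (one_le_inv₀ hρ).2 hρ1.le
  have hpw : (ρ⁻¹) ^ T ≤ (ρ⁻¹) ^ T' := pow_le_pow_right₀ hri1 hTT
  obtain ⟨W, hW⟩ : ∃ W : ℕ, W = 2 * n + 2 * (k - 2) * L := ⟨_, rfl⟩
  rw [← hW] at htb
  have hms' : ∀ s, |(ms s : ℝ)| ≤ (Z0 f Y : ℝ) ^ (2 * L) *
      ((2 * MR ρ) ^ W * B ^ (2 * L) * (ρ⁻¹) ^ T') := by
    intro s
    have h1 : (ms s : ℝ) = (Z0 f Y : ℝ) ^ (2 * L) *
        ((PowerSeries.coeff T' (GGl f (k - 2) L n s) : ℚ) : ℝ) := by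
      have h2 := congrArg (fun q : ℚ => (q : ℝ)) (hms s)
      push_cast at h2
      exact h2.symm
    rw [h1, abs_mul, abs_of_pos (pow_pos hZr _)]
    refine mul_le_mul_of_nonneg_left ?_ (pow_pos hZr _).le
    have h3 := GGl_bd f (k - 2) L n s hρ hρ1 hB hb1 hb2 T'
    rw [← hW] at h3
    exact h3
  have hts : ∀ s, |((t s : ℤ) : ℝ)| ≤ (L ^ 2 * (n + 1) : ℝ) *
        ((Z0 f Y : ℝ) ^ (2 * L) * (2 * MR ρ) ^ W * B ^ (2 * L) * (ρ⁻¹) ^ T') := by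
    intro s
    refine (htb s).trans ?_
    refine mul_le_mul_of_nonneg_left ?_ hN0.le
    exact mul_le_mul_of_nonneg_left hpw (by positivity)
  have hmb : |(m : ℝ)| ≤ (L ^ 2 * (n + 1) : ℝ) *
      (((L ^ 2 * (n + 1) : ℝ) *
        ((Z0 f Y : ℝ) ^ (2 * L) * (2 * MR ρ) ^ W * B ^ (2 * L) * (ρ⁻¹) ^ T')) *
      ((Z0 f Y : ℝ) ^ (2 * L) * ((2 * MR ρ) ^ W * B ^ (2 * L) * (ρ⁻¹) ^ T'))) := by
    have h1 : (m : ℝ) = ∑ s, (t s : ℝ) * (ms s : ℝ) := by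
      rw [hmdef]
      push_cast
      rfl
    rw [h1]
    refine (Finset.abs_sum_le_sum_abs _ _).trans ?_
    refine (Finset.sum_le_card_nsmul _ _ (((L ^ 2 * (n + 1) : ℝ) *
        ((Z0 f Y : ℝ) ^ (2 * L) * (2 * MR ρ) ^ W * B ^ (2 * L) * (ρ⁻¹) ^ T')) *
      ((Z0 f Y : ℝ) ^ (2 * L) * ((2 * MR ρ) ^ W * B ^ (2 * L) * (ρ⁻¹) ^ T'))) fun s _ => ?_).trans
        (le_of_eq ?_)
    · rw [abs_mul]
      exact mul_le_mul (hts s) (hms' s) (abs_nonneg _) (by positivity)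
    · rw [nsmul_eq_mul]
      congr 1
      simp only [Finset.card_univ, Fintype.card_prod, Fintype.card_fin]
      push_cast
      ring
  have hmr : 0 < |(m : ℝ)| := abs_pos.2 (by exact_mod_cast hm0)
  refine (Real.log_le_log hmr hmb).trans (le_of_eq ?_)
  rw [ILd_log hN0 hZr hMR hB0 hri, hW]
  push_cast
  ring

end Pool.Agent.H85.OU
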