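import Pool.Agent.H85.OU.UM

/-!
# Row MA (project OU): closure properties of `IsMF` and `QE`

* `IsMF.mul`: `ModularForm.mul_slash_SL2`; sums `SlashAction.add_slash`; `smul`: `ModularForm.SL_smul_slash`; bounded functions form an algebra.
* `of_modularForm`: for `Γ` of finite index `ModularForm (Γ : Subgroup (GL (Fin 2) ℝ)) j`; cusps: `Subgroup.IsArithmetic.isCusp_iff_isCusp_SL2Z`, `OnePoint.isBoundedAt_iff_forall_SL2Z`, `isCusp_SL2Z_iff'` (see the proofs of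
  `Wb_form` in `OT/Wb.lean`, `Vmf_form` in `OT/Vmf.lean`, and the construction of `CuspForm.discriminant` in Mathlib).
* `exists_modularForm`: the converse.
* `QE`: `Cv.mul`, `Cv.add`, `Cv.smul`, `Cv.one`, `Cv.pow` of `OT/Vcv.lean`.  `QE.unique`: `Cv.ext` (every `0 < ‖q‖ < 1` is `exp(2π i τ)`).  `QE.inj`: `Cv.unique`.
* `exists_QE`: `h` holomorphic, `h(τ+1) = h(τ)` (from `h ∣[j] T = h`), bounded at `i∞`: `UpperHalfPlane.hasSum_qExpansion`; absolute convergence because a convergent power series converges absolutely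
  in the open disc (compare with a larger radius).  `F = qExpansion 1 h`.
-/

open PowerSeries UpperHalfPlane ModularForm MatrixGroups CongruenceSubgroup
open scoped Manifold

namespace Pool.Agent.H85.OU

open Pool.Agent.H85.OT

theorem IsMF.mul {Γ : Subgroup SL(2, ℤ)} {i j : ℤ} {f g : ℍ → ℂ} (hf : IsMF Γ i f)
    (hg : IsMF Γ j g) : IsMF Γ (i + j) (f * g) := by
  refine ⟨hf.1.mul hg.1, ?_, ?_⟩
  · intro γ hγ
    rw [ModularForm.mul_slash_SL2, hf.2.1 γ hγ, hg.2.1 γ hγ]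
  · intro γ
    rw [ModularForm.mul_slash_SL2]
    exact (hf.2.2 γ).mul (hg.2.2 γ)

theorem IsMF.add {Γ : Subgroup SL(2, ℤ)} {j : ℤ} {f g : ℍ → ℂ} (hf : IsMF Γ j f)
    (hg : IsMF Γ j g) : IsMF Γ j (f + g) := by
  refine ⟨hf.1.add hg.1, ?_, ?_⟩
  · intro γ hγ
    rw [SlashAction.add_slash, hf.2.1 γ hγ, hg.2.1 γ hγ]
  · intro γ
    rw [SlashAction.add_slash]
    exact (hf.2.2 γ).add (hg.2.2 γ)

theorem IsMF.smul {Γ : Subgroup SL(2, ℤ)} {j : ℤ} {f : ℍ → ℂ} (hf : IsMF Γ j f) (c : ℂ) :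
    IsMF Γ j (c • f) := by
  refine ⟨hf.1.const_smul c, ?_, ?_⟩
  · intro γ hγ
    rw [ModularForm.SL_smul_slash, hf.2.1 γ hγ]
  · intro γ
    rw [ModularForm.SL_smul_slash]
    exact (hf.2.2 γ).const_smul_left c

theorem IsMF.const (Γ : Subgroup SL(2, ℤ)) (c : ℂ) : IsMF Γ 0 (fun _ => c) := by
  have h1 : ∀ γ : SL(2, ℤ), (fun _ : ℍ => c) ∣[(0 : ℤ)] γ = (fun _ : ℍ => c) := by
    intro γ
    funext τ
    rw [SL_slash_apply]
    simp
  refine ⟨mdifferentiable_const, fun γ _ => h1 γ, fun γ => ?_⟩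
  rw [h1 γ]
  exact Filter.const_boundedAtFilter _ c

theorem IsMF.zero (Γ : Subgroup SL(2, ℤ)) (j : ℤ) : IsMF Γ j 0 := by
  have h1 : ∀ γ : SL(2, ℤ), (0 : ℍ → ℂ) ∣[j] γ = 0 := fun γ => SlashAction.zero_slash j γ
  refine ⟨mdifferentiable_const, fun γ _ => h1 γ, fun γ => ?_⟩
  rw [h1 γ]
  exact Filter.const_boundedAtFilter _ (0 : ℂ)

theorem IsMF.pow {Γ : Subgroup SL(2, ℤ)} {j : ℤ} {f : ℍ → ℂ} (hf : IsMF Γ j f) (n : ℕ) :
    IsMF Γ (j * n) (f ^ n) := by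
  induction n with
  | zero =>
    rw [pow_zero, Nat.cast_zero, mul_zero]
    exact IsMF.const Γ 1
  | succ n ih =>
    have h1 := ih.mul hf
    rw [pow_succ]
    have h2 : j * ((n + 1 : ℕ) : ℤ) = j * (n : ℤ) + j := by
      push_cast
      ring
    rw [h2]
    exact h1

theorem IsMF.mono {Γ Γ' : Subgroup SL(2, ℤ)} (h : Γ' ≤ Γ) {j : ℤ} {f : ℍ → ℂ}
    (hf : IsMF Γ j f) : IsMF Γ' j f := by
  exact ⟨hf.1, fun γ hγ => hf.2.1 γ (h hγ), hf.2.2⟩

theorem IsMF.of_modularForm {Γ : Subgroup SL(2, ℤ)} [Γ.FiniteIndex] {j : ℤ}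
    (g : ModularForm (Γ : Subgroup (GL (Fin 2) ℝ)) j) : IsMF Γ j (g : ℍ → ℂ) := by
  refine ⟨g.holo', ?_, ?_⟩
  · intro γ hγ
    exact g.slash_action_eq' (Matrix.SpecialLinearGroup.mapGL ℝ γ) ⟨γ, hγ, rfl⟩
  · intro γ
    have hc : IsCusp (Matrix.SpecialLinearGroup.mapGL ℝ γ • OnePoint.infty)
        (Matrix.SpecialLinearGroup.mapGL ℝ : SL(2, ℤ) →* GL (Fin 2) ℝ).range :=
      isCusp_SL2Z_iff'.mpr ⟨γ, rfl⟩
    have hc' : IsCusp (Matrix.SpecialLinearGroup.mapGL ℝ γ • OnePoint.infty)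
        (Γ : Subgroup (GL (Fin 2) ℝ)) := by
      rw [Subgroup.IsArithmetic.isCusp_iff_isCusp_SL2Z]
      exact hc
    have hb := g.bdd_at_cusps' hc'
    rw [OnePoint.isBoundedAt_iff_forall_SL2Z hc] at hb
    exact hb γ rfl

theorem IsMF.exists_modularForm {Γ : Subgroup SL(2, ℤ)} [Γ.FiniteIndex] {j : ℤ} {f : ℍ → ℂ}
    (hf : IsMF Γ j f) :
    ∃ g : ModularForm (Γ : Subgroup (GL (Fin 2) ℝ)) j, (g : ℍ → ℂ) = f := by
  refine ⟨{ toFun := f
            slash_action_eq' := ?_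
            holo' := hf.1
            bdd_at_cusps' := ?_ }, rfl⟩
  · rintro _ ⟨γ, hγ, rfl⟩
    exact hf.2.1 γ hγ
  · intro c hc
    rw [Subgroup.IsArithmetic.isCusp_iff_isCusp_SL2Z] at hc
    rw [OnePoint.isBoundedAt_iff_forall_SL2Z hc]
    intro γ _
    exact hf.2.2 γ

theorem IsMF.exists_QE {Γ : Subgroup SL(2, ℤ)} {j : ℤ} {f : ℍ → ℂ} (hf : IsMF Γ j f)
    (hT : ModularGroup.T ∈ Γ) : QE f (qExpansion 1 f) := by
  have hper1 : ∀ τ : ℍ, f ((1 : ℝ) +ᵥ τ) = f τ := by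
    intro τ
    have h1 := congrFun (hf.2.1 _ hT) τ
    rw [SL_slash_apply, modular_T_smul] at h1
    have h2 : denom ModularGroup.T τ = 1 := by
      rw [ModularGroup.denom_apply]
      simp [ModularGroup.T]
    rw [h2, one_zpow, mul_one] at h1
    exact h1
  have hper : Function.Periodic (f ∘ UpperHalfPlane.ofComplex) (1 : ℝ) := by
    intro z
    by_cases hz : 0 < z.im
    · have hz1 : 0 < (z + ((1 : ℝ) : ℂ)).im := by
        simpa using hz
      show f (UpperHalfPlane.ofComplex (z + ((1 : ℝ) : ℂ))) = f (UpperHalfPlane.ofComplex z)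
      rw [UpperHalfPlane.ofComplex_apply_of_im_pos hz, UpperHalfPlane.ofComplex_apply_of_im_pos hz1,
        ← hper1 ⟨z, hz⟩]
      congr 1
      ext1
      show z + ((1 : ℝ) : ℂ) = (((1 : ℝ) +ᵥ (⟨z, hz⟩ : ℍ) : ℍ) : ℂ)
      rw [UpperHalfPlane.coe_vadd, add_comm]
    · have hz1 : ¬ 0 < (z + ((1 : ℝ) : ℂ)).im := by
        simpa using hz
      show f (UpperHalfPlane.ofComplex (z + ((1 : ℝ) : ℂ))) = f (UpperHalfPlane.ofComplex z)
      rw [UpperHalfPlane.ofComplex_apply_of_im_nonpos (not_lt.1 hz),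
        UpperHalfPlane.ofComplex_apply_of_im_nonpos (not_lt.1 hz1)]
  have hbdd : IsBoundedAtImInfty f := by
    have h1 := hf.2.2 1
    rwa [SlashAction.slash_one] at h1
  intro τ
  have hs := UpperHalfPlane.hasSum_qExpansion one_pos hper hf.1 hbdd τ
  have hq : Function.Periodic.qParam 1 (τ : ℂ) = Complex.exp (2 * Real.pi * Complex.I * (τ : ℂ)) := by
    rw [Function.Periodic.qParam]
    congr 1
    push_cast
    ring
  rw [hq] at hs
  have hs' : HasSum (fun n => PowerSeries.coeff n (qExpansion 1 f) *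
      Complex.exp (2 * Real.pi * Complex.I * (τ : ℂ)) ^ n) (f τ) := hs
  exact ⟨hs'.summable.norm, hs'⟩

theorem QE.mul {f g : ℍ → ℂ} {F G : ℂ⟦X⟧} (hf : QE f F) (hg : QE g G) :
    QE (f * g) (F * G) := by
  exact fun τ => (hf τ).mul (hg τ)

theorem QE.add {f g : ℍ → ℂ} {F G : ℂ⟦X⟧} (hf : QE f F) (hg : QE g G) :
    QE (f + g) (F + G) := by
  exact fun τ => (hf τ).add (hg τ)

theorem QE.smul {f : ℍ → ℂ} {F : ℂ⟦X⟧} (hf : QE f F) (c : ℂ) :
    QE (c • f) (PowerSeries.C c * F) := by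
  exact fun τ => (hf τ).smul c

theorem QE.const (c : ℂ) : QE (fun _ => c) (PowerSeries.C c) := by
  intro τ
  have h1 := (Cv.one (Complex.exp (2 * Real.pi * Complex.I * (τ : ℂ)))).smul c
  rw [mul_one, mul_one] at h1
  exact h1

theorem QE.pow {f : ℍ → ℂ} {F : ℂ⟦X⟧} (hf : QE f F) (n : ℕ) : QE (f ^ n) (F ^ n) := by
  exact fun τ => (hf τ).pow n

theorem QE.unique {f : ℍ → ℂ} {F G : ℂ⟦X⟧} (hf : QE f F) (hg : QE f G) : F = G := by
  refine Cv.ext 1 one_pos fun q hq0 hq1 => ?_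
  have him := Function.Periodic.im_invQParam_pos_of_norm_lt_one one_pos hq1 (norm_pos_iff.1 hq0)
  have hq : Complex.exp (2 * Real.pi * Complex.I * Function.Periodic.invQParam 1 q) = q := by
    have h1 := Function.Periodic.qParam_right_inv (one_ne_zero : (1 : ℝ) ≠ 0) (norm_pos_iff.1 hq0)
    rw [Function.Periodic.qParam] at h1
    rw [← h1]
    congr 1
    rw [h1]
    push_cast
    ring
  have h2 := hf ⟨Function.Periodic.invQParam 1 q, him⟩
  have h3 := hg ⟨Function.Periodic.invQParam 1 q, him⟩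
  have h4 : Complex.exp (2 * Real.pi * Complex.I *
      ((⟨Function.Periodic.invQParam 1 q, him⟩ : ℍ) : ℂ)) = q := hq
  rw [h4] at h2 h3
  exact ⟨_, h2, h3⟩

theorem QE.inj {f g : ℍ → ℂ} {F : ℂ⟦X⟧} (hf : QE f F) (hg : QE g F) : f = g := by
  funext τ
  exact Cv.unique (hf τ) (hg τ)

end Pool.Agent.H85.OU
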