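import Pool.Agent.H85.OU.Ma

/-!
# Row ME (project OU): `g(2τ)`

`Γ` of finite index with `T ∈ Γ`, `g` a form of weight `j` for `Γ`.  `Γ2 = {γ = [[a,b],[c,d]] ∈ Γ₀(2) : γ' := [[a, 2b],[c/2, d]] ∈ Γ}`; `γ ↦ γ'` is a homomorphism `Γ₀(2) → SL₂(ℤ)` (conjugation by `diag(2,1)`), so `Γ2` is the
preimage of a finite index subgroup, of finite index in `Γ₀(2)` (finite index in `SL₂(ℤ)`).  `T' = T² ∈ Γ`, so `T ∈ Γ2`.
Put `g2(τ) = g(2τ)` (`Wb_2` of `OT/Wb.lean`: `2τ` as an element of `ℍ`).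
* invariance: `2 γτ = γ'(2τ)`, `cτ + d = (c/2)(2τ) + d`.
* bounded: for `γ = [[a,b],[c,d]] ∈ SL₂(ℤ)`: `[[2a,2b],[c,d]] = γ'' M` with `γ'' ∈ SL₂(ℤ)`: `c` even: `γ'' = [[a,2b],[c/2,d]]`, `M = [[2,0],[0,1]]`; `c` odd, `d` even: `γ'' = [[2a,b],[c,d/2]]`, `M = [[1,0],[0,2]]`;
  `c, d` odd: `γ'' = [[2a,b-a],[c,(d-c)/2]]`, `M = [[1,1],[0,2]]` (see `Wb_cusp` in `OT/Wb.lean`).  So `(g2∣γ)(τ)` is a constant times `(g∣γ'')(Mτ)`, `Mτ = 2τ, τ/2, (τ+1)/2`, bounded as `im τ → ∞` (`Wb_lim2`, `Wb_limh`, `Wb_limk`).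
* `QE g2 (dbl ℂ G)`: `exp(2π i 2τ) = q²`, `Cv.dbl`.
(Alternatively use `ModularForm.translate` by `diag(2,1) ∈ GL₂(ℝ)` and `Subgroup.IsArithmetic` of conjugates.)
-/

open PowerSeries UpperHalfPlane ModularForm MatrixGroups CongruenceSubgroup
open scoped Manifold

namespace Pool.Agent.H85.OU

open Pool.Agent.H85.OT

theorem Me_fin {G H : Type*} [Group G] [Group H] (f : G →* H) (K : Subgroup H)
    (hK : K.FiniteIndex) : (K.comap f).FiniteIndex := by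
  refine ⟨?_⟩
  rw [Subgroup.index_comap]
  intro h0
  have h1 := Subgroup.relIndex_eq_zero_of_le_right (le_top : f.range ≤ ⊤) h0
  rw [Subgroup.relIndex_top_right] at h1
  exact hK.index_ne_zero h1

theorem Me_two {γ : SL(2, ℤ)} (h : γ ∈ Gamma0 2) : ∃ k : ℤ, γ 1 0 = 2 * k := by
  rw [Gamma0_mem] at h
  obtain ⟨k, hk⟩ := (ZMod.intCast_zmod_eq_zero_iff_dvd (γ 1 0) 2).1 h
  exact ⟨k, by exact_mod_cast hk⟩

theorem Me_det (γ : SL(2, ℤ)) : γ 0 0 * γ 1 1 - γ 0 1 * γ 1 0 = 1 := by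
  have := γ.det_coe
  rw [Matrix.det_fin_two] at this
  exact this

theorem Me_detP (γ : Gamma0 2) : (γ : SL(2, ℤ)) 0 0 * (γ : SL(2, ℤ)) 1 1 -
    (2 * (γ : SL(2, ℤ)) 0 1) * ((γ : SL(2, ℤ)) 1 0 / 2) = 1 := by
  obtain ⟨k, hk⟩ := Me_two γ.2
  have h := Me_det (γ : SL(2, ℤ))
  rw [hk] at h ⊢
  rw [Int.mul_ediv_cancel_left k (by norm_num)]
  linarith

/-- `γ ↦ [[a, 2b], [c/2, d]]` on `Γ₀(2)` -/
def Me_phi : Gamma0 2 →* SL(2, ℤ) where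
  toFun γ := Wb_m ((γ : SL(2, ℤ)) 0 0) (2 * (γ : SL(2, ℤ)) 0 1) ((γ : SL(2, ℤ)) 1 0 / 2)
    ((γ : SL(2, ℤ)) 1 1) (Me_detP γ)
  map_one' := by
    apply Subtype.ext
    ext i j
    fin_cases i <;> fin_cases j <;> simp [Wb_m]
  map_mul' := by
    intro x y
    apply Subtype.ext
    obtain ⟨k, hk⟩ := Me_two x.2
    obtain ⟨l, hl⟩ := Me_two y.2
    have e1 : ∀ i j, ((x * y : Gamma0 2) : SL(2, ℤ)) i j =
        (x : SL(2, ℤ)) i 0 * (y : SL(2, ℤ)) 0 j + (x : SL(2, ℤ)) i 1 * (y : SL(2, ℤ)) 1 j := by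
      intro i j
      rw [Subgroup.coe_mul]
      show (((x : SL(2, ℤ)) * (y : SL(2, ℤ)) : SL(2, ℤ)) : Matrix (Fin 2) (Fin 2) ℤ) i j = _
      rw [Matrix.SpecialLinearGroup.coe_mul, Matrix.mul_apply, Fin.sum_univ_two]
    have e2 : ((x * y : Gamma0 2) : SL(2, ℤ)) 1 0 / 2 =
        k * (y : SL(2, ℤ)) 0 0 + (x : SL(2, ℤ)) 1 1 * l := by
      rw [e1, hk, hl, show 2 * k * (y : SL(2, ℤ)) 0 0 + (x : SL(2, ℤ)) 1 1 * (2 * l) =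
        2 * (k * (y : SL(2, ℤ)) 0 0 + (x : SL(2, ℤ)) 1 1 * l) by ring]
      exact Int.mul_ediv_cancel_left _ (by norm_num)
    have e3 : (x : SL(2, ℤ)) 1 0 / 2 = k := by
      rw [hk]; exact Int.mul_ediv_cancel_left _ (by norm_num)
    have e4 : (y : SL(2, ℤ)) 1 0 / 2 = l := by
      rw [hl]; exact Int.mul_ediv_cancel_left _ (by norm_num)
    rw [Matrix.SpecialLinearGroup.coe_mul]
    show !![_, _; _, _] = !![_, _; _, _] * !![_, _; _, _]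
    rw [Matrix.mul_fin_two, e2, e3, e4, e1, e1, e1, hl, hk]
    have f1 : (x : SL(2, ℤ)) 0 0 * (y : SL(2, ℤ)) 0 0 + (x : SL(2, ℤ)) 0 1 * (2 * l) =
        (x : SL(2, ℤ)) 0 0 * (y : SL(2, ℤ)) 0 0 + 2 * (x : SL(2, ℤ)) 0 1 * l := by ring
    have f2 : 2 * ((x : SL(2, ℤ)) 0 0 * (y : SL(2, ℤ)) 0 1 + (x : SL(2, ℤ)) 0 1 * (y : SL(2, ℤ)) 1 1) =
        (x : SL(2, ℤ)) 0 0 * (2 * (y : SL(2, ℤ)) 0 1) + 2 * (x : SL(2, ℤ)) 0 1 * (y : SL(2, ℤ)) 1 1 := by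
      ring
    have f3 : 2 * k * (y : SL(2, ℤ)) 0 1 + (x : SL(2, ℤ)) 1 1 * (y : SL(2, ℤ)) 1 1 =
        k * (2 * (y : SL(2, ℤ)) 0 1) + (x : SL(2, ℤ)) 1 1 * (y : SL(2, ℤ)) 1 1 := by ring
    rw [f1, f2, f3]

theorem Me_den (γ : SL(2, ℤ)) (τ : ℍ) : denom γ τ = (γ 1 0 : ℤ) * (τ : ℂ) + (γ 1 1 : ℤ) := by
  simp [denom]

theorem Me_coe (γ : SL(2, ℤ)) (τ : ℍ) : ((γ • τ : ℍ) : ℂ) =
    ((γ 0 0 : ℤ) * (τ : ℂ) + (γ 0 1 : ℤ)) / ((γ 1 0 : ℤ) * (τ : ℂ) + (γ 1 1 : ℤ)) := by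
  rw [UpperHalfPlane.coe_specialLinearGroup_apply]
  simp

theorem Me_eq (g : ℍ → ℂ) (j : ℤ) (γ γ' : SL(2, ℤ)) (U : ℍ → ℍ) (κ : ℂ)
    (h1 : ∀ τ : ℍ, denom γ τ = κ * denom γ' (U τ)) (h2 : ∀ τ : ℍ, Wb_2 (γ • τ) = γ' • U τ) :
    (fun τ => g (Wb_2 τ)) ∣[j] γ = fun τ => κ ^ (-j) * (g ∣[j] γ') (U τ) := by
  funext τ
  rw [SL_slash_apply, SL_slash_apply, h1, mul_zpow]
  show g (Wb_2 (γ • τ)) * _ = _
  rw [h2]
  ring

theorem Me_bdd {h : ℍ → ℂ} (hb : IsBoundedAtImInfty h) {U : ℍ → ℍ}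
    (hU : Filter.Tendsto U atImInfty atImInfty) (κ : ℂ) :
    IsBoundedAtImInfty (fun τ => κ * h (U τ)) := by
  have h1 : (fun τ => h (U τ)) =O[atImInfty] (1 : ℍ → ℝ) := by
    have h2 := Asymptotics.IsBigO.comp_tendsto hb hU
    exact h2
  exact h1.const_mul_left κ

theorem Me_cusp (g : ℍ → ℂ) (j : ℤ) (γ : SL(2, ℤ)) :
    ∃ (γ' : SL(2, ℤ)) (U : ℍ → ℍ) (κ : ℂ), Filter.Tendsto U atImInfty atImInfty ∧
      (fun τ => g (Wb_2 τ)) ∣[j] γ = fun τ => κ ^ (-j) * (g ∣[j] γ') (U τ) := by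
  have hdet := Me_det γ
  obtain ⟨a, ha⟩ : ∃ a, γ 0 0 = a := ⟨_, rfl⟩
  obtain ⟨b, hb⟩ : ∃ b, γ 0 1 = b := ⟨_, rfl⟩
  obtain ⟨c, hc⟩ : ∃ c, γ 1 0 = c := ⟨_, rfl⟩
  obtain ⟨d, hd⟩ : ∃ d, γ 1 1 = d := ⟨_, rfl⟩
  rw [ha, hb, hc, hd] at hdet
  have hne : ∀ τ : ℍ, ((c : ℂ) * τ + d) ≠ 0 := by
    refine Wb_ne c d ?_
    rintro ⟨rfl, rfl⟩
    simp at hdet
  rcases Int.even_or_odd' c with ⟨c', hc' | hc'⟩
  · have h : a * d - (2 * b) * c' = 1 := by rw [hc'] at hdet; linarith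
    refine ⟨Wb_m a (2 * b) c' d h, Wb_2, 1, Wb_lim2, Me_eq g j _ _ _ _ ?_ ?_⟩
    · intro τ
      rw [Me_den, Me_den, hc, hd]
      show ((c : ℤ) : ℂ) * τ + d = 1 * ((c' : ℤ) * (2 * (τ : ℂ)) + (d : ℤ))
      rw [hc']
      push_cast
      ring
    · intro τ
      apply UpperHalfPlane.ext
      rw [Me_coe]
      show 2 * ((γ • τ : ℍ) : ℂ) = ((a : ℤ) * (2 * (τ : ℂ)) + (2 * b : ℤ)) /
        ((c' : ℤ) * (2 * (τ : ℂ)) + (d : ℤ))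
      rw [Me_coe, ha, hb, hc, hd, hc']
      push_cast
      rw [← mul_div_assoc]
      congr 1 <;> ring
  · rcases Int.even_or_odd' d with ⟨d', hd' | hd'⟩
    · have h : (2 * a) * d' - b * c = 1 := by rw [hd'] at hdet; linarith
      refine ⟨Wb_m (2 * a) b c d' h, Wb_h, 2, Wb_limh, Me_eq g j _ _ _ _ ?_ ?_⟩
      · intro τ
        rw [Me_den, Me_den, hc, hd]
        show ((c : ℤ) : ℂ) * τ + d = 2 * ((c : ℤ) * ((τ : ℂ) / 2) + (d' : ℤ))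
        rw [hd']
        push_cast
        ring
      · intro τ
        have h2 := hne τ
        have e2 : (c : ℂ) * ((τ : ℂ) / 2) + d' = (c * τ + d) / 2 := by
          rw [hd']
          push_cast
          ring
        have e3 : ((2 * a : ℤ) : ℂ) * ((τ : ℂ) / 2) + b = a * τ + b := by
          push_cast
          ring
        apply UpperHalfPlane.ext
        rw [Me_coe]
        show 2 * ((γ • τ : ℍ) : ℂ) = ((2 * a : ℤ) * ((τ : ℂ) / 2) + (b : ℤ)) /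
          ((c : ℤ) * ((τ : ℂ) / 2) + (d' : ℤ))
        rw [Me_coe, ha, hb, hc, hd, e2, e3]
        field_simp
    · have h : (2 * a) * (d' - c') - (b - a) * c = 1 := by
        rw [hd'] at hdet
        rw [hc'] at hdet ⊢
        linarith
      refine ⟨Wb_m (2 * a) (b - a) c (d' - c') h, Wb_k, 2, Wb_limk, Me_eq g j _ _ _ _ ?_ ?_⟩
      · intro τ
        rw [Me_den, Me_den, hc, hd]
        show ((c : ℤ) : ℂ) * τ + d = 2 * ((c : ℤ) * (((τ : ℂ) + 1) / 2) + (d' - c' : ℤ))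
        rw [hd', hc']
        push_cast
        ring
      · intro τ
        have h2 := hne τ
        have e2 : (c : ℂ) * (((τ : ℂ) + 1) / 2) + ((d' - c' : ℤ) : ℂ) = (c * τ + d) / 2 := by
          rw [hd', hc']
          push_cast
          ring
        have e3 : ((2 * a : ℤ) : ℂ) * (((τ : ℂ) + 1) / 2) + ((b - a : ℤ) : ℂ) = a * τ + b := by
          push_cast
          ring
        apply UpperHalfPlane.ext
        rw [Me_coe]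
        show 2 * ((γ • τ : ℍ) : ℂ) = ((2 * a : ℤ) * (((τ : ℂ) + 1) / 2) + (b - a : ℤ)) /
          ((c : ℤ) * (((τ : ℂ) + 1) / 2) + (d' - c' : ℤ))
        rw [Me_coe, ha, hb, hc, hd, e2, e3]
        field_simp

theorem Me_inv (g : ℍ → ℂ) (j : ℤ) (γ : Gamma0 2) (hγ : g ∣[j] (Me_phi γ) = g) :
    (fun τ => g (Wb_2 τ)) ∣[j] (γ : SL(2, ℤ)) = fun τ => g (Wb_2 τ) := by
  obtain ⟨k, hk⟩ := Me_two γ.2
  have e0 : (γ : SL(2, ℤ)) 1 0 / 2 = k := by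
    rw [hk]; exact Int.mul_ediv_cancel_left _ (by norm_num)
  rw [Me_eq g j (γ : SL(2, ℤ)) (Me_phi γ) Wb_2 1 ?_ ?_, hγ, one_zpow]
  · funext τ
    rw [one_mul]
  · intro τ
    rw [Me_den, Me_den]
    show (((γ : SL(2, ℤ)) 1 0 : ℤ) : ℂ) * τ + (((γ : SL(2, ℤ)) 1 1 : ℤ) : ℂ) =
      1 * ((((γ : SL(2, ℤ)) 1 0 / 2 : ℤ) : ℂ) * (2 * (τ : ℂ)) + (((γ : SL(2, ℤ)) 1 1 : ℤ) : ℂ))
    rw [e0, hk]
    push_cast
    ring
  · intro τ
    apply UpperHalfPlane.ext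
    rw [Me_coe]
    show 2 * (((γ : SL(2, ℤ)) • τ : ℍ) : ℂ) =
      ((((γ : SL(2, ℤ)) 0 0 : ℤ) : ℂ) * (2 * (τ : ℂ)) + ((2 * (γ : SL(2, ℤ)) 0 1 : ℤ) : ℂ)) /
      ((((γ : SL(2, ℤ)) 1 0 / 2 : ℤ) : ℂ) * (2 * (τ : ℂ)) + (((γ : SL(2, ℤ)) 1 1 : ℤ) : ℂ))
    rw [Me_coe, e0, hk]
    push_cast
    rw [← mul_div_assoc]
    congr 1 <;> ring

theorem Me_holo {g : ℍ → ℂ} (hg : MDifferentiable 𝓘(ℂ) 𝓘(ℂ) g) :
    MDifferentiable 𝓘(ℂ) 𝓘(ℂ) (fun τ => g (Wb_2 τ)) := by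
  rw [UpperHalfPlane.mdifferentiable_iff] at hg ⊢
  have h1 : DifferentiableOn ℂ (fun z : ℂ => (g ∘ ofComplex) (2 * z)) {z : ℂ | 0 < z.im} := by
    refine DifferentiableOn.comp (g := g ∘ ofComplex) (f := fun z : ℂ => 2 * z) hg (by fun_prop) ?_
    intro z hz
    have h2 : (2 * z).im = 2 * z.im := by simp
    show 0 < (2 * z).im
    rw [h2]
    have : 0 < z.im := hz
    linarith
  refine h1.congr fun z hz => ?_
  have hz' : 0 < z.im := hz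
  have h3 : 0 < (2 * z).im := by
    have h2 : (2 * z).im = 2 * z.im := by simp
    rw [h2]
    linarith
  simp only [Function.comp]
  rw [ofComplex_apply_of_im_pos hz', ofComplex_apply_of_im_pos h3]
  rfl

theorem exists_dbl {Γ : Subgroup SL(2, ℤ)} (hfin : Γ.FiniteIndex) (hT : ModularGroup.T ∈ Γ)
    {j : ℤ} {g : ℍ → ℂ} (hg : IsMF Γ j g) {G : ℂ⟦X⟧} (hG : QE g G) :
    ∃ (Γ2 : Subgroup SL(2, ℤ)) (g2 : ℍ → ℂ), Γ2.FiniteIndex ∧ ModularGroup.T ∈ Γ2 ∧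
      IsMF Γ2 j g2 ∧ QE g2 (dbl ℂ G) := by
  refine ⟨(Γ.comap Me_phi).map (Gamma0 2).subtype, fun τ => g (Wb_2 τ), ?_, ?_, ⟨Me_holo hg.1, ?_, ?_⟩, ?_⟩
  · refine ⟨?_⟩
    rw [Subgroup.index_map_subtype]
    have h1 := (Me_fin Me_phi Γ hfin).index_ne_zero
    have h2 := (inferInstance : (Gamma0 2).FiniteIndex).index_ne_zero
    exact mul_ne_zero h1 h2
  · rw [Subgroup.mem_map]
    have hT0 : ModularGroup.T ∈ Gamma0 2 := by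
      rw [Gamma0_mem]
      simp [ModularGroup.T]
    refine ⟨⟨ModularGroup.T, hT0⟩, ?_, rfl⟩
    rw [Subgroup.mem_comap]
    have h1 : Me_phi ⟨ModularGroup.T, hT0⟩ = ModularGroup.T * ModularGroup.T := by
      apply Subtype.ext
      rw [Matrix.SpecialLinearGroup.coe_mul]
      ext i k
      fin_cases i <;> fin_cases k <;> rfl
    rw [h1]
    exact Γ.mul_mem hT hT
  · intro γ hγ
    rw [Subgroup.mem_map] at hγ
    obtain ⟨x, hx, rfl⟩ := hγ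
    exact Me_inv g j x (hg.2.1 _ hx)
  · intro γ
    obtain ⟨γ', U, κ, hU, h⟩ := Me_cusp g j γ
    rw [h]
    exact Me_bdd (hg.2.2 γ') hU _
  · intro τ
    refine Cv.dbl ?_
    have h1 := hG (Wb_2 τ)
    have h2 : Complex.exp (2 * Real.pi * Complex.I * ((Wb_2 τ : ℍ) : ℂ)) =
        Complex.exp (2 * Real.pi * Complex.I * (τ : ℂ)) ^ 2 := by
      rw [← Complex.exp_nat_mul]
      congr 1
      show 2 * Real.pi * Complex.I * (2 * (τ : ℂ)) = _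
      push_cast
      ring
    rw [h2] at h1
    exact h1

end Pool.Agent.H85.OU
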