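import Pool.Agent.H85.OU.DVb

/-!
# Row NB1 (project OU): poles at ordinary points and at the cusps `0, 1`

`nabs d g κ n a` is defined in `Bol.lean` (recursion `nab d g (-κ + 2n)`), coefficients (by `coeff_dext`):
`(nab d g w P)_0 = d P_0 + g P_1`, `(nab d g w P)_(j+1) = d P_(j+1) + (j+2) g P_(j+2) - j P_j + w P_j`.
(`dext d (C g - X²) P` has coefficient `j+1` equal to `d P_(j+1) + (j+2) g P_(j+2) - j P_j`.)
`Q_n = nabs d g κ n a`.
* `pole1` (ordinary point: `d` lowers `v(x) ≠ 0` by one, `v(g) ≥ 0`): suppose `v(a) = -m < 0`.  By induction: `(Q_n)_0 ≠ 0`, `v((Q_n)_0) = -m - n` and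
  `v((Q_n)_j) ≥ -m - n + j` for all `j ≥ 1` (or zero).  Step: `v(d (Q_n)_0) = -m-n-1`, `v(g (Q_n)_1) ≥ -m-n+1`, so coefficient `0` is fine by `add_eq`; coefficient
  `j+1`: `v(d (Q_n)_(j+1)) ≥ -m-n+j+1-1` (`h1` if `v ≠ 0`, `h2` if `v = 0`: then `≥ 0 ≥ v - 1`), `v(g (Q_n)_(j+2)) ≥ -m-n+j+2`, `v((Q_n)_j) ≥ -m-n+j`: all
  `≥ -m-(n+1)+(j+1)`.  Hence `v(ψ) = -m-κ-1 < 0`, contradiction.
* `pole2` (`d` preserves `v(x) ≠ 0`, `v(g) ≥ 1`): `v(a) = -m < 0`; by induction `(Q_n)_0 ≠ 0`, `v((Q_n)_0) = -m`, `v((Q_n)_j) ≥ -m` for all `j`; so `v(ψ) = -m < 0`.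
-/

open Pool.Agent.H85.OT

namespace Pool.Agent.H85.OU

variable {K L : Type*} [Field K] [CharZero K] [Field L] [Algebra K L] (V : DVal K L)

private lemma NB1_coeff (d : Dv L) (g : L) (w : ℤ) (P : Polynomial L) (m : ℕ) :
    (nab d g w P).coeff (m + 1) = d (P.coeff (m + 1)) +
      (g * (P.coeff (m + 2) * ((m + 2 : ℕ) : L)) - (m : L) * P.coeff m) + (w : L) * P.coeff m := by
  unfold nab
  rw [Polynomial.coeff_add, coeff_dext, sub_mul, Polynomial.coeff_sub, Polynomial.coeff_C_mul,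
    Polynomial.coeff_derivative]
  have h1 : (Polynomial.X ^ 2 * Polynomial.derivative P).coeff (m + 1) = (m : L) * P.coeff m := by
    rw [pow_two, mul_assoc, Polynomial.coeff_X_mul]
    rcases m with _ | m
    · simp
    · rw [Polynomial.coeff_X_mul, Polynomial.coeff_derivative]
      push_cast; ring
  have h2 : ((w : Polynomial L) * Polynomial.X * P).coeff (m + 1) = (w : L) * P.coeff m := by
    have : ((w : ℤ) : Polynomial L) = Polynomial.C (w : L) := by simp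
    rw [this, mul_assoc, Polynomial.coeff_C_mul, Polynomial.coeff_X_mul]
  rw [h1, h2]
  push_cast
  ring_nf

private lemma NB1_coeff0 (d : Dv L) (g : L) (w : ℤ) (P : Polynomial L) :
    (nab d g w P).coeff 0 = d (P.coeff 0) + g * P.coeff 1 := by
  unfold nab
  rw [Polynomial.coeff_add, coeff_dext, sub_mul, Polynomial.coeff_sub, Polynomial.coeff_C_mul,
    Polynomial.coeff_derivative]
  have h1 : (Polynomial.X ^ 2 * Polynomial.derivative P).coeff 0 = 0 := by
    rw [pow_two, mul_assoc, Polynomial.coeff_X_mul_zero]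
  have h2 : ((w : Polynomial L) * Polynomial.X * P).coeff 0 = 0 := by
    rw [mul_comm (w : Polynomial L), mul_assoc, Polynomial.coeff_X_mul_zero]
  rw [h1, h2]
  simp

private lemma NB1_natmul (V : DVal K L) (n : ℕ) {j : ℤ} {x : L} (h : V.ge j x) :
    V.ge j ((n : L) * x) := by
  have := V.ge_mul (V.ge_natCast n) h
  rwa [zero_add] at this

private lemma NB1_intmul (V : DVal K L) (n : ℤ) {j : ℤ} {x : L} (h : V.ge j x) :
    V.ge j ((n : L) * x) := by
  have := V.ge_mul (V.ge_intCast n) h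
  rwa [zero_add] at this

/-- the general step -/
private lemma NB1_step (V : DVal K L) (d : Dv L) (g : L) (w : ℤ) (P : Polynomial L) (e c A : ℤ)
    (hg : V.ge e g)
    (h1 : ∀ x, x ≠ 0 → V.v x ≠ 0 → d x ≠ 0 ∧ V.v (d x) = V.v x - c)
    (h2 : ∀ x, V.ge 0 x → V.ge 0 (d x)) (hc : 0 ≤ c) (he : 1 ≤ e + 2 * c)
    (hA : A < 0) (h0 : P.coeff 0 ≠ 0) (hv0 : V.v (P.coeff 0) = A)
    (hj : ∀ j : ℕ, V.ge (A + c * j) (P.coeff j)) :
    (nab d g w P).coeff 0 ≠ 0 ∧ V.v ((nab d g w P).coeff 0) = A - c ∧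
      ∀ j : ℕ, V.ge (A - c + c * j) ((nab d g w P).coeff j) := by
  have hz : (nab d g w P).coeff 0 ≠ 0 ∧ V.v ((nab d g w P).coeff 0) = A - c := by
    rw [NB1_coeff0]
    obtain ⟨hd0, hdv⟩ := h1 _ h0 (by rw [hv0]; omega)
    have h3 : V.ge (V.v (d (P.coeff 0)) + 1) (g * P.coeff 1) := by
      refine V.ge_mono ?_ (V.ge_mul hg (hj 1))
      rw [hdv, hv0]
      push_cast
      linarith
    have h4 := V.add_eq hd0 h3
    exact ⟨h4.1, by rw [h4.2, hdv, hv0]⟩
  refine ⟨hz.1, hz.2, ?_⟩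
  intro j
  rcases j with _ | j
  · have := V.ge_self ((nab d g w P).coeff 0)
    rw [hz.2] at this
    simpa using this
  · rw [NB1_coeff]
    have hPj := hj j
    have hPj1 := hj (j + 1)
    have hPj2 := hj (j + 2)
    have ea : V.ge (A - c + c * ((j + 1 : ℕ) : ℤ)) (d (P.coeff (j + 1))) := by
      by_cases hx : P.coeff (j + 1) = 0
      · rw [hx, d.map_zero]
        exact V.ge_zero _
      · have hb : A + c * ((j + 1 : ℕ) : ℤ) ≤ V.v (P.coeff (j + 1)) := by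
          rcases hPj1 with h | h
          · exact absurd h hx
          · exact h
        by_cases hv : V.v (P.coeff (j + 1)) = 0
        · have h5 : V.ge 0 (P.coeff (j + 1)) := Or.inr hv.ge
          refine V.ge_mono ?_ (h2 _ h5)
          rw [hv] at hb
          linarith
        · obtain ⟨h6, h7⟩ := h1 _ hx hv
          right
          rw [h7]
          linarith
    have eb : V.ge (A - c + c * ((j + 1 : ℕ) : ℤ)) (g * (P.coeff (j + 2) * ((j + 2 : ℕ) : L))) := by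
      rw [mul_comm (P.coeff (j + 2))]
      refine V.ge_mono ?_ (V.ge_mul hg (NB1_natmul V (j + 2) hPj2))
      push_cast
      nlinarith
    have ec : V.ge (A - c + c * ((j + 1 : ℕ) : ℤ)) ((j : L) * P.coeff j) := by
      refine V.ge_mono ?_ (NB1_natmul V j hPj)
      push_cast
      linarith
    have ed : V.ge (A - c + c * ((j + 1 : ℕ) : ℤ)) ((w : L) * P.coeff j) := by
      refine V.ge_mono ?_ (NB1_intmul V w hPj)
      push_cast
      linarith
    exact V.ge_add (V.ge_add ea (V.ge_sub eb ec)) ed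

private lemma NB1_main (V : DVal K L) (d : Dv L) (g : L) (e c : ℤ) (hg : V.ge e g)
    (h1 : ∀ x, x ≠ 0 → V.v x ≠ 0 → d x ≠ 0 ∧ V.v (d x) = V.v x - c)
    (h2 : ∀ x, V.ge 0 x → V.ge 0 (d x)) (hc : 0 ≤ c) (he : 1 ≤ e + 2 * c)
    (κ : ℕ) (a ψ : L) (hψ : V.ge 0 ψ)
    (hb : nabs d g κ (κ + 1) a = Polynomial.C ψ) : V.ge 0 a := by
  by_contra hcon
  have ha : a ≠ 0 := fun h => hcon (Or.inl h)
  have hv : V.v a < 0 := by
    by_contra h
    exact hcon (Or.inr (not_lt.mp h))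
  have key : ∀ n : ℕ, (nabs d g κ n a).coeff 0 ≠ 0 ∧
      V.v ((nabs d g κ n a).coeff 0) = V.v a - c * n ∧
      ∀ j : ℕ, V.ge (V.v a - c * n + c * j) ((nabs d g κ n a).coeff j) := by
    intro n
    induction n with
    | zero =>
      show (Polynomial.C a).coeff 0 ≠ 0 ∧ V.v ((Polynomial.C a).coeff 0) = V.v a - c * (0 : ℕ) ∧
        ∀ j : ℕ, V.ge (V.v a - c * (0 : ℕ) + c * j) ((Polynomial.C a).coeff j)
      rw [Polynomial.coeff_C_zero]
      refine ⟨ha, by simp, ?_⟩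
      intro j
      rcases j with _ | j
      · rw [Polynomial.coeff_C_zero]
        have := V.ge_self a
        simpa using this
      · rw [Polynomial.coeff_C_succ]
        exact V.ge_zero _
    | succ n ih =>
      obtain ⟨i1, i2, i3⟩ := ih
      have hneg : V.v a - c * n < 0 := by
        have : 0 ≤ c * (n : ℤ) := mul_nonneg hc (Int.natCast_nonneg n)
        linarith
      obtain ⟨s1, s2, s3⟩ := NB1_step V d g (-(κ : ℤ) + 2 * n) (nabs d g κ n a) e c
        (V.v a - c * n) hg h1 h2 hc he hneg i1 i2 i3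
      have hcast : V.v a - c * ((n + 1 : ℕ) : ℤ) = V.v a - c * n - c := by
        push_cast
        ring
      rw [hcast]
      exact ⟨s1, s2, s3⟩
  obtain ⟨k1, k2, -⟩ := key (κ + 1)
  rw [hb, Polynomial.coeff_C_zero] at k1 k2
  rcases hψ with h | h
  · exact k1 h
  · have : 0 ≤ c * ((κ + 1 : ℕ) : ℤ) := mul_nonneg hc (Int.natCast_nonneg _)
    rw [k2] at h
    linarith

theorem pole1 (d : Dv L) (g : L) (hg : V.ge 0 g)
    (h1 : ∀ x, x ≠ 0 → V.v x ≠ 0 → d x ≠ 0 ∧ V.v (d x) = V.v x - 1)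
    (h2 : ∀ x, V.ge 0 x → V.ge 0 (d x)) (κ : ℕ) (a ψ : L) (hψ : V.ge 0 ψ)
    (hb : nabs d g κ (κ + 1) a = Polynomial.C ψ) : V.ge 0 a := by
  refine NB1_main V d g 0 1 hg h1 h2 (by norm_num) (by norm_num) κ a ψ hψ hb

theorem pole2 (d : Dv L) (g : L) (hg : V.ge 1 g)
    (h1 : ∀ x, x ≠ 0 → V.v x ≠ 0 → d x ≠ 0 ∧ V.v (d x) = V.v x)
    (h2 : ∀ x, V.ge 0 x → V.ge 0 (d x)) (κ : ℕ) (a ψ : L) (hψ : V.ge 0 ψ)
    (hb : nabs d g κ (κ + 1) a = Polynomial.C ψ) : V.ge 0 a := by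
  refine NB1_main V d g 1 0 hg (fun x hx hv => ?_) h2 (le_refl _) (by norm_num) κ a ψ hψ hb
  have := h1 x hx hv
  exact ⟨this.1, by rw [this.2, sub_zero]⟩

end Pool.Agent.H85.OU
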