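import Pool.Agent.H85.OU.DVb

/-!
# Row NB3 (project OU): order at the cusp `ℓ = ∞`

`V` with `v(ℓ) = -e`, `e > 0`, and `dx/(ℓ x) = v(x)/e + m` (`m = {v ≥ 1}`) for all `x ≠ 0`; `g = ℓ(1-ℓ)/4`.  In particular `v(dx) ≥ v(x) - e` (or `dx = 0`).
Let `b = (1-ℓ)/2`, `Q_n = nabs d g κ n a`, and `P_n = Q_n(ζ - b)` (`Polynomial.comp (X - C b)` or `Polynomial.taylor (-b)`), a polynomial in `ζ`.
* Recursion: with `w = -κ + 2n`, `P_(n+1) = mapc d P_n + (-ζ² + (1-ℓ)ζ - (1-ℓ)/4) P_n' + w (ζ - b) P_n`.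
  Proof: `∂ = dext d (C g - X²)`; for any polynomial `Q` and `Q~ = Q(ζ - b)`: `(∂Q)(ζ-b) = mapc d Q~ + (g - (ζ-b)² + db) Q~'` (both sides are derivations in `Q` over the
  ring map `comp (X - C b)`; check on constants and on `X`: `X~ = ζ - b`, `mapc d (ζ - b) = -db`), and `db = -ℓ(1-ℓ)/2`,
  `g - (ζ-b)² - ℓ(1-ℓ)/2 = -ζ² + (1-ℓ)ζ - (1-ℓ)²/4 - ℓ(1-ℓ)/4 = -ζ² + (1-ℓ)ζ - (1-ℓ)/4`.
  (`dℓ = ℓ(1-ℓ)` is assumed.)
* Let `a ≠ 0`, `ν = v(a)`, `p_(n,j)` the coefficient of `ζ^j` in `P_n`.  Coefficients of the recursion: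
  `p_(n+1,0) = d p_(n,0) - ((1-ℓ)/4) p_(n,1) - w b p_(n,0)`,
  `p_(n+1,j+1) = d p_(n,j+1) - j p_(n,j) + (j+1)(1-ℓ) p_(n,j+1) - ((1-ℓ)/4)(j+2) p_(n,j+2) + w p_(n,j) - w b p_(n,j+1)`.
  By induction `v(p_(n,j)) ≥ ν - e(n-j)` (or zero) for all `j`.
* If `2ν ≠ eκ` then by induction `p_(n,0) ≠ 0`, `v(p_(n,0)) = ν - e n`: `d p_(n,0) = ℓ p_(n,0) ((ν - en)/e + m)`, `-w b p_(n,0) = ℓ p_(n,0) (w/2 + m)` (`b = -ℓ/2 + 1/2`, `1/ℓ ∈ m`),
  `((1-ℓ)/4) p_(n,1)` has `v ≥ -e + ν - e(n-1) = ν - en > ν - e(n+1)`; so `p_(n+1,0) = ℓ p_(n,0) ((ν-en)/e + (-κ+2n)/2 + m) = ℓ p_(n,0) ((2ν - eκ)/(2e) + m)`, and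
  `(2ν - eκ)/(2e) ≠ 0` in `K`.
* `P_(κ+1) = C ψ`, so `v(ψ) = ν - e(κ+1)`, and `v(ψ²) ≥ -e(κ+2)` gives `2ν ≥ 2e(κ+1) - e(κ+2) = eκ`.
-/

open Pool.Agent.H85.OT

namespace Pool.Agent.H85.OU

variable {K L : Type*} [Field K] [CharZero K] [Field L] [Algebra K L] (V : DVal K L)

/-- `mapc d` and the substitution `X ↦ X - b` -/
private lemma NB3_mapc {R : Type*} [CommRing R] (d : Dv R) (b : R) (Q : Polynomial R) :
    (mapc d Q).comp (Polynomial.X - Polynomial.C b) =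
      mapc d (Q.comp (Polynomial.X - Polynomial.C b)) +
        Polynomial.C (d b) * Polynomial.derivative (Q.comp (Polynomial.X - Polynomial.C b)) := by
  induction Q using Polynomial.induction_on with
  | C a => simp [mapc_C]
  | add p q hp hq =>
    rw [mapc_add, Polynomial.add_comp, hp, hq, Polynomial.add_comp, mapc_add,
      Polynomial.derivative_add]
    ring
  | monomial n a h =>
    have h1 : mapc d (Polynomial.X - Polynomial.C b) = -Polynomial.C (d b) := by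
      rw [sub_eq_add_neg, mapc_add, mapc_X, zero_add]
      ext i
      rw [coeff_mapc, Polynomial.coeff_neg, d.map_neg, Polynomial.coeff_neg, ← coeff_mapc, mapc_C]
    have h2 : Polynomial.C a * Polynomial.X ^ (n + 1) =
        (Polynomial.C a * Polynomial.X ^ n) * Polynomial.X := by ring
    rw [h2, mapc_mul, mapc_X, mul_zero, add_zero, Polynomial.mul_comp, Polynomial.mul_comp, h,
      Polynomial.X_comp, mapc_mul, h1, Polynomial.derivative_mul]
    simp only [Polynomial.derivative_sub, Polynomial.derivative_X, Polynomial.derivative_C, sub_zero,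
      mul_one]
    ring

/-- the recursion in the variable `ζ` -/
private lemma NB3_rec {L : Type*} [Field L] [CharZero L] (d : Dv L) (ℓ : L) (hℓ : d ℓ = ℓ * (1 - ℓ))
    (w : ℤ) (Q : Polynomial L) :
    (nab d (ℓ * (1 - ℓ) / 4) w Q).comp (Polynomial.X - Polynomial.C ((1 - ℓ) / 2)) =
      mapc d (Q.comp (Polynomial.X - Polynomial.C ((1 - ℓ) / 2))) +
        (Polynomial.C (1 - ℓ) * Polynomial.X - Polynomial.X ^ 2 - Polynomial.C ((1 - ℓ) / 4)) *
          Polynomial.derivative (Q.comp (Polynomial.X - Polynomial.C ((1 - ℓ) / 2))) +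
        Polynomial.C (w : L) * (Polynomial.X - Polynomial.C ((1 - ℓ) / 2)) *
          Q.comp (Polynomial.X - Polynomial.C ((1 - ℓ) / 2)) := by
  have hd2 : d (1 / 2 : L) = 0 := by
    have h1 : d (2 : L) = 0 := by exact_mod_cast d.map_natCast 2
    have h2 : d ((2 : L) * (1 / 2)) = 0 := by
      rw [mul_one_div_cancel (two_ne_zero), d.map_one]
    rw [d.map_mul, h1, zero_mul, zero_add] at h2
    exact (mul_eq_zero.1 h2).resolve_left two_ne_zero
  have hdb : d ((1 - ℓ) / 2) = -(ℓ * (1 - ℓ)) / 2 := by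
    have h1 : (1 - ℓ) / 2 = (1 - ℓ) * (1 / 2) := by ring
    rw [h1, d.map_mul, hd2, mul_zero, add_zero, d.map_sub, d.map_one, hℓ]
    ring
  have hder : Polynomial.derivative (Q.comp (Polynomial.X - Polynomial.C ((1 - ℓ) / 2))) =
      (Polynomial.derivative Q).comp (Polynomial.X - Polynomial.C ((1 - ℓ) / 2)) := by
    rw [Polynomial.derivative_comp]
    simp
  have hw : ((w : ℤ) : Polynomial L) = Polynomial.C (w : L) := (map_intCast (Polynomial.C : L →+* Polynomial L) w).symm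
  unfold nab
  rw [dext_apply, Polynomial.add_comp, Polynomial.add_comp, NB3_mapc, hdb, Polynomial.mul_comp,
    Polynomial.mul_comp, Polynomial.mul_comp, hw, Polynomial.C_comp, Polynomial.X_comp,
    Polynomial.sub_comp, Polynomial.C_comp, Polynomial.pow_comp, Polynomial.X_comp, ← hder]
  have hC : Polynomial.C (-(ℓ * (1 - ℓ)) / 2) + (Polynomial.C (ℓ * (1 - ℓ) / 4) -
      (Polynomial.X - Polynomial.C ((1 - ℓ) / 2)) ^ 2) =
      Polynomial.C (1 - ℓ) * Polynomial.X - Polynomial.X ^ 2 - Polynomial.C ((1 - ℓ) / 4) := by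
    have h1 : (Polynomial.X - Polynomial.C ((1 - ℓ) / 2)) ^ 2 = Polynomial.X ^ 2 -
        Polynomial.C (1 - ℓ) * Polynomial.X + Polynomial.C ((1 - ℓ) ^ 2 / 4) := by
      have h2 : Polynomial.C (1 - ℓ) = Polynomial.C (2 : L) * Polynomial.C ((1 - ℓ) / 2) := by
        rw [← Polynomial.C_mul]; congr 1; field_simp
      have h3 : Polynomial.C ((1 - ℓ) ^ 2 / 4) = Polynomial.C ((1 - ℓ) / 2) ^ 2 := by
        rw [← Polynomial.C_pow]; congr 1; ring
      have h4 : Polynomial.C (2 : L) = 2 := map_ofNat (Polynomial.C : L →+* Polynomial L) 2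
      rw [h2, h3, h4]
      ring
    rw [h1]
    have h5 : Polynomial.C ((1 - ℓ) / 4) = Polynomial.C ((1 - ℓ) ^ 2 / 4) -
        (Polynomial.C (-(ℓ * (1 - ℓ)) / 2) + Polynomial.C (ℓ * (1 - ℓ) / 4)) := by
      rw [← Polynomial.C_add, ← Polynomial.C_sub]; congr 1; ring
    rw [h5]
    ring
  rw [← hC]
  ring

/-- the coefficients of the recursion -/
private lemma NB3_coeff {L : Type*} [Field L] [CharZero L] (d : Dv L) (ℓ : L)
    (w : ℤ) (P : Polynomial L) :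
    (mapc d P + (Polynomial.C (1 - ℓ) * Polynomial.X - Polynomial.X ^ 2 - Polynomial.C ((1 - ℓ) / 4)) *
          Polynomial.derivative P +
        Polynomial.C (w : L) * (Polynomial.X - Polynomial.C ((1 - ℓ) / 2)) * P).coeff 0 =
      d (P.coeff 0) - (1 - ℓ) / 4 * P.coeff 1 - (w : L) * ((1 - ℓ) / 2) * P.coeff 0 ∧
    ∀ j : ℕ, (mapc d P + (Polynomial.C (1 - ℓ) * Polynomial.X - Polynomial.X ^ 2 - Polynomial.C ((1 - ℓ) / 4)) *
          Polynomial.derivative P +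
        Polynomial.C (w : L) * (Polynomial.X - Polynomial.C ((1 - ℓ) / 2)) * P).coeff (j + 1) =
      d (P.coeff (j + 1)) - (j : L) * P.coeff j + (1 - ℓ) * (((j + 1 : ℕ) : L) * P.coeff (j + 1)) -
        (1 - ℓ) / 4 * (((j + 2 : ℕ) : L) * P.coeff (j + 2)) + (w : L) * P.coeff j -
        (w : L) * ((1 - ℓ) / 2) * P.coeff (j + 1) := by
  have e1 : (Polynomial.C (1 - ℓ) * Polynomial.X - Polynomial.X ^ 2 - Polynomial.C ((1 - ℓ) / 4)) *
      Polynomial.derivative P = Polynomial.C (1 - ℓ) * (Polynomial.X * Polynomial.derivative P) -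
        Polynomial.X * (Polynomial.X * Polynomial.derivative P) -
        Polynomial.C ((1 - ℓ) / 4) * Polynomial.derivative P := by ring
  have e2 : Polynomial.C (w : L) * (Polynomial.X - Polynomial.C ((1 - ℓ) / 2)) * P =
      Polynomial.C (w : L) * (Polynomial.X * P) -
        Polynomial.C ((w : L) * ((1 - ℓ) / 2)) * P := by
    rw [Polynomial.C_mul]; ring
  rw [e1, e2]
  constructor
  · rw [Polynomial.coeff_add, Polynomial.coeff_add, Polynomial.coeff_sub, Polynomial.coeff_sub,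
      Polynomial.coeff_sub, coeff_mapc, Polynomial.coeff_C_mul, Polynomial.coeff_X_mul_zero,
      Polynomial.coeff_X_mul_zero, Polynomial.coeff_C_mul, Polynomial.coeff_C_mul,
      Polynomial.coeff_X_mul_zero, Polynomial.coeff_C_mul, Polynomial.coeff_derivative]
    push_cast
    ring
  · intro j
    rw [Polynomial.coeff_add, Polynomial.coeff_add, Polynomial.coeff_sub, Polynomial.coeff_sub,
      Polynomial.coeff_sub, coeff_mapc, Polynomial.coeff_C_mul, Polynomial.coeff_X_mul,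
      Polynomial.coeff_X_mul, Polynomial.coeff_C_mul, Polynomial.coeff_C_mul,
      Polynomial.coeff_X_mul, Polynomial.coeff_C_mul, Polynomial.coeff_derivative,
      Polynomial.coeff_derivative]
    have h1 : (Polynomial.X * Polynomial.derivative P).coeff j = (j : L) * P.coeff j := by
      rcases j with _ | j
      · simp
      · rw [Polynomial.coeff_X_mul, Polynomial.coeff_derivative]
        push_cast; ring
    rw [h1]
    push_cast
    ring

/-- the lower bounds for the coefficients -/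
private lemma NB3_low (d : Dv L) (ℓ : L) (e : ℕ) (hone : V.ge (-(e : ℤ)) (1 - ℓ))
    (hdl : ∀ (j : ℤ) (x : L), V.ge j x → V.ge (j - e) (d x))
    (p q : ℕ → L) (ν : ℤ) (n : ℕ) (w : ℤ)
    (h0 : q 0 = d (p 0) - (1 - ℓ) / 4 * p 1 - (w : L) * ((1 - ℓ) / 2) * p 0)
    (h1 : ∀ j : ℕ, q (j + 1) = d (p (j + 1)) - (j : L) * p j + (1 - ℓ) * (((j + 1 : ℕ) : L) * p (j + 1)) -
        (1 - ℓ) / 4 * (((j + 2 : ℕ) : L) * p (j + 2)) + (w : L) * p j -
        (w : L) * ((1 - ℓ) / 2) * p (j + 1))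
    (hp : ∀ j : ℕ, V.ge (ν - e * ((n : ℤ) - j)) (p j)) (j : ℕ) :
    V.ge (ν - e * (((n + 1 : ℕ) : ℤ) - j)) (q j) := by
  have hL : CharZero L := charZero_of_injective_algebraMap (FaithfulSMul.algebraMap_injective K L)
  have h4 : V.ge (-(e : ℤ)) ((1 - ℓ) / 4) := by
    have h := V.ge_mul hone (V.ge_const ((1 : K) / 4))
    have h2 : (1 - ℓ) * algebraMap K L (1 / 4) = (1 - ℓ) / 4 := by
      rw [map_div₀, map_one, map_ofNat]; ring
    rw [h2, add_zero] at h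
    exact h
  have h2 : V.ge (-(e : ℤ)) ((w : L) * ((1 - ℓ) / 2)) := by
    have h := V.ge_mul (V.ge_mul (V.ge_intCast w) hone) (V.ge_const ((1 : K) / 2))
    have h2 : (w : L) * (1 - ℓ) * algebraMap K L (1 / 2) = (w : L) * ((1 - ℓ) / 2) := by
      rw [map_div₀, map_one, map_ofNat]; ring
    rw [h2, add_zero, zero_add] at h
    exact h
  have he : (0 : ℤ) ≤ e := Int.natCast_nonneg e
  rcases j with _ | j
  · rw [h0]
    have a1 := hdl _ _ (hp 0)
    have a2 := V.ge_mul h4 (hp 1)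
    have a3 := V.ge_mul h2 (hp 0)
    refine V.ge_sub (V.ge_sub (V.ge_mono ?_ a1) (V.ge_mono ?_ a2)) (V.ge_mono ?_ a3)
    · push_cast; nlinarith
    · push_cast; nlinarith
    · push_cast; nlinarith
  · rw [h1 j]
    have a1 := hdl _ _ (hp (j + 1))
    have a2 := V.ge_mul (V.ge_natCast j) (hp j)
    have a3 := V.ge_mul hone (V.ge_mul (V.ge_natCast (j + 1)) (hp (j + 1)))
    have a4 := V.ge_mul h4 (V.ge_mul (V.ge_natCast (j + 2)) (hp (j + 2)))
    have a5 := V.ge_mul (V.ge_intCast w) (hp j)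
    have a6 := V.ge_mul h2 (hp (j + 1))
    refine V.ge_sub (V.ge_add (V.ge_sub (V.ge_add (V.ge_sub (V.ge_mono ?_ a1) (V.ge_mono ?_ a2))
      (V.ge_mono ?_ a3)) (V.ge_mono ?_ a4)) (V.ge_mono ?_ a5)) (V.ge_mono ?_ a6)
    · push_cast; nlinarith
    · push_cast; nlinarith
    · push_cast; nlinarith
    · push_cast; nlinarith
    · push_cast; nlinarith
    · push_cast; nlinarith

/-- the exact order of the constant coefficient -/
private lemma NB3_zero (d : Dv L) (ℓ : L) (hℓ0 : ℓ ≠ 0) (e : ℕ) (he : 0 < e) (hve : V.v ℓ = -(e : ℤ))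
    (h : ∀ x, x ≠ 0 → V.ge 1 (d x / (ℓ * x) - algebraMap K L ((V.v x : K) / e)))
    (hone : V.ge (-(e : ℤ)) (1 - ℓ)) (ν : ℤ) (κ n : ℕ) (x y z : L) (hx : x ≠ 0)
    (hvx : V.v x = ν - e * n) (hy : V.ge (ν - e * ((n : ℤ) - 1)) y)
    (hne : 2 * ν ≠ e * κ)
    (hz : z = d x - (1 - ℓ) / 4 * y - ((-(κ : ℤ) + 2 * n : ℤ) : L) * ((1 - ℓ) / 2) * x) :
    z ≠ 0 ∧ V.v z = ν - e * ((n + 1 : ℕ) : ℤ) := by
  have hL : CharZero L := charZero_of_injective_algebraMap (FaithfulSMul.algebraMap_injective K L)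
  have heK : (e : K) ≠ 0 := by exact_mod_cast he.ne'
  have hlx : ℓ * x ≠ 0 := mul_ne_zero hℓ0 hx
  have hvlx : V.v (ℓ * x) = ν - e * n - e := by
    rw [V.mul _ _ hℓ0 hx, hve, hvx]; ring
  obtain ⟨c, hc⟩ : ∃ c : K, c = (V.v x : K) / e + ((-(κ : ℤ) + 2 * n : ℤ) : K) / 2 := ⟨_, rfl⟩
  have hc0 : c ≠ 0 := by
    rw [hc, hvx]
    push_cast
    intro h0
    apply hne
    have h1 : (2 : K) * ν = e * κ := by
      field_simp at h0
      linear_combination h0
    exact_mod_cast h1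
  have hinv : V.ge 1 ℓ⁻¹ := by
    right
    rw [V.v_inv ℓ hℓ0, hve]
    omega
  have h4 : V.ge (-(e : ℤ)) ((1 - ℓ) / 4) := by
    have h := V.ge_mul hone (V.ge_const ((1 : K) / 4))
    have h2 : (1 - ℓ) * algebraMap K L (1 / 4) = (1 - ℓ) / 4 := by
      rw [map_div₀, map_one, map_ofNat]; ring
    rw [h2, add_zero] at h
    exact h
  -- the three error terms
  have r1 := h x hx
  have r2 : V.ge 1 ((1 - ℓ) / 4 * y / (ℓ * x)) := by
    have h5 := V.ge_mul (V.ge_mul h4 hy) (V.ge_self (ℓ * x)⁻¹)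
    rw [V.v_inv _ hlx, hvlx] at h5
    rw [div_eq_mul_inv ((1 - ℓ) / 4 * y)]
    refine V.ge_mono ?_ h5
    have : (1 : ℤ) ≤ e := by exact_mod_cast he
    nlinarith
  have r3 : V.ge 1 (((-(κ : ℤ) + 2 * n : ℤ) : L) * algebraMap K L (1 / 2) * ℓ⁻¹) := by
    have h5 := V.ge_mul (V.ge_mul (V.ge_intCast (-(κ : ℤ) + 2 * n)) (V.ge_const ((1 : K) / 2))) hinv
    rw [zero_add, zero_add] at h5
    exact h5
  have hzz : z = ℓ * x * (algebraMap K L c + ((d x / (ℓ * x) - algebraMap K L ((V.v x : K) / e)) -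
      (1 - ℓ) / 4 * y / (ℓ * x) -
      ((-(κ : ℤ) + 2 * n : ℤ) : L) * algebraMap K L (1 / 2) * ℓ⁻¹)) := by
    have h6 : algebraMap K L c = algebraMap K L ((V.v x : K) / e) +
        ((-(κ : ℤ) + 2 * n : ℤ) : L) / 2 := by
      rw [hc, map_add, map_div₀ (algebraMap K L) ((-(κ : ℤ) + 2 * n : ℤ) : K), map_intCast, map_ofNat]
    have h7 : algebraMap K L (1 / 2) = 1 / 2 := by rw [map_div₀, map_one, map_ofNat]
    rw [hz, h6, h7]
    field_simp
    ring
  have hm := V.ge_sub (V.ge_sub r1 r2) r3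
  have hcv : V.v (algebraMap K L c) = 0 := V.const c hc0
  have hcL : algebraMap K L c ≠ 0 := by
    rw [Ne, map_eq_zero]; exact hc0
  have h8 := V.add_eq hcL (y := (d x / (ℓ * x) - algebraMap K L ((V.v x : K) / e)) -
      (1 - ℓ) / 4 * y / (ℓ * x) -
      ((-(κ : ℤ) + 2 * n : ℤ) : L) * algebraMap K L (1 / 2) * ℓ⁻¹) (by
    rw [hcv, zero_add]; exact hm)
  rw [hzz]
  refine ⟨mul_ne_zero hlx h8.1, ?_⟩
  rw [V.mul _ _ hlx h8.1, h8.2, hcv, hvlx]
  push_cast
  ring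

theorem order_inf (d : Dv L) (ℓ : L) (hℓ0 : ℓ ≠ 0) (hℓ : d ℓ = ℓ * (1 - ℓ)) (e : ℕ) (he : 0 < e)
    (hve : V.v ℓ = -(e : ℤ))
    (h : ∀ x, x ≠ 0 → V.ge 1 (d x / (ℓ * x) - algebraMap K L ((V.v x : K) / e)))
    (κ : ℕ) (a ψ : L) (ha : a ≠ 0) (hψ : V.ge (-((e : ℤ) * (κ + 2))) (ψ ^ 2))
    (hb : nabs d (ℓ * (1 - ℓ) / 4) κ (κ + 1) a = Polynomial.C ψ) :
    (e : ℤ) * κ ≤ 2 * V.v a := by
  have hL : CharZero L := charZero_of_injective_algebraMap (FaithfulSMul.algebraMap_injective K L)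
  by_cases hne : 2 * V.v a = e * κ
  · exact hne.ge
  have heZ : (0 : ℤ) < e := by exact_mod_cast he
  have hone : V.ge (-(e : ℤ)) (1 - ℓ) := by
    refine V.ge_sub ?_ (Or.inr hve.ge)
    refine V.ge_mono (by omega : -(e : ℤ) ≤ 0) ?_
    have := V.ge_natCast 1
    rwa [Nat.cast_one] at this
  have hdl : ∀ (j : ℤ) (x : L), V.ge j x → V.ge (j - e) (d x) := by
    intro j x hj
    by_cases hx : x = 0
    · rw [hx, d.map_zero]; exact V.ge_zero _
    · have hvj : j ≤ V.v x := hj.resolve_left hx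
      have h1 := V.ge_add (V.ge_mono (by norm_num : (0 : ℤ) ≤ 1) (h x hx))
        (V.ge_const ((V.v x : K) / e))
      rw [sub_add_cancel] at h1
      have hlx : ℓ * x ≠ 0 := mul_ne_zero hℓ0 hx
      have h2 := V.ge_mul h1 (V.ge_self (ℓ * x))
      rw [div_mul_cancel₀ _ hlx, V.mul _ _ hℓ0 hx, hve] at h2
      exact V.ge_mono (by omega) h2
  obtain ⟨P, hP⟩ : ∃ P : ℕ → Polynomial L, ∀ n, P n = (nabs d (ℓ * (1 - ℓ) / 4) κ n a).comp
      (Polynomial.X - Polynomial.C ((1 - ℓ) / 2)) := ⟨_, fun _ => rfl⟩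
  have hrec : ∀ n, P (n + 1) = mapc d (P n) +
        (Polynomial.C (1 - ℓ) * Polynomial.X - Polynomial.X ^ 2 - Polynomial.C ((1 - ℓ) / 4)) *
          Polynomial.derivative (P n) +
        Polynomial.C (((-(κ : ℤ) + 2 * n : ℤ)) : L) * (Polynomial.X - Polynomial.C ((1 - ℓ) / 2)) * P n := by
    intro n
    rw [hP (n + 1), hP n]
    exact NB3_rec d ℓ hℓ (-(κ : ℤ) + 2 * n) (nabs d (ℓ * (1 - ℓ) / 4) κ n a)
  have hP0 : P 0 = Polynomial.C a := by
    rw [hP 0]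
    show (Polynomial.C a).comp _ = _
    rw [Polynomial.C_comp]
  have hlow : ∀ n j : ℕ, V.ge (V.v a - e * ((n : ℤ) - j)) ((P n).coeff j) := by
    intro n
    induction n with
    | zero =>
      intro j
      rw [hP0]
      rcases j with _ | j
      · rw [Polynomial.coeff_C_zero]
        right
        simp
      · rw [Polynomial.coeff_C_succ]; exact V.ge_zero _
    | succ n ih =>
      intro j
      have hc := NB3_coeff d ℓ (-(κ : ℤ) + 2 * n) (P n)
      rw [← hrec n] at hc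
      exact NB3_low V d ℓ e hone hdl (fun j => (P n).coeff j) (fun j => (P (n + 1)).coeff j) (V.v a) n
        (-(κ : ℤ) + 2 * n) hc.1 hc.2 ih j
  have hzero : ∀ n : ℕ, (P n).coeff 0 ≠ 0 ∧ V.v ((P n).coeff 0) = V.v a - e * (n : ℤ) := by
    intro n
    induction n with
    | zero =>
      rw [hP0, Polynomial.coeff_C_zero]
      exact ⟨ha, by simp⟩
    | succ n ih =>
      have hc := NB3_coeff d ℓ (-(κ : ℤ) + 2 * n) (P n)
      rw [← hrec n] at hc
      have h1 := hlow n 1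
      rw [Nat.cast_one] at h1
      exact NB3_zero V d ℓ hℓ0 e he hve h hone (V.v a) κ n _ ((P n).coeff 1) _ ih.1 ih.2 h1 hne hc.1
  have h1 := hzero (κ + 1)
  have h2 : P (κ + 1) = Polynomial.C ψ := by
    rw [hP, hb, Polynomial.C_comp]
  rw [h2, Polynomial.coeff_C_zero] at h1
  have h3 := hψ.resolve_left (pow_ne_zero 2 h1.1)
  rw [pow_two, V.mul _ _ h1.1 h1.1, h1.2] at h3
  push_cast at h3
  nlinarith

end Pool.Agent.H85.OU
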