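import Pool.Agent.H85.OU.DVl

/-!
# Row NB4 (project OU): the local behaviour of the derivation

`NAset K L d ℓ R` (file `UV.lean`), `V` a place (`DVal`) with `D ↦` continuity (`hcont`).
* `local_fin`: `V.ge 0` on elements integral over `K[ℓ]`.  `ℓ` is integral over `K[ℓ]`, so `v(ℓ) ≥ 0`; choose `λ0 ∈ K` with `ℓ - λ0 ∈ m` (`exists_const`);
  `s = ℓ - λ0 ≠ 0` (transcendental), `e = v(s) > 0`.
  - `λ0 = 0` or `1`: `D = d`: `d s = s u` with `u = 1 - ℓ` (`λ0 = 0`) or `u = -ℓ` (`λ0 = 1`, `s = ℓ - 1`).  `dlog`: `u - eρ ∈ m` and `u ∓ 1 ∈ m`, so `eρ = ±1`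
    (`const_eq_zero`), `ρ ≠ 0`.  For `x ≠ 0`, `v(x) ≠ 0`: `dx/x = v(x)ρ + m` is nonzero of valuation `0`, so `v(dx) = v(x)`; for `v(x) ≥ 0`: `dx/x ∈ O`.  `v(ℓ(1-ℓ)) ≥ 1`:
    the second alternative.
  - `λ0 ≠ 0, 1`: apply `dlog` to `D = s · d` (a derivation, `x ↦ s * d x`, continuity: the same `N`), `D s = s (ℓ(1-ℓ))`, `u = ℓ(1-ℓ)`, `u - λ0(1-λ0) ∈ m`, so
    `eρ = λ0(1-λ0) ≠ 0`.  So `v(x) ≠ 0 ⇒ v(dx) = v(x) - e`, and `v(x) = 0 ⇒ v(dx) ≥ 1 - e` (or `dx = 0`).
    Claim `e = 1`: for `0 ≠ b ∈ R`, if `e ∤ v(b)` then by induction `v(d^j b) = v(b) - j e ≠ 0` for all `j`, negative for large `j`, but `d^j b ∈ R` is integral over `K[ℓ]`,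
    contradiction.  So `e ∣ v(b)` for all `0 ≠ b ∈ R`, hence `e ∣ v(x)` for all `x ≠ 0` (`x = b/c`), and `v(t) = 1` gives `e = 1`.
    First alternative: `v(x) ≠ 0 ⇒ v(dx) = v(x) - 1`; `v(x) ≥ 0 ⇒ v(dx) ≥ 0` (`v(x) = 0`: `≥ 1 - e = 0`; `v(x) ≥ 1`: `v(x) - 1 ≥ 0`).
* `local_inf`: `v(ℓ) = -e < 0`: `s = 1/ℓ`, `D = s · d`, `d s = - dℓ/ℓ² = 1 - s`... (`d(ℓ⁻¹) = -ℓ(1-ℓ)/ℓ² = -(1-ℓ)/ℓ = 1 - 1/ℓ`), so `D s = s (1 - s)`, `u = 1 - s`, `u - 1 ∈ m`,
  `eρ = 1`, `ρ = 1/e`; `D x / x = dx/(ℓ x)`.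
-/

open Pool.Agent.H85.OT

namespace Pool.Agent.H85.OU

private lemma NB4_const_eq {K L : Type*} [Field K] [Field L] [Algebra K L] (V : DVal K L)
    {u : L} {c a : K} (h1 : V.ge 1 (u - algebraMap K L c)) (h2 : V.ge 1 (u - algebraMap K L a)) :
    c = a := by
  have h3 := V.ge_sub h2 h1
  have h4 : u - algebraMap K L a - (u - algebraMap K L c) = algebraMap K L (c - a) := by
    rw [map_sub]; ring
  rw [h4] at h3
  exact sub_eq_zero.mp (V.const_eq_zero h3)

private lemma NB4_unit {K L : Type*} [Field K] [Field L] [Algebra K L] (V : DVal K L)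
    {w : L} {c : K} (hc : c ≠ 0) (h : V.ge 1 (w - algebraMap K L c)) : w ≠ 0 ∧ V.v w = 0 := by
  have h1 : algebraMap K L c ≠ 0 := by
    rw [Ne, map_eq_zero]; exact hc
  have h2 : V.v (algebraMap K L c) = 0 := V.const c hc
  have h3 := V.add_eq h1 (y := w - algebraMap K L c) (by rw [h2]; exact h)
  rw [add_sub_cancel, h2] at h3
  exact h3

private lemma NB4_v_mul_right {K L : Type*} [Field K] [Field L] [Algebra K L] (V : DVal K L)
    {x y : L} (hx : x ≠ 0) (h : y / x ≠ 0) (h0 : V.v (y / x) = 0) : y ≠ 0 ∧ V.v y = V.v x := by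
  have hy : y ≠ 0 := by
    rintro rfl
    rw [zero_div] at h
    exact h rfl
  refine ⟨hy, ?_⟩
  rw [V.v_div y x hy hx] at h0
  linarith

/-- multiple of a derivation -/
private noncomputable def NB4_smul {L : Type*} [Field L] (s : L) (d : Dv L) : Dv L where
  toFun x := s * d x
  add' a b := by rw [d.map_add, mul_add]
  mul' a b := by rw [d.map_mul]; ring

private lemma NB4_smul_apply {L : Type*} [Field L] (s : L) (d : Dv L) (x : L) :
    NB4_smul s d x = s * d x := rfl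

private lemma NB4_fin_aux {K L : Type} [Field K] [CharZero K] [Field L] [Algebra K L] {d : Dv L}
    (V : DVal K L) (hdK : ∀ c : K, d (algebraMap K L c) = 0)
    (hcont : ∀ D : Dv L, (∀ c : K, D (algebraMap K L c) = 0) →
      ∃ N : ℕ, ∀ x, V.ge 0 x → V.ge (-(N : ℤ)) (D x))
    {s u : L} (hs : s ≠ 0) (hs1 : 0 < V.v s) (hu : V.ge 0 u) (hds : d s = s * u) {c : K} (hc : c ≠ 0)
    (huc : V.ge 1 (u - algebraMap K L c)) :
    (∀ x, x ≠ 0 → V.v x ≠ 0 → d x ≠ 0 ∧ V.v (d x) = V.v x) ∧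
      (∀ x, V.ge 0 x → V.ge 0 (d x)) := by
  obtain ⟨ρ, h1, h2⟩ := dlog V d hdK (hcont d hdK) s u hs hs1 hu hds
  have h3 : (V.v s : K) * ρ = c := NB4_const_eq V h1 huc
  have hρ : ρ ≠ 0 := by
    rintro rfl
    rw [mul_zero] at h3
    exact hc h3.symm
  constructor
  · intro x hx hvx
    have h4 : (V.v x : K) * ρ ≠ 0 := mul_ne_zero (by exact_mod_cast hvx) hρ
    obtain ⟨h5, h6⟩ := NB4_unit V h4 (h2 x hx)
    exact NB4_v_mul_right V hx h5 h6
  · intro x hx
    by_cases hx0 : x = 0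
    · rw [hx0, d.map_zero]; exact V.ge_zero 0
    · have h4 := V.ge_add (V.ge_mono (show (0 : ℤ) ≤ 1 by norm_num) (h2 x hx0))
        (V.ge_const ((V.v x : K) * ρ))
      rw [sub_add_cancel] at h4
      have h5 := V.ge_mul h4 hx
      rw [div_mul_cancel₀ _ hx0, add_zero] at h5
      exact h5

theorem local_fin {K L : Type} [Field K] [CharZero K] [Field L] [Algebra K L] {d : Dv L} {ℓ : L}
    {R : Subalgebra K L} (h : NAset K L d ℓ R) (V : DVal K L)
    (hint : ∀ x, IntOver K ℓ x → V.ge 0 x)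
    (hcont : ∀ D : Dv L, (∀ c : K, D (algebraMap K L c) = 0) →
      ∃ N : ℕ, ∀ x, V.ge 0 x → V.ge (-(N : ℤ)) (D x)) :
    ((∀ x, x ≠ 0 → V.v x ≠ 0 → d x ≠ 0 ∧ V.v (d x) = V.v x - 1) ∧
      (∀ x, V.ge 0 x → V.ge 0 (d x))) ∨
    (V.ge 1 (ℓ * (1 - ℓ)) ∧ (∀ x, x ≠ 0 → V.v x ≠ 0 → d x ≠ 0 ∧ V.v (d x) = V.v x) ∧
      (∀ x, V.ge 0 x → V.ge 0 (d x))) := by
  have hℓ : V.ge 0 ℓ := hint ℓ (h.int ℓ h.mem)
  have hone : V.ge 0 (1 : L) := by
    have := V.ge_const (1 : K)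
    rwa [map_one] at this
  obtain ⟨lam0, hl0⟩ := V.exists_const hℓ
  have hs : ℓ - algebraMap K L lam0 ≠ 0 := by
    have := h.tr (Polynomial.X - Polynomial.C lam0) (Polynomial.X_sub_C_ne_zero lam0)
    rwa [map_sub, Polynomial.aeval_X, Polynomial.aeval_C] at this
  obtain ⟨s, hsdef⟩ : ∃ s, s = ℓ - algebraMap K L lam0 := ⟨_, rfl⟩
  rw [← hsdef] at hs hl0
  have hvs : 0 < V.v s := by
    rcases hl0 with h0 | h0
    · exact absurd h0 hs
    · omega
  have hds : d s = ℓ * (1 - ℓ) := by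
    rw [hsdef, d.map_sub, h.dK, sub_zero, h.dl]
  by_cases h0 : lam0 = 0
  · right
    rw [h0, map_zero, sub_zero] at hsdef
    subst hsdef
    refine ⟨?_, ?_⟩
    · have := V.ge_mul hl0 (V.ge_sub hone hℓ)
      rwa [add_zero] at this
    · refine NB4_fin_aux V h.dK hcont hs hvs (V.ge_sub hone hℓ) hds (c := 1) one_ne_zero ?_
      rw [map_one]
      have := V.ge_neg hl0
      rwa [show (1 : L) - s - 1 = -s by ring]
  by_cases h1 : lam0 = 1
  · right
    rw [h1, map_one] at hsdef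
    refine ⟨?_, ?_⟩
    · have := V.ge_mul hℓ (V.ge_neg hl0)
      rw [zero_add] at this
      rwa [show (1 : L) - ℓ = -s by rw [hsdef]; ring]
    · refine NB4_fin_aux V h.dK hcont hs hvs (V.ge_neg hℓ) ?_ (c := -1) (by norm_num) ?_
      · rw [hds, hsdef]; ring
      · rw [map_neg, map_one]
        have := V.ge_neg hl0
        rwa [show -ℓ - -1 = -s by rw [hsdef]; ring]
  · left
    have hDK : ∀ c : K, NB4_smul s d (algebraMap K L c) = 0 := by
      intro c
      rw [NB4_smul_apply, h.dK, mul_zero]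
    have hu : V.ge 0 (ℓ * (1 - ℓ)) := by
      have := V.ge_mul hℓ (V.ge_sub hone hℓ)
      rwa [add_zero] at this
    obtain ⟨ρ, r1, r2⟩ := dlog V (NB4_smul s d) hDK (hcont _ hDK) s (ℓ * (1 - ℓ)) hs hvs hu
      (by rw [NB4_smul_apply, hds])
    have huc : V.ge 1 (ℓ * (1 - ℓ) - algebraMap K L (lam0 * (1 - lam0))) := by
      have h3 : V.ge 0 (1 - ℓ - algebraMap K L lam0) := V.ge_sub (V.ge_sub hone hℓ) (V.ge_const _)
      have h4 := V.ge_mul hl0 h3
      rw [add_zero] at h4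
      have h5 : ℓ * (1 - ℓ) - algebraMap K L (lam0 * (1 - lam0)) = s * (1 - ℓ - algebraMap K L lam0) := by
        rw [map_mul, map_sub, map_one, hsdef]; ring
      rwa [h5]
    have h3 : (V.v s : K) * ρ = lam0 * (1 - lam0) := NB4_const_eq V r1 huc
    have hρ : ρ ≠ 0 := by
      rintro rfl
      rw [mul_zero] at h3
      rcases mul_eq_zero.mp h3.symm with h4 | h4
      · exact h0 h4
      · exact h1 (sub_eq_zero.mp h4).symm
    -- valuations of derivatives
    have hA : ∀ x, x ≠ 0 → V.v x ≠ 0 → d x ≠ 0 ∧ V.v (d x) = V.v x - V.v s := by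
      intro x hx hvx
      have h4 : (V.v x : K) * ρ ≠ 0 := mul_ne_zero (by exact_mod_cast hvx) hρ
      obtain ⟨h5, h6⟩ := NB4_unit V h4 (r2 x hx)
      obtain ⟨h7, h8⟩ := NB4_v_mul_right V hx h5 h6
      rw [NB4_smul_apply] at h7 h8
      have h9 : d x ≠ 0 := right_ne_zero_of_mul h7
      refine ⟨h9, ?_⟩
      rw [V.mul _ _ hs h9] at h8
      linarith
    have hB : ∀ x, x ≠ 0 → V.v x = 0 → V.ge (1 - V.v s) (d x) := by
      intro x hx hvx
      have h4 := r2 x hx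
      rw [hvx, Int.cast_zero, zero_mul, map_zero, sub_zero] at h4
      have h5 := V.ge_mul h4 (V.ge_self x)
      rw [div_mul_cancel₀ _ hx, NB4_smul_apply, hvx, add_zero] at h5
      have h6 := V.ge_mul h5 (V.ge_self s⁻¹)
      rw [V.v_inv s hs] at h6
      have h7 : s * d x * s⁻¹ = d x := by field_simp
      rw [h7] at h6
      exact h6
    -- e = 1
    have hdiv : ∀ b ∈ R, b ≠ 0 → V.v s ∣ V.v b := by
      intro b hb hb0
      by_contra hnd
      have hind : ∀ j : ℕ, ∃ b' ∈ R, b' ≠ 0 ∧ V.v b' = V.v b - j * V.v s := by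
        intro j
        induction j with
        | zero => exact ⟨b, hb, hb0, by simp⟩
        | succ j ih =>
          obtain ⟨b', q1, q2, q3⟩ := ih
          have q4 : V.v b' ≠ 0 := by
            intro q5
            apply hnd
            rw [q5] at q3
            exact ⟨j, by linarith⟩
          obtain ⟨q6, q7⟩ := hA b' q2 q4
          refine ⟨d b', h.stab b' q1, q6, ?_⟩
          rw [q7, q3]
          push_cast
          ring
      obtain ⟨b', q1, q2, q3⟩ := hind ((V.v b).toNat + 1)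
      rcases hint b' (h.int b' q1) with q4 | q4
      · exact q2 q4
      · rw [q3] at q4
        have q5 : V.v b ≤ ((V.v b).toNat : ℤ) := Int.self_le_toNat _
        push_cast at q4
        have q6 : (((V.v b).toNat : ℤ) + 1) * 1 ≤ (((V.v b).toNat : ℤ) + 1) * V.v s :=
          mul_le_mul_of_nonneg_left (by omega) (by positivity)
        linarith
    have hdiv' : ∀ x, x ≠ 0 → V.v s ∣ V.v x := by
      intro x hx
      obtain ⟨b, hb, c, hc, hc0, rfl⟩ := h.frac x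
      have hb0 : b ≠ 0 := by
        rintro rfl
        rw [zero_div] at hx
        exact hx rfl
      rw [V.v_div b c hb0 hc0]
      exact dvd_sub (hdiv b hb hb0) (hdiv c hc hc0)
    have he : V.v s = 1 := by
      obtain ⟨t, ht0, ht⟩ := V.unif
      have q1 := hdiv' t ht0
      rw [ht] at q1
      exact Int.eq_one_of_dvd_one hvs.le q1
    rw [he] at hA hB
    refine ⟨hA, ?_⟩
    intro x hx
    by_cases hx0 : x = 0
    · rw [hx0, d.map_zero]; exact V.ge_zero 0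
    · by_cases hvx : V.v x = 0
      · have := hB x hx0 hvx
        rwa [sub_self] at this
      · right
        rw [(hA x hx0 hvx).2]
        rcases hx with q | q
        · exact absurd q hx0
        · omega

theorem local_inf {K L : Type} [Field K] [CharZero K] [Field L] [Algebra K L] {d : Dv L} {ℓ : L}
    {R : Subalgebra K L} (h : NAset K L d ℓ R) (V : DVal K L) (e : ℕ) (he : 0 < e)
    (hve : V.v ℓ = -(e : ℤ))
    (hcont : ∀ D : Dv L, (∀ c : K, D (algebraMap K L c) = 0) →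
      ∃ N : ℕ, ∀ x, V.ge 0 x → V.ge (-(N : ℤ)) (D x)) :
    ∀ x, x ≠ 0 → V.ge 1 (d x / (ℓ * x) - algebraMap K L ((V.v x : K) / e)) := by
  have hℓ : ℓ ≠ 0 := by
    have := h.tr Polynomial.X Polynomial.X_ne_zero
    rwa [Polynomial.aeval_X] at this
  have hone : V.ge 0 (1 : L) := by
    have := V.ge_const (1 : K)
    rwa [map_one] at this
  obtain ⟨s, hsdef⟩ : ∃ s, s = ℓ⁻¹ := ⟨_, rfl⟩
  have hs : s ≠ 0 := by rw [hsdef]; exact inv_ne_zero hℓ
  have hvs : V.v s = e := by rw [hsdef, V.v_inv ℓ hℓ, hve, neg_neg]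
  have hDK : ∀ c : K, NB4_smul s d (algebraMap K L c) = 0 := by
    intro c
    rw [NB4_smul_apply, h.dK, mul_zero]
  have hds : d s = 1 - s := by
    have h1 : d (ℓ * s) = 0 := by
      rw [hsdef, mul_inv_cancel₀ hℓ, d.map_one]
    rw [d.map_mul, h.dl] at h1
    have h2 : ℓ * d s = ℓ * (1 - s) := by
      have h3 : ℓ * (1 - ℓ) * s = -(ℓ * (1 - s)) := by
        rw [hsdef]; field_simp; ring
      rw [h3] at h1
      linear_combination h1
    exact mul_left_cancel₀ hℓ h2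
  have hs1 : V.ge 1 s := Or.inr (by rw [hvs]; omega)
  have hu : V.ge 0 (1 - s) := V.ge_sub hone (V.ge_mono (by norm_num) hs1)
  obtain ⟨ρ, r1, r2⟩ := dlog V (NB4_smul s d) hDK (hcont _ hDK) s (1 - s) hs
    (by rw [hvs]; omega) hu (by rw [NB4_smul_apply, hds])
  have h3 : (V.v s : K) * ρ = 1 := by
    refine NB4_const_eq V r1 ?_
    rw [map_one]
    have := V.ge_neg hs1
    rwa [show (1 : L) - s - 1 = -s by ring]
  have he' : (e : K) ≠ 0 := by exact_mod_cast he.ne'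
  have hρ : ρ = 1 / (e : K) := by
    rw [hvs, Int.cast_natCast] at h3
    field_simp
    linear_combination h3
  intro x hx
  have h4 := r2 x hx
  rw [hρ, NB4_smul_apply, hsdef] at h4
  have h5 : ℓ⁻¹ * d x / x = d x / (ℓ * x) := by
    field_simp
  rw [h5, mul_one_div] at h4
  exact h4

end Pool.Agent.H85.OU
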