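import Pool.Agent.H85.OU.DVp
import Pool.Agent.H85.OU.NB1
import Pool.Agent.H85.OU.NB3
import Pool.Agent.H85.OU.NB4

/-!
# Row NBE (project OU): a form of positive weight is not the Bol derivative of an algebraic form

* `const_of_both`: `y` integral over `K[ℓ]` and over `K[ℓ⁻¹]`, `ℓ` transcendental, `K` algebraically closed: then `y ∈ K`.  `K[ℓ]` (`≅ K[X]`) and `K[ℓ⁻¹]` are integrally closed with the same
  fraction field `K0 = K(ℓ)`; the minimal polynomial of `y` over `K0` has coefficients in `K[ℓ]` and in `K[ℓ⁻¹]` (`minpoly.isIntegrallyClosed_eq_field_fractions`), and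
  `K[ℓ] ∩ K[ℓ⁻¹] = K`: `P(ℓ) = Q(ℓ⁻¹)`, `deg Q ≤ N`: `P(ℓ) ℓ^N` is a polynomial in `ℓ` of degree `≤ N`, so `deg P = 0`.  So `y` is algebraic over `K`.
* `noNA`: suppose `a ≠ 0`.
  1. `a` is integral over `K[ℓ]`: `places` for `s = ℓ`; for each place `V` `local_fin` gives one of two alternatives; `pole1` (`g = ℓ(1-ℓ)/4`, `V.ge 0 ℓ`) or `pole2` (`V.ge 1 (ℓ(1-ℓ))`)
     give `V.ge 0 a` (`ψ` is integral over `K[ℓ]`, so `V.ge 0 ψ`).  Second claim of `places`.
  2. `y = ℓ a²` is integral over `K[ℓ⁻¹]`: `places` for `s = ℓ⁻¹` (`adjoin K {ℓ⁻¹} = adjoin K {ℓ}`; `ℓ⁻¹` is transcendental).  `ℓ⁻¹` is integral over `K[ℓ⁻¹]`, so `v(ℓ) ≤ 0`.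
     If `v(ℓ) = 0`: `V.ge 0 ℓ`, `DVal.of_intOver` gives `V.ge 0 a`, so `V.ge 0 y`.
     If `v(ℓ) = -e < 0`: `local_inf`; `V.ge (-(e(κ+2))) (ψ²)`: from `(ψ²)^r + ∑_{m ≥ 1} P_m(ℓ) (ψ²)^(r-m) = 0`, `deg P_m ≤ (κ+2) m`: `v(P_m(ℓ)) ≥ -e(κ+2)m`; if `w = v(ψ²) < -e(κ+2)` then
     `v((ψ²)^r) = r w < -e(κ+2)m + (r-m) w`, the valuations of the other terms, contradiction (`ge_sum`, `add_eq`).  `order_inf`: `eκ ≤ 2 v(a)`, so
     `v(y) = -e + 2v(a) ≥ -e + eκ ≥ 0`.
  3. `y` is also integral over `K[ℓ]`, so `y = c ∈ K` by `const_of_both`.  `c ≠ 0` as `a ≠ 0`.  `ℓ⁻¹ = a²/c` is integral over `K[ℓ]`: `(ℓ⁻¹)^r + ∑ P_m(ℓ)(ℓ⁻¹)^(r-m) = 0`, multiply by `ℓ^r`: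
     `1 + ∑_{m ≥ 1} P_m(ℓ) ℓ^m = 0`, but the polynomial `1 + ∑ P_m X^m` is nonzero (constant term `1`), contradiction with `tr`.
  So `a = 0`, and then `nabs .. 0 = 0` (`nab` is additive: induction), `ψ = 0`.
-/

open Pool.Agent.H85.OT

namespace Pool.Agent.H85.OU

private lemma NBe_self {K S : Type*} [Field K] [CommRing S] [Algebra K S] (s : S) :
    IntOver K s s := by
  unfold IntOver
  have h := RingHom.isIntegralElem_map
    ((Polynomial.aeval s : Polynomial K →ₐ[K] S) : Polynomial K →+* S) (x := Polynomial.X)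
  have h2 : ((Polynomial.aeval s : Polynomial K →ₐ[K] S) : Polynomial K →+* S) Polynomial.X = s := by
    rw [RingHom.coe_coe, Polynomial.aeval_X]
  rwa [h2] at h

private lemma NBe_const {K S : Type*} [Field K] [CommRing S] [Algebra K S] (s : S) (c : K) :
    IntOver K s (algebraMap K S c) := by
  unfold IntOver
  have h := RingHom.isIntegralElem_map
    ((Polynomial.aeval s : Polynomial K →ₐ[K] S) : Polynomial K →+* S) (x := Polynomial.C c)
  have h2 : ((Polynomial.aeval s : Polynomial K →ₐ[K] S) : Polynomial K →+* S)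
      (Polynomial.C c) = algebraMap K S c := by
    rw [RingHom.coe_coe, Polynomial.aeval_C]
  rwa [h2] at h

private lemma NBe_mul {K S : Type*} [Field K] [CommRing S] [Algebra K S] {s x y : S}
    (hx : IntOver K s x) (hy : IntOver K s y) : IntOver K s (x * y) :=
  RingHom.IsIntegralElem.mul _ hx hy

/-- an element integral over `K[s]` lies in every valuation ring containing `K` and `s` -/
private lemma NBe_val {K L : Type*} [Field K] [Field L] [Algebra K L] (W : ValuationSubring L)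
    (hW : ∀ c : K, algebraMap K L c ∈ W) {s : L} (hs : s ∈ W) {y : L} (hy : IntOver K s y) :
    y ∈ W := by
  obtain ⟨p, hp, he⟩ := hy
  have hmem : ∀ P : Polynomial K,
      ((Polynomial.aeval s : Polynomial K →ₐ[K] L) : Polynomial K →+* L) P ∈ W.toSubring := by
    intro P
    rw [RingHom.coe_coe, Polynomial.aeval_eq_sum_range]
    refine W.toSubring.sum_mem fun i _ => ?_
    rw [Algebra.smul_def]
    exact W.toSubring.mul_mem (hW _) (W.toSubring.pow_mem hs i)
  have hint : IsIntegral W y := by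
    refine ⟨p.map (RingHom.codRestrict
      ((Polynomial.aeval s : Polynomial K →ₐ[K] L) : Polynomial K →+* L) W.toSubring hmem),
      hp.map _, ?_⟩
    rw [Polynomial.eval₂_map]
    exact he
  obtain ⟨z, hz⟩ := IsIntegrallyClosed.isIntegral_iff.mp hint
  rw [← hz]
  exact z.2

private lemma NBe_transc {K L : Type*} [Field K] [Field L] [Algebra K L] {ℓ : L}
    (htr : ∀ P : Polynomial K, P ≠ 0 → Polynomial.aeval ℓ P ≠ 0) :
    ∀ P : Polynomial K, P ≠ 0 → Polynomial.aeval ℓ⁻¹ P ≠ 0 := by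
  intro P hP h0
  have h1 : IsAlgebraic K ℓ⁻¹ := ⟨P, hP, h0⟩
  have h2 : IsAlgebraic K ℓ := by
    have := h1.inv
    rwa [inv_inv] at this
  obtain ⟨Q, hQ, hQ0⟩ := h2
  exact htr Q hQ hQ0

private lemma NBe_adjoin {K L : Type*} [Field K] [Field L] [Algebra K L] (ℓ : L) :
    IntermediateField.adjoin K {ℓ⁻¹} = IntermediateField.adjoin K {ℓ} := by
  refine le_antisymm ?_ ?_
  · rw [IntermediateField.adjoin_simple_le_iff]
    exact inv_mem (IntermediateField.mem_adjoin_simple_self K ℓ)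
  · rw [IntermediateField.adjoin_simple_le_iff]
    have h1 := inv_mem (IntermediateField.mem_adjoin_simple_self K ℓ⁻¹)
    rwa [inv_inv] at h1

/-- valuation of a polynomial in `ℓ` at a pole of `ℓ` -/
private lemma NBe_poly {K L : Type*} [Field K] [Field L] [Algebra K L] (V : DVal K L) {ℓ : L}
    (hℓ : ℓ ≠ 0) {e : ℕ} (hve : V.v ℓ = -(e : ℤ)) (P : Polynomial K) {N : ℕ}
    (hN : P.natDegree ≤ N) : V.ge (-((e : ℤ) * N)) (Polynomial.aeval ℓ P) := by
  rw [Polynomial.aeval_eq_sum_range]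
  refine V.ge_sum _ _ fun i hi => ?_
  rw [Finset.mem_range] at hi
  rw [Algebra.smul_def]
  have h1 := V.ge_mul (V.ge_const (P.coeff i)) (V.ge_self (ℓ ^ i))
  refine V.ge_mono ?_ h1
  rw [V.v_pow ℓ hℓ, hve]
  have h2 : (i : ℤ) ≤ (N : ℤ) := by
    have : i ≤ N := by omega
    exact_mod_cast this
  have h3 : (0 : ℤ) ≤ (e : ℤ) := Int.natCast_nonneg e
  nlinarith

private lemma NBe_deg {K L : Type*} [Field K] [Field L] [Algebra K L] (V : DVal K L) {ℓ : L}
    (hℓ : ℓ ≠ 0) {e : ℕ} (hve : V.v ℓ = -(e : ℤ)) {n : ℕ} {y : L} (hy : IsDegA K ℓ n y) :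
    V.ge (-((e : ℤ) * n)) y := by
  by_contra hcon
  have hy0 : y ≠ 0 := fun h => hcon (Or.inl h)
  have hv : V.v y < -((e : ℤ) * n) := by
    by_contra h
    exact hcon (Or.inr (not_lt.mp h))
  obtain ⟨r, a, hr, ha, he⟩ := hy
  refine (V.add_eq (pow_ne_zero r hy0) ?_).1 he
  refine V.ge_sum _ _ fun m hm => ?_
  rw [Finset.mem_Icc] at hm
  have h1 := NBe_poly V hℓ hve (a m) (ha m)
  have h2 := V.ge_mul h1 (V.ge_self (y ^ (r - m)))
  refine V.ge_mono ?_ h2
  rw [V.v_pow y hy0, V.v_pow y hy0]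
  have h3 : ((r - m : ℕ) : ℤ) = (r : ℤ) - m := by
    rw [Nat.cast_sub hm.2]
  have h4 : (1 : ℤ) ≤ (m : ℤ) := by exact_mod_cast hm.1
  rw [h3]
  push_cast
  nlinarith

private lemma NBe_nabs_zero {R : Type*} [CommRing R] (d : Dv R) (g : R) (κ n : ℕ) :
    nabs d g κ n 0 = 0 := by
  induction n with
  | zero =>
    show Polynomial.C (0 : R) = 0
    exact Polynomial.C_0
  | succ n ih =>
    show nab d g (-(κ : ℤ) + 2 * n) (nabs d g κ n 0) = 0
    rw [ih]
    unfold nab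
    rw [Dv.map_zero, mul_zero, add_zero]

theorem const_of_both {K L : Type} [Field K] [CharZero K] [IsAlgClosed K] [Field L]
    [Algebra K L] (ℓ : L) (hℓ : ℓ ≠ 0)
    (htr : ∀ P : Polynomial K, P ≠ 0 → Polynomial.aeval ℓ P ≠ 0) (y : L) (h1 : IntOver K ℓ y)
    (h2 : IntOver K ℓ⁻¹ y) : ∃ c : K, y = algebraMap K L c := by
  have key : y ∈ (⨅ V : {V : ValuationSubring L // (Set.range (algebraMap K L)) ⊆ V.toSubring},
      V.1.toSubring) := by
    rw [Subring.mem_iInf]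
    rintro ⟨W, hW⟩
    have hW' : ∀ c : K, algebraMap K L c ∈ W := fun c => hW ⟨c, rfl⟩
    rcases W.mem_or_inv_mem ℓ with h | h
    · exact NBe_val W hW' h h1
    · exact NBe_val W hW' h h2
  rw [iInf_valuationSubring_superset] at key
  have hcl : ∀ z ∈ Subring.closure (Set.range (algebraMap K L)), ∃ c : K, algebraMap K L c = z := by
    intro z hz
    have h3 : Subring.closure (Set.range (algebraMap K L)) ≤ (algebraMap K L).range := by
      rw [Subring.closure_le]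
      rintro _ ⟨c, rfl⟩
      exact ⟨c, rfl⟩
    exact h3 hz
  have hint : IsIntegral K y := by
    have h3 : IsIntegral (Subring.closure (Set.range (algebraMap K L))) y := key
    obtain ⟨p, hp, he⟩ := h3
    have h4 : ∀ c : K, algebraMap K L c ∈ Subring.closure (Set.range (algebraMap K L)) :=
      fun c => Subring.subset_closure ⟨c, rfl⟩
    have hsurj : Function.Surjective (RingHom.codRestrict (algebraMap K L)
        (Subring.closure (Set.range (algebraMap K L))) h4) := by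
      rintro ⟨z, hz⟩
      obtain ⟨c, hc⟩ := hcl z hz
      exact ⟨c, Subtype.ext hc⟩
    obtain ⟨q, hq1, hq2, hq3⟩ := Polynomial.lifts_and_natDegree_eq_and_monic
      ((Polynomial.lifts_iff_coeff_lifts p).2 fun n => hsurj _) hp
    refine ⟨q, hq3, ?_⟩
    have h5 : algebraMap K L = (algebraMap (Subring.closure (Set.range (algebraMap K L))) L).comp
        (RingHom.codRestrict (algebraMap K L)
        (Subring.closure (Set.range (algebraMap K L))) h4) := by
      ext c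
      rfl
    rw [h5, ← Polynomial.eval₂_map, hq1]
    exact he
  have hdeg : (minpoly K y).degree = 1 :=
    IsAlgClosed.degree_eq_one_of_irreducible K (minpoly.irreducible hint)
  obtain ⟨c, hc⟩ := minpoly.mem_range_of_degree_eq_one K y hdeg
  exact ⟨c, hc.symm⟩

theorem noNA {K L : Type} [Field K] [CharZero K] [IsAlgClosed K] [Field L] [Algebra K L]
    {d : Dv L} {ℓ : L} {R : Subalgebra K L} (h : NAset K L d ℓ R) (κ : ℕ) (hκ : 0 < κ)
    (a ψ : L) (hψ : IntOver K ℓ ψ) (hψk : IsDegA K ℓ (κ + 2) (ψ ^ 2))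
    (hb : nabs d (ℓ * (1 - ℓ) / 4) κ (κ + 1) a = Polynomial.C ψ) : ψ = 0 := by
  by_cases ha : a = 0
  · rw [ha, NBe_nabs_zero] at hb
    exact (Polynomial.C_eq_zero.1 hb.symm)
  exfalso
  have hℓ0 : ℓ ≠ 0 := by
    have := h.tr Polynomial.X Polynomial.X_ne_zero
    rwa [Polynomial.aeval_X] at this
  have htr' := NBe_transc h.tr
  have hone : ∀ V : DVal K L, V.ge 0 (1 : L) := by
    intro V
    have h1 := V.ge_const (1 : K)
    rwa [map_one] at h1
  have hquarter : ∀ (V : DVal K L) (j : ℤ) (x : L), V.ge j x → V.ge j (x / 4) := by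
    intro V j x hx
    have h1 := V.ge_mul hx (V.ge_const ((4 : K)⁻¹))
    rw [add_zero, map_inv₀, map_ofNat] at h1
    rwa [div_eq_mul_inv]
  -- `a` is integral over `K[ℓ]`
  have haint : IntOver K ℓ a := by
    obtain ⟨I, V, hV1, hV2, hV3⟩ := places ℓ h.tr h.fin
    apply hV2
    intro i
    have hℓi : (V i).ge 0 ℓ := hV1 i ℓ (NBe_self ℓ)
    rcases local_fin h (V i) (hV1 i) (hV3 i) with ⟨c1, c2⟩ | ⟨c0, c1, c2⟩
    · refine pole1 (V i) d (ℓ * (1 - ℓ) / 4) ?_ c1 c2 κ a ψ (hV1 i ψ hψ) hb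
      apply hquarter
      have h1 := (V i).ge_mul hℓi ((V i).ge_sub (hone (V i)) hℓi)
      rwa [add_zero] at h1
    · exact pole2 (V i) d (ℓ * (1 - ℓ) / 4) (hquarter _ _ _ c0) c1 c2 κ a ψ (hV1 i ψ hψ) hb
  have hy1 : IntOver K ℓ (ℓ * (a * a)) := NBe_mul (NBe_self ℓ) (NBe_mul haint haint)
  -- `ℓ a²` is integral over `K[1/ℓ]`
  have hy2 : IntOver K ℓ⁻¹ (ℓ * (a * a)) := by
    obtain ⟨I, V, hV1, hV2, hV3⟩ := places ℓ⁻¹ htr' (by rw [NBe_adjoin]; exact h.fin)
    apply hV2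
    intro i
    have hinv : (V i).ge 0 ℓ⁻¹ := hV1 i _ (NBe_self _)
    have hvle : (V i).v ℓ ≤ 0 := by
      rcases hinv with h1 | h1
      · exact absurd h1 (inv_ne_zero hℓ0)
      · rw [(V i).v_inv ℓ hℓ0] at h1
        omega
    rcases hvle.lt_or_eq with hlt | heq
    · obtain ⟨e, he, hve⟩ : ∃ e : ℕ, 0 < e ∧ (V i).v ℓ = -(e : ℤ) :=
        ⟨(-(V i).v ℓ).toNat, by omega, by omega⟩
      have hloc := local_inf h (V i) e he hve (hV3 i)
      have hψ2 : (V i).ge (-((e : ℤ) * (κ + 2))) (ψ ^ 2) := by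
        have h1 := NBe_deg (V i) hℓ0 hve hψk
        push_cast at h1
        exact h1
      have hord := order_inf (V i) d ℓ hℓ0 h.dl e he hve hloc κ a ψ ha hψ2 hb
      right
      rw [(V i).mul _ _ hℓ0 (mul_ne_zero ha ha), (V i).mul _ _ ha ha, hve]
      have h1 : (1 : ℤ) ≤ (κ : ℤ) := by exact_mod_cast hκ
      have h2 : (0 : ℤ) < (e : ℤ) := by exact_mod_cast he
      nlinarith
    · have hℓi : (V i).ge 0 ℓ := Or.inr heq.ge
      have hai : (V i).ge 0 a := DVal.of_intOver (V i) hℓi haint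
      have h1 := (V i).ge_mul hℓi ((V i).ge_mul hai hai)
      rwa [add_zero, add_zero] at h1
  obtain ⟨c, hc⟩ := const_of_both ℓ hℓ0 h.tr _ hy1 hy2
  have hc0 : algebraMap K L c ≠ 0 := by
    rw [← hc]
    exact mul_ne_zero hℓ0 (mul_ne_zero ha ha)
  have hinvint : IntOver K ℓ ℓ⁻¹ := by
    have h1 : ℓ⁻¹ = algebraMap K L c⁻¹ * (a * a) := by
      rw [map_inv₀, ← hc]
      field_simp
    rw [h1]
    exact NBe_mul (NBe_const ℓ _) (NBe_mul haint haint)
  obtain ⟨c', hc'⟩ := const_of_both ℓ hℓ0 h.tr _ hinvint (NBe_self _)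
  refine htr' (Polynomial.X - Polynomial.C c') (Polynomial.X_sub_C_ne_zero c') ?_
  rw [map_sub, Polynomial.aeval_X, Polynomial.aeval_C, hc', sub_self]

end Pool.Agent.H85.OU
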