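import Pool.Agent.H85.OU.Bol
import Pool.Agent.H85.OT.Zdl2

/-!
# Row NSL (project OU): the two linear equations over a differential field

`L` a field of characteristic `0` with derivation `d`, `g ∈ L`, `∂ = dext d (C g - X²)` on `L[X]`.
`DLp d g`: every nonzero `P ∈ L[X]` with `P ∣ ∂P` is constant.
* `nsL1`: assume `DLp`, `κ ≥ 1` and that `nabs κ (κ+1) a ≠ C ((-1)^κ κ! ψ)` for all `a ∈ L`.  Then no `p, q`, `q ≠ 0` satisfy
  `q ∂p - p ∂q = ψ q² - κ X p q`.  Proof: `L[X]` is a UFD; divide by the gcd, so `p, q` are relatively prime; `q ∣ p ∂q` so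
  `q ∣ ∂q`, `q` is a nonzero constant by `DLp`; dividing, `∂P + κ X P = C ψ` for `P = p/q`... careful: with `q = C c`,
  `q ∂p - p ∂q = c ∂p - (dc) p`; the equation says `∂(p/q) = ψ - κ X (p/q)` for `P = C c⁻¹ * p` (`∂(C c⁻¹ p)` by Leibniz,
  `d(c⁻¹) = - dc/c²`).  So `nab κ P = C ψ`; `bol_unique` contradicts the hypothesis.
* `nsL2`: on `L[X][Y]`, `∂2 = dext ∂ (C (C ψ1) + C (-κX) * Y)`.  Assume `DLp`, `NS ∂ (C (s ψ1)) (-κX)` for all natural numbers... precisely for
  `s = -e`, `e ≥ 1`, and `NS ∂ (C (ψ2 - c ψ1)) (-κX)` for every `c ∈ L` with `d c = 0` (includes `c = 0`).  Then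
  `NS ∂2 (C (C ψ2)) (C (-κX))`.  Proof: `L[X][Y]` is a UFD; WLOG `p, q` relatively prime, `q ∣ ∂2 q`; `dl2` gives `q = C q1`, then
  `q1 ∣ ∂q1` (`dext_C`), `DLp`: `q1 = C c0`, `c0 ≠ 0`.  Replace `p` by `p/c0`: `∂2 p = ψ2 - κ X p`.  Let `e = natDegree_Y p`, `p = ∑ p_j Y^j`
  (`p ≠ 0`: otherwise `ψ2 = 0`, and then `p = 0, q = 1` contradicts the hypothesis for `c = 0`).  By `coeff_dext_lin`
  `∂p_j + (j+1) ψ1 p_(j+1) - jκX p_j = -κX p_j + [j=0] ψ2`.  If `e ≥ 1`, `j = e`: `∂p_e = (e-1)κX p_e`; with `n = natDegree_X p_e` the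
  coefficient of `X^(n+1)` gives `-n = (e-1)κ`, so `n = 0, e = 1` and `p_1 = C c`, `d c = 0`.  `j = 0`: `∂p_0 = (ψ2 - c ψ1) - κX p_0`:
  contradicts `NS ∂ (C (ψ2 - cψ1)) (-κX)` with `q = 1`.  If `e = 0`: the same with `c = 0`.
-/

open PowerSeries
open Pool.Agent.H85.OT

namespace Pool.Agent.H85.OU

/-- every Darboux polynomial of the Riccati equation is constant -/
def DLp {L : Type*} [Field L] (d : Dv L) (g : L) : Prop :=
  ∀ P : Polynomial L, P ≠ 0 → P ∣ dext d (Polynomial.C g - Polynomial.X ^ 2) P → P.natDegree = 0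

/-- `-κ X` -/
noncomputable def bX {L : Type*} [CommRing L] (κ : ℕ) : Polynomial L :=
  -((κ : Polynomial L) * Polynomial.X)

theorem NSL_red {R : Type*} [CommRing R] [IsDomain R] [UniqueFactorizationMonoid R] (d : Dv R)
    (α β p q : R) (hq : q ≠ 0) (h : q * d p - p * d q = α * q ^ 2 + β * (p * q)) :
    ∃ p' q' : R, q' ≠ 0 ∧ q' * d p' - p' * d q' = α * q' ^ 2 + β * (p' * q') ∧ q' ∣ d q' := by
  obtain ⟨p', q', c, hrel, hp', hq'⟩ := UniqueFactorizationMonoid.exists_reduced_factors' p q hq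
  have hc : c ≠ 0 := by
    rintro rfl
    rw [zero_mul] at hq'
    exact hq hq'.symm
  have hq0 : q' ≠ 0 := by
    rintro rfl
    rw [mul_zero] at hq'
    exact hq hq'.symm
  rw [← hp', ← hq', d.map_mul, d.map_mul] at h
  have h1 : c ^ 2 * (q' * d p' - p' * d q') = c ^ 2 * (α * q' ^ 2 + β * (p' * q')) := by
    linear_combination h
  have h2 := mul_left_cancel₀ (pow_ne_zero 2 hc) h1
  refine ⟨p', q', hq0, h2, ?_⟩
  have h3 : q' ∣ p' * d q' := ⟨d p' - α * q' - β * p', by linear_combination -h2⟩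
  exact hrel.symm.dvd_of_dvd_mul_left h3

theorem NSL_unit {S : Type*} [CommRing S] (D : Dv S) (u v p α β : S) (huv : u * v = 1)
    (h : u * D p - p * D u = α * u ^ 2 + β * (p * u)) : D (v * p) = α + β * (v * p) := by
  have h1 : D u * v + u * D v = 0 := by
    rw [← D.map_mul, huv, D.map_one]
  rw [D.map_mul]
  linear_combination v ^ 2 * h + v * p * h1 - (p * D v + v * D p - α * (1 + u * v) - β * v * p) * huv

theorem NSL_top {L : Type*} [Field L] (d : Dv L) (g : L) (Q : Polynomial L) (n : ℕ)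
    (hn : Q.natDegree ≤ n) :
    (dext d (Polynomial.C g - Polynomial.X ^ 2) Q).coeff (n + 1) = -(n : L) * Q.coeff n := by
  have h0 : ∀ m, n < m → Q.coeff m = 0 := fun m hm =>
    Polynomial.coeff_eq_zero_of_natDegree_lt (lt_of_le_of_lt hn hm)
  rw [coeff_dext, sub_mul, Polynomial.coeff_sub, Polynomial.coeff_C_mul,
    Polynomial.coeff_derivative, h0 (n + 1) (by omega), h0 (n + 1 + 1) (by omega), d.map_zero,
    Polynomial.coeff_X_pow_mul']
  rcases n with _ | n
  · simp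
  · rw [if_pos (by omega), show n + 1 + 1 - 2 = n by omega, Polynomial.coeff_derivative]
    push_cast
    ring

theorem nsL1 {L : Type*} [Field L] [CharZero L] (d : Dv L) (g : L) (hDL : DLp d g) (κ : ℕ)
    (hκ : 0 < κ) (ψ : L)
    (hNA : ∀ a : L, nabs d g κ (κ + 1) a ≠ Polynomial.C ((-1) ^ κ * (κ.factorial : L) * ψ)) :
    NS (dext d (Polynomial.C g - Polynomial.X ^ 2)) (Polynomial.C ψ) (bX κ) := by
  intro p q hq h
  obtain ⟨p', q', hq', h', hdvd⟩ := NSL_red _ _ _ p q hq h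
  have hdeg := hDL q' hq' hdvd
  obtain ⟨c, hc⟩ : ∃ c, q' = Polynomial.C c := ⟨q'.coeff 0, Polynomial.eq_C_of_natDegree_eq_zero hdeg⟩
  have hc0 : c ≠ 0 := by
    rintro rfl
    rw [Polynomial.C_0] at hc
    exact hq' hc
  subst hc
  have h2 := NSL_unit _ (Polynomial.C c) (Polynomial.C c⁻¹) p' _ _
    (by rw [← Polynomial.C_mul, mul_inv_cancel₀ hc0, Polynomial.C_1]) h'
  have h3 : nab d g (κ : ℤ) (Polynomial.C c⁻¹ * p') = Polynomial.C ψ := by
    unfold nab
    rw [h2]
    unfold bX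
    rw [Int.cast_natCast]
    ring
  obtain ⟨a, -, ha⟩ := bol_unique d g κ hκ _ ψ h3
  exact hNA a ha

theorem nsL2 {L : Type*} [Field L] [CharZero L] (d : Dv L) (g : L) (hDL : DLp d g) (κ : ℕ)
    (hκ : 0 < κ) (ψ1 ψ2 : L)
    (h1 : ∀ e : ℕ, 1 ≤ e →
      NS (dext d (Polynomial.C g - Polynomial.X ^ 2)) (Polynomial.C (-(e : L) * ψ1)) (bX κ))
    (h2 : ∀ c : L, d c = 0 →
      NS (dext d (Polynomial.C g - Polynomial.X ^ 2)) (Polynomial.C (ψ2 - c * ψ1)) (bX κ)) :
    NS (dext (dext d (Polynomial.C g - Polynomial.X ^ 2))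
        (Polynomial.C (Polynomial.C ψ1) + Polynomial.C (bX κ) * Polynomial.X))
      (Polynomial.C (Polynomial.C ψ2)) (Polynomial.C (bX κ)) := by
  intro p q hq h
  obtain ⟨p', q', hq', h', hdvd⟩ := NSL_red _ _ _ p q hq h
  have hdeg := dl2 (dext d (Polynomial.C g - Polynomial.X ^ 2)) (Polynomial.C ψ1) (bX κ) (by
    intro e he
    have := h1 e he
    rwa [neg_mul, Polynomial.C_neg, Polynomial.C_mul, Polynomial.C_eq_natCast, ← neg_mul] at this)
    q' hq' hdvd
  obtain ⟨q1, hq1⟩ : ∃ c, q' = Polynomial.C c :=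
    ⟨q'.coeff 0, Polynomial.eq_C_of_natDegree_eq_zero hdeg⟩
  subst hq1
  have hq10 : q1 ≠ 0 := by
    rintro rfl
    exact hq' Polynomial.C_0
  have hdvd1 : q1 ∣ dext d (Polynomial.C g - Polynomial.X ^ 2) q1 := by
    rw [dext_C, Polynomial.C_dvd_iff_dvd_coeff] at hdvd
    have := hdvd 0
    rwa [Polynomial.coeff_C_zero] at this
  obtain ⟨c0, hc0⟩ : ∃ c, q1 = Polynomial.C c :=
    ⟨q1.coeff 0, Polynomial.eq_C_of_natDegree_eq_zero (hDL q1 hq10 hdvd1)⟩
  subst hc0
  have hc00 : c0 ≠ 0 := by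
    rintro rfl
    exact hq10 Polynomial.C_0
  have h2' := NSL_unit _ (Polynomial.C (Polynomial.C c0)) (Polynomial.C (Polynomial.C c0⁻¹)) p' _ _
    (by rw [← Polynomial.C_mul, ← Polynomial.C_mul, mul_inv_cancel₀ hc00, Polynomial.C_1,
      Polynomial.C_1]) h'
  generalize Polynomial.C (Polynomial.C c0⁻¹) * p' = P at h2'
  have hco : ∀ j : ℕ, dext d (Polynomial.C g - Polynomial.X ^ 2) (P.coeff j) +
      ((j : Polynomial L) + 1) * Polynomial.C ψ1 * P.coeff (j + 1) +
      (j : Polynomial L) * bX κ * P.coeff j =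
      (Polynomial.C (Polynomial.C ψ2) : Polynomial (Polynomial L)).coeff j + bX κ * P.coeff j := by
    intro j
    have := congrArg (fun Q => Polynomial.coeff Q j) h2'
    simp only [coeff_dext_lin, Polynomial.coeff_add, Polynomial.coeff_C_mul] at this
    exact this
  have hend : ∀ c : L, d c = 0 → P.coeff 1 = Polynomial.C c → False := by
    intro c hdc hP1
    have h3 := hco 0
    rw [hP1, Polynomial.coeff_C_zero] at h3
    refine h2 c hdc (P.coeff 0) 1 one_ne_zero ?_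
    rw [Dv.map_one, Polynomial.C_sub, Polynomial.C_mul]
    push_cast at h3
    linear_combination h3
  rcases Nat.eq_zero_or_pos P.natDegree with he | he
  · refine hend 0 d.map_zero ?_
    rw [Polynomial.coeff_eq_zero_of_natDegree_lt (by omega), Polynomial.C_0]
  · obtain ⟨e, hee⟩ : ∃ e, P.natDegree = e + 1 := ⟨P.natDegree - 1, by omega⟩
    have hPe : P.coeff (e + 1) ≠ 0 := by
      rw [← hee]
      apply Polynomial.leadingCoeff_ne_zero.2
      rintro rfl
      rw [Polynomial.natDegree_zero] at he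
      omega
    have h3 := hco (e + 1)
    rw [Polynomial.coeff_eq_zero_of_natDegree_lt (n := e + 1 + 1) (by omega),
      Polynomial.coeff_C_succ] at h3
    have h4 : dext d (Polynomial.C g - Polynomial.X ^ 2) (P.coeff (e + 1)) =
        Polynomial.C ((e : L) * κ) * (Polynomial.X * P.coeff (e + 1)) := by
      unfold bX at h3
      rw [Polynomial.C_mul, Polynomial.C_eq_natCast, Polynomial.C_eq_natCast]
      push_cast at h3
      linear_combination h3
    set s := (P.coeff (e + 1)).natDegree with hs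
    have h5 := congrArg (fun Q => Polynomial.coeff Q (s + 1)) h4
    simp only [Polynomial.coeff_C_mul, Polynomial.coeff_X_mul] at h5
    rw [NSL_top d g _ s le_rfl] at h5
    have hlead : (P.coeff (e + 1)).coeff s ≠ 0 := Polynomial.leadingCoeff_ne_zero.2 hPe
    have h6 : ((s : L) + (e : L) * κ) * (P.coeff (e + 1)).coeff s = 0 := by
      linear_combination -h5
    have h7 : (s : L) + (e : L) * κ = 0 := (mul_eq_zero.1 h6).resolve_right hlead
    have h8 : s + e * κ = 0 := by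
      have : (((s + e * κ : ℕ)) : L) = 0 := by push_cast; exact h7
      exact_mod_cast this
    have hs0 : s = 0 := by omega
    have he0 : e = 0 := by
      have h9 : e * κ = 0 := by omega
      rcases Nat.mul_eq_zero.1 h9 with h | h
      · exact h
      · omega
    subst he0
    obtain ⟨c, hc⟩ : ∃ c, P.coeff (0 + 1) = Polynomial.C c :=
      ⟨(P.coeff (0 + 1)).coeff 0, Polynomial.eq_C_of_natDegree_eq_zero (by rw [← hs, hs0])⟩
    refine hend c ?_ hc
    rw [hc, dext_C, Nat.cast_zero, zero_mul, Polynomial.C_0, zero_mul] at h4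
    exact Polynomial.C_eq_zero.1 h4

end Pool.Agent.H85.OU
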