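import Pool.Agent.H85.OU.Bol

/-!
# Definitions for the valuation theoretic part of the project OU

* `DVal K L`: a discrete valuation of the field `L`, trivial on the subfield `K`, with residue field `K`; integer valued with a
  junk value at `0`.  `V.ge j x` means `v(x) ≥ j` (true for `x = 0`).
* `IntOver K s x`: `x` is integral over `K[s]`.
* `IsDegA K s n y`: `y` is integral over `K[s]` with poles of order `≤ n` at infinity.
* `NAset K L d ℓ R`: `L` is a finite extension of `K(ℓ)` with derivation `d`, `dℓ = ℓ(1-ℓ)`, `R` a `d`-stable subalgebra, integral over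
  `K[ℓ]`, with fraction field `L`.
-/

open Pool.Agent.H85.OT

namespace Pool.Agent.H85.OU

/-- discrete valuation with residue field `K` (junk value at `0`) -/
structure DVal (K L : Type*) [Field K] [Field L] [Algebra K L] where
  v : L → ℤ
  mul : ∀ x y, x ≠ 0 → y ≠ 0 → v (x * y) = v x + v y
  add : ∀ x y, x ≠ 0 → y ≠ 0 → x + y ≠ 0 → min (v x) (v y) ≤ v (x + y)
  const : ∀ c : K, c ≠ 0 → v (algebraMap K L c) = 0
  res : ∀ x, x ≠ 0 → v x = 0 → ∃ c : K, x = algebraMap K L c ∨ 0 < v (x - algebraMap K L c)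
  unif : ∃ t, t ≠ 0 ∧ v t = 1

/-- `v(x) ≥ j` (true for `x = 0`) -/
def DVal.ge {K L : Type*} [Field K] [Field L] [Algebra K L] (V : DVal K L) (j : ℤ) (x : L) : Prop :=
  x = 0 ∨ j ≤ V.v x

/-- `x` is integral over `K[s]` -/
def IntOver (K : Type*) {S : Type*} [Field K] [CommRing S] [Algebra K S] (s x : S) : Prop :=
  ((Polynomial.aeval s : Polynomial K →ₐ[K] S) : Polynomial K →+* S).IsIntegralElem x

/-- `y` is integral over `K[s]` with poles of order `≤ n` at infinity -/
def IsDegA (K : Type*) {S : Type*} [Field K] [CommRing S] [Algebra K S] (s : S) (n : ℕ) (y : S) :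
    Prop :=
  ∃ (r : ℕ) (a : ℕ → Polynomial K), 1 ≤ r ∧ (∀ m, (a m).natDegree ≤ n * m) ∧
    y ^ r + ∑ m ∈ Finset.Icc 1 r, Polynomial.aeval s (a m) * y ^ (r - m) = 0

/-- differential function field with an integral differential subring -/
structure NAset (K L : Type) [Field K] [Field L] [Algebra K L] (d : Dv L) (ℓ : L)
    (R : Subalgebra K L) : Prop where
  dK : ∀ c : K, d (algebraMap K L c) = 0
  dl : d ℓ = ℓ * (1 - ℓ)
  tr : ∀ P : Polynomial K, P ≠ 0 → Polynomial.aeval ℓ P ≠ 0
  fin : FiniteDimensional (IntermediateField.adjoin K {ℓ}) L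
  mem : ℓ ∈ R
  stab : ∀ b ∈ R, d b ∈ R
  int : ∀ b ∈ R, IntOver K ℓ b
  frac : ∀ x : L, ∃ b ∈ R, ∃ c ∈ R, c ≠ 0 ∧ x = b / c

end Pool.Agent.H85.OU
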