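import Pool.Agent.H85.OU.MPg
import Pool.Agent.H85.OU.UV

/-!
# The algebra of a level datum, with its derivation (project OU)
-/

open PowerSeries
open Pool.Agent.H85.OT

namespace Pool.Agent.H85.OU

variable {K : Type*} [Field K] {r : ℕ} {e : Fin r → K⟦X⟧}

theorem LD.bound1 (h : LD K r e) : ∃ c, (1 : K⟦X⟧) ∈ SPn K e c ∧
    (∀ l l', e l * e l' ∈ SPn K e c) ∧ (∀ l, OT.del K (e l) ∈ SPn K e c) := by
  obtain ⟨c0, hc0⟩ := MPg_SP' h.one
  choose c1 hc1 using fun l l' => MPg_SP' (h.mul l l')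
  choose c2 hc2 using fun l => MPg_SP' (h.del l)
  refine ⟨c0 + ∑ l, ∑ l', c1 l l' + ∑ l, c2 l, MPg_mono (by omega) hc0, fun l l' => ?_, fun l => ?_⟩
  · refine MPg_mono ?_ (hc1 l l')
    have a1 : c1 l l' ≤ ∑ l', c1 l l' :=
      Finset.single_le_sum (f := fun l' => c1 l l') (fun _ _ => Nat.zero_le _) (Finset.mem_univ l')
    have a2 : ∑ l', c1 l l' ≤ ∑ l, ∑ l', c1 l l' :=
      Finset.single_le_sum (f := fun l => ∑ l', c1 l l') (fun _ _ => Nat.zero_le _)
        (Finset.mem_univ l)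
    omega
  · refine MPg_mono ?_ (hc2 l)
    have a1 : c2 l ≤ ∑ l, c2 l :=
      Finset.single_le_sum (f := fun l => c2 l) (fun _ _ => Nat.zero_le _) (Finset.mem_univ l)
    omega

theorem LD.del_mem (h : LD K r e) (h2 : (2 : K) ≠ 0) {y : K⟦X⟧} (hy : y ∈ SP K e) :
    OT.del K y ∈ SP K e := by
  obtain ⟨c, -, -, hc⟩ := h.bound1
  exact MPg_SP_del h2 hc hy

/-- the subalgebra `SP K e` -/
def LD.alg (h : LD K r e) : Subalgebra K K⟦X⟧ where
  carrier := SP K e
  mul_mem' := fun ha hb => SP_mul h.mul ha hb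
  add_mem' := fun ha hb => SP_add ha hb
  algebraMap_mem' := fun c => by
    have h1 := SP_evl_mul (Polynomial.C c) h.one
    rw [mul_one, evl, Polynomial.aeval_C] at h1
    exact h1

theorem LD.mem_alg (h : LD K r e) {y : K⟦X⟧} : y ∈ h.alg ↔ y ∈ SP K e := Iff.rfl

theorem LD.evl_mem (h : LD K r e) (P : Polynomial K) : evl K P ∈ h.alg := by
  have h1 := SP_evl_mul P h.one
  rwa [mul_one] at h1

theorem LD.lam_mem (h : LD K r e) : lam K ∈ h.alg := by
  have h1 := h.evl_mem Polynomial.X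
  rwa [evl, Polynomial.aeval_X] at h1

/-- the derivation `δ` of the algebra -/
noncomputable def LD.dA [CharZero K] (h : LD K r e) : Dv h.alg where
  toFun x := ⟨OT.del K (x : K⟦X⟧), h.del_mem two_ne_zero x.2⟩
  add' a b := by
    apply Subtype.ext
    exact (OT.del K).map_add _ _
  mul' a b := by
    apply Subtype.ext
    exact (OT.del K).map_mul _ _

theorem LD.coe_dA [CharZero K] (h : LD K r e) (x : h.alg) :
    ((h.dA x : h.alg) : K⟦X⟧) = OT.del K (x : K⟦X⟧) := rfl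

end Pool.Agent.H85.OU
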