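import Pool.Agent.H85.OU.UDef

/-!
# Definitions for the auxiliary function, all levels (project OU)

* `GGl f κ L n (i,j,e) = U^(2n - 2e + κ(2L-i-j)) (U² - V²)^e F1^i F2^j` (`i, j < L`, `e ≤ n`);
* `PhiL f κ L n t = ∑ t_s GGl_s`;
* `SSl S r c3 L n p0 T`: primes `p < T`, `p > p0`, `S p`, `r (n + 2 L c3 p) < T`.
-/

open PowerSeries
open Pool.Agent.H85.OT

namespace Pool.Agent.H85.OU

/-- the functions `U^(2n - 2e + κ(2L-i-j)) (U² - V²)^e F1^i F2^j` -/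
noncomputable def GGl (f : ℤ⟦X⟧) (κ L n : ℕ) (s : Fin L × Fin L × Fin (n + 1)) : ℚ⟦X⟧ :=
  U ℚ ^ (2 * n - 2 * (s.2.2 : ℕ) + κ * (2 * L - s.1 - s.2.1)) *
    (U ℚ ^ 2 - V ℚ ^ 2) ^ (s.2.2 : ℕ) * F1 f ^ (s.1 : ℕ) * F2 f ^ (s.2.1 : ℕ)

/-- integer combinations of the `GGl` -/
noncomputable def PhiL (f : ℤ⟦X⟧) (κ L n : ℕ) (t : Fin L × Fin L × Fin (n + 1) → ℤ) : ℚ⟦X⟧ :=
  ∑ s, PowerSeries.C (t s : ℚ) * GGl f κ L n s

open Classical in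
/-- primes `p < T` with `p0 < p`, `S p`, `r (n + 2 L c3 p) < T` -/
noncomputable def SSl (S : ℕ → Prop) (r c3 L n p0 T : ℕ) : Finset ℕ :=
  (Finset.range T).filter
    (fun p => p.Prime ∧ p0 < p ∧ S p ∧ r * (n + 2 * L * c3 * p) < T)

end Pool.Agent.H85.OU
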