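import Pool.Agent.H85.OT.ZDef
import Pool.Agent.H85.OT.DefP
import Pool.Agent.H85.OT.CDef

/-!
# Definitions for the project OU (all levels)

* `evl K P = P(λ)`, `λ = lam K = 1 - x²`;
* `IsDeg K n y` : `y` satisfies a monic equation `y^r + ∑_{m=1}^r a_m(λ) y^(r-m) = 0` with `deg a_m ≤ n m`
  (`y` is integral over `K[λ]` with poles of order `≤ n` at infinity);
* `SP K e` : the `K[λ]`-span of the family `e`;
* `LD K r e` (level datum): the `K[λ]`-span of `e` is a subring of `K⟦X⟧` stable under `δ = del K`;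
* `LForm K k f` : `f U^(-k)`, `f(q²) U^(-k)` lie in a common level datum and are holomorphic at all cusps
  (`IsDeg K k` of their squares).
-/

open PowerSeries
open Pool.Agent.H85.OT

namespace Pool.Agent.H85.OU

/-- `P ↦ P(λ)` -/
noncomputable abbrev evl (K : Type*) [Field K] : Polynomial K →ₐ[K] K⟦X⟧ :=
  Polynomial.aeval (lam K)

/-- integral over `K[λ]` with poles of order `≤ n` at infinity -/
def IsDeg (K : Type*) [Field K] (n : ℕ) (y : K⟦X⟧) : Prop :=
  ∃ (r : ℕ) (a : ℕ → Polynomial K), 1 ≤ r ∧ (∀ m, (a m).natDegree ≤ n * m) ∧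
    y ^ r + ∑ m ∈ Finset.Icc 1 r, evl K (a m) * y ^ (r - m) = 0

/-- the `K[λ]`-span of a finite family -/
def SP (K : Type*) [Field K] {r : ℕ} (e : Fin r → K⟦X⟧) : Set K⟦X⟧ :=
  {y | ∃ p : Fin r → Polynomial K, y = ∑ l, evl K (p l) * e l}

/-- elements of the span with coefficients of degree `≤ n` -/
def SPn (K : Type*) [Field K] {r : ℕ} (e : Fin r → K⟦X⟧) (n : ℕ) : Set K⟦X⟧ :=
  {y | ∃ p : Fin r → Polynomial K, (∀ l, (p l).natDegree ≤ n) ∧ y = ∑ l, evl K (p l) * e l}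

/-- level datum: the span of `e` is a `K[λ]`-algebra stable under `δ` -/
structure LD (K : Type*) [Field K] (r : ℕ) (e : Fin r → K⟦X⟧) : Prop where
  one : (1 : K⟦X⟧) ∈ SP K e
  mul : ∀ l l', e l * e l' ∈ SP K e
  del : ∀ l, del K (e l) ∈ SP K e

/-- `f` is a modular form of weight `k` (of some level), in algebraic terms -/
def LForm (K : Type*) [Field K] (k : ℕ) (f : K⟦X⟧) : Prop :=
  ∃ (r : ℕ) (e : Fin r → K⟦X⟧), LD K r e ∧ f * (U K)⁻¹ ^ k ∈ SP K e ∧
    dbl K f * (U K)⁻¹ ^ k ∈ SP K e ∧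
    IsDeg K k ((f * (U K)⁻¹ ^ k) ^ 2) ∧ IsDeg K k ((dbl K f * (U K)⁻¹ ^ k) ^ 2)

/-- reduction datum mod `p`: a family over a field whose span is an algebra stable under `δ`, with degree
bound `c` -/
structure RD (k : Type*) [Field k] (r c : ℕ) (e : Fin r → k⟦X⟧) : Prop where
  one : (1 : k⟦X⟧) ∈ SP k e
  mul : ∀ l l', e l * e l' ∈ SP k e
  del : ∀ l, del k (e l) ∈ SPn k e c
  deg : ∀ l, IsDeg k c (e l)

end Pool.Agent.H85.OU
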