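import Pool.Agent.H85.OT.We
import Pool.Agent.H85.OU.LFc
import Mathlib.NumberTheory.ModularForms.Derivative

/-!
# Definitions for the modular part of the project OU

* `IsMF Γ j h`: `h : ℍ → ℂ` is holomorphic, invariant under `Γ ≤ SL₂(ℤ)` in weight `j`, and bounded at all cusps
  (all slash translates by `SL₂(ℤ)` are bounded at `i∞`): a modular form of weight `j` for `Γ`.
* `QE h F`: `h(τ) = ∑ F_n q^n` for all `τ`, `q = exp(2π i τ)`, absolutely convergent.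
* `uu τ = θ(2τ)²`, the form of weight one with q-expansion `U`.
-/

open PowerSeries UpperHalfPlane ModularForm MatrixGroups CongruenceSubgroup
open scoped Manifold

namespace Pool.Agent.H85.OU

open Pool.Agent.H85.OT

/-- modular forms of weight `j` for `Γ`, as functions -/
def IsMF (Γ : Subgroup SL(2, ℤ)) (j : ℤ) (h : ℍ → ℂ) : Prop :=
  MDifferentiable 𝓘(ℂ) 𝓘(ℂ) h ∧ (∀ γ ∈ Γ, h ∣[j] γ = h) ∧
    ∀ γ : SL(2, ℤ), IsBoundedAtImInfty (h ∣[j] γ)

/-- `h(τ) = ∑ F_n q^n`, `q = exp(2π i τ)` -/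
def QE (h : ℍ → ℂ) (F : ℂ⟦X⟧) : Prop :=
  ∀ τ : ℍ, Cv F (Complex.exp (2 * Real.pi * Complex.I * (τ : ℂ))) (h τ)

/-- `θ(2τ)²` -/
noncomputable def uu (τ : ℍ) : ℂ := jacobiTheta (2 * (τ : ℂ)) ^ 2

end Pool.Agent.H85.OU
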